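import Pool.Agent.Helper17.DF.Data.AS

set_option autoImplicit false
set_option linter.all false
set_option maxRecDepth 100000

namespace Pool.Agent.Helper17.CT

def cA_e0 : List ℕ := [405111396, 304448100]

theorem cA_okE0 : runE cA_F (okG2R cA_F cA_S cA_S2 cA_q cA_M cA_T) 21 5 cA_e0 = true := by decide +kernel

def cA_e1 : List ℕ := [605651556]

theorem cA_okE1 : runE cA_F (okG2R cA_F cA_S cA_S2 cA_q cA_M cA_T) 21 5 cA_e1 = true := by decide +kernel

def cA_e2 : List ℕ := [555319908, 160506468, 110174820]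

theorem cA_okE2 : runE cA_F (okG2R cA_F cA_S cA_S2 cA_q cA_M cA_T) 21 5 cA_e2 = true := by decide +kernel

end Pool.Agent.Helper17.CT
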