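import Pool.Agent.Helper17.DF.Data.AE1

set_option autoImplicit false
set_option linter.all false
set_option maxRecDepth 100000

namespace Pool.Agent.Helper17.CT

def cA_e3 : List ℕ := [411378276, 310714980, 405160356, 304497060]

theorem cA_okE3 : runE cA_F (okG2R cA_F cA_S cA_S2 cA_q cA_M cA_T) 21 5 cA_e3 = true := by decide +kernel

def cA_e4 : List ℕ := [605700516, 555368868]

theorem cA_okE4 : runE cA_F (okG2R cA_F cA_S cA_S2 cA_q cA_M cA_T) 21 5 cA_e4 = true := by decide +kernel

def cA_e5 : List ℕ := [157421988, 107090340, 608833956, 558502308]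

theorem cA_okE5 : runE cA_F (okG2R cA_F cA_S cA_S2 cA_q cA_M cA_T) 21 5 cA_e5 = true := by decide +kernel

end Pool.Agent.Helper17.CT
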