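import Pool.Agent.Helper17.DF.Data.AG4
import Pool.Agent.Helper17.DF.Data.AE2

set_option autoImplicit false
set_option linter.all false
set_option maxRecDepth 100000

namespace Pool.Agent.Helper17.CT

theorem cA_okG : runG4 cA_F cA_S cA_C cA_T = true :=
  runG4_of _ _ _ _ 4 _ (by decide +kernel : paths 4 = cA_p0 ++ (cA_p1 ++ (cA_p2 ++ (cA_p3 ++ (cA_p4 ++ (cA_p5 ++ (cA_p6 ++ (cA_p7 ++ (cA_p8 ++ (cA_p9 ++ (cA_p10 ++ (cA_p11 ++ (cA_p12 ++ (cA_p13 ++ (cA_p14 ++ (cA_p15 ++ (cA_p16 ++ (cA_p17 ++ (cA_p18 ++ (cA_p19 ++ (cA_p20 ++ (cA_p21 ++ (cA_p22 ++ (cA_p23 ++ (cA_p24 ++ (cA_p25))))))))))))))))))))))))))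
  (runG5_append _ _ _ _ _ _ cA_okG0 (runG5_append _ _ _ _ _ _ cA_okG1 (runG5_append _ _ _ _ _ _ cA_okG2 (runG5_append _ _ _ _ _ _ cA_okG3 (runG5_append _ _ _ _ _ _ cA_okG4 (runG5_append _ _ _ _ _ _ cA_okG5 (runG5_append _ _ _ _ _ _ cA_okG6 (runG5_append _ _ _ _ _ _ cA_okG7 (runG5_append _ _ _ _ _ _ cA_okG8 (runG5_append _ _ _ _ _ _ cA_okG9 (runG5_append _ _ _ _ _ _ cA_okG10 (runG5_append _ _ _ _ _ _ cA_okG11 (runG5_append _ _ _ _ _ _ cA_okG12 (runG5_append _ _ _ _ _ _ cA_okG13 (runG5_append _ _ _ _ _ _ cA_okG14 (runG5_append _ _ _ _ _ _ cA_okG15 (runG5_append _ _ _ _ _ _ cA_okG16 (runG5_append _ _ _ _ _ _ cA_okG17 (runG5_append _ _ _ _ _ _ cA_okG18 (runG5_append _ _ _ _ _ _ cA_okG19 (runG5_append _ _ _ _ _ _ cA_okG20 (runG5_append _ _ _ _ _ _ cA_okG21 (runG5_append _ _ _ _ _ _ cA_okG22 (runG5_append _ _ _ _ _ _ cA_okG23 (runG5_append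 _ _ _ _ _ _ cA_okG24 cA_okG25)))))))))))))))))))))))))

theorem cA_okE : enumR cA_F (okG2R cA_F cA_S cA_S2 cA_q cA_M cA_T) (Nat.pred cA_F.n) 1 36 = true :=
  enumR_of _ _ 4 21 (by decide +kernel) _ (by decide +kernel : front cA_F 4 1 36 = cA_e0 ++ (cA_e1 ++ (cA_e2 ++ (cA_e3 ++ (cA_e4 ++ (cA_e5))))))
  (runE_append _ _ _ _ _ _ cA_okE0 (runE_append _ _ _ _ _ _ cA_okE1 (runE_append _ _ _ _ _ _ cA_okE2 (runE_append _ _ _ _ _ _ cA_okE3 (runE_append _ _ _ _ _ _ cA_okE4 cA_okE5)))))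

theorem noA : NoA :=
  noA_of cA_F (CodeOK.of cA_okF) rfl cA_okR cA_okEd
    (no_data4 cA_F cA_S cA_S2 cA_q cA_M cA_C cA_T cA_okF cA_okS cA_okZ cA_okM cA_okC cA_okG cA_okE)

end Pool.Agent.Helper17.CT
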