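import Pool.Agent.Helper17.DF.Data.A0

set_option autoImplicit false
set_option linter.all false
set_option maxRecDepth 100000

namespace Pool.Agent.Helper17.CT

def cA_p0 : List (List ℕ) := [[0, 0, 0, 0], [0, 0, 0, 1], [0, 0, 0, 2], [0, 0, 0, 3], [0, 0, 1, 0]]

theorem cA_okG0 : runG5 cA_F cA_S cA_C cA_T cA_p0 = true := by decide +kernel

def cA_p1 : List (List ℕ) := [[0, 0, 1, 1], [0, 0, 1, 2], [0, 0, 1, 3], [0, 0, 2, 0], [0, 0, 2, 1], [0, 0, 2, 2], [0, 0, 2, 3],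
  [0, 0, 3, 0], [0, 0, 3, 1], [0, 0, 3, 2], [0, 0, 3, 3]]

theorem cA_okG1 : runG5 cA_F cA_S cA_C cA_T cA_p1 = true := by decide +kernel

def cA_p2 : List (List ℕ) := [[0, 1, 0, 0], [0, 1, 0, 1]]

theorem cA_okG2 : runG5 cA_F cA_S cA_C cA_T cA_p2 = true := by decide +kernel

def cA_p3 : List (List ℕ) := [[0, 1, 0, 2], [0, 1, 0, 3], [0, 1, 1, 0]]

theorem cA_okG3 : runG5 cA_F cA_S cA_C cA_T cA_p3 = true := by decide +kernel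

def cA_p4 : List (List ℕ) := [[0, 1, 1, 1]]

theorem cA_okG4 : runG5 cA_F cA_S cA_C cA_T cA_p4 = true := by decide +kernel

def cA_p5 : List (List ℕ) := [[0, 1, 1, 2], [0, 1, 1, 3], [0, 1, 2, 0]]

theorem cA_okG5 : runG5 cA_F cA_S cA_C cA_T cA_p5 = true := by decide +kernel

def cA_p6 : List (List ℕ) := [[0, 1, 2, 1], [0, 1, 2, 2], [0, 1, 2, 3], [0, 1, 3, 0], [0, 1, 3, 1], [0, 1, 3, 2], [0, 1, 3, 3],
  [0, 2, 0, 0], [0, 2, 0, 1], [0, 2, 0, 2], [0, 2, 0, 3], [0, 2, 1, 0], [0, 2, 1, 1], [0, 2, 1, 2],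
  [0, 2, 1, 3], [0, 2, 2, 0], [0, 2, 2, 1], [0, 2, 2, 2], [0, 2, 2, 3], [0, 2, 3, 0], [0, 2, 3, 1],
  [0, 2, 3, 2], [0, 2, 3, 3], [0, 3, 0, 0], [0, 3, 0, 1], [0, 3, 0, 2], [0, 3, 0, 3], [0, 3, 1, 0],
  [0, 3, 1, 1], [0, 3, 1, 2], [0, 3, 1, 3], [0, 3, 2, 0], [0, 3, 2, 1], [0, 3, 2, 2], [0, 3, 2, 3],
  [0, 3, 3, 0], [0, 3, 3, 1], [0, 3, 3, 2], [0, 3, 3, 3]]

theorem cA_okG6 : runG5 cA_F cA_S cA_C cA_T cA_p6 = true := by decide +kernel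

end Pool.Agent.Helper17.CT
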