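import Pool.Agent.Helper17.DF.Data.AG1

set_option autoImplicit false
set_option linter.all false
set_option maxRecDepth 100000

namespace Pool.Agent.Helper17.CT

def cA_p7 : List (List ℕ) := [[1, 0, 0, 0], [1, 0, 0, 1], [1, 0, 0, 2]]

theorem cA_okG7 : runG5 cA_F cA_S cA_C cA_T cA_p7 = true := by decide +kernel

def cA_p8 : List (List ℕ) := [[1, 0, 0, 3], [1, 0, 1, 0]]

theorem cA_okG8 : runG5 cA_F cA_S cA_C cA_T cA_p8 = true := by decide +kernel

def cA_p9 : List (List ℕ) := [[1, 0, 1, 1]]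

theorem cA_okG9 : runG5 cA_F cA_S cA_C cA_T cA_p9 = true := by decide +kernel

def cA_p10 : List (List ℕ) := [[1, 0, 1, 2], [1, 0, 1, 3], [1, 0, 2, 0]]

theorem cA_okG10 : runG5 cA_F cA_S cA_C cA_T cA_p10 = true := by decide +kernel

def cA_p11 : List (List ℕ) := [[1, 0, 2, 1], [1, 0, 2, 2], [1, 0, 2, 3], [1, 0, 3, 0], [1, 0, 3, 1], [1, 0, 3, 2], [1, 0, 3, 3]]

theorem cA_okG11 : runG5 cA_F cA_S cA_C cA_T cA_p11 = true := by decide +kernel

def cA_p12 : List (List ℕ) := [[1, 1, 0, 0]]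

theorem cA_okG12 : runG5 cA_F cA_S cA_C cA_T cA_p12 = true := by decide +kernel

def cA_p13 : List (List ℕ) := [[1, 1, 0, 1]]

theorem cA_okG13 : runG5 cA_F cA_S cA_C cA_T cA_p13 = true := by decide +kernel

end Pool.Agent.Helper17.CT
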