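import Pool.Agent.Helper17.DF.Data.AG2

set_option autoImplicit false
set_option linter.all false
set_option maxRecDepth 100000

namespace Pool.Agent.Helper17.CT

def cA_p14 : List (List ℕ) := [[1, 1, 0, 2], [1, 1, 0, 3]]

theorem cA_okG14 : runG5 cA_F cA_S cA_C cA_T cA_p14 = true := by decide +kernel

def cA_p15 : List (List ℕ) := [[1, 1, 1, 0]]

theorem cA_okG15 : runG5 cA_F cA_S cA_C cA_T cA_p15 = true := by decide +kernel

def cA_p16 : List (List ℕ) := [[1, 1, 1, 1]]

theorem cA_okG16 : runG5 cA_F cA_S cA_C cA_T cA_p16 = true := by decide +kernel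

def cA_p17 : List (List ℕ) := [[1, 1, 1, 2]]

theorem cA_okG17 : runG5 cA_F cA_S cA_C cA_T cA_p17 = true := by decide +kernel

def cA_p18 : List (List ℕ) := [[1, 1, 1, 3], [1, 1, 2, 0]]

theorem cA_okG18 : runG5 cA_F cA_S cA_C cA_T cA_p18 = true := by decide +kernel

def cA_p19 : List (List ℕ) := [[1, 1, 2, 1], [1, 1, 2, 2], [1, 1, 2, 3]]

theorem cA_okG19 : runG5 cA_F cA_S cA_C cA_T cA_p19 = true := by decide +kernel

def cA_p20 : List (List ℕ) := [[1, 1, 3, 0], [1, 1, 3, 1]]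

theorem cA_okG20 : runG5 cA_F cA_S cA_C cA_T cA_p20 = true := by decide +kernel

end Pool.Agent.Helper17.CT
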