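import Pool.Agent.Helper17.DF.Data.AG3

set_option autoImplicit false
set_option linter.all false
set_option maxRecDepth 100000

namespace Pool.Agent.Helper17.CT

def cA_p21 : List (List ℕ) := [[1, 1, 3, 2], [1, 1, 3, 3], [1, 2, 0, 0], [1, 2, 0, 1], [1, 2, 0, 2], [1, 2, 0, 3]]

theorem cA_okG21 : runG5 cA_F cA_S cA_C cA_T cA_p21 = true := by decide +kernel

def cA_p22 : List (List ℕ) := [[1, 2, 1, 0], [1, 2, 1, 1]]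

theorem cA_okG22 : runG5 cA_F cA_S cA_C cA_T cA_p22 = true := by decide +kernel

def cA_p23 : List (List ℕ) := [[1, 2, 1, 2], [1, 2, 1, 3], [1, 2, 2, 0], [1, 2, 2, 1], [1, 2, 2, 2], [1, 2, 2, 3], [1, 2, 3, 0],
  [1, 2, 3, 1], [1, 2, 3, 2], [1, 2, 3, 3], [1, 3, 0, 0], [1, 3, 0, 1], [1, 3, 0, 2], [1, 3, 0, 3]]

theorem cA_okG23 : runG5 cA_F cA_S cA_C cA_T cA_p23 = true := by decide +kernel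

def cA_p24 : List (List ℕ) := [[1, 3, 1, 0], [1, 3, 1, 1]]

theorem cA_okG24 : runG5 cA_F cA_S cA_C cA_T cA_p24 = true := by decide +kernel

def cA_p25 : List (List ℕ) := [[1, 3, 1, 2], [1, 3, 1, 3], [1, 3, 2, 0], [1, 3, 2, 1], [1, 3, 2, 2], [1, 3, 2, 3], [1, 3, 3, 0],
  [1, 3, 3, 1], [1, 3, 3, 2], [1, 3, 3, 3], [2, 0, 0, 0], [2, 0, 0, 1], [2, 0, 0, 2], [2, 0, 0, 3],
  [2, 0, 1, 0], [2, 0, 1, 1], [2, 0, 1, 2], [2, 0, 1, 3], [2, 0, 2, 0], [2, 0, 2, 1], [2, 0, 2, 2],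
  [2, 0, 2, 3], [2, 0, 3, 0], [2, 0, 3, 1], [2, 0, 3, 2], [2, 0, 3, 3], [2, 1, 0, 0], [2, 1, 0, 1],
  [2, 1, 0, 2], [2, 1, 0, 3], [2, 1, 1, 0], [2, 1, 1, 1], [2, 1, 1, 2], [2, 1, 1, 3], [2, 1, 2, 0],
  [2, 1, 2, 1], [2, 1, 2, 2], [2, 1, 2, 3], [2, 1, 3, 0], [2, 1, 3, 1], [2, 1, 3, 2], [2, 1, 3, 3],
  [2, 2, 0, 0], [2, 2, 0, 1], [2, 2, 0, 2], [2, 2, 0, 3], [2, 2, 1, 0], [2, 2, 1, 1], [2, 2, 1, 2],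
  [2, 2, 1, 3], [2, 2, 2, 0], [2, 2, 2, 1], [2, 2, 2, 2], [2, 2, 2, 3], [2, 2, 3, 0], [2, 2, 3, 1],
  [2, 2, 3, 2], [2, 2, 3, 3], [2, 3, 0, 0], [2, 3, 0, 1], [2, 3, 0, 2], [2, 3, 0, 3], [2, 3, 1, 0],
  [2, 3, 1, 1], [2, 3, 1, 2], [2, 3, 1, 3], [2, 3, 2, 0], [2, 3, 2, 1], [2, 3, 2, 2], [2, 3, 2, 3],
  [2, 3, 3, 0], [2, 3, 3, 1], [2, 3, 3, 2], [2, 3, 3, 3], [3, 0, 0, 0], [3, 0, 0, 1], [3, 0, 0, 2],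
  [3, 0, 0, 3], [3, 0, 1, 0], [3, 0, 1, 1], [3, 0, 1, 2], [3, 0, 1, 3], [3, 0, 2, 0], [3, 0, 2, 1],
  [3, 0, 2, 2], [3, 0, 2, 3], [3, 0, 3, 0], [3, 0, 3, 1], [3, 0, 3, 2], [3, 0, 3, 3], [3, 1, 0, 0],
  [3, 1, 0, 1], [3, 1, 0, 2], [3, 1, 0, 3], [3, 1, 1, 0], [3, 1, 1, 1], [3, 1, 1, 2], [3, 1, 1, 3],
  [3, 1, 2, 0], [3, 1, 2, 1], [3, 1, 2, 2], [3, 1, 2, 3], [3, 1, 3, 0], [3, 1, 3, 1], [3, 1, 3, 2],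
  [3, 1, 3, 3], [3, 2, 0, 0], [3, 2, 0, 1], [3, 2, 0, 2], [3, 2, 0, 3], [3, 2, 1, 0], [3, 2, 1, 1],
  [3, 2, 1, 2], [3, 2, 1, 3], [3, 2, 2, 0], [3, 2, 2, 1], [3, 2, 2, 2], [3, 2, 2, 3], [3, 2, 3, 0],
  [3, 2, 3, 1], [3, 2, 3, 2], [3, 2, 3, 3], [3, 3, 0, 0], [3, 3, 0, 1], [3, 3, 0, 2], [3, 3, 0, 3],
  [3, 3, 1, 0], [3, 3, 1, 1], [3, 3, 1, 2], [3, 3, 1, 3], [3, 3, 2, 0], [3, 3, 2, 1], [3, 3, 2, 2],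
  [3, 3, 2, 3], [3, 3, 3, 0], [3, 3, 3, 1], [3, 3, 3, 2], [3, 3, 3, 3]]

theorem cA_okG25 : runG5 cA_F cA_S cA_C cA_T cA_p25 = true := by decide +kernel

end Pool.Agent.Helper17.CT
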