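import Pool.Agent.Helper17.DF.Data.A0
import Pool.Agent.Helper17.DF.NoA

set_option autoImplicit false
set_option linter.all false
set_option maxRecDepth 100000

namespace Pool.Agent.Helper17.CT

theorem cA_okF : okCode cA_F = true := by decide +kernel

theorem cA_okM : okM cA_F cA_M = true := by decide +kernel

theorem cA_okC : okCert cA_C cA_F.k = true := by decide +kernel

theorem cA_okR : okRing cA_F ringA ringAu ringAt = true := by decide +kernel

theorem cA_okEd : okEdges cA_F = true := by decide +kernel

theorem cA_okS : Tri'.all (okSyR cA_F) cA_S = true := by decide +kernel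

theorem cA_okZ : Tri2.all (okSzR cA_F cA_S) cA_S2 = true := by decide +kernel

end Pool.Agent.Helper17.CT
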