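import Pool.Agent.Helper17.DF.Data.W9

set_option autoImplicit false
set_option linter.all false
set_option maxRecDepth 100000

namespace Pool.Agent.Helper17.CT

noncomputable def b5_45656_F : Code := ⟨5, [4, 5, 6, 5, 6], [(0, 2), (1, 2), (1, 3), (2, 2), (2, 3), (2, 4), (3,
  2), (3, 3), (4, 2), (4, 3), (4, 4)], 16, 6,
  46326375343022191514276581456043743496008862541246579424100617249705400639403024563250421064840448133,
  147149503478085115050685414344564513637552149319328464896, 1592168795670⟩

noncomputable def b5_45656_S : Tri' := (.node (.node (.node (.node (.leaf [⟨133966132108126, 48, 4534800⟩]) (.leaf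
  [⟨192678334414189, 24, 5456400⟩, ⟨236289432415083, 40, 3428880⟩])) (.node (.leaf
  [⟨192808257797470, 20, 5387280⟩]) (.node (.leaf [⟨201123313859949, 12, 5514000⟩]) (.leaf
  [⟨135152616815966, 60, 4530960⟩, ⟨135152616193389, 60, 2311440⟩])))) (.node (.node (.leaf
  [⟨192789786094323, 18, 5321280⟩]) (.node (.leaf [⟨199824941897645, 10, 5509680⟩]) (.leaf
  [⟨133854244231085, 58, 1262160⟩, ⟨135134145112819, 58, 4526640⟩]))) (.node (.node (.leaf
  [⟨199934816508766, 6, 5517600⟩]) (.node (.leaf []) (.leaf [⟨133964118842206, 54, 1193040⟩,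
  ⟨133984166991789, 54, 4534560⟩, ⟨227972362464107, 54, 4534560⟩]))) (.node (.leaf
  [⟨236287419149163, 46, 1319760⟩]) (.leaf [⟨192676321770846, 30, 5456160⟩, ⟨192676321148269, 30,
  5317440⟩]))))) (.node (.node (.node (.leaf []) (.node (.leaf [⟨199825196275614, 9, 5505555⟩,
  ⟨201105096534771, 9, 5505555⟩]) (.node (.leaf []) (.leaf [⟨133854498609054, 57, 213525⟩,
  ⟨227862703160670, 57, 4522515⟩, ⟨135134398868211, 57, 213525⟩, ⟨227862742230955, 57, 4522515⟩]))))
  (.node (.node (.leaf [⟨199955118413741, 5, 5517330⟩]) (.leaf [⟨133984421369758, 53, 4534290⟩,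
  ⟨133984420747181, 53, 144405⟩])) (.leaf [⟨236307682606430, 45, 3428370⟩, ⟨236307721676715, 45,
  3428370⟩]))) (.node (.node (.leaf [⟨133965909973749, 51, 78405⟩, ⟨199936607640309, 3, 5517825⟩])
  (.leaf [⟨235009310644126, 43, 3428865⟩, ⟨192678112902389, 27, 5456385⟩])) (.node (.node (.leaf
  [⟨235139233404830, 39, 274725⟩]) (.leaf [⟨192808035663093, 23, 5255460⟩, ⟨192788026583795, 23,
  5255460⟩])) (.node (.node (.leaf [⟨199823183009694, 15, 5513985⟩, ⟨199823182387117, 15, 5505315⟩,
  ⟨201103083268851, 15, 5513985⟩]) (.leaf [])) (.node (.leaf []) (.leaf [⟨133852485343134, 63,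
  2311425⟩, ⟨227860689894750, 63, 4530945⟩, ⟨135152394681589, 63, 4522275⟩, ⟨133852484720557, 63,
  213285⟩, ⟨135132385602291, 63, 74565⟩, ⟨227860728965035, 63, 4530945⟩])))))))

noncomputable def b5_45656_S2 : Tri2 := (.node (.node (.node (.node (.leaf [⟨133966132108126,
  6578148285050584939677159764, 48, 4534800, (tB 6 139849)⟩]) (.leaf [⟨192678334414189,
  21147764469998041241832461393, 24, 5456400, (tB 6 50249)⟩, ⟨236289432415083,
  25092861379548078531433272389, 40, 3428880, (tB 6 136265)⟩])) (.node (.leaf [⟨192808257797470,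
  21147820920493672147620794708, 20, 5387280, (tB 6 49801)⟩]) (.node (.leaf [⟨201123313859949,
  21379042150594417745479144529, 12, 5514000, (tB 6 39049)⟩]) (.leaf [⟨135152616193389,
  6581790118511356647075550289, 60, 2311440, (tB 6 141449)⟩, ⟨135152616815966,
  6581790118511357487815397716, 60, 4530960, (tB 6 148617)⟩])))) (.node (.node (.leaf
  [⟨192789786094323, 21147820031379241438529475845, 18, 5321280, (tB 6 49745)⟩]) (.leaf
  [⟨133854244231085, 6578092723245483428301587537, 58, 1262160, (tB 6 141393)⟩, ⟨135134145112819,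
  6581789229396926778724078853, 58, 4526640, (tB 6 148561)⟩])) (.node (.node (.leaf
  [⟨199934816508766, 21375400303352631178327036244, 6, 5517600, (tB 6 37649)⟩]) (.node (.leaf [])
  (.leaf [⟨133964118842206, 6578148271269570079923442004, 54, 1193040, (tB 6 140049)⟩,
  ⟨133984166991789, 6578149173741113493350073425, 54, 4534560, .nil⟩, ⟨227972362464107,
  24861640135666317233081357381, 54, 4534560, .nil⟩]))) (.node (.leaf [⟨236287419149163,
  25092861365767063671679554629, 46, 1319760, (tB 6 136465)⟩]) (.leaf [⟨192676321148269,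
  21147764456217026382078743633, 30, 5317440, (tB 6 50449)⟩, ⟨192676321770846,
  21147764456217027222818591060, 30, 5456160, (tB 6 51345)⟩]))))) (.node (.node (.node (.leaf [])
  (.node (.leaf [⟨199825196275614, 21375344755543886918768214356, 9, 5505555, .nil⟩,
  ⟨201105096534771, 21379041261695329428450858245, 9, 5505555, .nil⟩]) (.node (.leaf []) (.leaf
  [⟨133854498609054, 6578092723460825820364620116, 57, 213525, .nil⟩, ⟨135134398868211,
  6581789229612268330047264005, 57, 213525, .nil⟩, ⟨227862703160670, 24861584587854130333648752980,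
  57, 4522515, .nil⟩, ⟨227862742230955, 24861584587857572973522535493, 57, 4522515, .nil⟩]))))
  (.node (.node (.leaf [⟨199955118413741, 21375401206039516143076852817, 5, 5517330, (tB 6 37642)⟩])
  (.leaf [⟨133984420747181, 6578149173956455044673258577, 53, 144405, (tB 6 140042)⟩,
  ⟨133984421369758, 6578149173956455885413106004, 53, 4534290, (tB 6 148106)⟩])) (.leaf
  [⟨236307682606430, 25092862268450506837295436116, 45, 3428370, .nil⟩, ⟨236307721676715,
  25092862268453949477169218629, 45, 3428370, .nil⟩]))) (.node (.node (.leaf [⟨133965909973749,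
  6578148284838581695708157201, 51, 78405, (tB 6 139874)⟩, ⟨199936607640309,
  21375400316921642794111751441, 3, 5517825, (tB 6 37474)⟩]) (.leaf [⟨192678112902389,
  21147764469786038838603306257, 27, 5456385, (tB 6 51282)⟩, ⟨235009310644126,
  25089164873184633618521473364, 43, 3428865, (tB 6 137298)⟩])) (.node (.node (.leaf
  [⟨235139233404830, 25089221323680263683569959252, 39, 274725, (tB 6 135842)⟩]) (.leaf
  [⟨192788026583795, 21147820017813568130098943237, 23, 5255460, .nil⟩, ⟨192808035663093,
  21147820920281668903651792145, 23, 5255460, .nil⟩])) (.node (.node (.leaf [⟨199823182387117,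
  21375344741762871218274649169, 15, 5505315, (tB 6 39074)⟩, ⟨199823183009694,
  21375344741762872059014496596, 15, 5513985, .nil⟩, ⟨201103083268851,
  21379041247914314568697140485, 15, 5513985, .nil⟩]) (.leaf [])) (.node (.leaf []) (.leaf
  [⟨133852484720557, 6578092709679810119871054929, 63, 213285, (tB 6 141474)⟩, ⟨133852485343134,
  6578092709679810960610902356, 63, 2311425, .nil⟩, ⟨135132385602291, 6581789215831253470293546245,
  63, 74565, .nil⟩, ⟨135152394681589, 6581790118299354243846395153, 63, 4522275, .nil⟩,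
  ⟨227860689894750, 24861584574073115473895035220, 63, 4530945, .nil⟩, ⟨227860728965035,
  24861584574076558113768817733, 63, 4530945, .nil⟩])))))))

noncomputable def b5_45656_q : List ℕ := [44, 56, 62, 74, 86, 92]

noncomputable def b5_45656_M : ℕ := 26409387504754779197847983445

noncomputable def b5_45656_C : Cert := ⟨1, 1, 2, [0, 1, 0, 1, 0, 0], [0, 0, 0, 0, 1, 1], 3⟩

noncomputable def b5_45656_T : TT := (.node (tT 1 5 11259635517631181887297696555934949675651635) (tT 1 5
  5540332643779884499263129248990068506991) .nil .nil)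

theorem b5_45656_okF : okCode b5_45656_F = true := by decide +kernel

theorem b5_45656_okI : okIdx b5_45656_F = true := by decide +kernel

theorem b5_45656_okS : Tri'.all (okSyR b5_45656_F) b5_45656_S = true := by decide +kernel

theorem b5_45656_okZ : Tri2.all (okSzR b5_45656_F b5_45656_S) b5_45656_S2 = true := by decide +kernel

theorem b5_45656_okM : okM b5_45656_F b5_45656_M = true := by decide +kernel

theorem b5_45656_okC : okCert b5_45656_C b5_45656_F.k = true := by decide +kernel

theorem b5_45656_okG : runG5 b5_45656_F b5_45656_S b5_45656_C b5_45656_T [[]] = true := by decide +kernel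

theorem b5_45656_okE : enumR b5_45656_F (okG2R b5_45656_F b5_45656_S b5_45656_S2 b5_45656_q b5_45656_M b5_45656_T) (Nat.pred b5_45656_F.n) 1 36 = true := by decide +kernel

theorem b5_45656_good : Good 5 [4, 5, 6, 5, 6] :=
  good_mk4 b5_45656_S b5_45656_S2 b5_45656_q b5_45656_M b5_45656_C b5_45656_T 5 [4, 5, 6, 5, 6] rfl rfl b5_45656_okF b5_45656_okI b5_45656_okS b5_45656_okZ b5_45656_okM b5_45656_okC (runG4_of _ _ _ _ 0 _ rfl b5_45656_okG) b5_45656_okE

noncomputable def b6_446466_F : Code := ⟨6, [4, 4, 6, 4, 6, 6], [(0, 2), (1, 2), (2, 2), (2, 3), (2, 4), (3, 2),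
  (4, 2), (4, 3), (4, 4), (5, 2), (5, 3), (5, 4)], 18, 6,
  232830799367355491888963503298855747564354695135846440392241487092681485148691154412253419633995686417582604405253,
  2468759004144589625024502185650974316116956477279385109665939456, 1799950569372⟩

noncomputable def b6_446466_S : Tri' := (.node (.node (.node (.node (.node (.leaf []) (.node (.leaf []) (.leaf
  [⟨8574779459820382, 48, 4534800⟩, ⟨8574779494685429, 48, 4534800⟩, ⟨8574942663589229, 48,
  4534800⟩]))) (.leaf [⟨15123633958938526, 40, 3428880⟩, ⟨15123470710430571, 40, 3428880⟩])) (.node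
  (.leaf [⟨12338613915085677, 20, 5387280⟩]) (.node (.node (.leaf [⟨12788657773271902, 12, 5514000⟩,
  ⟨12788657808136949, 12, 5514000⟩, ⟨12788820977040749, 12, 5514000⟩]) (.leaf [])) (.node (.leaf [])
  (.leaf [⟨14583223993886622, 60, 4530960⟩, ⟨8566533122612062, 60, 2311440⟩, ⟨8566533157477109, 60,
  2311440⟩, ⟨8566696326380909, 60, 2311440⟩, ⟨8648652892269421, 60, 4530960⟩, ⟨14583060745378667,
  60, 4530960⟩]))))) (.node (.leaf [⟨15048722213164958, 34, 1323600⟩]) (.node (.node (.leaf
  [⟨12796029010885982, 6, 5517600⟩, ⟨12796029045751029, 6, 5517600⟩]) (.node (.leaf []) (.leaf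
  [⟨8573904360226142, 54, 1193040⟩, ⟨8573904395091189, 54, 1193040⟩, ⟨14590431982992747, 54,
  4534560⟩]))) (.leaf [⟨15040475875956638, 46, 3428640⟩, ⟨15122595610836331, 46, 1319760⟩]))))
  (.node (.node (.node (.leaf [⟨12339670258935725, 17, 5255700⟩, ⟨12339507055254259, 17, 5255700⟩])
  (.node (.leaf [⟨12871833891847411, 9, 5505555⟩]) (.node (.leaf []) (.leaf [⟨8649709236119469, 57,
  4522515⟩, ⟨8649709241187571, 57, 213525⟩, ⟨8649546032438003, 57, 4522515⟩])))) (.node (.leaf [])
  (.node (.leaf []) (.node (.leaf [⟨12331423921727405, 29, 5455890⟩, ⟨12331423926795507, 29,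
  5251860⟩, ⟨12331260718045939, 29, 5455890⟩]) (.leaf []))))) (.node (.node (.node (.node (.leaf
  [⟨12796902097214302, 3, 5517825⟩, ⟨12796902132079349, 3, 5517825⟩, ⟨12797065300983149, 3,
  5517825⟩]) (.leaf [])) (.node (.leaf []) (.leaf [⟨14591468317829022, 51, 4534785⟩,
  ⟨8574940655304030, 51, 4534785⟩, ⟨8574777446554462, 51, 78405⟩, ⟨8574940690169077, 51, 4534785⟩,
  ⟨8574777481419509, 51, 78405⟩, ⟨8574797490345901, 51, 4534785⟩, ⟨8574940650323309, 51, 78405⟩,
  ⟨14591305069321067, 51, 4534785⟩]))) (.node (.node (.leaf []) (.leaf [⟨15123631945672606, 43,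
  266805⟩, ⟨15123631905914219, 43, 3428865⟩, ⟨15123468697164651, 43, 266805⟩])) (.leaf []))) (.node
  (.node (.leaf []) (.node (.leaf [⟨12338611906800478, 23, 5387265⟩, ⟨12338611941665525, 23,
  5387265⟩, ⟨12338611901819757, 23, 5255460⟩, ⟨12338631955660019, 23, 5387265⟩]) (.leaf []))) (.node
  (.node (.leaf [⟨12788818968755550, 15, 5513985⟩, ⟨12788655760005982, 15, 5505315⟩,
  ⟨12788819003620597, 15, 5513985⟩, ⟨12788655794871029, 15, 5505315⟩, ⟨12788675803797421, 15,
  5513985⟩, ⟨12788818963774829, 15, 5505315⟩, ⟨12870775529663341, 15, 5513985⟩]) (.leaf [])) (.node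
  (.leaf []) (.leaf [⟨14583221980620702, 63, 4522275⟩, ⟨8566694318095710, 63, 2311425⟩,
  ⟨8648650883984222, 63, 4530945⟩, ⟨8566531109346142, 63, 213285⟩, ⟨8566694352960757, 63, 2311425⟩,
  ⟨8648650918849269, 63, 4530945⟩, ⟨8566531144211189, 63, 213285⟩, ⟨8566551153137581, 63, 2311425⟩,
  ⟨8566694313114989, 63, 213285⟩, ⟨8648650879003501, 63, 74565⟩, ⟨8648670932843763, 63, 4530945⟩,
  ⟨14583221940862315, 63, 4530945⟩, ⟨14583058732112747, 63, 4522275⟩])))))))

noncomputable def b6_446466_S2 : Tri2 := (.node (.node (.node (.leaf [⟨8574779459820382,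
  26944098944804644914198953136468, 48, 4534800, .nil⟩, ⟨15123633958938526,
  102780363837641587886252868583764, 40, 3428880, .nil⟩]) (.node (.leaf []) (.node (.leaf
  [⟨12788657773271902, 87553412061153861875430412587348, 12, 5514000, .nil⟩]) (.leaf
  [⟨8566533122612062, 26943867737741643616369290580308, 60, 2311440, .nil⟩, ⟨14583223993886622,
  101833050472085929175924990099796, 60, 4530960, .nil⟩])))) (.node (.leaf [⟨15048722213164958,
  102765450471844521861960091124052, 34, 1323600, (tB 6 135761)⟩]) (.node (.leaf [⟨8573904360226142,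
  26944095389751585793407785701716, 54, 1193040, .nil⟩, ⟨12796029010885982,
  87553639713163804052468907708756, 6, 5517600, .nil⟩]) (.leaf [⟨15040475875956638,
  102765219264781520564130428567892, 46, 3428640, (tB 6 137361)⟩])))) (.node (.node (.node (.leaf
  [⟨12339670258935725, 86621474476409962260641699152977, 17, 5255700, .nil⟩]) (.leaf
  [⟨8649709236119469, 26959012311490401414078793073745, 57, 4522515, .nil⟩, ⟨8649709241187571,
  26959012311490401467902001698053, 57, 213525, (tB 6 141386)⟩])) (.leaf [⟨12331423921727405,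
  86621243269346960962812036596817, 29, 5455890, .nil⟩, ⟨12331423926795507,
  86621243269346961016635245221125, 29, 5251860, (tB 6 50442)⟩])) (.node (.node (.node (.leaf
  [⟨12796902097214302, 87553643268203082158400321425748, 3, 5517825, .nil⟩]) (.node (.leaf [])
  (.leaf [⟨8574777446554462, 26944098944790863899339199418708, 51, 78405, .nil⟩, ⟨8574940655304030,
  26944099002566066338197314539860, 51, 4534785, .nil⟩, ⟨14591468317829022,
  101833281679135149458894898938196, 51, 4534785, .nil⟩]))) (.leaf [⟨15123631945672606,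
  102780363837627806871393114866004, 43, 266805, .nil⟩])) (.node (.leaf [⟨12338611901819757,
  86621470862679229156738250118225, 23, 5255460, (tB 6 49826)⟩, ⟨12338611906800478,
  86621470862679229210545600401748, 23, 5387265, .nil⟩]) (.node (.node (.leaf [⟨12788655760005982,
  87553412061140080860570658869588, 15, 5505315, .nil⟩, ⟨12788675803797421,
  87553412062042552351017475064913, 15, 5513985, .nil⟩, ⟨12788818968755550,
  87553412118915283299428773990740, 15, 5513985, .nil⟩]) (.leaf [])) (.node (.leaf []) (.leaf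
  [⟨8566531109346142, 26943867737727862601509536862548, 63, 213285, .nil⟩, ⟨8566551153137581,
  26943867738630334091956353057873, 63, 2311425, .nil⟩, ⟨8566694318095710,
  26943867795503065040367651983700, 63, 2311425, .nil⟩, ⟨8648650879003501,
  26959008697759668310175344038993, 63, 74565, .nil⟩, ⟨8648650883984222,
  26959008697759668363982694322516, 63, 4530945, .nil⟩, ⟨14583221980620702,
  101833050472072148161065236382036, 63, 4522275, .nil⟩])))))))

noncomputable def b6_446466_q : List ℕ := [56, 62, 80, 86, 98, 104]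

noncomputable def b6_446466_M : ℕ := 108172851219475575594385340192085

noncomputable def b6_446466_C : Cert := ⟨4, 1, 4, [0, 15, 3, 5, 9, 0], [0, 0, 12, 10, 6, 0], 3375⟩

noncomputable def b6_446466_T : TT := (tT 1 6 29099408322989843166597923)

theorem b6_446466_okF : okCode b6_446466_F = true := by decide +kernel

theorem b6_446466_okI : okIdx b6_446466_F = true := by decide +kernel

theorem b6_446466_okS : Tri'.all (okSyR b6_446466_F) b6_446466_S = true := by decide +kernel

theorem b6_446466_okZ : Tri2.all (okSzR b6_446466_F b6_446466_S) b6_446466_S2 = true := by decide +kernel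

theorem b6_446466_okM : okM b6_446466_F b6_446466_M = true := by decide +kernel

theorem b6_446466_okC : okCert b6_446466_C b6_446466_F.k = true := by decide +kernel

theorem b6_446466_okG : runG5 b6_446466_F b6_446466_S b6_446466_C b6_446466_T [[]] = true := by decide +kernel

theorem b6_446466_okE : enumR b6_446466_F (okG2R b6_446466_F b6_446466_S b6_446466_S2 b6_446466_q b6_446466_M b6_446466_T) (Nat.pred b6_446466_F.n) 1 36 = true := by decide +kernel

theorem b6_446466_good : Good 6 [4, 4, 6, 4, 6, 6] :=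
  good_mk4 b6_446466_S b6_446466_S2 b6_446466_q b6_446466_M b6_446466_C b6_446466_T 6 [4, 4, 6, 4, 6, 6] rfl rfl b6_446466_okF b6_446466_okI b6_446466_okS b6_446466_okZ b6_446466_okM b6_446466_okC (runG4_of _ _ _ _ 0 _ rfl b6_446466_okG) b6_446466_okE

noncomputable def b5_46556_F : Code := ⟨5, [4, 6, 5, 5, 6], [(0, 2), (1, 2), (1, 3), (1, 4), (2, 2), (2, 3), (3,
  2), (3, 3), (4, 2), (4, 3), (4, 4)], 16, 6,
  46326375343022191514276581456043743495789917318727230085915286340427328975435587713679092596762413189,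
  147149503478085115050675032286148644438753891320076435456, 1592168795286⟩

noncomputable def b5_46556_S : Tri' := (.node (.node (.node (.node (.leaf [⟨133965897227102, 48, 4534800⟩]) (.leaf
  [⟨192678099533165, 24, 5456400⟩, ⟨236289197534059, 40, 3428880⟩])) (.node (.leaf
  [⟨192808022916446, 20, 5387280⟩, ⟨192788024486643, 20, 5387280⟩]) (.node (.leaf [⟨199823180289965,
  12, 5514000⟩, ⟨201123078978925, 12, 5514000⟩]) (.node (.leaf []) (.leaf [⟨135152381934942, 60,
  4530960⟩, ⟨133852482623405, 60, 2311440⟩, ⟨135152381312365, 60, 2311440⟩, ⟨135132383505139, 60,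
  4530960⟩]))))) (.node (.node (.leaf []) (.node (.leaf [⟨199825210955678, 10, 5509680⟩,
  ⟨201105111214835, 10, 5509680⟩]) (.node (.leaf []) (.leaf [⟨133854513289118, 58, 1262160⟩,
  ⟨135134413548275, 58, 1262160⟩, ⟨227862756911019, 58, 4526640⟩])))) (.node (.node (.leaf
  [⟨199955133093805, 6, 5517600⟩]) (.leaf [⟨133984436049822, 54, 4534560⟩, ⟨133984435427245, 54,
  1193040⟩])) (.leaf [⟨236307736356779, 46, 3428640⟩])))) (.node (.node (.leaf [⟨227862468279646,
  57, 4522515⟩]) (.node (.leaf [⟨133964148366069, 53, 144405⟩, ⟨199934846032629, 5, 5517330⟩])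
  (.node (.leaf [⟨235007549036446, 45, 3428370⟩, ⟨236307447725406, 45, 3428370⟩]) (.leaf
  [⟨192676351294709, 29, 5455890⟩])))) (.node (.node (.node (.leaf [⟨199936563436382, 3, 5517825⟩])
  (.node (.leaf []) (.leaf [⟨133965865769822, 51, 78405⟩, ⟨133966178409205, 51, 4534785⟩,
  ⟨227974109391723, 51, 4534785⟩]))) (.node (.leaf [⟨236289166076779, 43, 266805⟩]) (.leaf
  [⟨192678068698462, 27, 5456385⟩, ⟨192678068075885, 27, 5247540⟩]))) (.node (.node (.leaf
  [⟨235139501840286, 39, 2372865⟩]) (.node (.leaf [⟨192807991459166, 23, 5255460⟩, ⟨192808304098549,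
  23, 5387265⟩, ⟨192787993029363, 23, 5255460⟩]) (.leaf []))) (.node (.node (.leaf
  [⟨199823149455262, 15, 5513985⟩, ⟨199823148832685, 15, 5505315⟩, ⟨201123047521645, 15, 5505315⟩,
  ⟨201103049714419, 15, 5513985⟩]) (.leaf [])) (.node (.leaf []) (.leaf [⟨133852451788702, 63,
  2311425⟩, ⟨135152350477662, 63, 4522275⟩, ⟨135152663117045, 63, 4530945⟩, ⟨133852451166125, 63,
  213285⟩, ⟨135152349855085, 63, 213285⟩, ⟨135132352047859, 63, 74565⟩, ⟨227860695410603, 63,
  4530945⟩])))))))

noncomputable def b5_46556_S2 : Tri2 := (.node (.node (.node (.node (.leaf [⟨133965897227102,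
  6578148284837789857283903828, 48, 4534800, (tB 6 139849)⟩]) (.leaf [⟨192678099533165,
  21147764469785246159439205457, 24, 5456400, (tB 6 50249)⟩, ⟨236289197534059,
  25092861379335283449040016453, 40, 3428880, (tB 6 136265)⟩])) (.node (.leaf [⟨192808022916446,
  21147820920280877065227538772, 20, 5387280, .nil⟩]) (.node (.leaf [⟨199823180289965,
  21375344741762858024135115857, 12, 5514000, .nil⟩, ⟨201123078978925,
  21379042150381622663085888593, 12, 5514000, .nil⟩]) (.node (.leaf []) (.leaf [⟨133852482623405,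
  6578092709679796925731521617, 60, 2311440, .nil⟩, ⟨135132383505139, 6581789215831240276154012933,
  60, 4530960, .nil⟩, ⟨135152381312365, 6581790118298561564682294353, 60, 2311440, .nil⟩,
  ⟨135152381934942, 6581790118298562405422141780, 60, 4530960, .nil⟩]))))) (.node (.node (.leaf [])
  (.node (.leaf [⟨199825210955678, 21375344755544718149558813012, 10, 5509680, .nil⟩]) (.leaf
  [⟨133854513289118, 6578092723461657051155218772, 58, 1262160, .nil⟩, ⟨227862756911019,
  24861584587858404204313134149, 58, 4526640, (tB 6 148561)⟩]))) (.node (.node (.leaf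
  [⟨199955133093805, 21375401206040347373867451473, 6, 5517600, (tB 6 37649)⟩]) (.leaf
  [⟨133984435427245, 6578149173957286275463857233, 54, 1193040, (tB 6 140049)⟩, ⟨133984436049822,
  6578149173957287116203704660, 54, 4534560, (tB 6 148113)⟩])) (.leaf [⟨236307736356779,
  25092862268454780707959817285, 46, 3428640, (tB 6 137361)⟩])))) (.node (.node (.leaf
  [⟨227862468279646, 24861584587641335251255497044, 57, 4522515, (tB 6 148554)⟩]) (.node (.leaf
  [⟨133964148366069, 6578148271272895193138091281, 53, 144405, (tB 6 140042)⟩, ⟨199934846032629,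
  21375400303355956291541685521, 5, 5517330, (tB 6 37642)⟩]) (.node (.leaf [⟨235007549036446,
  25089164859618947115951407444, 45, 3428370, .nil⟩, ⟨236307447725406,
  25092862268237711754902180180, 45, 3428370, .nil⟩]) (.leaf [⟨192676351294709,
  21147764456220352336033240337, 29, 5455890, (tB 6 51338)⟩])))) (.node (.node (.leaf
  [⟨133965865769822, 6578148284834425351702909268, 51, 78405, (tB 6 139874)⟩, ⟨199936563436382,
  21375400316917486450106503508, 3, 5517825, (tB 6 37474)⟩]) (.node (.leaf [⟨236289166076779,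
  25092861379331918943459021893, 43, 266805, (tB 6 136290)⟩]) (.leaf [⟨192678068075885,
  21147764469781881653858210897, 27, 5247540, (tB 6 50274)⟩, ⟨192678068698462,
  21147764469781882494598058324, 27, 5456385, (tB 6 51282)⟩]))) (.node (.node (.leaf
  [⟨235139501840286, 25089221323896436465683743060, 39, 2372865, (tB 6 135954)⟩]) (.leaf
  [⟨192807991459166, 21147820920277512559646544212, 23, 5255460, .nil⟩, ⟨192808304098549,
  21147820920497841685765575953, 23, 5387265, (tB 6 49938)⟩])) (.node (.node (.leaf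
  [⟨199823148832685, 21375344741759493518554121297, 15, 5505315, .nil⟩, ⟨199823149455262,
  21375344741759494359293968724, 15, 5513985, .nil⟩, ⟨201103049714419,
  21379041247910936868976612613, 15, 5513985, .nil⟩, ⟨201123047521645,
  21379042150378258157504894033, 15, 5505315, .nil⟩]) (.leaf [])) (.node (.leaf []) (.leaf
  [⟨133852451166125, 6578092709676432420150527057, 63, 213285, .nil⟩, ⟨133852451788702,
  6578092709676433260890374484, 63, 2311425, .nil⟩, ⟨135132352047859, 6581789215827875770573018373,
  63, 74565, .nil⟩, ⟨135152349855085, 6581790118295197059101299793, 63, 213285, .nil⟩,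
  ⟨135152350477662, 6581790118295197899841147220, 63, 4522275, .nil⟩, ⟨135152663117045,
  6581790118515527025960178961, 63, 4530945, .nil⟩])))))))

noncomputable def b5_46556_q : List ℕ := [44, 50, 62, 74, 86, 92]

noncomputable def b5_46556_M : ℕ := 26409387504754779197847983445

noncomputable def b5_46556_C : Cert := ⟨4, 2, 3, [0, 11, 11, 2, 1, 3], [0, 0, 0, 8, 0, 8], 2827⟩

noncomputable def b5_46556_T : TT := (.node (tT 2 5 396510292371134448931690533395) (tT 2 5
  48312198837622221881180629020049405466602875010728703) .nil .nil)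

theorem b5_46556_okF : okCode b5_46556_F = true := by decide +kernel

theorem b5_46556_okI : okIdx b5_46556_F = true := by decide +kernel

theorem b5_46556_okS : Tri'.all (okSyR b5_46556_F) b5_46556_S = true := by decide +kernel

theorem b5_46556_okZ : Tri2.all (okSzR b5_46556_F b5_46556_S) b5_46556_S2 = true := by decide +kernel

theorem b5_46556_okM : okM b5_46556_F b5_46556_M = true := by decide +kernel

theorem b5_46556_okC : okCert b5_46556_C b5_46556_F.k = true := by decide +kernel

theorem b5_46556_okG : runG5 b5_46556_F b5_46556_S b5_46556_C b5_46556_T [[]] = true := by decide +kernel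

theorem b5_46556_okE : enumR b5_46556_F (okG2R b5_46556_F b5_46556_S b5_46556_S2 b5_46556_q b5_46556_M b5_46556_T) (Nat.pred b5_46556_F.n) 1 36 = true := by decide +kernel

theorem b5_46556_good : Good 5 [4, 6, 5, 5, 6] :=
  good_mk4 b5_46556_S b5_46556_S2 b5_46556_q b5_46556_M b5_46556_C b5_46556_T 5 [4, 6, 5, 5, 6] rfl rfl b5_46556_okF b5_46556_okI b5_46556_okS b5_46556_okZ b5_46556_okM b5_46556_okC (runG4_of _ _ _ _ 0 _ rfl b5_46556_okG) b5_46556_okE

noncomputable def b5_45566_F : Code := ⟨5, [4, 5, 5, 6, 6], [(0, 2), (1, 2), (1, 3), (2, 2), (2, 3), (3, 2), (3,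
  3), (3, 4), (4, 2), (4, 3), (4, 4)], 16, 6,
  46326375343022191514276582588592252859007046667489763596530558795121340758083260636139214450658052229,
  147149503478085376323740265827628491609867918023858323456, 1592168844822⟩

noncomputable def b5_45566_S : Tri' := (.node (.node (.node (.leaf [⟨133981164493662, 48, 4534800⟩,
  ⟨236304464800619, 40, 3428880⟩]) (.node (.leaf [⟨192791077305709, 20, 5387280⟩]) (.node (.leaf
  [⟨199823013141342, 12, 5514000⟩]) (.node (.leaf []) (.leaf [⟨133852315474782, 60, 2311440⟩,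
  ⟨135135436324205, 60, 4530960⟩, ⟨227860559096683, 60, 4530960⟩]))))) (.node (.node (.leaf
  [⟨192807318273374, 18, 5321280⟩, ⟨192804818479859, 18, 5321280⟩]) (.node (.leaf [⟨201122374335853,
  10, 5509680⟩]) (.node (.leaf []) (.leaf [⟨135151677291870, 58, 4526640⟩, ⟨135151676669293, 58,
  1262160⟩, ⟨135149177498355, 58, 4526640⟩])))) (.node (.leaf [⟨133966987122605, 54, 1193040⟩,
  ⟨199937684789165, 6, 5517600⟩]) (.node (.leaf []) (.node (.leaf [⟨192678469254494, 30, 5456160⟩,
  ⟨192678468631917, 30, 5317440⟩, ⟨192675969460979, 30, 5456160⟩]) (.leaf [])))))) (.node (.node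
  (.leaf [⟨135149431253747, 57, 213525⟩, ⟨201120128920307, 9, 5505555⟩]) (.node (.node (.leaf
  [⟨199937939167134, 5, 5517330⟩]) (.node (.leaf []) (.leaf [⟨133967241500574, 53, 144405⟩,
  ⟨227975446052190, 53, 4534290⟩, ⟨227975485122475, 53, 4534290⟩]))) (.node (.leaf
  [⟨236290502737246, 45, 271125⟩, ⟨236290541807531, 45, 271125⟩]) (.leaf [⟨192676223216371, 29,
  5251860⟩])))) (.node (.node (.node (.leaf [⟨199951640025845, 3, 5517825⟩, ⟨199954178889645, 3,
  5517825⟩]) (.node (.leaf []) (.leaf [⟨133983481845662, 51, 4534785⟩, ⟨133980942359285, 51, 78405⟩,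
  ⟨133983481223085, 51, 78405⟩]))) (.leaf [⟨236306743082334, 43, 3428865⟩, ⟨236306782152619, 43,
  3428865⟩])) (.node (.leaf [⟨235122053535646, 39, 2372865⟩, ⟨192790855793909, 23, 5387265⟩]) (.node
  (.node (.leaf [⟨199825330493342, 15, 5513985⟩, ⟨199822791006965, 15, 5505315⟩, ⟨199825329870765,
  15, 5505315⟩]) (.leaf [])) (.node (.leaf []) (.leaf [⟨133854632826782, 63, 2311425⟩,
  ⟨227862837378398, 63, 4530945⟩, ⟨135135214812405, 63, 4530945⟩, ⟨133852093340405, 63, 213285⟩,
  ⟨133854632204205, 63, 213285⟩, ⟨227862876448683, 63, 4530945⟩])))))))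

noncomputable def b5_45566_S2 : Tri2 := (.node (.node (.node (.leaf [⟨133981164493662,
  6578149156659242422453473620, 48, 4534800, (tB 6 139849)⟩, ⟨236304464800619,
  25092862251156736014209586245, 40, 3428880, (tB 6 136265)⟩]) (.node (.leaf [⟨192791077305709,
  21147820035049955768822469713, 20, 5387280, (tB 6 49801)⟩]) (.node (.leaf [⟨199823013141342,
  21375344741705437969629122900, 12, 5514000, (tB 6 39049)⟩]) (.leaf [⟨133852315474782,
  6578092709622376871225528660, 60, 2311440, (tB 6 141449)⟩, ⟨135135436324205,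
  6581789233067641109017072721, 60, 4530960, .nil⟩])))) (.node (.node (.leaf [⟨192804818479859,
  21147820902987898921305789701, 18, 5321280, .nil⟩, ⟨192807318273374,
  21147820917088950829328699732, 18, 5321280, .nil⟩]) (.node (.leaf [⟨201122374335853,
  21379042147189696427187049553, 10, 5509680, (tB 6 38993)⟩]) (.node (.leaf []) (.leaf
  [⟨135149177498355, 6581790101005584261500392709, 58, 4526640, .nil⟩, ⟨135151676669293,
  6581790115106635328783455313, 58, 1262160, (tB 6 141393)⟩, ⟨135151677291870,
  6581790115106636169523302740, 58, 4526640, .nil⟩])))) (.node (.leaf [⟨133966987122605,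
  6578148288297397955291595857, 54, 1193040, (tB 6 140049)⟩, ⟨199937684789165,
  21375400320380459053695190097, 6, 5517600, (tB 6 37649)⟩]) (.node (.leaf []) (.node (.leaf
  [⟨192675969460979, 21147764455951033370077844741, 30, 5456160, .nil⟩, ⟨192678468631917,
  21147764470052084437360907345, 30, 5317440, (tB 6 50449)⟩, ⟨192678469254494,
  21147764470052085278100754772, 30, 5456160, .nil⟩]) (.leaf [])))))) (.node (.node (.leaf
  [⟨135149431253747, 6581790101220925812823577861, 57, 213525, (tB 6 141386)⟩, ⟨201120128920307,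
  21379042133303986911227172101, 9, 5505555, (tB 6 38986)⟩]) (.node (.node (.leaf [⟨199937939167134,
  21375400320595801445758222676, 5, 5517330, (tB 6 37642)⟩]) (.node (.leaf []) (.leaf
  [⟨133967241500574, 6578148288512740347354628436, 53, 144405, (tB 6 140042)⟩, ⟨227975446052190,
  24861640152906044860638761300, 53, 4534290, .nil⟩, ⟨227975485122475,
  24861640152909487500512543813, 53, 4534290, .nil⟩]))) (.node (.leaf [⟨236290502737246,
  25092861383006791299236958548, 45, 271125, .nil⟩, ⟨236290541807531, 25092861383010233939110741061,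
  45, 271125, .nil⟩]) (.leaf [⟨192676223216371, 21147764456166374921401029893, 29, 5251860, (tB 6
  50442)⟩])))) (.node (.node (.node (.leaf []) (.node (.leaf []) (.leaf [⟨133980942359285,
  6578149156447239178484471057, 51, 78405, .nil⟩, ⟨133983481223085, 6578149170551733726381163601,
  51, 78405, .nil⟩, ⟨133983481845662, 6578149170551734567121011028, 51, 4534785, (tB 6 148050)⟩])))
  (.leaf [⟨236306743082334, 25092862265045785519003341140, 43, 3428865, .nil⟩, ⟨236306782152619,
  25092862265049228158877123653, 43, 3428865, .nil⟩])) (.node (.leaf [⟨192790855793909,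
  21147820034837953365593314577, 23, 5387265, (tB 6 49938)⟩, ⟨235122053535646,
  25089220438236548145511481684, 39, 2372865, (tB 6 135954)⟩]) (.node (.node (.leaf
  [⟨199822791006965, 21375344741493434725660120337, 15, 5505315, .nil⟩, ⟨199825329870765,
  21375344755597929273556812881, 15, 5505315, .nil⟩, ⟨199825330493342,
  21375344755597930114296660308, 15, 5513985, (tB 6 39186)⟩]) (.leaf [])) (.node (.leaf []) (.leaf
  [⟨133852093340405, 6578092709410373627256526097, 63, 213285, .nil⟩, ⟨133854632204205,
  6578092723514868175153218641, 63, 213285, .nil⟩, ⟨133854632826782, 6578092723514869015893066068,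
  63, 2311425, (tB 6 72501650)⟩, ⟨135135214812405, 6581789232855638705787917585, 63, 4530945, .nil⟩,
  ⟨227862837378398, 24861584587908173529177198932, 63, 4530945, .nil⟩])))))))

noncomputable def b5_45566_q : List ℕ := [44, 56, 68, 74, 86, 92]

noncomputable def b5_45566_M : ℕ := 26409387504754779197847983445

noncomputable def b5_45566_C : Cert := ⟨3, 1, 4, [0, 7, 6, 0, 1, 0], [0, 0, 0, 5, 2, 7], 497⟩

noncomputable def b5_45566_T : TT := (.node (tT 1 5 628955538050696912587461171) (tT 1 5
  5738187972695058732280534813760371923) .nil .nil)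

theorem b5_45566_okF : okCode b5_45566_F = true := by decide +kernel

theorem b5_45566_okI : okIdx b5_45566_F = true := by decide +kernel

theorem b5_45566_okS : Tri'.all (okSyR b5_45566_F) b5_45566_S = true := by decide +kernel

theorem b5_45566_okZ : Tri2.all (okSzR b5_45566_F b5_45566_S) b5_45566_S2 = true := by decide +kernel

theorem b5_45566_okM : okM b5_45566_F b5_45566_M = true := by decide +kernel

theorem b5_45566_okC : okCert b5_45566_C b5_45566_F.k = true := by decide +kernel

theorem b5_45566_okG : runG5 b5_45566_F b5_45566_S b5_45566_C b5_45566_T [[]] = true := by decide +kernel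

theorem b5_45566_okE : enumR b5_45566_F (okG2R b5_45566_F b5_45566_S b5_45566_S2 b5_45566_q b5_45566_M b5_45566_T) (Nat.pred b5_45566_F.n) 1 36 = true := by decide +kernel

theorem b5_45566_good : Good 5 [4, 5, 5, 6, 6] :=
  good_mk4 b5_45566_S b5_45566_S2 b5_45566_q b5_45566_M b5_45566_C b5_45566_T 5 [4, 5, 5, 6, 6] rfl rfl b5_45566_okF b5_45566_okI b5_45566_okS b5_45566_okZ b5_45566_okM b5_45566_okC (runG4_of _ _ _ _ 0 _ rfl b5_45566_okG) b5_45566_okE

noncomputable def b5_45665_F : Code := ⟨5, [4, 5, 6, 6, 5], [(0, 2), (1, 2), (1, 3), (2, 2), (2, 3), (2, 4), (3,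
  2), (3, 3), (3, 4), (4, 2), (4, 3)], 16, 6,
  46326361768220172193978490528914815475318030854125807434513406117053298084973061480933488429132613765,
  147119579232060764813435193897614647742724694100511031296, 1591363489302⟩

noncomputable def b5_45665_S : Tri' := (.node (.node (.node (.node (.leaf [⟨236770468752235, 48, 4534800⟩]) (.leaf
  [⟨191209456229214, 24, 5456400⟩, ⟨134953973955949, 40, 3428880⟩])) (.node (.leaf
  [⟨135083897339230, 36, 2372880⟩, ⟨201604350197101, 20, 5387280⟩]) (.leaf [⟨134053105188190, 60,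
  4530960⟩, ⟨134053104565613, 60, 2311440⟩]))) (.node (.node (.leaf [⟨135065425636083, 34,
  1323600⟩]) (.leaf [⟨192128360503213, 10, 5509680⟩, ⟨134034633485043, 58, 4526640⟩])) (.node (.leaf
  [⟨192238235114334, 6, 5517600⟩, ⟨236768455486315, 54, 1193040⟩]) (.node (.leaf [⟨134951961312606,
  46, 3428640⟩, ⟨134951960690029, 46, 1319760⟩]) (.node (.leaf [⟨191207442963294, 30, 5317440⟩,
  ⟨191227491112877, 30, 5456160⟩, ⟨201472414170477, 30, 5456160⟩]) (.leaf [])))))) (.node (.node
  (.node (.leaf [⟨201586132871923, 17, 5255700⟩]) (.node (.leaf [⟨192128614881182, 9, 5505555⟩])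
  (.node (.leaf []) (.leaf [⟨236658796182878, 57, 213525⟩, ⟨134034887240435, 57, 213525⟩,
  ⟨236658835253163, 57, 213525⟩])))) (.node (.node (.leaf [⟨192258537019309, 5, 5517330⟩]) (.leaf
  [⟨236788718943582, 53, 4534290⟩, ⟨236788758013867, 53, 4534290⟩])) (.leaf [⟨191227745490846, 29,
  5455890⟩, ⟨191227744868269, 29, 5251860⟩]))) (.node (.node (.leaf [⟨192240026245877, 3, 5517825⟩])
  (.node (.leaf [⟨227312729249694, 43, 3428865⟩, ⟨134953752444149, 43, 3428865⟩]) (.leaf
  [⟨191209234094837, 27, 5247540⟩]))) (.node (.node (.node (.leaf []) (.leaf [⟨227442652010398, 39,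
  274725⟩, ⟨135083675204853, 39, 274725⟩, ⟨135063666125555, 39, 274725⟩])) (.leaf [⟨201584119606003,
  23, 5387265⟩])) (.node (.leaf [⟨192126601615262, 15, 5513985⟩, ⟨192126600992685, 15, 5505315⟩])
  (.node (.leaf []) (.leaf [⟨226411859859358, 63, 4522275⟩, ⟨236656782916958, 63, 2311425⟩,
  ⟨134052883053813, 63, 4522275⟩, ⟨134032873974515, 63, 74565⟩, ⟨236656821987243, 63,
  2311425⟩])))))))

noncomputable def b5_45665_S2 : Tri2 := (.node (.node (.node (.node (.leaf [⟨236770468752235,
  25093753906813340894378660933, 48, 4534800, (tB 6 139849)⟩]) (.leaf [⟨134953973955949,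
  6581719500916277973091423313, 40, 3428880, (tB 6 136265)⟩, ⟨191209456229214,
  21143300726867085845472809300, 24, 5456400, (tB 6 50249)⟩])) (.node (.leaf [⟨135083897339230,
  6581775951411908878879756628, 36, 2372880, (tB 6 135817)⟩, ⟨201604350197101,
  21379934677859680108424533073, 20, 5387280, (tB 6 49801)⟩]) (.leaf [⟨134053104565613,
  6578163341052512759551431761, 60, 2311440, (tB 6 141449)⟩, ⟨134053105188190,
  6578163341052513600291279188, 60, 4530960, (tB 6 148617)⟩]))) (.node (.node (.leaf
  [⟨135065425636083, 6581775062297478169788437765, 34, 1323600, (tB 6 135761)⟩]) (.leaf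
  [⟨134034633485043, 6578162451938082891199960325, 58, 4526640, (tB 6 148561)⟩, ⟨192128360503213,
  21146857775421379612685714513, 10, 5509680, (tB 6 38993)⟩])) (.node (.leaf [⟨192238235114334,
  21146913323445466264307568980, 6, 5517600, (tB 6 37649)⟩, ⟨236768455486315,
  25093753893032326034624943173, 54, 1193040, (tB 6 140049)⟩]) (.node (.leaf [⟨134951960690029,
  6581719487135263113337705553, 46, 1319760, (tB 6 136465)⟩, ⟨134951961312606,
  6581719487135263954077552980, 46, 3428640, (tB 6 137361)⟩]) (.node (.leaf [⟨191207442963294,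
  21143300713086070985719091540, 30, 5317440, (tB 6 50449)⟩, ⟨191227491112877,
  21143301615557614399145722961, 30, 5456160, .nil⟩, ⟨201472414170477,
  21379878213583035183622329425, 30, 5456160, .nil⟩]) (.leaf [])))))) (.node (.node (.node (.leaf
  [⟨201586132871923, 21379933788960591791396246789, 17, 5255700, (tB 6 49738)⟩]) (.node (.leaf
  [⟨192128614881182, 21146857775636722004748747092, 9, 5505555, (tB 6 38986)⟩]) (.node (.leaf [])
  (.leaf [⟨134034887240435, 6578162452153424442523145477, 57, 213525, .nil⟩, ⟨236658796182878,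
  25093698345220139135192338772, 57, 213525, .nil⟩, ⟨236658835253163, 25093698345223581775066121285,
  57, 213525, .nil⟩])))) (.node (.node (.leaf [⟨192258537019309, 21146914226132351229057385553, 5,
  5517330, (tB 6 37642)⟩]) (.leaf [⟨236788718943582, 25093754795715769200240824660, 53, 4534290,
  .nil⟩, ⟨236788758013867, 25093754795719211840114607173, 53, 4534290, .nil⟩])) (.leaf
  [⟨191227744868269, 21143301615772955950468908113, 29, 5251860, (tB 6 50442)⟩, ⟨191227745490846,
  21143301615772956791208755540, 29, 5455890, (tB 6 51338)⟩]))) (.node (.node (.leaf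
  [⟨192240026245877, 21146913337014477880092284177, 3, 5517825, (tB 6 37474)⟩]) (.node (.leaf
  [⟨134953752444149, 6581719500704275569862268177, 43, 3428865, .nil⟩, ⟨227312729249694,
  24860677893277468704502006100, 43, 3428865, .nil⟩]) (.leaf [⟨191209234094837,
  21143300726655082601503806737, 27, 5247540, (tB 6 50274)⟩]))) (.node (.node (.node (.leaf [])
  (.leaf [⟨135063666125555, 6581775048731804861357905157, 39, 274725, .nil⟩, ⟨135083675204853,
  6581775951199905634910754065, 39, 274725, .nil⟩, ⟨227442652010398, 24860734343773098769550491988,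
  39, 274725, .nil⟩])) (.leaf [⟨201584119606003, 21379933775179576931642529029, 23, 5387265, (tB 6
  49938)⟩])) (.node (.leaf [⟨192126600992685, 21146857761855706304255181905, 15, 5505315, (tB 6
  39074)⟩, ⟨192126601615262, 21146857761855707144995029332, 15, 5513985, (tB 6 39186)⟩]) (.node
  (.leaf []) (.leaf [⟨134032873974515, 6578162438372409582769427717, 63, 74565, .nil⟩,
  ⟨134052883053813, 6578163340840510356322276625, 63, 4522275, .nil⟩, ⟨226411859859358,
  24857121733413703490962014548, 63, 4522275, .nil⟩, ⟨236656782916958,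
  25093698331439124275438621012, 63, 2311425, .nil⟩, ⟨236656821987243,
  25093698331442566915312403525, 63, 2311425, .nil⟩])))))))

noncomputable def b5_45665_q : List ℕ := [44, 56, 62, 74, 80, 92]

noncomputable def b5_45665_M : ℕ := 26409387504754779197847983445

noncomputable def b5_45665_C : Cert := ⟨1, 1, 2, [0, 0, 0, 0, 0, 0], [0, 0, 0, 0, 0, 0], 0⟩

noncomputable def b5_45665_T : TT := (.node (tT 1 5 18149204603818824903799947125529187589280518411395891) (tT 1 5
  49962079716947797421461505110998089652487931263) .nil .nil)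

theorem b5_45665_okF : okCode b5_45665_F = true := by decide +kernel

theorem b5_45665_okI : okIdx b5_45665_F = true := by decide +kernel

theorem b5_45665_okS : Tri'.all (okSyR b5_45665_F) b5_45665_S = true := by decide +kernel

theorem b5_45665_okZ : Tri2.all (okSzR b5_45665_F b5_45665_S) b5_45665_S2 = true := by decide +kernel

theorem b5_45665_okM : okM b5_45665_F b5_45665_M = true := by decide +kernel

theorem b5_45665_okC : okCert b5_45665_C b5_45665_F.k = true := by decide +kernel

theorem b5_45665_okG : runG5 b5_45665_F b5_45665_S b5_45665_C b5_45665_T [[]] = true := by decide +kernel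

theorem b5_45665_okE : enumR b5_45665_F (okG2R b5_45665_F b5_45665_S b5_45665_S2 b5_45665_q b5_45665_M b5_45665_T) (Nat.pred b5_45665_F.n) 1 36 = true := by decide +kernel

theorem b5_45665_good : Good 5 [4, 5, 6, 6, 5] :=
  good_mk4 b5_45665_S b5_45665_S2 b5_45665_q b5_45665_M b5_45665_C b5_45665_T 5 [4, 5, 6, 6, 5] rfl rfl b5_45665_okF b5_45665_okI b5_45665_okS b5_45665_okZ b5_45665_okM b5_45665_okC (runG4_of _ _ _ _ 0 _ rfl b5_45665_okG) b5_45665_okE

noncomputable def b5_46466_F : Code := ⟨5, [4, 6, 4, 6, 6], [(0, 2), (1, 2), (1, 3), (1, 4), (2, 2), (3, 2), (3,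
  3), (3, 4), (4, 2), (4, 3), (4, 4)], 16, 6,
  46326375343022191514276582588592252858788101444970414258345227885843269094115823786567885982580017285,
  147149503478085376323729883769212622411069660024606294016, 1592168844438⟩

noncomputable def b5_46466_S : Tri' := (.node (.node (.node (.node (.leaf [⟨133980929612638, 48, 4534800⟩,
  ⟨133983479125933, 48, 4534800⟩]) (.leaf [⟨236304229919595, 40, 3428880⟩])) (.node (.leaf
  [⟨192790842424685, 20, 5387280⟩]) (.node (.leaf [⟨199822778260318, 12, 5514000⟩, ⟨199825327773613,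
  12, 5514000⟩]) (.node (.leaf []) (.leaf [⟨133852080593758, 60, 2311440⟩, ⟨133854630107053, 60,
  2311440⟩, ⟨135135201443181, 60, 4530960⟩, ⟨227860324215659, 60, 4530960⟩]))))) (.node (.leaf
  [⟨135149445933811, 58, 1262160⟩, ⟨201120143600371, 10, 5509680⟩]) (.node (.node (.leaf
  [⟨199937953847198, 6, 5517600⟩]) (.leaf [⟨133967256180638, 54, 1193040⟩, ⟨227975499802539, 54,
  4534560⟩])) (.leaf [⟨192676237896435, 30, 5317440⟩, ⟨236290556487595, 46, 1319760⟩])))) (.node
  (.node (.node (.leaf [⟨235138545538974, 33, 274965⟩, ⟨192807347797237, 17, 5255700⟩]) (.leaf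
  [⟨135151706815733, 57, 4522515⟩])) (.node (.leaf [⟨227975211171166, 53, 4534290⟩]) (.node (.leaf
  [⟨235009696520094, 45, 3428370⟩, ⟨236290267856222, 45, 271125⟩]) (.leaf [⟨192678498778357, 29,
  5455890⟩])))) (.node (.node (.node (.leaf [⟨199951595821918, 3, 5517825⟩, ⟨199954145335213, 3,
  5517825⟩]) (.node (.leaf []) (.leaf [⟨133983448291230, 51, 4534785⟩, ⟨133980898155358, 51, 78405⟩,
  ⟨133981210794741, 51, 4534785⟩, ⟨133983447668653, 51, 78405⟩, ⟨227989141777259, 51, 4534785⟩])))
  (.leaf [⟨236306748598187, 43, 3428865⟩, ⟨236304198462315, 43, 266805⟩])) (.node (.leaf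
  [⟨192790811589982, 23, 5387265⟩, ⟨192790810967405, 23, 5255460⟩]) (.node (.node (.leaf
  [⟨199825296938910, 15, 5513985⟩, ⟨199822746803038, 15, 5505315⟩, ⟨199823059442421, 15, 5513985⟩,
  ⟨199825296316333, 15, 5505315⟩, ⟨201105867652461, 15, 5513985⟩]) (.leaf [])) (.node (.leaf [])
  (.leaf [⟨133854599272350, 63, 2311425⟩, ⟨135135170608478, 63, 4530945⟩, ⟨133852049136478, 63,
  213285⟩, ⟨133852361775861, 63, 2311425⟩, ⟨133854598649773, 63, 213285⟩, ⟨135135169985901, 63,
  74565⟩, ⟨227862842894251, 63, 4530945⟩, ⟨227860292758379, 63, 4522275⟩])))))))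

noncomputable def b5_46466_S2 : Tri2 := (.node (.node (.node (.leaf [⟨133980929612638,
  6578149156446447340060217684, 48, 4534800, .nil⟩]) (.node (.leaf [⟨192790842424685,
  21147820034837160686429213777, 20, 5387280, (tB 6 49801)⟩]) (.node (.leaf [⟨199822778260318,
  21375344741492642887235866964, 12, 5514000, .nil⟩, ⟨199825327773613,
  21375344755597916079417279569, 12, 5514000, .nil⟩]) (.node (.leaf []) (.leaf [⟨133852080593758,
  6578092709409581788832272724, 60, 2311440, .nil⟩, ⟨133854630107053, 6578092723514854981013685329,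
  60, 2311440, .nil⟩, ⟨135135201443181, 6581789232854846026623816785, 60, 4530960, .nil⟩])))))
  (.node (.leaf [⟨135149445933811, 6581790101221757043614176517, 58, 1262160, (tB 6 141393)⟩,
  ⟨201120143600371, 21379042133304818142017770757, 10, 5509680, (tB 6 38993)⟩]) (.node (.node (.leaf
  [⟨199937953847198, 21375400320596632676548821332, 6, 5517600, (tB 6 37649)⟩]) (.leaf
  [⟨133967256180638, 6578148288513571578145227092, 54, 1193040, (tB 6 140049)⟩, ⟨227975499802539,
  24861640152910318731303142469, 54, 4534560, (tB 6 148113)⟩])) (.leaf [⟨192676237896435,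
  21147764456167206152191628549, 30, 5317440, (tB 6 50449)⟩, ⟨236290556487595,
  25092861383011065169901339717, 46, 1319760, (tB 6 136465)⟩])))) (.node (.node (.node (.leaf
  [⟨192807347797237, 21147820917092275942543349009, 17, 5255700, (tB 6 49738)⟩, ⟨235138545538974,
  25089221320490870722461516116, 33, 274965, (tB 6 135754)⟩]) (.leaf [⟨135151706815733,
  6581790115109961282737952017, 57, 4522515, (tB 6 148554)⟩])) (.node (.leaf [⟨227975211171166,
  24861640152693249778245505364, 53, 4534290, (tB 6 148106)⟩]) (.node (.leaf [⟨235009696520094,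
  25089164873454005171233571156, 45, 3428370, (tB 6 137354)⟩, ⟨236290267856222,
  25092861382793996216843702612, 45, 271125, (tB 6 136458)⟩]) (.leaf [⟨192678498778357,
  21147764470055410391315404049, 29, 5455890, (tB 6 51338)⟩])))) (.node (.node (.node (.leaf
  [⟨199951595821918, 21375401188526143932882817364, 3, 5517825, .nil⟩]) (.node (.leaf []) (.leaf
  [⟨133980898155358, 6578149156443082834479223124, 51, 78405, .nil⟩, ⟨133983447668653,
  6578149170548356026660635729, 51, 78405, .nil⟩, ⟨133983448291230, 6578149170548356867400483156,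
  51, 4534785, .nil⟩]))) (.leaf [⟨236304198462315, 25092862250940576426235335749, 43, 266805, (tB 6
  136290)⟩])) (.node (.leaf [⟨192790810967405, 21147820034833796180848219217, 23, 5255460, (tB 6
  49826)⟩, ⟨192790811589982, 21147820034833797021588066644, 23, 5387265, (tB 6 49938)⟩]) (.node
  (.node (.leaf [⟨199822746803038, 21375344741489278381654872404, 15, 5505315, .nil⟩,
  ⟨199823059442421, 21375344741709607507773904145, 15, 5513985, .nil⟩, ⟨199825296316333,
  21375344755594551573836285009, 15, 5505315, .nil⟩, ⟨199825296938910,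
  21375344755594552414576132436, 15, 5513985, .nil⟩]) (.leaf [])) (.node (.leaf []) (.leaf
  [⟨133852049136478, 6578092709406217283251278164, 63, 213285, .nil⟩, ⟨133852361775861,
  6578092709626546409370309905, 63, 2311425, .nil⟩, ⟨133854598649773, 6578092723511490475432690769,
  63, 213285, .nil⟩, ⟨133854599272350, 6578092723511491316172538196, 63, 2311425, .nil⟩,
  ⟨135135169985901, 6581789232851481521042822225, 63, 74565, .nil⟩, ⟨135135170608478,
  6581789232851482361782669652, 63, 4530945, .nil⟩, ⟨227860292758379, 24861584573802964436409193541,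
  63, 4522275, .nil⟩])))))))

noncomputable def b5_46466_q : List ℕ := [44, 50, 68, 74, 86, 92]

noncomputable def b5_46466_M : ℕ := 26409387504754779197847983445

noncomputable def b5_46466_C : Cert := ⟨3, 1, 4, [0, 7, 3, 4, 0, 0], [0, 0, 4, 3, 6, 1], 350⟩

noncomputable def b5_46466_T : TT := (.node (tT 1 5 2736235685574820492623845866738) (tT 1 5
  11635293991713432042794731605720323001) .nil .nil)

theorem b5_46466_okF : okCode b5_46466_F = true := by decide +kernel

theorem b5_46466_okI : okIdx b5_46466_F = true := by decide +kernel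

theorem b5_46466_okS : Tri'.all (okSyR b5_46466_F) b5_46466_S = true := by decide +kernel

theorem b5_46466_okZ : Tri2.all (okSzR b5_46466_F b5_46466_S) b5_46466_S2 = true := by decide +kernel

theorem b5_46466_okM : okM b5_46466_F b5_46466_M = true := by decide +kernel

theorem b5_46466_okC : okCert b5_46466_C b5_46466_F.k = true := by decide +kernel

theorem b5_46466_okG : runG5 b5_46466_F b5_46466_S b5_46466_C b5_46466_T [[]] = true := by decide +kernel

theorem b5_46466_okE : enumR b5_46466_F (okG2R b5_46466_F b5_46466_S b5_46466_S2 b5_46466_q b5_46466_M b5_46466_T) (Nat.pred b5_46466_F.n) 1 36 = true := by decide +kernel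

theorem b5_46466_good : Good 5 [4, 6, 4, 6, 6] :=
  good_mk4 b5_46466_S b5_46466_S2 b5_46466_q b5_46466_M b5_46466_C b5_46466_T 5 [4, 6, 4, 6, 6] rfl rfl b5_46466_okF b5_46466_okI b5_46466_okS b5_46466_okZ b5_46466_okM b5_46466_okC (runG4_of _ _ _ _ 0 _ rfl b5_46466_okG) b5_46466_okE

noncomputable def b5_55556_F : Code := ⟨5, [5, 5, 5, 5, 6], [(0, 2), (0, 3), (1, 2), (1, 3), (2, 2), (2, 3), (3,
  2), (3, 3), (4, 2), (4, 3), (4, 4)], 16, 6,
  46326375343022191514276581456043743495789917318727189072540963975360591402647690168746246554387679365,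
  147149503478085115050675032285839234986796272165675073536, 1592168795283⟩

noncomputable def b5_55556_S : Tri' := (.node (.node (.node (.leaf [⟨192678095863149, 24, 5456400⟩,
  ⟨236289193864043, 40, 3428880⟩]) (.node (.leaf []) (.node (.leaf [⟨199823176619949, 12, 5514000⟩,
  ⟨201123075308909, 12, 5514000⟩]) (.leaf [⟨133852478953389, 60, 2311440⟩, ⟨135152377642349, 60,
  2311440⟩])))) (.node (.leaf [⟨227862440754526, 58, 4526640⟩, ⟨227862753241003, 58, 4526640⟩])
  (.node (.node (.leaf [⟨199934818507509, 6, 5517600⟩, ⟨199955129423789, 6, 5517600⟩]) (.leaf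
  [⟨133964120840949, 54, 1193040⟩, ⟨133984431757229, 54, 1193040⟩])) (.node (.node (.leaf []) (.leaf
  [⟨235007521511326, 46, 3428640⟩, ⟨236307420200286, 46, 3428640⟩, ⟨236307732686763, 46, 3428640⟩]))
  (.leaf [⟨192676323769589, 30, 5456160⟩]))))) (.node (.node (.node (.leaf [⟨235120967211870, 33,
  274965⟩, ⟨192789764598635, 17, 5255700⟩]) (.leaf [⟨135134123617131, 57, 4522515⟩])) (.node (.leaf
  [⟨227992395234654, 53, 4534290⟩, ⟨227972396804851, 53, 4534290⟩]) (.node (.leaf [⟨236307451919710,
  45, 271125⟩, ⟨236287453489907, 45, 271125⟩]) (.leaf [⟨192676355489013, 29, 5251860⟩,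
  ⟨192676350617515, 29, 5251860⟩])))) (.node (.node (.node (.leaf [⟨199936562912094, 3, 5517825⟩,
  ⟨199936880270069, 3, 5517825⟩]) (.leaf [⟨133965865245534, 51, 78405⟩, ⟨133966182603509, 51,
  78405⟩])) (.node (.leaf [⟨235009583273886, 43, 3428865⟩, ⟨236289483533043, 43, 3428865⟩]) (.leaf
  [⟨192678068174174, 27, 5456385⟩, ⟨192678380660651, 27, 5456385⟩]))) (.node (.node (.leaf
  [⟨235139506034590, 39, 274725⟩]) (.node (.leaf [⟨192807990934878, 23, 5255460⟩, ⟨192808308292853,
  23, 5255460⟩, ⟨192787992505075, 23, 5255460⟩]) (.leaf []))) (.node (.node (.leaf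
  [⟨199823148930974, 15, 5513985⟩, ⟨201123364977909, 15, 5513985⟩, ⟨201103049190131, 15, 5513985⟩,
  ⟨201123360106411, 15, 5513985⟩]) (.leaf [])) (.node (.leaf []) (.leaf [⟨133852451264414, 63,
  2311425⟩, ⟨135152349953374, 63, 4522275⟩, ⟨135152667311349, 63, 74565⟩, ⟨135132351523571, 63,
  74565⟩, ⟨135152662439851, 63, 2311425⟩])))))))

noncomputable def b5_55556_S2 : Tri2 := (.node (.node (.node (.leaf [⟨192678095863149,
  21147764469785194207514793041, 24, 5456400, (tB 6 50249)⟩, ⟨236289193864043,
  25092861379335231497115604037, 40, 3428880, (tB 6 136265)⟩]) (.node (.leaf []) (.node (.leaf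
  [⟨199823176619949, 21375344741762806072210703441, 12, 5514000, .nil⟩, ⟨201123075308909,
  21379042150381570711161476177, 12, 5514000, .nil⟩]) (.leaf [⟨133852478953389,
  6578092709679744973807109201, 60, 2311440, .nil⟩, ⟨135152377642349, 6581790118298509612757881937,
  60, 2311440, .nil⟩])))) (.node (.leaf [⟨227862440754526, 24861584587638023316074205524, 58,
  4526640, .nil⟩]) (.node (.leaf [⟨133964120840949, 6578148271269583257956799761, 54, 1193040,
  .nil⟩, ⟨133984431757229, 6578149173957234323539444817, 54, 1193040, .nil⟩]) (.node (.node (.leaf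
  []) (.leaf [⟨235007521511326, 25089164859615635180770115924, 46, 3428640, .nil⟩, ⟨236307420200286,
  25092862268234399819720888660, 46, 3428640, .nil⟩, ⟨236307732686763,
  25092862268454728756035404869, 46, 3428640, .nil⟩])) (.leaf [⟨192676323769589,
  21147764456217040400851948817, 30, 5456160, (tB 6 51345)⟩]))))) (.node (.node (.node (.leaf
  [⟨192789764598635, 21147820031378343412407538757, 17, 5255700, (tB 6 49738)⟩, ⟨235120967211870,
  25089220434776991983322075476, 33, 274965, (tB 6 135754)⟩]) (.leaf [⟨135134123617131,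
  6581789229396028752602141765, 57, 4522515, (tB 6 148554)⟩])) (.node (.leaf [⟨227992395234654,
  24861641038137018092862116180, 53, 4534290, .nil⟩]) (.node (.leaf [⟨236287453489907,
  25092861365770442402192184581, 45, 271125, .nil⟩, ⟨236307451919710, 25092862268237764531460313428,
  45, 271125, .nil⟩]) (.leaf [⟨192676350617515, 21147764456220351321595003973, 29, 5251860, .nil⟩,
  ⟨192676355489013, 21147764456220405112591373585, 29, 5251860, .nil⟩])))) (.node (.node (.node
  (.leaf [⟨199936562912094, 21375400316917485625472782676, 3, 5517825, .nil⟩, ⟨199936880270069,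
  21375400317137868352783668497, 3, 5517825, .nil⟩]) (.leaf [⟨133965865245534,
  6578148284834424527069188436, 51, 78405, .nil⟩, ⟨133966182603509, 6578148285054807254380074257,
  51, 78405, .nil⟩])) (.node (.leaf [⟨235009583273886, 25089164873400859177193390420, 43, 3428865,
  .nil⟩, ⟨236289483533043, 25092861379552301686876034309, 43, 3428865, .nil⟩]) (.leaf
  [⟨192678068174174, 21147764469781881669964337492, 27, 5456385, .nil⟩, ⟨192678380660651,
  21147764470002210606278853701, 27, 5456385, .nil⟩]))) (.node (.node (.leaf [⟨235139506034590,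
  25089221323896489242241876308, 39, 274725, (tB 6 135842)⟩]) (.node (.leaf [⟨192787992505075,
  21147820017810189605744694533, 23, 5255460, .nil⟩, ⟨192807990934878,
  21147820920277511735012823380, 23, 5255460, .nil⟩, ⟨192808308292853,
  21147820920497894462323709201, 23, 5255460, .nil⟩]) (.leaf []))) (.node (.leaf [⟨199823148930974,
  21375344741759493534660247892, 15, 5513985, .nil⟩, ⟨201123364977909,
  21379042150598640900921906449, 15, 5513985, .nil⟩]) (.node (.leaf []) (.leaf [⟨133852451264414,
  6578092709676432436256653652, 63, 2311425, .nil⟩, ⟨135132351523571, 6581789215827874945939297541,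
  63, 74565, .nil⟩, ⟨135152349953374, 6581790118295197075207426388, 63, 4522275, .nil⟩,
  ⟨135152662439851, 6581790118515526011521942597, 63, 2311425, .nil⟩, ⟨135152667311349,
  6581790118515579802518312209, 63, 74565, .nil⟩])))))))

noncomputable def b5_55556_q : List ℕ := [38, 50, 62, 74, 86, 92]

noncomputable def b5_55556_M : ℕ := 26409387504754779197847983445

noncomputable def b5_55556_C : Cert := ⟨10, 1, 5, [0, 1022, 127, 281, 532, 140], [0, 0, 896, 608, 448, 32],
  971081727⟩

noncomputable def b5_55556_T : TT := (tT 1 6 343129065443173458531657628472316338483)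

theorem b5_55556_okF : okCode b5_55556_F = true := by decide +kernel

theorem b5_55556_okI : okIdx b5_55556_F = true := by decide +kernel

theorem b5_55556_okS : Tri'.all (okSyR b5_55556_F) b5_55556_S = true := by decide +kernel

theorem b5_55556_okZ : Tri2.all (okSzR b5_55556_F b5_55556_S) b5_55556_S2 = true := by decide +kernel

theorem b5_55556_okM : okM b5_55556_F b5_55556_M = true := by decide +kernel

theorem b5_55556_okC : okCert b5_55556_C b5_55556_F.k = true := by decide +kernel

theorem b5_55556_okG : runG5 b5_55556_F b5_55556_S b5_55556_C b5_55556_T [[]] = true := by decide +kernel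

theorem b5_55556_okE : enumR b5_55556_F (okG2R b5_55556_F b5_55556_S b5_55556_S2 b5_55556_q b5_55556_M b5_55556_T) (Nat.pred b5_55556_F.n) 1 36 = true := by decide +kernel

theorem b5_55556_good : Good 5 [5, 5, 5, 5, 6] :=
  good_mk4 b5_55556_S b5_55556_S2 b5_55556_q b5_55556_M b5_55556_C b5_55556_T 5 [5, 5, 5, 5, 6] rfl rfl b5_55556_okF b5_55556_okI b5_55556_okS b5_55556_okZ b5_55556_okM b5_55556_okC (runG4_of _ _ _ _ 0 _ rfl b5_55556_okG) b5_55556_okE

noncomputable def b5_44666_F : Code := ⟨5, [4, 4, 6, 6, 6], [(0, 2), (1, 2), (2, 2), (2, 3), (2, 4), (3, 2), (3,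
  3), (3, 4), (4, 2), (4, 3), (4, 4)], 16, 6,
  46326375343022191514276582588592252859007046753501043583427103233955588042995411644082672708446521477,
  147149503478085376323740267094969606828275974451836747776, 1592168844825⟩

noncomputable def b5_44666_S : Tri' := (.node (.node (.node (.node (.leaf [⟨133981193853790, 48, 4534800⟩,
  ⟨133981198211829, 48, 4534800⟩]) (.leaf [⟨236304494160747, 40, 3428880⟩])) (.node (.leaf
  [⟨192791106665837, 20, 5387280⟩]) (.node (.leaf [⟨199823042501470, 12, 5514000⟩, ⟨199823046859509,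
  12, 5514000⟩]) (.node (.leaf []) (.leaf [⟨133852344834910, 60, 2311440⟩, ⟨133852349192949, 60,
  2311440⟩, ⟨135135465684333, 60, 4530960⟩, ⟨227860588456811, 60, 4530960⟩]))))) (.node (.node
  (.node (.leaf [⟨235138549733278, 34, 1323600⟩]) (.leaf [⟨192807347633502, 18, 5321280⟩,
  ⟨192807351991541, 18, 5321280⟩])) (.node (.leaf [⟨201122403695981, 10, 5509680⟩]) (.node (.leaf
  []) (.leaf [⟨135151706651998, 58, 4526640⟩, ⟨135151711010037, 58, 4526640⟩, ⟨135151706029421, 58,
  1262160⟩])))) (.node (.leaf []) (.node (.leaf [⟨235009700714398, 46, 3428640⟩]) (.node (.leaf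
  [⟨192678498614622, 30, 5456160⟩, ⟨192678502972661, 30, 5456160⟩, ⟨192678497992045, 30, 5317440⟩])
  (.leaf [])))))) (.node (.node (.leaf [⟨135149397699315, 57, 4522515⟩, ⟨192805038680819, 17,
  5255700⟩]) (.node (.leaf [⟨133967207323565, 53, 144405⟩, ⟨199937904990125, 5, 5517330⟩]) (.leaf
  [⟨192676189661939, 29, 5455890⟩]))) (.node (.node (.node (.leaf [⟨199951639862110, 3, 5517825⟩,
  ⟨199951644220149, 3, 5517825⟩]) (.node (.leaf []) (.leaf [⟨133980942195550, 51, 78405⟩,
  ⟨133980946553589, 51, 78405⟩, ⟨133983447668653, 51, 4534785⟩, ⟨227989185817451, 51, 4534785⟩])))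
  (.leaf [⟨236304242502507, 43, 266805⟩])) (.node (.node (.leaf [⟨235122057729950, 39, 2372865⟩])
  (.node (.leaf [⟨192790855630174, 23, 5387265⟩, ⟨192790859988213, 23, 5387265⟩, ⟨192790855007597,
  23, 5255460⟩]) (.leaf []))) (.node (.node (.leaf [⟨199822790843230, 15, 5505315⟩,
  ⟨199822795201269, 15, 5505315⟩, ⟨199825296316333, 15, 5513985⟩, ⟨201105911692653, 15, 5513985⟩])
  (.leaf [])) (.node (.leaf []) (.leaf [⟨135135214648670, 63, 4530945⟩, ⟨133852093176670, 63,
  213285⟩, ⟨135135219006709, 63, 4530945⟩, ⟨133852097534709, 63, 213285⟩, ⟨133854598649773, 63,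
  2311425⟩, ⟨135135214026093, 63, 74565⟩, ⟨227860336798571, 63, 4522275⟩])))))))

noncomputable def b5_44666_S2 : Tri2 := (.node (.node (.node (.leaf [⟨133981193853790,
  6578149156662567345615868244, 48, 4534800, .nil⟩]) (.node (.leaf []) (.node (.leaf
  [⟨199823042501470, 21375344741708762892791517524, 12, 5514000, .nil⟩, ⟨199823046859509,
  21375344741708815859401905425, 12, 5514000, .nil⟩]) (.leaf [⟨133852344834910,
  6578092709625701794387923284, 60, 2311440, .nil⟩, ⟨133852349192949, 6578092709625754760998311185,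
  60, 2311440, .nil⟩])))) (.node (.node (.node (.leaf [⟨235138549733278,
  25089221320490923499019649364, 34, 1323600, (tB 6 135761)⟩]) (.leaf [⟨192807347633502,
  21147820917092275752491094356, 18, 5321280, .nil⟩, ⟨192807351991541,
  21147820917092328719101482257, 18, 5321280, .nil⟩])) (.node (.leaf []) (.node (.leaf []) (.leaf
  [⟨135151706029421, 6581790115109960251945849937, 58, 1262160, (tB 6 141393)⟩, ⟨135151706651998,
  6581790115109961092685697364, 58, 4526640, .nil⟩, ⟨135151711010037, 6581790115110014059296085265,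
  58, 4526640, .nil⟩])))) (.node (.leaf []) (.node (.leaf [⟨235009700714398,
  25089164873454057947791704404, 46, 3428640, (tB 6 137361)⟩]) (.node (.leaf [⟨192678497992045,
  21147764470055409360523301969, 30, 5317440, (tB 6 50449)⟩, ⟨192678498614622,
  21147764470055410201263149396, 30, 5456160, .nil⟩, ⟨192678502972661,
  21147764470055463167873537297, 30, 5456160, .nil⟩]) (.leaf [])))))) (.node (.node (.leaf
  [⟨135149397699315, 6581790101217548113103049989, 57, 4522515, (tB 6 148554)⟩, ⟨192805038680819,
  21147820903199862772908446981, 17, 5255700, (tB 6 49738)⟩]) (.node (.leaf [⟨133967207323565,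
  6578148288509361806894253137, 53, 144405, (tB 6 140042)⟩, ⟨199937904990125,
  21375400320592422905297847377, 5, 5517330, (tB 6 37642)⟩]) (.leaf [⟨192676189661939,
  21147764456162997221680502021, 29, 5455890, (tB 6 51338)⟩]))) (.node (.node (.node (.leaf
  [⟨199951639862110, 21375401188530300086835810644, 3, 5517825, .nil⟩]) (.leaf [⟨133980942195550,
  6578149156447238988432216404, 51, 78405, .nil⟩, ⟨133980946553589, 6578149156447291955042604305,
  51, 78405, .nil⟩])) (.leaf [])) (.node (.node (.leaf [⟨235122057729950,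
  25089220438236600922069614932, 39, 2372865, (tB 6 135954)⟩]) (.node (.leaf [⟨192790855007597,
  21147820034837952334801212497, 23, 5255460, (tB 6 49826)⟩, ⟨192790855630174,
  21147820034837953175541059924, 23, 5387265, .nil⟩, ⟨192790859988213,
  21147820034838006142151447825, 23, 5387265, .nil⟩]) (.leaf []))) (.node (.node (.leaf
  [⟨199822790843230, 21375344741493434535607865684, 15, 5505315, .nil⟩, ⟨199822795201269,
  21375344741493487502218253585, 15, 5505315, .nil⟩, ⟨199825296316333,
  21375344755594551573836285009, 15, 5513985, .nil⟩]) (.leaf [])) (.node (.leaf []) (.leaf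
  [⟨133852093176670, 6578092709410373437204271444, 63, 213285, .nil⟩, ⟨133852097534709,
  6578092709410426403814659345, 63, 213285, .nil⟩, ⟨133854598649773, 6578092723511490475432690769,
  63, 2311425, .nil⟩, ⟨135135214026093, 6581789232855637674995815505, 63, 74565, .nil⟩,
  ⟨135135214648670, 6581789232855638515735662932, 63, 4530945, .nil⟩, ⟨135135219006709,
  6581789232855691482346050833, 63, 4530945, .nil⟩])))))))

noncomputable def b5_44666_q : List ℕ := [50, 56, 68, 74, 86, 92]

noncomputable def b5_44666_M : ℕ := 26409387504754779197847983445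

noncomputable def b5_44666_C : Cert := ⟨2, 2, 2, [0, 3, 1, 1, 3, 0], [0, 0, 0, 2, 0, 2], 51⟩

noncomputable def b5_44666_T : TT := (tT 2 6 51345382376267854185895457088793935273257427328978491171)

theorem b5_44666_okF : okCode b5_44666_F = true := by decide +kernel

theorem b5_44666_okI : okIdx b5_44666_F = true := by decide +kernel

theorem b5_44666_okS : Tri'.all (okSyR b5_44666_F) b5_44666_S = true := by decide +kernel

theorem b5_44666_okZ : Tri2.all (okSzR b5_44666_F b5_44666_S) b5_44666_S2 = true := by decide +kernel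

theorem b5_44666_okM : okM b5_44666_F b5_44666_M = true := by decide +kernel

theorem b5_44666_okC : okCert b5_44666_C b5_44666_F.k = true := by decide +kernel

theorem b5_44666_okG : runG5 b5_44666_F b5_44666_S b5_44666_C b5_44666_T [[]] = true := by decide +kernel

theorem b5_44666_okE : enumR b5_44666_F (okG2R b5_44666_F b5_44666_S b5_44666_S2 b5_44666_q b5_44666_M b5_44666_T) (Nat.pred b5_44666_F.n) 1 36 = true := by decide +kernel

theorem b5_44666_good : Good 5 [4, 4, 6, 6, 6] :=
  good_mk4 b5_44666_S b5_44666_S2 b5_44666_q b5_44666_M b5_44666_C b5_44666_T 5 [4, 4, 6, 6, 6] rfl rfl b5_44666_okF b5_44666_okI b5_44666_okS b5_44666_okZ b5_44666_okM b5_44666_okC (runG4_of _ _ _ _ 0 _ rfl b5_44666_okG) b5_44666_okE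

noncomputable def b6_444666_F : Code := ⟨6, [4, 4, 4, 6, 6, 6], [(0, 2), (1, 2), (2, 2), (3, 2), (3, 3), (3, 4),
  (4, 2), (4, 3), (4, 4), (5, 2), (5, 3), (5, 4)], 18, 6,
  232830799367355491888963503298855747565487244104370849873266233550897002144563116585010223822279214697755560888837,
  2468759004144589625024676388949997607193060930988946714175471616, 1799950569759⟩

noncomputable def b6_444666_S : Tri' := (.node (.node (.node (.node (.node (.leaf []) (.node (.leaf []) (.leaf
  [⟨8574796371254110, 48, 4534800⟩, ⟨8574796406119157, 48, 4534800⟩, ⟨8574796685039533, 48,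
  4534800⟩]))) (.leaf [⟨15123487621864299, 40, 3428880⟩])) (.node (.leaf [⟨12338630826519405, 20,
  5387280⟩, ⟨12338631150353651, 20, 5387280⟩]) (.node (.node (.leaf [⟨12788674684705630, 12,
  5514000⟩, ⟨12788674719570677, 12, 5514000⟩, ⟨12788674998491053, 12, 5514000⟩]) (.leaf [])) (.node
  (.leaf []) (.leaf [⟨8566550034045790, 60, 2311440⟩, ⟨8566550068910837, 60, 2311440⟩,
  ⟨8566550347831213, 60, 2311440⟩, ⟨8648669803703149, 60, 4530960⟩, ⟨8648670127537395, 60, 4530960⟩,
  ⟨14583077656812395, 60, 4530960⟩]))))) (.node (.node (.node (.leaf []) (.node (.leaf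
  [⟨12339670213585758, 18, 5321280⟩, ⟨12339670248450805, 18, 5321280⟩, ⟨12339670527371181, 18,
  5321280⟩]) (.leaf []))) (.node (.leaf [⟨12871833836448621, 10, 5509680⟩, ⟨12871834160282867, 10,
  5509680⟩]) (.node (.leaf []) (.leaf [⟨8649709190769502, 58, 4526640⟩, ⟨8649709225634549, 58,
  4526640⟩, ⟨8649709504554925, 58, 4526640⟩, ⟨8649709185788781, 58, 1262160⟩, ⟨8649709509623027, 58,
  1262160⟩])))) (.node (.leaf []) (.node (.leaf []) (.node (.leaf [⟨12331423876377438, 30, 5456160⟩,
  ⟨12331423911242485, 30, 5456160⟩, ⟨12331424190162861, 30, 5456160⟩, ⟨12331423871396717, 30,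
  5317440⟩, ⟨12331424195230963, 30, 5317440⟩]) (.leaf [])))))) (.node (.node (.leaf []) (.node
  (.node (.leaf [⟨12796025918897517, 5, 5517330⟩]) (.leaf [⟨14590428935743390, 53, 4534290⟩,
  ⟨8573901268237677, 53, 144405⟩])) (.leaf [⟨15122592563586974, 45, 271125⟩]))) (.node (.node (.node
  (.node (.leaf [⟨12796904915786590, 3, 5517825⟩, ⟨12796904950651637, 3, 5517825⟩,
  ⟨12796905229572013, 3, 5517825⟩]) (.leaf [])) (.node (.leaf []) (.leaf [⟨8574780265126750, 51,
  78405⟩, ⟨8574780299991797, 51, 78405⟩, ⟨8574780578912173, 51, 78405⟩, ⟨8574940650323309, 51,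
  4534785⟩, ⟨14591307887893355, 51, 4534785⟩]))) (.leaf [⟨15123631945672606, 43, 3428865⟩,
  ⟨15123471515736939, 43, 266805⟩])) (.node (.node (.leaf []) (.node (.leaf [⟨12338614725372766, 23,
  5387265⟩, ⟨12338614760237813, 23, 5387265⟩, ⟨12338615039158189, 23, 5387265⟩, ⟨12338614720392045,
  23, 5255460⟩, ⟨12338615044226291, 23, 5255460⟩]) (.leaf []))) (.node (.node (.leaf
  [⟨12788658578578270, 15, 5505315⟩, ⟨12788658613443317, 15, 5505315⟩, ⟨12788658892363693, 15,
  5505315⟩, ⟨12788818963774829, 15, 5513985⟩, ⟨12870778348235629, 15, 5513985⟩, ⟨12870778672069875,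
  15, 5513985⟩]) (.leaf [])) (.node (.leaf []) (.leaf [⟨14583221980620702, 63, 4530945⟩,
  ⟨8648653702556510, 63, 4530945⟩, ⟨8566533927918430, 63, 213285⟩, ⟨8648653737421557, 63, 4530945⟩,
  ⟨8566533962783477, 63, 213285⟩, ⟨8648654016341933, 63, 4530945⟩, ⟨8566534241703853, 63, 213285⟩,
  ⟨8566694313114989, 63, 2311425⟩, ⟨8648653697575789, 63, 74565⟩, ⟨8648654021410035, 63, 74565⟩,
  ⟨14583061550685035, 63, 4522275⟩])))))))

noncomputable def b6_444666_S2 : Tri2 := (.node (.node (.node (.leaf [⟨8574796371254110,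
  26944098945689872456954897830228, 48, 4534800, .nil⟩]) (.node (.leaf []) (.node (.leaf
  [⟨12788674684705630, 87553412062039089418186357281108, 12, 5514000, .nil⟩, ⟨12788674998491053,
  87553412062039309759285768307793, 12, 5514000, .nil⟩]) (.leaf [⟨8566550034045790,
  26943867738626871159125235274068, 60, 2311440, .nil⟩, ⟨8566550347831213,
  26943867738627091500224646300753, 60, 2311440, .nil⟩])))) (.node (.node (.leaf
  [⟨12339670213585758, 86621474476409958092324401910100, 18, 5321280, .nil⟩, ⟨12339670527371181,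
  86621474476410178433423812936785, 18, 5321280, .nil⟩]) (.leaf [⟨8649709190769502,
  26959012311490397245761495830868, 58, 4526640, .nil⟩, ⟨8649709504554925,
  26959012311490617586860906857553, 58, 4526640, .nil⟩])) (.leaf [⟨12331423876377438,
  86621243269346956794494739353940, 30, 5456160, .nil⟩, ⟨12331424190162861,
  86621243269347177135594150380625, 30, 5456160, .nil⟩]))) (.node (.leaf [⟨14590428935743390,
  101833278066303429134731795841364, 53, 4534290, (tB 6 148106)⟩, ⟨15122592563586974,
  102780360224796086547230011769172, 45, 271125, (tB 6 136458)⟩]) (.node (.node (.node (.leaf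
  [⟨12796904915786590, 87553643268220105764991781900628, 3, 5517825, .nil⟩]) (.leaf
  [⟨8574780265126750, 26944098944807887505930659893588, 51, 78405, .nil⟩, ⟨8574780578912173,
  26944098944808107847030070920273, 51, 78405, .nil⟩])) (.leaf [⟨15123631945672606,
  102780363837627806871393114866004, 43, 3428865, (tB 6 137298)⟩])) (.node (.leaf
  [⟨12338614725372766, 86621470862696252817137060876628, 23, 5387265, .nil⟩, ⟨12338615039158189,
  86621470862696473158236471903313, 23, 5387265, .nil⟩]) (.node (.leaf [⟨12788658578578270,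
  87553412061157104467162119344468, 15, 5505315, .nil⟩, ⟨12788658892363693,
  87553412061157324808261530371153, 15, 5505315, .nil⟩]) (.node (.leaf []) (.leaf
  [⟨8566533927918430, 26943867737744886208100997337428, 63, 213285, .nil⟩, ⟨8566534241703853,
  26943867737745106549200408364113, 63, 213285, .nil⟩, ⟨8648653702556510,
  26959008697776691970574154797396, 63, 4530945, .nil⟩, ⟨8648654016341933,
  26959008697776912311673565824081, 63, 4530945, .nil⟩, ⟨14583221980620702,
  101833050472072148161065236382036, 63, 4530945, .nil⟩])))))))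

noncomputable def b6_444666_q : List ℕ := [62, 68, 80, 86, 98, 104]

noncomputable def b6_444666_M : ℕ := 108172851219475575594385340192085

noncomputable def b6_444666_C : Cert := ⟨1, 1, 2, [0, 0, 0, 0, 0, 0], [0, 0, 0, 0, 0, 0], 0⟩

noncomputable def b6_444666_T : TT := .nil

theorem b6_444666_okF : okCode b6_444666_F = true := by decide +kernel

theorem b6_444666_okI : okIdx b6_444666_F = true := by decide +kernel

theorem b6_444666_okS : Tri'.all (okSyR b6_444666_F) b6_444666_S = true := by decide +kernel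

theorem b6_444666_okZ : Tri2.all (okSzR b6_444666_F b6_444666_S) b6_444666_S2 = true := by decide +kernel

theorem b6_444666_okM : okM b6_444666_F b6_444666_M = true := by decide +kernel

theorem b6_444666_okC : okCert b6_444666_C b6_444666_F.k = true := by decide +kernel

theorem b6_444666_okG : runG5 b6_444666_F b6_444666_S b6_444666_C b6_444666_T [[]] = true := by decide +kernel

theorem b6_444666_okE : enumR b6_444666_F (okG2R b6_444666_F b6_444666_S b6_444666_S2 b6_444666_q b6_444666_M b6_444666_T) (Nat.pred b6_444666_F.n) 1 36 = true := by decide +kernel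

theorem b6_444666_good : Good 6 [4, 4, 4, 6, 6, 6] :=
  good_mk4 b6_444666_S b6_444666_S2 b6_444666_q b6_444666_M b6_444666_C b6_444666_T 6 [4, 4, 4, 6, 6, 6] rfl rfl b6_444666_okF b6_444666_okI b6_444666_okS b6_444666_okZ b6_444666_okM b6_444666_okC (runG4_of _ _ _ _ 0 _ rfl b6_444666_okG) b6_444666_okE

noncomputable def b4_5566_F : Code := ⟨4, [5, 5, 6, 6], [(0, 2), (0, 3), (1, 2), (1, 3), (2, 2), (2, 3), (2, 4),
  (3, 2), (3, 3), (3, 4)], 14, 6,
  9029726260792589321828916240735780907779161425599709360773945997843154724256962652030725,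
  8770793883686386127694861044146328664414162518016, 1384387119888⟩

noncomputable def b4_5566_S : Tri' := (.node (.node (.node (.leaf [⟨3692257271147, 40, 3428880⟩]) (.node (.leaf
  [⟨3012360583085, 20, 5387280⟩]) (.leaf [⟨2111491192749, 60, 4530960⟩, ⟨3560321244523, 60,
  4530960⟩]))) (.node (.leaf [⟨2111744948141, 58, 1262160⟩, ⟨3142537099181, 10, 5509680⟩]) (.node
  (.node (.leaf [⟨3124026325749, 6, 5517600⟩]) (.leaf [⟨3562112997278, 54, 4534560⟩, ⟨2093234174709,
  54, 1193040⟩])) (.leaf [⟨3692035757982, 46, 1319760⟩, ⟨3010601072557, 30, 5317440⟩])))) (.node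
  (.node (.node (.leaf [⟨3674004216670, 33, 274965⟩, ⟨3012578635115, 17, 5255700⟩]) (.leaf
  [⟨2111709244779, 57, 4522515⟩])) (.node (.leaf [⟨3562116963571, 53, 4534290⟩]) (.node (.leaf
  [⟨3671990950750, 45, 3428370⟩, ⟨3692039724275, 45, 271125⟩]) (.leaf [⟨3010565369195, 29,
  5455890⟩])))) (.node (.node (.node (.leaf [⟨3124244376414, 3, 5517825⟩, ⟨3124284046069, 3,
  5517825⟩]) (.node (.leaf []) (.leaf [⟨3562370717598, 51, 4534785⟩, ⟨2093452225374, 51, 78405⟩,
  ⟨2093491895029, 51, 78405⟩]))) (.leaf [⟨3692293478302, 43, 266805⟩, ⟨3692293479667, 43,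
  3428865⟩])) (.node (.leaf [⟨3012357121950, 23, 5387265⟩, ⟨3012357123315, 23, 5255460⟩]) (.node
  (.node (.leaf [⟨3122231110494, 15, 5505315⟩, ⟨3122270780149, 15, 5505315⟩, ⟨3142279884019, 15,
  5513985⟩]) (.leaf [])) (.node (.leaf []) (.leaf [⟨2111487731614, 63, 4530945⟩, ⟨3560357451678, 63,
  4522275⟩, ⟨2091438959454, 63, 213285⟩, ⟨2091478629109, 63, 213285⟩, ⟨2111487732979, 63, 74565⟩,
  ⟨3560357453043, 63, 4530945⟩])))))))

noncomputable def b4_5566_S2 : Tri2 := (.node (.node (.node (.leaf [⟨3692257271147, 6126187073036312705569861, 40,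
  3428880, (tB 6 136265)⟩]) (.node (.leaf [⟨3012360583085, 5163042000744618107683921, 20, 5387280,
  (tB 6 49801)⟩]) (.leaf [⟨2111491192749, 1606882136979404567692369, 60, 4530960, .nil⟩,
  ⟨3560321244523, 6069722796391387903366213, 60, 4530960, .nil⟩]))) (.node (.leaf [⟨2111744948141,
  1606882352320955890877521, 58, 1262160, (tB 6 141393)⟩, ⟨3142537099181, 5219492711716234479354961,
  10, 5509680, (tB 6 38993)⟩]) (.node (.node (.leaf [⟨3124026325749, 5218603593842885514253585, 6,
  5517600, (tB 6 37649)⟩]) (.leaf [⟨2093234174709, 1605993234447606925776145, 54, 1193040, (tB 6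
  140049)⟩, ⟨3562112997278, 6069736365403844424057172, 54, 4534560, (tB 6 148113)⟩])) (.leaf
  [⟨3010601072557, 5163028435071309677151313, 30, 5317440, (tB 6 50449)⟩, ⟨3692035757982,
  6126186861033909472543060, 46, 1319760, (tB 6 136465)⟩])))) (.node (.node (.node (.leaf
  [⟨3012578635115, 5163042212695262941484101, 17, 5255700, (tB 6 49738)⟩, ⟨3674004216670,
  6125298170557088680710484, 33, 274965, (tB 6 135754)⟩]) (.leaf [⟨2111709244779,
  1606882348930049401492549, 57, 4522515, (tB 6 148554)⟩])) (.node (.leaf [⟨3562116963571,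
  6069736365456418048857349, 53, 4534290, (tB 6 148106)⟩]) (.node (.leaf [⟨3671990950750,
  6125284389542228926992724, 45, 3428370, (tB 6 137354)⟩, ⟨3692039724275, 6126186861086483097343237,
  45, 271125, (tB 6 136458)⟩]) (.leaf [⟨3010565369195, 5163028431680403187766341, 29, 5455890, (tB 6
  51338)⟩])))) (.node (.node (.node (.leaf [⟨3124244376414, 5218603805793530344182100, 3, 5517825,
  .nil⟩, ⟨3124284046069, 5218603809237010458367249, 3, 5517825, .nil⟩]) (.node (.leaf []) (.leaf
  [⟨2093452225374, 1605993446398251755704660, 51, 78405, .nil⟩, ⟨2093491895029,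
  1605993449841731869889809, 51, 78405, .nil⟩, ⟨3562370717598, 6069736580797969368170836, 51,
  4534785, (tB 6 148050)⟩]))) (.leaf [⟨3692293478302, 6126187076428034416656724, 43, 266805, (tB 6
  136290)⟩, ⟨3692293479667, 6126187076428034420528389, 43, 3428865, (tB 6 137298)⟩])) (.node (.leaf
  [⟨3012357121950, 5163042000692859708457300, 23, 5387265, (tB 6 49938)⟩, ⟨3012357123315,
  5163042000692859712328965, 23, 5255460, (tB 6 49826)⟩]) (.node (.leaf [⟨3122231110494,
  5218590024778670590464340, 15, 5505315, .nil⟩, ⟨3122270780149, 5218590028222150704649489, 15,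
  5505315, .nil⟩]) (.node (.leaf []) (.leaf [⟨2091438959454, 1605979665383392001986900, 63, 213285,
  .nil⟩, ⟨2091478629109, 1605979668826872116172049, 63, 213285, .nil⟩, ⟨2111487731614,
  1606882136927646168465748, 63, 4530945, .nil⟩, ⟨2111487732979, 1606882136927646172337413, 63,
  74565, (tB 6 141586)⟩, ⟨3560357451678, 6069722799783109614453076, 63, 4522275, (tB 6 149650)⟩,
  ⟨3560357453043, 6069722799783109618324741, 63, 4530945, .nil⟩])))))))

noncomputable def b4_5566_q : List ℕ := [32, 44, 56, 62, 74, 80]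

noncomputable def b4_5566_M : ℕ := 6447604371278022265099605

noncomputable def b4_5566_C : Cert := ⟨3, 1, 4, [0, 7, 3, 4, 0, 0], [0, 0, 4, 3, 6, 1], 350⟩

noncomputable def b4_5566_T : TT := (.node (tT 1 5 2938010695922998244222506806844647019059) (tT 1 5
  52400705685672911016440741527864451432060575832888251) .nil .nil)

theorem b4_5566_okF : okCode b4_5566_F = true := by decide +kernel

theorem b4_5566_okI : okIdx b4_5566_F = true := by decide +kernel

theorem b4_5566_okS : Tri'.all (okSyR b4_5566_F) b4_5566_S = true := by decide +kernel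

theorem b4_5566_okZ : Tri2.all (okSzR b4_5566_F b4_5566_S) b4_5566_S2 = true := by decide +kernel

theorem b4_5566_okM : okM b4_5566_F b4_5566_M = true := by decide +kernel

theorem b4_5566_okC : okCert b4_5566_C b4_5566_F.k = true := by decide +kernel

theorem b4_5566_okG : runG5 b4_5566_F b4_5566_S b4_5566_C b4_5566_T [[]] = true := by decide +kernel

theorem b4_5566_okE : enumR b4_5566_F (okG2R b4_5566_F b4_5566_S b4_5566_S2 b4_5566_q b4_5566_M b4_5566_T) (Nat.pred b4_5566_F.n) 1 36 = true := by decide +kernel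

theorem b4_5566_good : Good 4 [5, 5, 6, 6] :=
  good_mk4 b4_5566_S b4_5566_S2 b4_5566_q b4_5566_M b4_5566_C b4_5566_T 4 [5, 5, 6, 6] rfl rfl b4_5566_okF b4_5566_okI b4_5566_okS b4_5566_okZ b4_5566_okM b4_5566_okC (runG4_of _ _ _ _ 0 _ rfl b4_5566_okG) b4_5566_okE

noncomputable def b4_4666_F : Code := ⟨4, [4, 6, 6, 6], [(0, 2), (1, 2), (1, 3), (1, 4), (2, 2), (2, 3), (2, 4),
  (3, 2), (3, 3), (3, 4)], 14, 6,
  9029726260792589321828916240735780907779161440975022490089023757033961084117577982166789,
  8770793883686386127694861119685745646254776385536, 1384387119891⟩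

noncomputable def b4_4666_S : Tri' := (.node (.node (.node (.leaf [⟨2093456223070, 48, 4534800⟩, ⟨3692257729899,
  40, 3428880⟩]) (.node (.leaf [⟨3012361041837, 20, 5387280⟩, ⟨3012361121011, 20, 5387280⟩]) (.node
  (.leaf [⟨3122235108190, 12, 5514000⟩]) (.node (.leaf []) (.leaf [⟨2091442957150, 60, 2311440⟩,
  ⟨2111491651501, 60, 4530960⟩, ⟨2111491730675, 60, 4530960⟩, ⟨3560321703275, 60, 4530960⟩])))))
  (.node (.node (.leaf [⟨3012614875038, 18, 5321280⟩]) (.node (.leaf [⟨3142537557933, 10, 5509680⟩,
  ⟨3142537637107, 10, 5509680⟩]) (.node (.leaf []) (.leaf [⟨2111745484702, 58, 4526640⟩,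
  ⟨2111745406893, 58, 1262160⟩, ⟨2111745486067, 58, 1262160⟩])))) (.node (.leaf []) (.node (.leaf
  []) (.node (.leaf [⟨3010601609118, 30, 5456160⟩, ⟨3010601531309, 30, 5317440⟩, ⟨3010601610483, 30,
  5317440⟩]) (.leaf [])))))) (.node (.node (.leaf []) (.node (.node (.leaf [⟨3124029766389, 5,
  5517330⟩]) (.leaf [⟨3562116437918, 53, 4534290⟩, ⟨2093237615349, 53, 144405⟩])) (.leaf
  [⟨3692039198622, 45, 271125⟩]))) (.node (.node (.node (.leaf [⟨3124244441950, 3, 5517825⟩]) (.node
  (.leaf []) (.leaf [⟨2093452290910, 51, 78405⟩, ⟨2093491370741, 51, 4534785⟩, ⟨3562331037035, 51,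
  4534785⟩]))) (.leaf [⟨3692292954014, 43, 3428865⟩, ⟨3692253797739, 43, 266805⟩])) (.node (.node
  (.leaf []) (.node (.leaf [⟨3012357187486, 23, 5387265⟩, ⟨3012357109677, 23, 5255460⟩,
  ⟨3012357188851, 23, 5255460⟩]) (.leaf []))) (.node (.node (.leaf [⟨3122231176030, 15, 5505315⟩,
  ⟨3122270255861, 15, 5513985⟩, ⟨3142279870381, 15, 5513985⟩, ⟨3142279949555, 15, 5513985⟩]) (.leaf
  [])) (.node (.leaf []) (.leaf [⟨2111487797150, 63, 4530945⟩, ⟨3560356927390, 63, 4530945⟩,
  ⟨2091439024990, 63, 213285⟩, ⟨2091478104821, 63, 2311425⟩, ⟨2111487719341, 63, 74565⟩,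
  ⟨2111487798515, 63, 74565⟩, ⟨3560317771115, 63, 4522275⟩])))))))

noncomputable def b4_4666_S2 : Tri2 := (.node (.node (.node (.leaf [⟨2093456223070, 1605993446450835040309588, 48,
  4534800, (tB 6 139849)⟩, ⟨3692257729899, 6126187073037124454388805, 40, 3428880, (tB 6 136265)⟩])
  (.node (.leaf [⟨3012361041837, 5163042000745429856502865, 20, 5387280, .nil⟩]) (.node (.leaf
  [⟨3122235108190, 5218590024831253875069268, 12, 5514000, (tB 6 39049)⟩]) (.leaf [⟨2091442957150,
  1605979665435975286591828, 60, 2311440, (tB 6 141449)⟩, ⟨2111491651501, 1606882136980216316511313,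
  60, 4530960, .nil⟩])))) (.node (.node (.leaf [⟨3012614875038, 5163042216086994316247380, 18,
  5321280, (tB 6 49745)⟩]) (.node (.leaf [⟨3142537557933, 5219492711717046228173905, 10, 5509680,
  .nil⟩]) (.leaf [⟨2111745406893, 1606882352321767639696465, 58, 1262160, .nil⟩, ⟨2111745484702,
  1606882352321780776255828, 58, 4526640, (tB 6 148561)⟩]))) (.leaf [⟨3010601531309,
  5163028435072121425970257, 30, 5317440, .nil⟩, ⟨3010601609118, 5163028435072134562529620, 30,
  5456160, (tB 6 51345)⟩]))) (.node (.node (.leaf []) (.node (.node (.leaf [⟨3124029766389,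
  5218603593894634501461265, 5, 5517330, (tB 6 37642)⟩]) (.leaf [⟨2093237615349,
  1605993234499355912983825, 53, 144405, (tB 6 140042)⟩, ⟨3562116437918, 6069736365455593411264852,
  53, 4534290, (tB 6 148106)⟩])) (.leaf [⟨3692039198622, 6126186861085658459750740, 45, 271125, (tB
  6 136458)⟩]))) (.node (.node (.leaf [⟨2093452290910, 1605993446398264640606548, 51, 78405, (tB 6
  139874)⟩, ⟨3124244441950, 5218603805793543229083988, 3, 5517825, (tB 6 37474)⟩]) (.leaf
  [⟨3692253797739, 6126187072984554054685765, 43, 266805, (tB 6 136290)⟩, ⟨3692292954014,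
  6126187076427209782935892, 43, 3428865, (tB 6 137298)⟩])) (.node (.leaf [⟨3012357109677,
  5163042000692859456799825, 23, 5255460, .nil⟩, ⟨3012357187486, 5163042000692872593359188, 23,
  5387265, (tB 6 49938)⟩]) (.node (.node (.leaf [⟨3122231176030, 5218590024778683475366228, 15,
  5505315, (tB 6 39074)⟩, ⟨3122270255861, 5218590028221326070928657, 15, 5513985, .nil⟩,
  ⟨3142279870381, 5219492496322924505285713, 15, 5513985, .nil⟩]) (.leaf [])) (.node (.leaf [])
  (.leaf [⟨2091439024990, 1605979665383404886888788, 63, 213285, (tB 6 141474)⟩, ⟨2091478104821,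
  1605979668826047482451217, 63, 2311425, .nil⟩, ⟨2111487719341, 1606882136927645916808273, 63,
  74565, .nil⟩, ⟨2111487797150, 1606882136927659053367636, 63, 4530945, .nil⟩, ⟨3560317771115,
  6069722796339629252482117, 63, 4522275, .nil⟩, ⟨3560356927390, 6069722799782284980732244, 63,
  4530945, .nil⟩])))))))

noncomputable def b4_4666_q : List ℕ := [38, 44, 56, 62, 74, 80]

noncomputable def b4_4666_M : ℕ := 6447604371278022265099605

noncomputable def b4_4666_C : Cert := ⟨4, 1, 4, [0, 15, 3, 5, 0, 9], [0, 0, 12, 10, 0, 6], 2895⟩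

noncomputable def b4_4666_T : TT := (tT 1 6 2681946203863484793116960779789214003)

theorem b4_4666_okF : okCode b4_4666_F = true := by decide +kernel

theorem b4_4666_okI : okIdx b4_4666_F = true := by decide +kernel

theorem b4_4666_okS : Tri'.all (okSyR b4_4666_F) b4_4666_S = true := by decide +kernel

theorem b4_4666_okZ : Tri2.all (okSzR b4_4666_F b4_4666_S) b4_4666_S2 = true := by decide +kernel

theorem b4_4666_okM : okM b4_4666_F b4_4666_M = true := by decide +kernel

theorem b4_4666_okC : okCert b4_4666_C b4_4666_F.k = true := by decide +kernel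

theorem b4_4666_okG : runG5 b4_4666_F b4_4666_S b4_4666_C b4_4666_T [[]] = true := by decide +kernel

theorem b4_4666_okE : enumR b4_4666_F (okG2R b4_4666_F b4_4666_S b4_4666_S2 b4_4666_q b4_4666_M b4_4666_T) (Nat.pred b4_4666_F.n) 1 36 = true := by decide +kernel

theorem b4_4666_good : Good 4 [4, 6, 6, 6] :=
  good_mk4 b4_4666_S b4_4666_S2 b4_4666_q b4_4666_M b4_4666_C b4_4666_T 4 [4, 6, 6, 6] rfl rfl b4_4666_okF b4_4666_okI b4_4666_okS b4_4666_okZ b4_4666_okM b4_4666_okC (runG4_of _ _ _ _ 0 _ rfl b4_4666_okG) b4_4666_okE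

noncomputable def b4_5656_F : Code := ⟨4, [5, 6, 5, 6], [(0, 2), (0, 3), (1, 2), (1, 3), (1, 4), (2, 2), (2, 3),
  (3, 2), (3, 3), (3, 4)], 14, 6,
  9029726260792589321828916021790558388429823240268800082702282030406305152928494573995781,
  8770793883686370554607237240348131277415284473856, 1384387070736⟩

noncomputable def b4_5656_S : Tri' := (.node (.node (.node (.leaf [⟨3010598975405, 24, 5456400⟩, ⟨3692022390123,
  40, 3428880⟩]) (.leaf [⟨2111759628205, 60, 2311440⟩, ⟨3142551779245, 12, 5514000⟩])) (.node (.node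
  (.leaf []) (.node (.leaf [⟨3122264718069, 10, 5509680⟩]) (.leaf [⟨3560351389598, 58, 4526640⟩,
  ⟨2091472567029, 58, 1262160⟩]))) (.node (.leaf [⟨2093502610165, 54, 4534560⟩, ⟨3562068172139, 54,
  4534560⟩]) (.node (.leaf [⟨3692304193438, 46, 3428640⟩, ⟨3691990932843, 46, 1319760⟩]) (.leaf
  [⟨3010567518125, 30, 5317440⟩]))))) (.node (.node (.node (.leaf [⟨3673769335646, 33, 274965⟩,
  ⟨3012343754091, 17, 5255700⟩]) (.leaf [⟨3560355355891, 57, 4522515⟩, ⟨2111474363755, 57,
  4522515⟩])) (.node (.node (.leaf [⟨3124298726133, 5, 5517330⟩]) (.leaf [⟨3562385397662, 53,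
  4534290⟩, ⟨2093506575093, 53, 144405⟩])) (.leaf [⟨3692308158366, 45, 271125⟩, ⟨3692308159731, 45,
  3428370⟩]))) (.node (.node (.leaf [⟨2093217344350, 51, 78405⟩, ⟨3124009495390, 3, 5517825⟩])
  (.leaf [⟨3010595514270, 27, 5456385⟩, ⟨3010595515635, 27, 5247540⟩])) (.node (.node (.leaf
  [⟨3673737878366, 39, 2372865⟩]) (.leaf [⟨3012625557406, 23, 5255460⟩, ⟨3012312296811, 23,
  5387265⟩])) (.node (.leaf [⟨3122237225717, 15, 5505315⟩, ⟨3142548319475, 15, 5505315⟩]) (.node
  (.leaf []) (.leaf [⟨2111756167070, 63, 4522275⟩, ⟨3560323897246, 63, 4522275⟩, ⟨2091445074677, 63,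
  213285⟩, ⟨2111756168435, 63, 213285⟩, ⟨3560323898611, 63, 4530945⟩, ⟨2111442906475, 63,
  4530945⟩])))))))

noncomputable def b4_5656_S2 : Tri2 := (.node (.node (.node (.leaf [⟨3010598975405, 5163028435058115537618001, 24,
  5456400, (tB 6 50249)⟩, ⟨3692022390123, 6126186860241230312313925, 40, 3428880, (tB 6 136265)⟩])
  (.leaf [⟨2111759628205, 1606882353152186681476177, 60, 2311440, (tB 6 141449)⟩, ⟨3142551779245,
  5219492712547465269953617, 12, 5514000, (tB 6 39049)⟩])) (.node (.node (.leaf []) (.node (.leaf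
  [⟨3122264718069, 5218590028156382944187665, 10, 5509680, (tB 6 38993)⟩]) (.leaf [⟨2091472567029,
  1605979668761104355710225, 58, 1262160, (tB 6 141393)⟩, ⟨3560351389598, 6069722799717341853991252,
  58, 4526640, (tB 6 148561)⟩]))) (.node (.leaf [⟨2093502610165, 1605993450620389039559953, 54,
  4534560, .nil⟩]) (.node (.leaf [⟨3691990932843, 6126186856876724731319365, 46, 1319760, (tB 6
  136465)⟩, ⟨3692304193438, 6126187077206691586326868, 46, 3428640, (tB 6 137361)⟩]) (.leaf
  [⟨3010567518125, 5163028431693609956623441, 30, 5317440, (tB 6 50449)⟩]))))) (.node (.node (.leaf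
  [⟨3012343754091, 5163041999900180548228165, 17, 5255700, (tB 6 49738)⟩, ⟨3673769335646,
  6125297957762006287454548, 33, 274965, (tB 6 135754)⟩]) (.node (.node (.leaf [⟨3124298726133,
  5218603810068241248965905, 5, 5517330, (tB 6 37642)⟩]) (.leaf [⟨2093506575093,
  1605993450672962660488465, 53, 144405, (tB 6 140042)⟩, ⟨3562385397662, 6069736581629200158769492,
  53, 4534290, (tB 6 148106)⟩])) (.leaf [⟨3692308158366, 6126187077259265207255380, 45, 271125, (tB
  6 136458)⟩, ⟨3692308159731, 6126187077259265211127045, 45, 3428370, (tB 6 137354)⟩]))) (.node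
  (.node (.leaf [⟨2093217344350, 1605993233603169362448724, 51, 78405, (tB 6 139874)⟩,
  ⟨3124009495390, 5218603592998447950926164, 3, 5517825, (tB 6 37474)⟩]) (.leaf [⟨3010595514270,
  5163028435006357138391380, 27, 5456385, (tB 6 51282)⟩, ⟨3010595515635, 5163028435006357142263045,
  27, 5247540, (tB 6 50274)⟩])) (.node (.node (.leaf [⟨3673737878366, 6125297954397500706459988, 39,
  2372865, (tB 6 135954)⟩]) (.leaf [⟨3012312296811, 5163041996535674967233605, 23, 5387265, (tB 6
  49938)⟩, ⟨3012625557406, 5163042216865641822241108, 23, 5255460, (tB 6 49826)⟩])) (.node (.leaf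
  [⟨3122237225717, 5218590024844450984121617, 15, 5505315, .nil⟩]) (.node (.leaf []) (.leaf
  [⟨2091445074677, 1605979665449172395644177, 63, 213285, .nil⟩, ⟨2111442906475,
  1606882132770461427242053, 63, 4530945, .nil⟩, ⟨2111756167070, 1606882353100428282249556, 63,
  4522275, .nil⟩, ⟨2111756168435, 1606882353100428286121221, 63, 213285, .nil⟩, ⟨3560323897246,
  6069722796405409893925204, 63, 4522275, .nil⟩, ⟨3560323898611, 6069722796405409897796869, 63,
  4530945, .nil⟩])))))))

noncomputable def b4_5656_q : List ℕ := [32, 44, 50, 62, 74, 80]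

noncomputable def b4_5656_M : ℕ := 6447604371278022265099605

noncomputable def b4_5656_C : Cert := ⟨2, 1, 3, [0, 2, 1, 0, 2, 1], [0, 0, 0, 0, 0, 0], 60⟩

noncomputable def b4_5656_T : TT := (.node (tT 1 5 215709597381138376640174592671835509299) (tT 1 5
  1594611380477515282226008788244090711801396145038509232639) .nil .nil)

theorem b4_5656_okF : okCode b4_5656_F = true := by decide +kernel

theorem b4_5656_okI : okIdx b4_5656_F = true := by decide +kernel

theorem b4_5656_okS : Tri'.all (okSyR b4_5656_F) b4_5656_S = true := by decide +kernel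

theorem b4_5656_okZ : Tri2.all (okSzR b4_5656_F b4_5656_S) b4_5656_S2 = true := by decide +kernel

theorem b4_5656_okM : okM b4_5656_F b4_5656_M = true := by decide +kernel

theorem b4_5656_okC : okCert b4_5656_C b4_5656_F.k = true := by decide +kernel

theorem b4_5656_okG : runG5 b4_5656_F b4_5656_S b4_5656_C b4_5656_T [[]] = true := by decide +kernel

theorem b4_5656_okE : enumR b4_5656_F (okG2R b4_5656_F b4_5656_S b4_5656_S2 b4_5656_q b4_5656_M b4_5656_T) (Nat.pred b4_5656_F.n) 1 36 = true := by decide +kernel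

theorem b4_5656_good : Good 4 [5, 6, 5, 6] :=
  good_mk4 b4_5656_S b4_5656_S2 b4_5656_q b4_5656_M b4_5656_C b4_5656_T 4 [5, 6, 5, 6] rfl rfl b4_5656_okF b4_5656_okI b4_5656_okS b4_5656_okZ b4_5656_okM b4_5656_okC (runG4_of _ _ _ _ 0 _ rfl b4_5656_okG) b4_5656_okE

noncomputable def b6_455555_F : Code := ⟨6, [4, 5, 5, 5, 5, 5], [(0, 2), (1, 2), (1, 3), (2, 2), (2, 3), (3, 2),
  (3, 3), (4, 2), (4, 3), (5, 2), (5, 3)], 17, 5,
  104088095215577867877664710573335439201262976606956883878490691821681271746696516999423370422524596464110085,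
  502168162776178357572188630472829174134407667948699506442240, 13244125081⟩

noncomputable def b6_455555_S : Tri' := (.node (.node (.node (.leaf [⟨1072399066721133, 24, 213520⟩,
  ⟨1893184497474411, 24, 213520⟩]) (.node (.leaf [⟨1080714128386910, 20, 144400⟩]) (.leaf
  [⟨1529684234780013, 12, 271120⟩, ⟨1612877751249773, 12, 271120⟩]))) (.node (.leaf
  [⟨1529814162521438, 10, 266800⟩, ⟨1079544152546035, 18, 78400⟩]) (.node (.leaf [⟨1536829315536813,
  6, 274720⟩, ⟨1538129214225773, 6, 274720⟩]) (.node (.leaf []) (.leaf [⟨1072285652740013, 30,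
  213280⟩, ⟨1072285657808115, 30, 74560⟩, ⟨1894370982182251, 30, 213280⟩]))))) (.node (.node (.leaf
  [⟨1611709810432755, 9, 262675⟩]) (.node (.leaf [⟨1536831350560670, 5, 274450⟩]) (.node (.leaf [])
  (.leaf [⟨1072287687763870, 29, 213010⟩, ⟨1811159184751966, 29, 213010⟩, ⟨1894352701221726, 29,
  213010⟩, ⟨1072287682783149, 29, 8980⟩, ⟨1893073113536427, 29, 8980⟩])))) (.node (.node (.leaf
  [⟨1536940957424373, 3, 274945⟩, ⟨1536961268340653, 3, 274945⟩]) (.node (.leaf []) (.leaf
  [⟨1072397294627573, 27, 213505⟩, ⟨1072417610611955, 27, 4660⟩, ⟨1893203036297131, 27, 213505⟩])))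
  (.node (.node (.leaf []) (.leaf [⟨1080732667209630, 23, 144385⟩, ⟨1818304265508766, 23, 144385⟩,
  ⟨1819604164197726, 23, 144385⟩, ⟨1080712351312629, 23, 12580⟩, ⟨1080732662228909, 23, 12580⟩]))
  (.node (.leaf [⟨1529682462686453, 15, 271105⟩, ⟨1612896290072493, 15, 271105⟩, ⟨1612896295140595,
  15, 262435⟩]) (.leaf []))))))

noncomputable def b6_455555_S2 : Tri2 := (.node (.node (.node (.leaf [⟨1072399066721133,
  421002452720556172188718535761, 24, 213520, .nil⟩, ⟨1893184497474411,
  1605996679041549052250394268741, 24, 213520, .nil⟩]) (.node (.leaf [⟨1080714128386910,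
  421233673950656972434667016532, 20, 144400, (tB 5 17033)⟩]) (.leaf [⟨1529684234780013,
  1353171246740854369187223639121, 12, 271120, .nil⟩, ⟨1612877751249773,
  1368315832443314331125532660817, 12, 271120, .nil⟩]))) (.node (.leaf [⟨1079544152546035,
  421230032992533837876623070469, 18, 78400, (tB 5 16977)⟩, ⟨1529814162521438,
  1353171303191350053059622408532, 10, 266800, (tB 5 6225)⟩]) (.node (.leaf [⟨1536829315536813,
  1353398827012831981051919549521, 6, 274720, .nil⟩, ⟨1538129214225773,
  1353402524421450745690870322257, 6, 274720, .nil⟩]) (.node (.leaf []) (.leaf [⟨1072285652740013,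
  421002397145398180097906000977, 30, 213280, .nil⟩, ⟨1072285657808115,
  421002397145398233921114625285, 30, 74560, (tB 5 17681)⟩, ⟨1894370982182251,
  1606000320875009824798532506693, 30, 213280, .nil⟩]))))) (.node (.node (.leaf [⟨1611709810432755,
  1368312191498973109659522848005, 9, 262675, (tB 5 6218)⟩]) (.node (.leaf [⟨1536831350560670,
  1353398827026613894143953682772, 5, 274450, (tB 5 4874)⟩]) (.node (.leaf []) (.leaf
  [⟨1072287682783149, 421002397159180039382589850705, 29, 8980, .nil⟩, ⟨1072287687763870,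
  421002397159180093189940134228, 29, 213010, .nil⟩, ⟨1811159184751966,
  1590855734283644071063466348884, 29, 213010, .nil⟩, ⟨1893073113536427,
  1605996623480172919444265583685, 29, 8980, .nil⟩, ⟨1894352701221726,
  1606000319986104033001775370580, 29, 213010, .nil⟩])))) (.node (.node (.leaf [⟨1536940957424373,
  1353398882574421819336069240081, 3, 274945, .nil⟩, ⟨1536961268340653,
  1353398883477109470401651885137, 3, 274945, .nil⟩]) (.node (.leaf []) (.leaf [⟨1072397294627573,
  421002452706988018382055691537, 27, 213505, .nil⟩, ⟨1072417610611955,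
  421002453609675723270846960901, 27, 4660, (tB 5 17506)⟩, ⟨1893203036297131,
  1605996679930668549509314069573, 27, 213505, .nil⟩]))) (.node (.node (.leaf []) (.leaf
  [⟨1080712351312629, 421233673937088764820653888785, 23, 12580, .nil⟩, ⟨1080732662228909,
  421233674839776415886236533841, 23, 12580, .nil⟩, ⟨1080732667209630,
  421233674839776469693586817364, 23, 144385, .nil⟩, ⟨1818304265508766,
  1591083314555621682928162259284, 23, 144385, .nil⟩, ⟨1819604164197726,
  1591087011964240447567113032020, 23, 144385, .nil⟩])) (.node (.leaf [⟨1529682462686453,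
  1353171246727286215380560794897, 15, 271105, .nil⟩, ⟨1612896290072493,
  1368315833332433828384452461649, 15, 271105, .nil⟩, ⟨1612896295140595,
  1368315833332433882207661085957, 15, 262435, (tB 5 6306)⟩]) (.leaf []))))))

noncomputable def b6_455555_q : List ℕ := [50, 62, 74, 86, 98]

noncomputable def b6_455555_M : ℕ := 1690200800304305868662270940501

noncomputable def b6_455555_C : Cert := ⟨1, 1, 2, [0, 0, 0, 0, 0], [0, 0, 0, 0, 0], 0⟩

noncomputable def b6_455555_T : TT := (tT 1 5 83747920945081759155724631937587)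

theorem b6_455555_okF : okCode b6_455555_F = true := by decide +kernel

theorem b6_455555_okI : okIdx b6_455555_F = true := by decide +kernel

theorem b6_455555_okS : Tri'.all (okSyR b6_455555_F) b6_455555_S = true := by decide +kernel

theorem b6_455555_okZ : Tri2.all (okSzR b6_455555_F b6_455555_S) b6_455555_S2 = true := by decide +kernel

theorem b6_455555_okM : okM b6_455555_F b6_455555_M = true := by decide +kernel

theorem b6_455555_okC : okCert b6_455555_C b6_455555_F.k = true := by decide +kernel

theorem b6_455555_okG : runG5 b6_455555_F b6_455555_S b6_455555_C b6_455555_T [[]] = true := by decide +kernel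

theorem b6_455555_okE : enumR b6_455555_F (okG2R b6_455555_F b6_455555_S b6_455555_S2 b6_455555_q b6_455555_M b6_455555_T) (Nat.pred b6_455555_F.n) 1 36 = true := by decide +kernel

theorem b6_455555_good : Good 6 [4, 5, 5, 5, 5, 5] :=
  good_mk4 b6_455555_S b6_455555_S2 b6_455555_q b6_455555_M b6_455555_C b6_455555_T 6 [4, 5, 5, 5, 5, 5] rfl rfl b6_455555_okF b6_455555_okI b6_455555_okS b6_455555_okZ b6_455555_okM b6_455555_okC (runG4_of _ _ _ _ 0 _ rfl b6_455555_okG) b6_455555_okE

noncomputable def b6_454556_F : Code := ⟨6, [4, 5, 4, 5, 5, 6], [(0, 2), (1, 2), (1, 3), (2, 2), (3, 2), (3, 3),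
  (4, 2), (4, 3), (5, 2), (5, 3), (5, 4)], 17, 5,
  104088123684001072304993478076508209273587390921296091872602777791240537833711675645749926993766361084447237,
  502266218549934383080015368685750131467564912326472336670720, 13250466073⟩

noncomputable def b6_454556_S : Tri' := (.node (.node (.node (.leaf [⟨1071726909381470, 24, 213520⟩,
  ⟨1071729454536621, 24, 213520⟩]) (.node (.leaf [⟨1890313311837035, 20, 144400⟩]) (.leaf
  [⟨1541424527829869, 12, 271120⟩, ⟨1541427083033843, 12, 271120⟩]))) (.node (.leaf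
  [⟨1542463914896222, 10, 266800⟩, ⟨1542466460051373, 10, 266800⟩]) (.node (.node (.leaf
  [⟨1598585173884269, 6, 274720⟩, ⟨1608984363395949, 6, 274720⟩, ⟨1608986918599923, 6, 274720⟩])
  (.leaf [])) (.node (.leaf []) (.leaf [⟨1081218787044190, 30, 213280⟩, ⟨1081221332199341, 30,
  213280⟩, ⟨1070819592551789, 30, 74560⟩, ⟨1081218782063469, 30, 74560⟩, ⟨1081221337267443, 30,
  74560⟩]))))) (.node (.node (.leaf [⟨1880969985841054, 17, 12820⟩]) (.node (.leaf
  [⟨1598601655401717, 5, 274450⟩, ⟨1608838624795379, 5, 274450⟩]) (.node (.leaf []) (.leaf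
  [⟨1822899477801822, 29, 213010⟩, ⟨1070836074069237, 29, 8980⟩, ⟨1081073043462899, 29, 8980⟩]))))
  (.node (.node (.leaf [⟨1599478817281950, 3, 274945⟩]) (.node (.leaf []) (.leaf [⟨1823941410023326,
  27, 213505⟩, ⟨1071713235949470, 27, 4660⟩, ⟨1071875456154869, 27, 213505⟩, ⟨1823779184924587, 27,
  213505⟩]))) (.node (.node (.leaf []) (.leaf [⟨1890461863503774, 23, 12580⟩, ⟨1880060123856222, 23,
  144385⟩, ⟨1890459313367902, 23, 144385⟩, ⟨1890299638405035, 23, 12580⟩])) (.leaf
  [⟨1541410859378590, 15, 271105⟩, ⟨1541410854397869, 15, 262435⟩])))))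

noncomputable def b6_454556_S2 : Tri2 := (.node (.node (.node (.leaf [⟨1071726909381470,
  421001490229402378084056109396, 24, 213520, .nil⟩, ⟨1071729454536621,
  421001490243507598309627085905, 24, 213520, .nil⟩]) (.leaf [⟨1541424527829869,
  1353456926066039581421995365457, 12, 271120, .nil⟩, ⟨1890313311837035,
  1605943128277241967956447269957, 20, 144400, (tB 5 17033)⟩])) (.node (.leaf [⟨1542463914896222,
  1353460538897759959392448745812, 10, 266800, .nil⟩, ⟨1542466460051373,
  1353460538911865179618019722321, 10, 266800, .nil⟩]) (.node (.leaf [⟨1598585173884269,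
  1368022063472606740762533631057, 6, 274720, .nil⟩, ⟨1608984363395949,
  1368258697624207677655383086161, 6, 274720, .nil⟩]) (.node (.leaf []) (.leaf [⟨1070819592551789,
  420997933419290830464703599697, 30, 74560, .nil⟩, ⟨1081218782063469,
  421234567570891767357553054801, 30, 74560, .nil⟩, ⟨1081218787044190,
  421234567570891821164903338324, 30, 213280, .nil⟩, ⟨1081221332199341,
  421234567584997041390474314833, 30, 213280, .nil⟩]))))) (.node (.node (.leaf [⟨1880969985841054,
  1605710107839613210483699827028, 17, 12820, (tB 5 16970)⟩]) (.node (.leaf [⟨1598601655401717,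
  1368022064354858596035390887185, 5, 274450, .nil⟩, ⟨1608838624795379,
  1368258640734666025365575849221, 5, 274450, .nil⟩]) (.node (.leaf []) (.leaf [⟨1070836074069237,
  420997934301542685737560855825, 29, 8980, .nil⟩, ⟨1081073043462899,
  421234510681350115067745817861, 29, 8980, .nil⟩, ⟨1822899477801822,
  1591141413608829283298238075220, 29, 213010, (tB 5 18570)⟩])))) (.node (.node (.leaf
  [⟨1599478817281950, 1368025619414785412619971150164, 3, 274945, (tB 5 4706)⟩]) (.node (.leaf [])
  (.leaf [⟨1071713235949470, 421001489361469502322141118804, 27, 4660, (tB 5 17506)⟩,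
  ⟨1071875456154869, 421001547133263009900663952657, 27, 213505, .nil⟩, ⟨1823779184924587,
  1591144968682861320124247655493, 27, 213505, .nil⟩, ⟨1823941410023326,
  1591145026454654881494262432084, 27, 213505, .nil⟩]))) (.node (.node (.leaf []) (.leaf
  [⟨1880060123856222, 1605706551015396442638776340820, 23, 144385, .nil⟩, ⟨1890299638405035,
  1605943127409309092194532279365, 23, 12580, .nil⟩, ⟨1890459313367902,
  1605943185166997379531625795924, 23, 144385, .nil⟩, ⟨1890461863503774,
  1605943185181102653564547055956, 23, 12580, .nil⟩])) (.leaf [⟨1541410854397869,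
  1353456925198106705660080374865, 15, 262435, (tB 5 6306)⟩, ⟨1541410859378590,
  1353456925198106759467430658388, 15, 271105, (tB 5 6418)⟩])))))

noncomputable def b6_454556_q : List ℕ := [50, 68, 80, 92, 98]

noncomputable def b6_454556_M : ℕ := 1690200800304305868662270940501

noncomputable def b6_454556_C : Cert := ⟨1, 1, 2, [0, 0, 0, 0, 0], [0, 0, 0, 0, 0], 0⟩

noncomputable def b6_454556_T : TT := (tT 1 5 11010576915)

theorem b6_454556_okF : okCode b6_454556_F = true := by decide +kernel

theorem b6_454556_okI : okIdx b6_454556_F = true := by decide +kernel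

theorem b6_454556_okS : Tri'.all (okSyR b6_454556_F) b6_454556_S = true := by decide +kernel

theorem b6_454556_okZ : Tri2.all (okSzR b6_454556_F b6_454556_S) b6_454556_S2 = true := by decide +kernel

theorem b6_454556_okM : okM b6_454556_F b6_454556_M = true := by decide +kernel

theorem b6_454556_okC : okCert b6_454556_C b6_454556_F.k = true := by decide +kernel

theorem b6_454556_okG : runG5 b6_454556_F b6_454556_S b6_454556_C b6_454556_T [[]] = true := by decide +kernel

theorem b6_454556_okE : enumR b6_454556_F (okG2R b6_454556_F b6_454556_S b6_454556_S2 b6_454556_q b6_454556_M b6_454556_T) (Nat.pred b6_454556_F.n) 1 36 = true := by decide +kernel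

theorem b6_454556_good : Good 6 [4, 5, 4, 5, 5, 6] :=
  good_mk4 b6_454556_S b6_454556_S2 b6_454556_q b6_454556_M b6_454556_C b6_454556_T 6 [4, 5, 4, 5, 5, 6] rfl rfl b6_454556_okF b6_454556_okI b6_454556_okS b6_454556_okZ b6_454556_okM b6_454556_okC (runG4_of _ _ _ _ 0 _ rfl b6_454556_okG) b6_454556_okE

noncomputable def b6_455546_F : Code := ⟨6, [4, 5, 5, 5, 4, 6], [(0, 2), (1, 2), (1, 3), (2, 2), (2, 3), (3, 2),
  (3, 3), (4, 2), (5, 2), (5, 3), (5, 4)], 17, 5,
  104088123684001072299266492557345724857710795661265585097997490822944893922924422937430490333364552724630021,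
  502266218545550948429610152833394494698578273209720472862720, 13250416537⟩

noncomputable def b6_455546_S : Tri' := (.node (.node (.node (.leaf [⟨1070749804321630, 24, 213520⟩,
  ⟨1081195159743341, 24, 213520⟩]) (.leaf [⟨1542509012052830, 12, 271120⟩])) (.node (.leaf
  [⟨1541339036211955, 10, 266800⟩, ⟨1890453972008299, 18, 78400⟩]) (.node (.node (.leaf
  [⟨1598401966692269, 6, 274720⟩, ⟨1599701865381229, 6, 274720⟩, ⟨1608847332162803, 6, 274720⟩])
  (.leaf [])) (.node (.leaf []) (.leaf [⟨1071936289029470, 30, 213280⟩, ⟨1081081745762221, 30,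
  213280⟩, ⟨1070636385359789, 30, 74560⟩, ⟨1071936284048749, 30, 74560⟩, ⟨1081081750830323, 30,
  74560⟩]))))) (.node (.node (.leaf [⟨1890435691047774, 17, 12820⟩]) (.node (.leaf
  [⟨1598404001716126, 5, 274450⟩, ⟨1608849357137837, 5, 274450⟩]) (.node (.leaf []) (.leaf
  [⟨1081083780786078, 29, 213010⟩, ⟨1070638420383646, 29, 8980⟩, ⟨1081083775805357, 29, 8980⟩,
  ⟨1822704369358763, 29, 213010⟩])))) (.node (.node (.node (.leaf [⟨1598513608579829, 3, 274945⟩,
  ⟨1598533919496109, 3, 274945⟩, ⟨1608979284966643, 3, 274945⟩]) (.leaf [])) (.node (.leaf [])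
  (.leaf [⟨1070768343144350, 27, 213505⟩, ⟨1081193387649781, 27, 213505⟩, ⟨1070748027247349, 27,
  4660⟩, ⟨1070768338163629, 27, 4660⟩, ⟨1081213703634163, 27, 4660⟩]))) (.node (.node (.leaf [])
  (.leaf [⟨1890322277066654, 23, 12580⟩, ⟨1879876916664222, 23, 144385⟩, ⟨1881176815353182, 23,
  144385⟩])) (.node (.leaf [⟨1542527550875550, 15, 271105⟩, ⟨1542507234978549, 15, 262435⟩,
  ⟨1542527545894829, 15, 262435⟩]) (.leaf []))))))

noncomputable def b6_455546_S2 : Tri2 := (.node (.node (.node (.leaf [⟨1070749804321630,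
  420997919248732671149498241364, 24, 213520, .nil⟩, ⟨1081195159743341,
  421234566477922180990262121553, 24, 213520, .nil⟩]) (.leaf [⟨1542509012052830,
  1353460551971889821634093453652, 12, 271120, (tB 5 6281)⟩])) (.node (.leaf [⟨1541339036211955,
  1353456911013766687076049507589, 10, 266800, (tB 5 6225)⟩, ⟨1890453972008299,
  1605943184962933584961091998789, 18, 78400, (tB 5 16977)⟩]) (.node (.leaf [⟨1599701865381229,
  1368025691135509300188116227153, 6, 274720, .nil⟩]) (.node (.leaf []) (.leaf [⟨1070636385359789,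
  420997863673574625251335423057, 30, 74560, .nil⟩, ⟨1071936284048749,
  421001561082193389890286195793, 30, 74560, .nil⟩, ⟨1071936289029470,
  421001561082193443697636479316, 30, 213280, .nil⟩, ⟨1081081745762221,
  421234510902764188899449586769, 30, 213280, .nil⟩]))))) (.node (.node (.leaf [⟨1890435691047774,
  1605943184074027793164334862676, 17, 12820, (tB 5 16970)⟩]) (.node (.leaf [⟨1598404001716126,
  1368021993740672448641199587668, 5, 274450, .nil⟩, ⟨1608849357137837,
  1368258640969861958481963467857, 5, 274450, .nil⟩]) (.node (.leaf []) (.leaf [⟨1070638420383646,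
  420997863687356538343369556308, 29, 8980, .nil⟩, ⟨1081083775805357,
  421234510916546048184133436497, 29, 8980, .nil⟩, ⟨1081083780786078,
  421234510916546101991483720020, 29, 213010, .nil⟩])))) (.node (.node (.leaf [⟨1598513608579829,
  1368022049288480373833315144977, 3, 274945, .nil⟩]) (.node (.leaf []) (.leaf [⟨1070748027247349,
  420997919235164463535485113617, 27, 4660, .nil⟩, ⟨1070768338163629,
  420997920137852114601067758673, 27, 4660, .nil⟩, ⟨1070768343144350,
  420997920137852168408418042196, 27, 213505, .nil⟩, ⟨1081193387649781,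
  421234566464354027183599277329, 27, 213505, .nil⟩]))) (.node (.node (.leaf []) (.leaf
  [⟨1879876916664222, 1605706481269680237425408164180, 23, 144385, .nil⟩, ⟨1881176815353182,
  1605710178678299002064358936916, 23, 144385, .nil⟩, ⟨1890322277066654,
  1605943128498869801073522327892, 23, 12580, (tB 5 17058)⟩])) (.node (.leaf [⟨1542507234978549,
  1353460551958321614020080325905, 15, 262435, .nil⟩, ⟨1542527545894829,
  1353460552861009265085662970961, 15, 262435, .nil⟩, ⟨1542527550875550,
  1353460552861009318893013254484, 15, 271105, (tB 5 6418)⟩]) (.leaf []))))))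

noncomputable def b6_455546_q : List ℕ := [50, 62, 74, 92, 98]

noncomputable def b6_455546_M : ℕ := 1690200800304305868662270940501

noncomputable def b6_455546_C : Cert := ⟨1, 1, 2, [0, 0, 0, 0, 0], [0, 0, 0, 0, 0], 0⟩

noncomputable def b6_455546_T : TT := (tT 1 5 2658593)

theorem b6_455546_okF : okCode b6_455546_F = true := by decide +kernel

theorem b6_455546_okI : okIdx b6_455546_F = true := by decide +kernel

theorem b6_455546_okS : Tri'.all (okSyR b6_455546_F) b6_455546_S = true := by decide +kernel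

theorem b6_455546_okZ : Tri2.all (okSzR b6_455546_F b6_455546_S) b6_455546_S2 = true := by decide +kernel

theorem b6_455546_okM : okM b6_455546_F b6_455546_M = true := by decide +kernel

theorem b6_455546_okC : okCert b6_455546_C b6_455546_F.k = true := by decide +kernel

theorem b6_455546_okG : runG5 b6_455546_F b6_455546_S b6_455546_C b6_455546_T [[]] = true := by decide +kernel

theorem b6_455546_okE : enumR b6_455546_F (okG2R b6_455546_F b6_455546_S b6_455546_S2 b6_455546_q b6_455546_M b6_455546_T) (Nat.pred b6_455546_F.n) 1 36 = true := by decide +kernel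

theorem b6_455546_good : Good 6 [4, 5, 5, 5, 4, 6] :=
  good_mk4 b6_455546_S b6_455546_S2 b6_455546_q b6_455546_M b6_455546_C b6_455546_T 6 [4, 5, 5, 5, 4, 6] rfl rfl b6_455546_okF b6_455546_okI b6_455546_okS b6_455546_okZ b6_455546_okM b6_455546_okC (runG4_of _ _ _ _ 0 _ rfl b6_455546_okG) b6_455546_okE

noncomputable def b6_454565_F : Code := ⟨6, [4, 5, 4, 5, 6, 5], [(0, 2), (1, 2), (1, 3), (2, 2), (3, 2), (3, 3),
  (4, 2), (4, 3), (4, 4), (5, 2), (5, 3)], 17, 5,
  104088095215577867883391696092497923617139571866987390653095978789976915657483769707742807082926404823927301,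
  502168162780561792222593846325184810903394307065451370250240, 13244174617⟩

noncomputable def b6_454565_S : Tri' := (.node (.node (.node (.leaf [⟨1894161602534251, 24, 213520⟩]) (.node
  (.leaf [⟨1079629644163949, 20, 144400⟩, ⟨1079632199367923, 20, 144400⟩]) (.leaf
  [⟨1529673502350174, 12, 271120⟩, ⟨1529676047505325, 12, 271120⟩]))) (.node (.node (.leaf
  [⟨1080669031230302, 18, 78400⟩, ⟨1080671576385453, 18, 78400⟩]) (.leaf [⟨1612832654093165, 10,
  266800⟩, ⟨1612835209297139, 10, 266800⟩])) (.node (.leaf [⟨1537012522728813, 6, 274720⟩]) (.node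
  (.leaf []) (.leaf [⟨1072422694021982, 30, 213280⟩, ⟨1072425239177133, 30, 213280⟩,
  ⟨1072422689041261, 30, 74560⟩, ⟨1072425244245235, 30, 74560⟩]))))) (.node (.node (.leaf
  [⟨1819397334685598, 17, 12820⟩, ⟨1612686915492595, 9, 262675⟩]) (.node (.leaf [⟨1537029004246261,
  5, 274450⟩]) (.node (.leaf []) (.leaf [⟨1811150997477278, 29, 213010⟩, ⟨1893268221979486, 29,
  8980⟩, ⟨1072276950440691, 29, 8980⟩])))) (.node (.node (.leaf [⟨1537906166126494, 3, 274945⟩])
  (.node (.leaf []) (.leaf [⟨1894310154200990, 27, 4660⟩, ⟨1894307604065118, 27, 213505⟩,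
  ⟨1894147929102251, 27, 4660⟩]))) (.node (.node (.leaf []) (.leaf [⟨1079615975712670, 23, 144385⟩,
  ⟨1818487472700766, 23, 144385⟩, ⟨1079615970731949, 23, 12580⟩])) (.node (.leaf [⟨1529659828918174,
  15, 262435⟩, ⟨1529822049123573, 15, 271105⟩, ⟨1611779598575533, 15, 271105⟩]) (.leaf []))))))

noncomputable def b6_454565_S2 : Tri2 := (.node (.node (.node (.leaf [⟨1894161602534251,
  1606000250022218759184952136773, 24, 213520, (tB 5 17481)⟩]) (.node (.leaf [⟨1079629644163949,
  421230048044806732222568928337, 20, 144400, .nil⟩]) (.leaf [⟨1529673502350174,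
  1353171246505658436054977679700, 12, 271120, .nil⟩, ⟨1529676047505325,
  1353171246519763656280548656209, 12, 271120, .nil⟩]))) (.node (.leaf [⟨1080669031230302,
  421233660876527110193022308692, 18, 78400, .nil⟩, ⟨1612832654093165,
  1368315819369184468883887952977, 10, 266800, .nil⟩]) (.node (.leaf [⟨1537012522728813,
  1353398896758548186265287726161, 6, 274720, (tB 5 4881)⟩]) (.node (.leaf []) (.leaf
  [⟨1072422689041261, 421002453813525758556009469009, 30, 74560, .nil⟩, ⟨1072422694021982,
  421002453813525812363359752532, 30, 213280, .nil⟩, ⟨1072425239177133,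
  421002453827631032588930729041, 30, 213280, .nil⟩]))))) (.node (.node (.leaf [⟨1612686915492595,
  1368315762479642816594080716037, 9, 262675, (tB 5 6218)⟩, ⟨1819397334685598,
  1591086941125554655986453922132, 17, 12820, (tB 5 16970)⟩]) (.node (.leaf [⟨1537029004246261,
  1353398897640800041538144982289, 5, 274450, (tB 5 4874)⟩]) (.node (.leaf []) (.leaf
  [⟨1072276950440691, 421002396923984106266202232069, 29, 8980, .nil⟩, ⟨1811150997477278,
  1590855734062553358156791365972, 29, 213010, (tB 5 18570)⟩, ⟨1893268221979486,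
  1605996694080253846597027565908, 29, 8980, .nil⟩])))) (.node (.node (.leaf [⟨1537906166126494,
  1353402452700726858122725245268, 3, 274945, (tB 5 4706)⟩]) (.node (.leaf []) (.leaf
  [⟨1894147929102251, 1606000249154285883423037146181, 27, 4660, .nil⟩, ⟨1894307604065118,
  1606000306911974170760130662740, 27, 213505, (tB 5 18514)⟩, ⟨1894310154200990,
  1606000306926079444793051922772, 27, 4660, .nil⟩]))) (.node (.node (.leaf []) (.leaf
  [⟨1079615970731949, 421230047176873856460653937745, 23, 12580, (tB 5 17058)⟩, ⟨1079615975712670,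
  421230047176873910268004221268, 23, 144385, .nil⟩, ⟨1818487472700766,
  1591083384301337888141530435924, 23, 144385, .nil⟩])) (.leaf [⟨1529659828918174,
  1353171245637725560293062689108, 15, 262435, (tB 5 6306)⟩, ⟨1529822049123573,
  1353171303409519067871585522961, 15, 271105, .nil⟩])))))

noncomputable def b6_454565_q : List ℕ := [50, 68, 80, 86, 98]

noncomputable def b6_454565_M : ℕ := 1690200800304305868662270940501

noncomputable def b6_454565_C : Cert := ⟨1, 1, 2, [0, 0, 0, 0, 0], [0, 0, 0, 0, 0], 0⟩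

noncomputable def b6_454565_T : TT := (tT 1 5 38388641617682739)

theorem b6_454565_okF : okCode b6_454565_F = true := by decide +kernel

theorem b6_454565_okI : okIdx b6_454565_F = true := by decide +kernel

theorem b6_454565_okS : Tri'.all (okSyR b6_454565_F) b6_454565_S = true := by decide +kernel

theorem b6_454565_okZ : Tri2.all (okSzR b6_454565_F b6_454565_S) b6_454565_S2 = true := by decide +kernel

theorem b6_454565_okM : okM b6_454565_F b6_454565_M = true := by decide +kernel

theorem b6_454565_okC : okCert b6_454565_C b6_454565_F.k = true := by decide +kernel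

theorem b6_454565_okG : runG5 b6_454565_F b6_454565_S b6_454565_C b6_454565_T [[]] = true := by decide +kernel

theorem b6_454565_okE : enumR b6_454565_F (okG2R b6_454565_F b6_454565_S b6_454565_S2 b6_454565_q b6_454565_M b6_454565_T) (Nat.pred b6_454565_F.n) 1 36 = true := by decide +kernel

theorem b6_454565_good : Good 6 [4, 5, 4, 5, 6, 5] :=
  good_mk4 b6_454565_S b6_454565_S2 b6_454565_q b6_454565_M b6_454565_C b6_454565_T 6 [4, 5, 4, 5, 6, 5] rfl rfl b6_454565_okF b6_454565_okI b6_454565_okS b6_454565_okZ b6_454565_okM b6_454565_okC (runG4_of _ _ _ _ 0 _ rfl b6_454565_okG) b6_454565_okE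

noncomputable def b6_454646_F : Code := ⟨6, [4, 5, 4, 6, 4, 6], [(0, 2), (1, 2), (1, 3), (2, 2), (3, 2), (3, 3),
  (3, 4), (4, 2), (5, 2), (5, 3), (5, 4)], 17, 5,
  104088123684001072299266492557346857406220158659449711341181663252886439338864541617666563222157938542234117,
  502266218545550948603792189401049870683893150388856826101760, 13250416921⟩

noncomputable def b6_454646_S : Tri' := (.node (.node (.node (.node (.leaf []) (.node (.leaf []) (.leaf
  [⟨1070764836707166, 24, 213520⟩, ⟨1070767381862317, 24, 213520⟩, ⟨1081210192128877, 24, 213520⟩,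
  ⟨1081212747332851, 24, 213520⟩]))) (.leaf [⟨1542524044438366, 12, 271120⟩, ⟨1542526589593517, 12,
  271120⟩])) (.node (.leaf []) (.node (.node (.leaf [⟨1598401569020766, 6, 274720⟩,
  ⟨1598404114175917, 6, 274720⟩, ⟨1608846924442477, 6, 274720⟩, ⟨1608849479646451, 6, 274720⟩])
  (.leaf [])) (.node (.leaf []) (.leaf [⟨1081081348090718, 30, 213280⟩, ⟨1070635987688286, 30,
  74560⟩, ⟨1081083893245869, 30, 213280⟩, ⟨1070638532843437, 30, 74560⟩, ⟨1071919104179565, 30,
  213280⟩, ⟨1081081343109997, 30, 74560⟩, ⟨1081083898313971, 30, 74560⟩, ⟨1822701936663403, 30,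
  213280⟩]))))) (.node (.node (.leaf [⟨1880007913166750, 17, 12820⟩, ⟨1890450723433310, 17, 12820⟩])
  (.leaf [⟨1824001539565470, 29, 213010⟩, ⟨1071935585697013, 29, 213010⟩])) (.node (.node (.leaf
  [⟨1598516744607646, 3, 274945⟩, ⟨1608962100029357, 3, 274945⟩]) (.node (.leaf []) (.leaf
  [⟨1081196523677598, 27, 213505⟩, ⟨1070751163275166, 27, 4660⟩, ⟨1081196518696877, 27, 4660⟩,
  ⟨1822817112250283, 27, 213505⟩]))) (.node (.node (.leaf []) (.leaf [⟨1890324424550302, 23, 12580⟩,
  ⟨1879879064147870, 23, 144385⟩, ⟨1881159635483998, 23, 12580⟩, ⟨1890321874414430, 23, 144385⟩]))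
  (.leaf [⟨1542510371006366, 15, 262435⟩, ⟨1541227249621747, 15, 262435⟩])))))

noncomputable def b6_454646_S2 : Tri2 := (.node (.node (.node (.node (.leaf []) (.node (.leaf []) (.leaf
  [⟨1070764836707166, 420997920120341328632274555220, 24, 213520, .nil⟩, ⟨1070767381862317,
  420997920134446548857845531729, 24, 213520, .nil⟩, ⟨1081210192128877,
  421234567349530838473038435409, 24, 213520, .nil⟩]))) (.leaf [⟨1542524044438366,
  1353460552843498479116869767508, 12, 271120, .nil⟩])) (.node (.leaf []) (.node (.leaf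
  [⟨1598401569020766, 1368021993726620373378876641620, 6, 274720, .nil⟩, ⟨1608846924442477,
  1368258640955809883219640521809, 6, 274720, .nil⟩]) (.node (.leaf []) (.leaf [⟨1070635987688286,
  420997863673304463081046610260, 30, 74560, .nil⟩, ⟨1070638532843437,
  420997863687409683306617586769, 30, 74560, .nil⟩, ⟨1071919104179565,
  421001560196749674352227718225, 30, 213280, .nil⟩, ⟨1081081343109997,
  421234510902493972921810490449, 30, 74560, .nil⟩, ⟨1081081348090718,
  421234510902494026729160773972, 30, 213280, .nil⟩, ⟨1081083893245869,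
  421234510916599246954731750481, 30, 213280, .nil⟩]))))) (.node (.node (.leaf [⟨1880007913166750,
  1605706537730552161031918272852, 17, 12820, .nil⟩, ⟨1890450723433310,
  1605943184945636450647111176532, 17, 12820, .nil⟩]) (.leaf [⟨1824001539565470,
  1591145040400393401218683453780, 29, 213010, .nil⟩])) (.node (.node (.leaf [⟨1598516744607646,
  1368022049305724363168189595988, 3, 274945, .nil⟩, ⟨1608962100029357,
  1368258696534913873008953476177, 3, 274945, .nil⟩]) (.node (.leaf []) (.leaf [⟨1070751163275166,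
  420997919252408452870359564628, 27, 4660, .nil⟩, ⟨1081196518696877,
  421234566481597962711123444817, 27, 4660, .nil⟩, ⟨1081196523677598,
  421234566481598016518473728340, 27, 213505, .nil⟩]))) (.node (.node (.leaf []) (.leaf
  [⟨1879879064147870, 1605706481283515295480690327892, 23, 144385, .nil⟩, ⟨1881159635483998,
  1605710177792855286526300459348, 23, 12580, .nil⟩, ⟨1890321874414430,
  1605943128498599585095883231572, 23, 144385, .nil⟩, ⟨1890324424550302,
  1605943128512704859128804491604, 23, 12580, .nil⟩])) (.leaf [⟨1542510371006366,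
  1353460551975565603354954776916, 15, 262435, .nil⟩])))))

noncomputable def b6_454646_q : List ℕ := [50, 68, 74, 92, 98]

noncomputable def b6_454646_M : ℕ := 1690200800304305868662270940501

noncomputable def b6_454646_C : Cert := ⟨1, 1, 2, [0, 0, 0, 0, 0], [0, 0, 0, 0, 0], 0⟩

noncomputable def b6_454646_T : TT := .nil

theorem b6_454646_okF : okCode b6_454646_F = true := by decide +kernel

theorem b6_454646_okI : okIdx b6_454646_F = true := by decide +kernel

theorem b6_454646_okS : Tri'.all (okSyR b6_454646_F) b6_454646_S = true := by decide +kernel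

theorem b6_454646_okZ : Tri2.all (okSzR b6_454646_F b6_454646_S) b6_454646_S2 = true := by decide +kernel

theorem b6_454646_okM : okM b6_454646_F b6_454646_M = true := by decide +kernel

theorem b6_454646_okC : okCert b6_454646_C b6_454646_F.k = true := by decide +kernel

theorem b6_454646_okG : runG5 b6_454646_F b6_454646_S b6_454646_C b6_454646_T [[]] = true := by decide +kernel

theorem b6_454646_okE : enumR b6_454646_F (okG2R b6_454646_F b6_454646_S b6_454646_S2 b6_454646_q b6_454646_M b6_454646_T) (Nat.pred b6_454646_F.n) 1 36 = true := by decide +kernel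

theorem b6_454646_good : Good 6 [4, 5, 4, 6, 4, 6] :=
  good_mk4 b6_454646_S b6_454646_S2 b6_454646_q b6_454646_M b6_454646_C b6_454646_T 6 [4, 5, 4, 6, 4, 6] rfl rfl b6_454646_okF b6_454646_okI b6_454646_okS b6_454646_okZ b6_454646_okM b6_454646_okC (runG4_of _ _ _ _ 0 _ rfl b6_454646_okG) b6_454646_okE

noncomputable def b5_55555_F : Code := ⟨5, [5, 5, 5, 5, 5], [(0, 2), (0, 3), (1, 2), (1, 3), (2, 2), (2, 3), (3,
  2), (3, 3), (4, 2), (4, 3)], 15, 5,
  20513464843891215136483749134077905867738835620468362614192690921459322634674614775625818507397,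
  29931554959784648273717679409553359397316436049264640, 11620830355⟩

noncomputable def b5_55555_S : Tri' := (.node (.node (.node (.leaf [⟨16756235418989, 24, 213520⟩, ⟨29581007842155,
  24, 213520⟩]) (.leaf [⟨23901316175789, 12, 271120⟩, ⟨25201214864749, 12, 271120⟩])) (.node (.leaf
  []) (.node (.leaf [⟨24012958063349, 6, 274720⟩, ⟨24033268979629, 6, 274720⟩]) (.node (.leaf [])
  (.leaf [⟨28299335489438, 30, 213280⟩, ⟨29599234178398, 30, 213280⟩, ⟨16754463325429, 30, 213280⟩,
  ⟨29599546664875, 30, 213280⟩]))))) (.node (.node (.leaf [⟨28412781189982, 17, 12820⟩,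
  ⟨16867904154475, 17, 12820⟩]) (.node (.leaf []) (.node (.leaf []) (.leaf [⟨29599265897822, 29,
  8980⟩, ⟨16754495044853, 29, 8980⟩, ⟨29579267468019, 29, 8980⟩, ⟨16754490173355, 29, 8980⟩]))))
  (.node (.node (.leaf [⟨24014702467934, 3, 274945⟩, ⟨24015019825909, 3, 274945⟩]) (.node (.leaf [])
  (.leaf [⟨28301397251998, 27, 213505⟩, ⟨16756207730014, 27, 213505⟩, ⟨29581297511155, 27, 213505⟩,
  ⟨16756520216491, 27, 213505⟩]))) (.node (.node (.leaf []) (.leaf [⟨28431320012702, 23, 12580⟩,
  ⟨16886130490718, 23, 12580⟩, ⟨16886447848693, 23, 12580⟩, ⟨16866132060915, 23, 12580⟩])) (.node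
  (.leaf [⟨23901288486814, 15, 271105⟩, ⟨25201504533749, 15, 271105⟩, ⟨25181188745971, 15, 271105⟩,
  ⟨25201499662251, 15, 271105⟩]) (.leaf []))))))

noncomputable def b5_55555_S2 : Tri2 := (.node (.node (.node (.leaf [⟨16756235418989, 102783801933729534229681233,
  24, 213520, .nil⟩, ⟨29581007842155, 392089032969128199519016005, 24, 213520, .nil⟩]) (.leaf
  [⟨23901316175789, 330364073911341398925591633, 12, 271120, .nil⟩, ⟨25201214864749,
  334061482530106037876364369, 12, 271120, .nil⟩])) (.node (.leaf []) (.node (.leaf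
  [⟨24012958063349, 330419635501179683075282193, 6, 274720, .nil⟩, ⟨24033268979629,
  330420538188830748657927249, 6, 274720, .nil⟩]) (.node (.leaf []) (.leaf [⟨16754463325429,
  102783788365575727566837009, 30, 213280, .nil⟩, ⟨28299335489438, 388392513249531883173527892, 30,
  213280, .nil⟩, ⟨29599234178398, 392089921868296522124300628, 30, 213280, .nil⟩, ⟨29599546664875,
  392089922088625458438816837, 30, 213280, .nil⟩]))))) (.node (.node (.leaf [⟨16867904154475,
  102839363526878739122426949, 17, 12820, .nil⟩, ⟨28412781189982, 388448088410888685725487444, 17,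
  12820, .nil⟩]) (.node (.leaf []) (.node (.leaf []) (.leaf [⟨16754490173355,
  102783788368886648309892165, 29, 8980, .nil⟩, ⟨16754495044853, 102783788368940439306261777, 29,
  8980, .nil⟩, ⟨29579267468019, 392089019404339104595596549, 29, 8980, .nil⟩, ⟨29599265897822,
  392089921871661233863725396, 29, 8980, .nil⟩])))) (.node (.node (.leaf [⟨24014702467934,
  330419649066020952187670868, 3, 274945, .nil⟩, ⟨24015019825909, 330419649286403679498556689, 3,
  274945, .nil⟩]) (.node (.leaf []) (.leaf [⟨16756207730014, 102783801930416996679225684, 27,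
  213505, .nil⟩, ⟨16756520216491, 102783802150745932993741893, 27, 213505, .nil⟩, ⟨28301397251998,
  388392527034755879596802388, 27, 213505, .nil⟩, ⟨29581297511155, 392089033186198389279446277, 27,
  213505, .nil⟩]))) (.node (.node (.leaf []) (.leaf [⟨16866132060915, 102839349958724932459582725,
  23, 12580, .nil⟩, ⟨16886130490718, 102840252426047061727711572, 23, 12580, .nil⟩, ⟨16886447848693,
  102840252646429789038597393, 23, 12580, .nil⟩, ⟨28431320012702, 388448977530385944645288276, 23,
  12580, .nil⟩])) (.node (.leaf [⟨23901288486814, 330364073908028861375136084, 15, 271105, .nil⟩,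
  ⟨25181188745971, 334060580059471371057779973, 15, 271105, .nil⟩, ⟨25201499662251,
  334061482747122436640425029, 15, 271105, .nil⟩, ⟨25201504533749, 334061482747176227636794641, 15,
  271105, .nil⟩]) (.leaf []))))))

noncomputable def b5_55555_q : List ℕ := [38, 50, 62, 74, 86]

noncomputable def b5_55555_M : ℕ := 412646679761793424966374741

noncomputable def b5_55555_C : Cert := ⟨1, 1, 2, [0, 0, 0, 0, 0], [0, 0, 0, 0, 0], 0⟩

noncomputable def b5_55555_T : TT := .nil

theorem b5_55555_okF : okCode b5_55555_F = true := by decide +kernel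

theorem b5_55555_okI : okIdx b5_55555_F = true := by decide +kernel

theorem b5_55555_okS : Tri'.all (okSyR b5_55555_F) b5_55555_S = true := by decide +kernel

theorem b5_55555_okZ : Tri2.all (okSzR b5_55555_F b5_55555_S) b5_55555_S2 = true := by decide +kernel

theorem b5_55555_okM : okM b5_55555_F b5_55555_M = true := by decide +kernel

theorem b5_55555_okC : okCert b5_55555_C b5_55555_F.k = true := by decide +kernel

theorem b5_55555_okG : runG5 b5_55555_F b5_55555_S b5_55555_C b5_55555_T [[]] = true := by decide +kernel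

theorem b5_55555_okE : enumR b5_55555_F (okG2R b5_55555_F b5_55555_S b5_55555_S2 b5_55555_q b5_55555_M b5_55555_T) (Nat.pred b5_55555_F.n) 1 36 = true := by decide +kernel

theorem b5_55555_good : Good 5 [5, 5, 5, 5, 5] :=
  good_mk4 b5_55555_S b5_55555_S2 b5_55555_q b5_55555_M b5_55555_C b5_55555_T 5 [5, 5, 5, 5, 5] rfl rfl b5_55555_okF b5_55555_okI b5_55555_okS b5_55555_okZ b5_55555_okM b5_55555_okC (runG4_of _ _ _ _ 0 _ rfl b5_55555_okG) b5_55555_okE

noncomputable def b6_445556_F : Code := ⟨6, [4, 4, 5, 5, 5, 6], [(0, 2), (1, 2), (2, 2), (2, 3), (3, 2), (3, 3),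
  (4, 2), (4, 3), (5, 2), (5, 3), (5, 4)], 17, 5,
  104088123684001072304993478076508209273587391140241314391952115976571447111783339613186776565094829162482181,
  502266218549934383080015373876779339402164311455471962685440, 13250466076⟩

noncomputable def b6_445556_S : Tri' := (.node (.node (.node (.leaf [⟨1071727144262494, 24, 213520⟩,
  ⟨1071727179127541, 24, 213520⟩]) (.leaf [⟨1541424762710893, 12, 271120⟩, ⟨1890313546718059, 20,
  144400⟩])) (.node (.leaf [⟨1542464149777246, 10, 266800⟩, ⟨1542464184642293, 10, 266800⟩]) (.node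
  (.leaf [⟨1598585408765293, 6, 274720⟩, ⟨1608984598276973, 6, 274720⟩]) (.node (.leaf []) (.leaf
  [⟨1822885821147038, 30, 213280⟩, ⟨1081219021925214, 30, 213280⟩, ⟨1081219056790261, 30, 213280⟩,
  ⟨1070819827432813, 30, 74560⟩, ⟨1081219016944493, 30, 74560⟩]))))) (.node (.node (.leaf
  [⟨1880970019395486, 17, 12820⟩, ⟨1542317902879475, 9, 262675⟩]) (.node (.leaf [⟨1598601654091102,
  5, 274450⟩, ⟨1598601688956149, 5, 274450⟩]) (.node (.leaf []) (.leaf [⟨1070836072758622, 29,
  8980⟩, ⟨1070836107623669, 29, 8980⟩, ⟨1081072775027443, 29, 213010⟩, ⟨1822902021733739, 29,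
  213010⟩])))) (.node (.node (.leaf [⟨1599478543865773, 3, 274945⟩, ⟨1599641031196013, 3, 274945⟩])
  (.node (.leaf []) (.leaf [⟨1823941443577758, 27, 213505⟩, ⟨1071875454844254, 27, 213505⟩,
  ⟨1071875489709301, 27, 213505⟩, ⟨1071712962533293, 27, 4660⟩, ⟨1071875449863533, 27, 4660⟩])))
  (.node (.leaf [⟨1890461897058206, 23, 12580⟩, ⟨1890461857299819, 23, 144385⟩]) (.leaf
  [⟨1541410585962413, 15, 271105⟩, ⟨1541410591030515, 15, 262435⟩])))))

noncomputable def b6_445556_S2 : Tri2 := (.node (.node (.leaf [⟨1071727144262494, 421001490229615173166449365332,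
  24, 213520, .nil⟩]) (.node (.leaf [⟨1542464149777246, 1353460538897972754474842001748, 10, 266800,
  .nil⟩, ⟨1542464184642293, 1353460538897976144337909863697, 10, 266800, .nil⟩]) (.node (.leaf
  [⟨1598585408765293, 1368022063472819535844926886993, 6, 274720, .nil⟩]) (.node (.leaf []) (.leaf
  [⟨1070819827432813, 420997933419503625547096855633, 30, 74560, .nil⟩, ⟨1081219016944493,
  421234567571104562439946310737, 30, 74560, .nil⟩, ⟨1081219021925214,
  421234567571104616247296594260, 30, 213280, .nil⟩, ⟨1081219056790261,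
  421234567571108006110364456209, 30, 213280, .nil⟩, ⟨1822885821147038,
  1591141412740898940811113480532, 30, 213280, .nil⟩]))))) (.node (.node (.leaf [⟨1542317902879475,
  1353460482008002080513177441541, 9, 262675, (tB 5 6218)⟩, ⟨1880970019395486,
  1605710107839616588183420354900, 17, 12820, (tB 5 16970)⟩]) (.node (.leaf [⟨1598601654091102,
  1368022064354858583872043553108, 5, 274450, .nil⟩, ⟨1598601688956149,
  1368022064354861973735111415057, 5, 274450, .nil⟩]) (.node (.leaf []) (.leaf [⟨1070836072758622,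
  420997934301542673574213521748, 29, 8980, .nil⟩, ⟨1070836107623669,
  420997934301546063437281383697, 29, 8980, .nil⟩, ⟨1081072775027443,
  421234510681133942285632034053, 29, 213010, .nil⟩])))) (.node (.node (.leaf [⟨1599478543865773,
  1368025619414569186030507082833, 3, 274945, .nil⟩, ⟨1599641031196013,
  1368025677186578854227796366417, 3, 274945, .nil⟩]) (.node (.leaf []) (.leaf [⟨1071875449863533,
  421001547133262943929966335057, 27, 4660, .nil⟩, ⟨1071875454844254,
  421001547133262997737316618580, 27, 213505, .nil⟩, ⟨1823941443577758,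
  1591145026454658259193982959956, 27, 213505, .nil⟩]))) (.node (.leaf [⟨1890461897058206,
  1605943185181106031264267583828, 23, 12580, (tB 5 17058)⟩]) (.leaf [⟨1541410585962413,
  1353456925197890532877966591057, 15, 271105, (tB 5 6418)⟩, ⟨1541410591030515,
  1353456925197890586701175215365, 15, 262435, (tB 5 6306)⟩])))))

noncomputable def b6_445556_q : List ℕ := [56, 68, 80, 92, 98]

noncomputable def b6_445556_M : ℕ := 1690200800304305868662270940501

noncomputable def b6_445556_C : Cert := ⟨1, 1, 2, [0, 0, 0, 0, 0], [0, 0, 0, 0, 0], 0⟩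

noncomputable def b6_445556_T : TT := (tT 1 5 623980876178)

theorem b6_445556_okF : okCode b6_445556_F = true := by decide +kernel

theorem b6_445556_okI : okIdx b6_445556_F = true := by decide +kernel

theorem b6_445556_okS : Tri'.all (okSyR b6_445556_F) b6_445556_S = true := by decide +kernel

theorem b6_445556_okZ : Tri2.all (okSzR b6_445556_F b6_445556_S) b6_445556_S2 = true := by decide +kernel

theorem b6_445556_okM : okM b6_445556_F b6_445556_M = true := by decide +kernel

theorem b6_445556_okC : okCert b6_445556_C b6_445556_F.k = true := by decide +kernel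

theorem b6_445556_okG : runG5 b6_445556_F b6_445556_S b6_445556_C b6_445556_T [[]] = true := by decide +kernel

theorem b6_445556_okE : enumR b6_445556_F (okG2R b6_445556_F b6_445556_S b6_445556_S2 b6_445556_q b6_445556_M b6_445556_T) (Nat.pred b6_445556_F.n) 1 36 = true := by decide +kernel

theorem b6_445556_good : Good 6 [4, 4, 5, 5, 5, 6] :=
  good_mk4 b6_445556_S b6_445556_S2 b6_445556_q b6_445556_M b6_445556_C b6_445556_T 6 [4, 4, 5, 5, 5, 6] rfl rfl b6_445556_okF b6_445556_okI b6_445556_okS b6_445556_okZ b6_445556_okM b6_445556_okC (runG4_of _ _ _ _ 0 _ rfl b6_445556_okG) b6_445556_okE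

noncomputable def b6_445646_F : Code := ⟨6, [4, 4, 5, 6, 4, 6], [(0, 2), (1, 2), (2, 2), (2, 3), (3, 2), (3, 3),
  (3, 4), (4, 2), (5, 2), (5, 3), (5, 4)], 17, 5,
  104088123684001072299266492557346857406220158878394933860531001438217348616936205585103412793486406620269061,
  502266218545550948603792194592079078618492549517856452116480, 13250416924⟩

noncomputable def b6_445646_S : Tri' := (.node (.node (.node (.node (.leaf []) (.node (.leaf []) (.leaf
  [⟨1070765071588190, 24, 213520⟩, ⟨1070765106453237, 24, 213520⟩, ⟨1081210427009901, 24,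
  213520⟩]))) (.leaf [⟨1542524279319390, 12, 271120⟩, ⟨1542524314184437, 12, 271120⟩])) (.node
  (.leaf [⟨1890437066778526, 18, 78400⟩]) (.node (.node (.leaf [⟨1598401803901790, 6, 274720⟩,
  ⟨1598401838766837, 6, 274720⟩, ⟨1608847159323501, 6, 274720⟩]) (.leaf [])) (.node (.leaf [])
  (.leaf [⟨1081081582971742, 30, 213280⟩, ⟨1070636222569310, 30, 74560⟩, ⟨1081081617836789, 30,
  213280⟩, ⟨1070636257434357, 30, 74560⟩, ⟨1071919339060589, 30, 213280⟩, ⟨1081081577991021, 30,
  74560⟩, ⟨1822702171544427, 30, 213280⟩]))))) (.node (.node (.node (.leaf [⟨1880007946721182, 17,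
  12820⟩, ⟨1890453267365227, 17, 12820⟩]) (.leaf [⟨1541355830205171, 9, 262675⟩])) (.node (.leaf
  [⟨1599701160738157, 5, 274450⟩]) (.node (.leaf []) (.leaf [⟨1824001573119902, 29, 213010⟩,
  ⟨1071935584386398, 29, 213010⟩, ⟨1071935619251445, 29, 213010⟩, ⟨1071935579405677, 29, 8980⟩]))))
  (.node (.node (.leaf [⟨1598516471191469, 3, 274945⟩, ⟨1608961836662003, 3, 274945⟩]) (.node (.leaf
  []) (.leaf [⟨1081196250261421, 27, 213505⟩, ⟨1070750889858989, 27, 4660⟩, ⟨1081196255329523, 27,
  4660⟩]))) (.node (.node (.leaf []) (.leaf [⟨1890324458104734, 23, 12580⟩, ⟨1879879097702302, 23,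
  144385⟩, ⟨1890324418346347, 23, 144385⟩])) (.leaf [⟨1542510097590189, 15, 262435⟩,
  ⟨1541226981186291, 15, 271105⟩])))))

noncomputable def b6_445646_S2 : Tri2 := (.node (.node (.node (.leaf [⟨1070765071588190,
  420997920120554123714667811156, 24, 213520, .nil⟩, ⟨1081210427009901,
  421234567349743633555431691345, 24, 213520, .nil⟩]) (.leaf [⟨1542524279319390,
  1353460552843711274199263023444, 12, 271120, .nil⟩])) (.node (.leaf [⟨1890437066778526,
  1605943184077706108159986581844, 18, 78400, (tB 5 16977)⟩]) (.node (.leaf [⟨1598401803901790,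
  1368021993726833168461269897556, 6, 274720, .nil⟩]) (.node (.leaf []) (.leaf [⟨1070636222569310,
  420997863673517258163439866196, 30, 74560, .nil⟩, ⟨1071919339060589,
  421001560196962469434620974161, 30, 213280, .nil⟩, ⟨1081081577991021,
  421234510902706768004203746385, 30, 74560, .nil⟩, ⟨1081081582971742,
  421234510902706821811554029908, 30, 213280, .nil⟩]))))) (.node (.node (.leaf [⟨1541355830205171,
  1353456911898941031061395887365, 9, 262675, (tB 5 6218)⟩, ⟨1880007946721182,
  1605706537730555538731638800724, 17, 12820, .nil⟩]) (.node (.leaf []) (.node (.leaf []) (.leaf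
  [⟨1071935579405677, 421001561079001463654387356753, 29, 8980, (tB 5 17674)⟩, ⟨1071935584386398,
  421001561079001517461737640276, 29, 213010, .nil⟩, ⟨1824001573119902,
  1591145040400396778918403981652, 29, 213010, .nil⟩])))) (.node (.node (.leaf [⟨1598516471191469,
  1368022049305508136578725528657, 3, 274945, .nil⟩]) (.leaf [⟨1070750889858989,
  420997919252192226280895497297, 27, 4660, .nil⟩, ⟨1081196250261421,
  421234566481381789929009661009, 27, 213505, (tB 5 18514)⟩])) (.node (.leaf [⟨1879879097702302,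
  1605706481283518673180410855764, 23, 144385, .nil⟩, ⟨1890324458104734,
  1605943128512708236828525019476, 23, 12580, (tB 5 17058)⟩]) (.leaf [⟨1541226981186291,
  1353456855451904165510167942405, 15, 271105, (tB 5 6418)⟩, ⟨1542510097590189,
  1353460551975349376765490709585, 15, 262435, (tB 5 6306)⟩])))))

noncomputable def b6_445646_q : List ℕ := [56, 68, 74, 92, 98]

noncomputable def b6_445646_M : ℕ := 1690200800304305868662270940501

noncomputable def b6_445646_C : Cert := ⟨1, 1, 2, [0, 0, 1, 0, 0], [0, 0, 0, 0, 1], 6⟩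

noncomputable def b6_445646_T : TT := (tT 1 5 1201966866196022694179)

theorem b6_445646_okF : okCode b6_445646_F = true := by decide +kernel

theorem b6_445646_okI : okIdx b6_445646_F = true := by decide +kernel

theorem b6_445646_okS : Tri'.all (okSyR b6_445646_F) b6_445646_S = true := by decide +kernel

theorem b6_445646_okZ : Tri2.all (okSzR b6_445646_F b6_445646_S) b6_445646_S2 = true := by decide +kernel

theorem b6_445646_okM : okM b6_445646_F b6_445646_M = true := by decide +kernel

theorem b6_445646_okC : okCert b6_445646_C b6_445646_F.k = true := by decide +kernel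

theorem b6_445646_okG : runG5 b6_445646_F b6_445646_S b6_445646_C b6_445646_T [[]] = true := by decide +kernel

theorem b6_445646_okE : enumR b6_445646_F (okG2R b6_445646_F b6_445646_S b6_445646_S2 b6_445646_q b6_445646_M b6_445646_T) (Nat.pred b6_445646_F.n) 1 36 = true := by decide +kernel

theorem b6_445646_good : Good 6 [4, 4, 5, 6, 4, 6] :=
  good_mk4 b6_445646_S b6_445646_S2 b6_445646_q b6_445646_M b6_445646_C b6_445646_T 6 [4, 4, 5, 6, 4, 6] rfl rfl b6_445646_okF b6_445646_okI b6_445646_okS b6_445646_okZ b6_445646_okM b6_445646_okC (runG4_of _ _ _ _ 0 _ rfl b6_445646_okG) b6_445646_okE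

noncomputable def b6_445565_F : Code := ⟨6, [4, 4, 5, 5, 6, 5], [(0, 2), (1, 2), (2, 2), (2, 3), (3, 2), (3, 3),
  (4, 2), (4, 3), (4, 4), (5, 2), (5, 3)], 17, 5,
  104088095215577867883391696092497923617139572085932613172445316975307824935555433675179656654254872901962245,
  502168162780561792222593851516214018837993706194450996264960, 13244174620⟩

noncomputable def b6_445565_S : Tri' := (.node (.node (.node (.leaf [⟨1894161837415275, 24, 213520⟩]) (.node
  (.leaf [⟨1079629879044973, 20, 144400⟩]) (.leaf [⟨1529673737231198, 12, 271120⟩,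
  ⟨1529673772096245, 12, 271120⟩]))) (.node (.node (.leaf [⟨1080669266111326, 18, 78400⟩,
  ⟨1080669300976373, 18, 78400⟩]) (.leaf [⟨1612832888974189, 10, 266800⟩])) (.node (.leaf
  [⟨1537012757609837, 6, 274720⟩]) (.node (.leaf []) (.leaf [⟨1893254565324702, 30, 74560⟩,
  ⟨1072422928903006, 30, 213280⟩, ⟨1072422963768053, 30, 213280⟩, ⟨1072422923922285, 30,
  74560⟩]))))) (.node (.node (.leaf [⟨1819397368240030, 17, 12820⟩, ⟨1080523019213555, 17, 12820⟩])
  (.node (.leaf [⟨1537029002935646, 5, 274450⟩, ⟨1537029037800693, 5, 274450⟩]) (.node (.leaf [])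
  (.leaf [⟨1811151031031710, 29, 213010⟩, ⟨1072276682005235, 29, 213010⟩, ⟨1893270765911403, 29,
  8980⟩])))) (.node (.node (.leaf [⟨1537905892710317, 3, 274945⟩, ⟨1538068380040557, 3, 274945⟩])
  (.leaf [⟨1894310187755422, 27, 4660⟩, ⟨1894310147997035, 27, 213505⟩])) (.node (.leaf
  [⟨1079615702296493, 23, 144385⟩, ⟨1079615707364595, 23, 12580⟩]) (.node (.leaf [⟨1529822047812958,
  15, 271105⟩, ⟨1529822082678005, 15, 271105⟩, ⟨1529659555501997, 15, 262435⟩, ⟨1529822042832237,
  15, 262435⟩, ⟨1611779335208179, 15, 271105⟩]) (.leaf []))))))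

noncomputable def b6_445565_S2 : Tri2 := (.node (.node (.leaf [⟨1529673737231198, 1353171246505871231137370935636,
  12, 271120, .nil⟩]) (.node (.leaf [⟨1080669266111326, 421233660876739905275415564628, 18, 78400,
  .nil⟩, ⟨1612832888974189, 1368315819369397263966281208913, 10, 266800, (tB 5 6225)⟩]) (.node
  (.leaf [⟨1537012757609837, 1353398896758760981347680982097, 6, 274720, (tB 5 4881)⟩]) (.node
  (.leaf []) (.leaf [⟨1072422923922285, 421002453813738553638402724945, 30, 74560, .nil⟩,
  ⟨1072422928903006, 421002453813738607445753008468, 30, 213280, .nil⟩, ⟨1072422963768053,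
  421002453813741997308820870417, 30, 213280, .nil⟩, ⟨1893254565324702,
  1605996693212323504109902971220, 30, 74560, .nil⟩]))))) (.node (.node (.leaf [⟨1080523019213555,
  421233603986769231313751004421, 17, 12820, .nil⟩, ⟨1819397368240030,
  1591086941125558033686174450004, 17, 12820, .nil⟩]) (.node (.leaf [⟨1537029002935646,
  1353398897640800029374797648212, 5, 274450, .nil⟩, ⟨1537029037800693,
  1353398897640803419237865510161, 5, 274450, .nil⟩]) (.leaf [⟨1072276682005235,
  421002396923767933484088448261, 29, 213010, .nil⟩, ⟨1811151031031710,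
  1590855734062556735856511893844, 29, 213010, .nil⟩]))) (.node (.node (.leaf [⟨1537905892710317,
  1353402452700510631533261177937, 3, 274945, .nil⟩, ⟨1538068380040557,
  1353402510472520299730550461521, 3, 274945, .nil⟩]) (.leaf [⟨1894310187755422,
  1606000306926082822492772450644, 27, 4660, (tB 5 17506)⟩])) (.node (.leaf [⟨1079615702296493,
  421230047176657683678540153937, 23, 144385, (tB 5 17170)⟩, ⟨1079615707364595,
  421230047176657737501748778245, 23, 12580, (tB 5 17058)⟩]) (.node (.leaf [⟨1529659555501997,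
  1353171245637509333703598621777, 15, 262435, .nil⟩, ⟨1529822042832237,
  1353171303409519001900887905361, 15, 262435, .nil⟩, ⟨1529822047812958,
  1353171303409519055708238188884, 15, 271105, .nil⟩, ⟨1611779335208179,
  1368312205669315149999964706053, 15, 271105, .nil⟩]) (.leaf []))))))

noncomputable def b6_445565_q : List ℕ := [56, 68, 80, 86, 98]

noncomputable def b6_445565_M : ℕ := 1690200800304305868662270940501

noncomputable def b6_445565_C : Cert := ⟨1, 1, 2, [0, 0, 0, 0, 0], [0, 0, 0, 0, 0], 0⟩

noncomputable def b6_445565_T : TT := (tT 1 5 9166138850248995)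

theorem b6_445565_okF : okCode b6_445565_F = true := by decide +kernel

theorem b6_445565_okI : okIdx b6_445565_F = true := by decide +kernel

theorem b6_445565_okS : Tri'.all (okSyR b6_445565_F) b6_445565_S = true := by decide +kernel

theorem b6_445565_okZ : Tri2.all (okSzR b6_445565_F b6_445565_S) b6_445565_S2 = true := by decide +kernel

theorem b6_445565_okM : okM b6_445565_F b6_445565_M = true := by decide +kernel

theorem b6_445565_okC : okCert b6_445565_C b6_445565_F.k = true := by decide +kernel

theorem b6_445565_okG : runG5 b6_445565_F b6_445565_S b6_445565_C b6_445565_T [[]] = true := by decide +kernel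

theorem b6_445565_okE : enumR b6_445565_F (okG2R b6_445565_F b6_445565_S b6_445565_S2 b6_445565_q b6_445565_M b6_445565_T) (Nat.pred b6_445565_F.n) 1 36 = true := by decide +kernel

theorem b6_445565_good : Good 6 [4, 4, 5, 5, 6, 5] :=
  good_mk4 b6_445565_S b6_445565_S2 b6_445565_q b6_445565_M b6_445565_C b6_445565_T 6 [4, 4, 5, 5, 6, 5] rfl rfl b6_445565_okF b6_445565_okI b6_445565_okS b6_445565_okZ b6_445565_okM b6_445565_okC (runG4_of _ _ _ _ 0 _ rfl b6_445565_okG) b6_445565_okE

noncomputable def b6_455456_F : Code := ⟨6, [4, 5, 5, 4, 5, 6], [(0, 2), (1, 2), (1, 3), (2, 2), (2, 3), (3, 2),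
  (4, 2), (4, 3), (5, 2), (5, 3), (5, 4)], 17, 5,
  104088123684001072304993478076507076725078027923111965629418605361298992417771556965513854104972975266843141,
  502266218549934382905833332118094755482250035147335983431680, 13250465689⟩

noncomputable def b6_455456_S : Tri' := (.node (.node (.node (.leaf [⟨1071711876995934, 24, 213520⟩,
  ⟨1071875080764781, 24, 213520⟩]) (.leaf [⟨1541409495444333, 12, 271120⟩, ⟨1890298279451499, 20,
  144400⟩])) (.node (.leaf [⟨1542464312567725, 10, 266800⟩, ⟨1542301108886259, 10, 266800⟩]) (.node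
  (.leaf [⟨1598602358734174, 6, 274720⟩, ⟨1608984771116275, 6, 274720⟩]) (.node (.leaf []) (.leaf
  [⟨1070836777401694, 30, 74560⟩, ⟨1081219184715693, 30, 213280⟩, ⟨1081219189783795, 30, 74560⟩,
  ⟨1081055981034227, 30, 213280⟩, ⟨1822902726376811, 30, 213280⟩]))))) (.node (.node (.leaf
  [⟨1542466347591582, 9, 262675⟩, ⟨1881115612069214, 17, 12820⟩]) (.node (.leaf [⟨1608986796091309,
  5, 274450⟩, ⟨1608823592409843, 5, 274450⟩]) (.node (.leaf []) (.leaf [⟨1081221219739550, 29,
  213010⟩, ⟨1822884445416286, 29, 213010⟩, ⟨1081221214758829, 29, 8980⟩, ⟨1081058011077363, 29,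
  8980⟩])))) (.node (.node (.leaf [⟨1599475681254133, 3, 274945⟩, ⟨1599495992170413, 3, 274945⟩])
  (.node (.leaf []) (.leaf [⟨1823939262539678, 27, 213505⟩, ⟨1071730415818654, 27, 213505⟩,
  ⟨1071873308671221, 27, 213505⟩, ⟨1071710099921653, 27, 4660⟩, ⟨1071730410837933, 27, 4660⟩])))
  (.node (.leaf [⟨1890459716020126, 23, 12580⟩, ⟨1890316818274219, 23, 144385⟩]) (.leaf
  [⟨1541407723350773, 15, 271105⟩, ⟨1541428039335155, 15, 262435⟩])))))

noncomputable def b6_455456_S2 : Tri2 := (.node (.node (.leaf [⟨1071711876995934, 421001489357793720601279795540,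
  24, 213520, .nil⟩, ⟨1541409495444333, 1353456925194430923939219051601, 12, 271120, (tB 5 6281)⟩])
  (.node (.leaf []) (.node (.leaf [⟨1598602358734174, 1368022064358050510107942392148, 6, 274720,
  .nil⟩, ⟨1608984771116275, 1368258697624477947456230806789, 6, 274720, .nil⟩]) (.node (.leaf [])
  (.leaf [⟨1070836777401694, 420997934304734599810112360788, 30, 74560, .nil⟩, ⟨1081219189783795,
  421234567571162037158400775429, 30, 74560, .nil⟩, ⟨1822902726376811,
  1591141413626126417612218897477, 30, 213280, .nil⟩]))))) (.node (.node (.leaf [⟨1542466347591582,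
  1353460538911812034654771691860, 9, 262675, (tB 5 6218)⟩, ⟨1881115612069214,
  1605710164729101717826117374292, 17, 12820, (tB 5 16970)⟩]) (.node (.leaf [⟨1608986796091309,
  1368258697638259752917706032209, 5, 274450, .nil⟩]) (.node (.leaf []) (.leaf [⟨1081221214758829,
  421234567584943842619876000849, 29, 8980, .nil⟩, ⟨1081221219739550,
  421234567584943896427226284372, 29, 213010, .nil⟩, ⟨1822884445416286,
  1591141412737220625815461761364, 29, 213010, .nil⟩])))) (.node (.node (.leaf [⟨1599475681254133,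
  1368025619397541423285096699153, 3, 274945, .nil⟩, ⟨1599495992170413,
  1368025620300229074350679344209, 3, 274945, .nil⟩]) (.node (.leaf []) (.leaf [⟨1071730410837933,
  421001490246913164052849312849, 27, 4660, .nil⟩, ⟨1071730415818654,
  421001490246913217860199596372, 27, 213505, .nil⟩, ⟨1823939262539678,
  1591145026440819823438980268372, 27, 213505, .nil⟩]))) (.leaf [⟨1541407723350773,
  1353456925180862770132556207377, 15, 271105, (tB 5 6418)⟩, ⟨1890459716020126,
  1605943185167267595509264892244, 23, 12580, (tB 5 17058)⟩]))))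

noncomputable def b6_455456_q : List ℕ := [50, 62, 80, 92, 98]

noncomputable def b6_455456_M : ℕ := 1690200800304305868662270940501

noncomputable def b6_455456_C : Cert := ⟨1, 1, 2, [0, 0, 0, 0, 0], [0, 0, 0, 0, 0], 0⟩

noncomputable def b6_455456_T : TT := .nil

theorem b6_455456_okF : okCode b6_455456_F = true := by decide +kernel

theorem b6_455456_okI : okIdx b6_455456_F = true := by decide +kernel

theorem b6_455456_okS : Tri'.all (okSyR b6_455456_F) b6_455456_S = true := by decide +kernel

theorem b6_455456_okZ : Tri2.all (okSzR b6_455456_F b6_455456_S) b6_455456_S2 = true := by decide +kernel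

theorem b6_455456_okM : okM b6_455456_F b6_455456_M = true := by decide +kernel

theorem b6_455456_okC : okCert b6_455456_C b6_455456_F.k = true := by decide +kernel

theorem b6_455456_okG : runG5 b6_455456_F b6_455456_S b6_455456_C b6_455456_T [[]] = true := by decide +kernel

theorem b6_455456_okE : enumR b6_455456_F (okG2R b6_455456_F b6_455456_S b6_455456_S2 b6_455456_q b6_455456_M b6_455456_T) (Nat.pred b6_455456_F.n) 1 36 = true := by decide +kernel

theorem b6_455456_good : Good 6 [4, 5, 5, 4, 5, 6] :=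
  good_mk4 b6_455456_S b6_455456_S2 b6_455456_q b6_455456_M b6_455456_C b6_455456_T 6 [4, 5, 5, 4, 5, 6] rfl rfl b6_455456_okF b6_455456_okI b6_455456_okS b6_455456_okZ b6_455456_okM b6_455456_okC (runG4_of _ _ _ _ 0 _ rfl b6_455456_okG) b6_455456_okE

noncomputable def b5_45466_F : Code := ⟨5, [4, 5, 4, 6, 6], [(0, 2), (1, 2), (1, 3), (2, 2), (3, 2), (3, 3), (3,
  4), (4, 2), (4, 3), (4, 4)], 15, 5,
  20513470570876734298968165469834796140366632890149977617437492750586910240716418838731769972869,
  29937399539347594769575426280093155816310717892526080, 11627171734⟩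

noncomputable def b5_45466_S : Tri' := (.node (.node (.node (.leaf [⟨16747616230238, 24, 213520⟩, ⟨16747934373805,
  24, 213520⟩]) (.leaf [⟨29538028284779, 20, 144400⟩])) (.node (.leaf [⟨24098854780269, 10,
  266800⟩]) (.node (.leaf [⟨24977847311198, 6, 274720⟩, ⟨24978165454765, 6, 274720⟩]) (.node (.leaf
  []) (.leaf [⟨16731510102878, 30, 74560⟩, ⟨16731828246445, 30, 74560⟩, ⟨16891899657581, 30,
  213280⟩, ⟨28482540071787, 30, 213280⟩]))))) (.node (.node (.leaf [⟨29392314750878, 17, 12820⟩,
  ⟨24100914969845, 9, 262675⟩]) (.node (.leaf [⟨25140017982195, 5, 274450⟩]) (.leaf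
  [⟨16893959847157, 29, 213010⟩, ⟨16893680773875, 29, 8980⟩]))) (.node (.node (.leaf
  [⟨24992244258718, 3, 274945⟩]) (.node (.leaf []) (.leaf [⟨16745907050398, 27, 4660⟩,
  ⟨28496897949022, 27, 213505⟩, ⟨28496937019307, 27, 213505⟩]))) (.node (.node (.leaf []) (.leaf
  [⟨29376208623518, 23, 144385⟩, ⟨29536280034654, 23, 12580⟩, ⟨29536319104939, 23, 12580⟩])) (.leaf
  [⟨24084808842485, 15, 271105⟩, ⟨24084529769203, 15, 262435⟩])))))

noncomputable def b5_45466_S2 : Tri2 := (.node (.node (.node (.leaf [⟨16747616230238, 102783580569475742859333972,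
  24, 213520, .nil⟩, ⟨16747934373805, 102783580789869808880796753, 24, 213520, .nil⟩]) (.leaf
  [⟨29538028284779, 392075972670998265360356421, 20, 144400, (tB 5 17033)⟩])) (.node (.leaf
  [⟨24098854780269, 330434688044329811095655505, 10, 266800, (tB 5 6225)⟩]) (.node (.leaf
  [⟨24977847311198, 333989761585822548283953492, 6, 274720, .nil⟩, ⟨24978165454765,
  333989761806216614305416273, 6, 274720, .nil⟩]) (.node (.leaf []) (.leaf [⟨16731510102878,
  102782698584524718621397332, 30, 74560, .nil⟩, ⟨16731828246445, 102782698804918784642860113, 30,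
  74560, .nil⟩, ⟨16891899657581, 102840456763356144536196177, 30, 213280, .nil⟩, ⟨28482540071787,
  388462258965723078019322949, 30, 213280, .nil⟩]))))) (.node (.node (.leaf [⟨24100914969845,
  330434701829515049734001937, 9, 262675, (tB 5 6218)⟩, ⟨29392314750878,
  392019083132618106048168276, 17, 12820, (tB 5 16970)⟩]) (.node (.leaf [⟨25140017982195,
  334047533332887786689418501, 5, 274450, (tB 5 4874)⟩]) (.leaf [⟨16893680773875,
  102840470331589957026862341, 29, 8980, (tB 5 17674)⟩, ⟨16893959847157,
  102840470548541383174542609, 29, 213010, (tB 5 18570)⟩]))) (.node (.node (.leaf [⟨24992244258718,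
  333990630009322388738883924, 3, 274945, (tB 5 4706)⟩]) (.node (.leaf []) (.leaf [⟨16745907050398,
  102783567008024559076327764, 27, 4660, (tB 5 17506)⟩, ⟨28496897949022,
  388463127385780278600470868, 27, 213505, .nil⟩, ⟨28496937019307, 388463127389222918474253381, 27,
  213505, .nil⟩]))) (.node (.node (.leaf []) (.leaf [⟨29376208623518, 392018201147667081810231636,
  23, 144385, (tB 5 17170)⟩, ⟨29536280034654, 392075959106104441703567700, 23, 12580, .nil⟩,
  ⟨29536319104939, 392075959109547081577350213, 23, 12580, .nil⟩])) (.leaf [⟨24084529769203,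
  330433819627612599348385029, 15, 262435, (tB 5 6306)⟩, ⟨24084808842485,
  330433819844564025496065297, 15, 271105, (tB 5 6418)⟩])))))

noncomputable def b5_45466_q : List ℕ := [44, 62, 68, 80, 86]

noncomputable def b5_45466_M : ℕ := 412646679761793424966374741

noncomputable def b5_45466_C : Cert := ⟨1, 1, 2, [0, 1, 0, 0, 0], [0, 0, 0, 0, 1], 6⟩

noncomputable def b5_45466_T : TT := (tT 1 5 12606985062317788114589337235533165036085831012915)

theorem b5_45466_okF : okCode b5_45466_F = true := by decide +kernel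

theorem b5_45466_okI : okIdx b5_45466_F = true := by decide +kernel

theorem b5_45466_okS : Tri'.all (okSyR b5_45466_F) b5_45466_S = true := by decide +kernel

theorem b5_45466_okZ : Tri2.all (okSzR b5_45466_F b5_45466_S) b5_45466_S2 = true := by decide +kernel

theorem b5_45466_okM : okM b5_45466_F b5_45466_M = true := by decide +kernel

theorem b5_45466_okC : okCert b5_45466_C b5_45466_F.k = true := by decide +kernel

theorem b5_45466_okG : runG5 b5_45466_F b5_45466_S b5_45466_C b5_45466_T [[]] = true := by decide +kernel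

theorem b5_45466_okE : enumR b5_45466_F (okG2R b5_45466_F b5_45466_S b5_45466_S2 b5_45466_q b5_45466_M b5_45466_T) (Nat.pred b5_45466_F.n) 1 36 = true := by decide +kernel

theorem b5_45466_good : Good 5 [4, 5, 4, 6, 6] :=
  good_mk4 b5_45466_S b5_45466_S2 b5_45466_q b5_45466_M b5_45466_C b5_45466_T 5 [4, 5, 4, 6, 6] rfl rfl b5_45466_okF b5_45466_okI b5_45466_okS b5_45466_okZ b5_45466_okM b5_45466_okC (runG4_of _ _ _ _ 0 _ rfl b5_45466_okG) b5_45466_okE

noncomputable def b5_45565_F : Code := ⟨5, [4, 5, 5, 6, 5], [(0, 2), (1, 2), (1, 3), (2, 2), (2, 3), (3, 2), (3,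
  3), (3, 4), (4, 2), (4, 3)], 15, 5,
  20513464843891215137616297643441122997087598194992352209012451670814758205142007743522088880261,
  29931554960045921338951221198809982468962294232514560, 11620879894⟩

noncomputable def b5_45565_S : Tri' := (.node (.node (.node (.leaf [⟨29596278778731, 24, 213520⟩]) (.leaf
  [⟨23901152697182, 12, 271120⟩, ⟨16869216861549, 20, 144400⟩])) (.node (.node (.leaf
  [⟨16885457829214, 18, 78400⟩, ⟨16882958035699, 18, 78400⟩]) (.leaf [⟨25200513891693, 10,
  266800⟩])) (.node (.leaf [⟨24015824345005, 6, 274720⟩]) (.node (.leaf []) (.leaf [⟨16756608810334,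
  30, 213280⟩, ⟨16756608187757, 30, 74560⟩, ⟨16754109016819, 30, 213280⟩]))))) (.node (.node (.leaf
  [⟨25198268476147, 9, 262675⟩]) (.node (.leaf [⟨24016078722974, 5, 274450⟩]) (.node (.leaf [])
  (.leaf [⟨29582316715358, 29, 8980⟩, ⟨16754362772211, 29, 8980⟩, ⟨29582355785643, 29, 8980⟩]))))
  (.node (.node (.leaf [⟨24029779581685, 3, 274945⟩, ⟨24032318445485, 3, 274945⟩]) (.leaf
  [⟨29598557060446, 27, 213505⟩, ⟨29598596130731, 27, 213505⟩])) (.node (.leaf [⟨28413867513758, 23,
  144385⟩, ⟨16868995349749, 23, 144385⟩]) (.node (.leaf [⟨23903470049182, 15, 271105⟩,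
  ⟨23900930562805, 15, 262435⟩, ⟨23903469426605, 15, 262435⟩]) (.leaf []))))))

noncomputable def b5_45565_S2 : Tri2 := (.node (.node (.node (.leaf [⟨29596278778731, 392089904790632716612998213,
  24, 213520, (tB 5 17481)⟩]) (.leaf [⟨16869216861549, 102839367198491095537357905, 20, 144400, (tB
  5 17033)⟩, ⟨23901152697182, 330364073853973296344011092, 12, 271120, (tB 5 6281)⟩])) (.node (.node
  (.leaf [⟨16882958035699, 102840235136434248020677893, 18, 78400, .nil⟩, ⟨16885457829214,
  102840249237486156043587924, 18, 78400, .nil⟩]) (.leaf [⟨25200513891693,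
  334061479338231753901937745, 10, 266800, (tB 5 6225)⟩])) (.node (.leaf [⟨24015824345005,
  330419652528994380410078289, 6, 274720, (tB 5 4881)⟩]) (.node (.leaf []) (.leaf [⟨16754109016819,
  102783788099568696792732933, 30, 213280, .nil⟩, ⟨16756608187757, 102783802200619764075795537, 30,
  74560, (tB 5 17681)⟩, ⟨16756608810334, 102783802200620604815642964, 30, 213280, .nil⟩]))))) (.node
  (.node (.leaf [⟨25198268476147, 334061465452522237942060293, 9, 262675, (tB 5 6218)⟩]) (.node
  (.leaf [⟨24016078722974, 330419652744336772473110868, 5, 274450, (tB 5 4874)⟩]) (.node (.leaf [])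
  (.leaf [⟨16754362772211, 102783788314910248115918085, 29, 8980, .nil⟩, ⟨29582316715358,
  392089036640688001640370516, 29, 8980, .nil⟩, ⟨29582355785643, 392089036644130641514153029, 29,
  8980, .nil⟩])))) (.node (.node (.leaf [⟨24029779581685, 330420520678835603602953489, 3, 274945,
  .nil⟩, ⟨24032318445485, 330420534783330151499646033, 3, 274945, .nil⟩]) (.leaf [⟨29598557060446,
  392089918679682221406753108, 27, 213505, .nil⟩, ⟨29598596130731, 392089918683124861280535621, 27,
  213505, .nil⟩])) (.node (.leaf [⟨16868995349749, 102839366986488692308202769, 23, 144385, .nil⟩,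
  ⟨28413867513758, 388448091870444847914893652, 23, 144385, .nil⟩]) (.node (.leaf [⟨23900930562805,
  330364073641970052375008529, 15, 262435, .nil⟩, ⟨23903469426605, 330364087746464600271701073, 15,
  262435, .nil⟩, ⟨23903470049182, 330364087746465441011548500, 15, 271105, (tB 5 6418)⟩]) (.leaf
  []))))))

noncomputable def b5_45565_q : List ℕ := [44, 56, 68, 74, 86]

noncomputable def b5_45565_M : ℕ := 412646679761793424966374741

noncomputable def b5_45565_C : Cert := ⟨1, 1, 2, [0, 0, 0, 0, 0], [0, 0, 0, 0, 0], 0⟩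

noncomputable def b5_45565_T : TT := (tT 1 5 117280015490789926026879795)

theorem b5_45565_okF : okCode b5_45565_F = true := by decide +kernel

theorem b5_45565_okI : okIdx b5_45565_F = true := by decide +kernel

theorem b5_45565_okS : Tri'.all (okSyR b5_45565_F) b5_45565_S = true := by decide +kernel

theorem b5_45565_okZ : Tri2.all (okSzR b5_45565_F b5_45565_S) b5_45565_S2 = true := by decide +kernel

theorem b5_45565_okM : okM b5_45565_F b5_45565_M = true := by decide +kernel

theorem b5_45565_okC : okCert b5_45565_C b5_45565_F.k = true := by decide +kernel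

theorem b5_45565_okG : runG5 b5_45565_F b5_45565_S b5_45565_C b5_45565_T [[]] = true := by decide +kernel

theorem b5_45565_okE : enumR b5_45565_F (okG2R b5_45565_F b5_45565_S b5_45565_S2 b5_45565_q b5_45565_M b5_45565_T) (Nat.pred b5_45565_F.n) 1 36 = true := by decide +kernel

theorem b5_45565_good : Good 5 [4, 5, 5, 6, 5] :=
  good_mk4 b5_45565_S b5_45565_S2 b5_45565_q b5_45565_M b5_45565_C b5_45565_T 5 [4, 5, 5, 6, 5] rfl rfl b5_45565_okF b5_45565_okI b5_45565_okS b5_45565_okZ b5_45565_okM b5_45565_okC (runG4_of _ _ _ _ 0 _ rfl b5_45565_okG) b5_45565_okE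

noncomputable def b6_446456_F : Code := ⟨6, [4, 4, 6, 4, 5, 6], [(0, 2), (1, 2), (2, 2), (2, 3), (2, 4), (3, 2),
  (4, 2), (4, 3), (5, 2), (5, 3), (5, 4)], 17, 5,
  104088123684001072304993478076507076725078028142057188148767943546629901695843220932950703676301443344878085,
  502266218549934382905833337309123963416849434276335609446400, 13250465692⟩

noncomputable def b6_446456_S : Tri' := (.node (.node (.node (.node (.leaf []) (.node (.leaf []) (.leaf
  [⟨1071712111876958, 24, 213520⟩, ⟨1071712146742005, 24, 213520⟩, ⟨1071875315645805, 24,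
  213520⟩]))) (.node (.leaf [⟨1890461762840478, 20, 144400⟩, ⟨1890298514332523, 20, 144400⟩]) (.leaf
  [⟨1541409730325357, 12, 271120⟩]))) (.node (.leaf [⟨1880970958919582, 18, 78400⟩]) (.node (.leaf
  [⟨1598602593615198, 6, 274720⟩, ⟨1598602628480245, 6, 274720⟩]) (.node (.leaf []) (.leaf
  [⟨1070837012282718, 30, 74560⟩, ⟨1070837047147765, 30, 74560⟩, ⟨1822902961257835, 30,
  213280⟩]))))) (.node (.node (.leaf [⟨1542466074175405, 9, 262675⟩, ⟨1542302870493939, 9, 262675⟩])
  (.node (.leaf [⟨1608986532723955, 5, 274450⟩]) (.node (.leaf []) (.leaf [⟨1081220946323373, 29,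
  213010⟩, ⟨1081220951391475, 29, 8980⟩, ⟨1081057742641907, 29, 213010⟩])))) (.node (.node (.node
  (.leaf [⟨1599475679943518, 3, 274945⟩, ⟨1599475714808565, 3, 274945⟩, ⟨1599638883712365, 3,
  274945⟩]) (.leaf [])) (.node (.leaf []) (.leaf [⟨1823939296094110, 27, 213505⟩, ⟨1071873307360606,
  27, 213505⟩, ⟨1071710098611038, 27, 4660⟩, ⟨1071873342225653, 27, 213505⟩, ⟨1071710133476085, 27,
  4660⟩, ⟨1071730142402477, 27, 213505⟩, ⟨1071873302379885, 27, 4660⟩, ⟨1823776047586155, 27,
  213505⟩]))) (.node (.node (.leaf []) (.leaf [⟨1890459749574558, 23, 12580⟩, ⟨1890459709816171, 23,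
  144385⟩, ⟨1890296501066603, 23, 12580⟩])) (.node (.leaf [⟨1541407722040158, 15, 271105⟩,
  ⟨1541407756905205, 15, 271105⟩, ⟨1541407717059437, 15, 262435⟩, ⟨1541427770899699, 15, 271105⟩])
  (.leaf []))))))

noncomputable def b6_446456_S2 : Tri2 := (.node (.node (.leaf [⟨1071712111876958, 421001489358006515683673051476,
  24, 213520, .nil⟩, ⟨1890461762840478, 1605943185181051988068739137876, 20, 144400, .nil⟩]) (.node
  (.leaf [⟨1880970958919582, 1605710107843021309501712449876, 18, 78400, (tB 5 16977)⟩]) (.leaf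
  [⟨1070837012282718, 420997934304947394892505616724, 30, 74560, .nil⟩, ⟨1598602593615198,
  1368022064358263305190335648084, 6, 274720, .nil⟩]))) (.node (.node (.leaf [⟨1542466074175405,
  1353460538911595808065307624529, 9, 262675, .nil⟩]) (.leaf [⟨1081220946323373,
  421234567584727669837762217041, 29, 213010, .nil⟩, ⟨1081220951391475,
  421234567584727723660970841349, 29, 8980, (tB 5 17674)⟩])) (.node (.node (.leaf
  [⟨1599475679943518, 1368025619397541411121749365076, 3, 274945, .nil⟩]) (.node (.leaf []) (.leaf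
  [⟨1071710098611038, 421001489344225500823919333716, 27, 4660, .nil⟩, ⟨1071730142402477,
  421001490246696991270735529041, 27, 213505, .nil⟩, ⟨1071873307360606,
  421001547119427939682034454868, 27, 213505, .nil⟩, ⟨1823939296094110,
  1591145026440823201138700796244, 27, 213505, .nil⟩]))) (.node (.leaf [⟨1890459749574558,
  1605943185167270973208985420116, 23, 12580, .nil⟩]) (.leaf [⟨1541407717059437,
  1353456925180862704161858589777, 15, 262435, (tB 5 6306)⟩, ⟨1541407722040158,
  1353456925180862757969208873300, 15, 271105, .nil⟩])))))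

noncomputable def b6_446456_q : List ℕ := [56, 62, 80, 92, 98]

noncomputable def b6_446456_M : ℕ := 1690200800304305868662270940501

noncomputable def b6_446456_C : Cert := ⟨1, 1, 2, [0, 1, 0, 0, 0], [0, 0, 0, 1, 0], 6⟩

noncomputable def b6_446456_T : TT := (tT 1 5 88718071828771)

theorem b6_446456_okF : okCode b6_446456_F = true := by decide +kernel

theorem b6_446456_okI : okIdx b6_446456_F = true := by decide +kernel

theorem b6_446456_okS : Tri'.all (okSyR b6_446456_F) b6_446456_S = true := by decide +kernel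

theorem b6_446456_okZ : Tri2.all (okSzR b6_446456_F b6_446456_S) b6_446456_S2 = true := by decide +kernel

theorem b6_446456_okM : okM b6_446456_F b6_446456_M = true := by decide +kernel

theorem b6_446456_okC : okCert b6_446456_C b6_446456_F.k = true := by decide +kernel

theorem b6_446456_okG : runG5 b6_446456_F b6_446456_S b6_446456_C b6_446456_T [[]] = true := by decide +kernel

theorem b6_446456_okE : enumR b6_446456_F (okG2R b6_446456_F b6_446456_S b6_446456_S2 b6_446456_q b6_446456_M b6_446456_T) (Nat.pred b6_446456_F.n) 1 36 = true := by decide +kernel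

theorem b6_446456_good : Good 6 [4, 4, 6, 4, 5, 6] :=
  good_mk4 b6_446456_S b6_446456_S2 b6_446456_q b6_446456_M b6_446456_C b6_446456_T 6 [4, 4, 6, 4, 5, 6] rfl rfl b6_446456_okF b6_446456_okI b6_446456_okS b6_446456_okZ b6_446456_okM b6_446456_okC (runG4_of _ _ _ _ 0 _ rfl b6_446456_okG) b6_446456_okE

noncomputable def b5_45646_F : Code := ⟨5, [4, 5, 6, 4, 6], [(0, 2), (1, 2), (1, 3), (2, 2), (2, 3), (2, 4), (3,
  2), (4, 2), (4, 3), (4, 4)], 15, 5,
  20513470570876734297835616501310386659341886431934460621565530577830106052432890558558813489285,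
  29937399539086279189812671815876905835777077050081280, 11627122198⟩

noncomputable def b5_45646_S : Tri' := (.node (.node (.node (.leaf [⟨16730704796510, 24, 213520⟩, ⟨16893912923501,
  24, 213520⟩]) (.leaf [⟨24101942410590, 12, 271120⟩])) (.node (.leaf [⟨24083470707443, 10,
  266800⟩]) (.node (.leaf [⟨24975028738910, 6, 274720⟩, ⟨25138236865901, 6, 274720⟩]) (.node (.leaf
  []) (.leaf [⟨16891900280158, 30, 213280⟩, ⟨16728691530590, 30, 74560⟩, ⟨16748739680173, 30,
  213280⟩, ⟨16891899657581, 30, 74560⟩, ⟨28479721499499, 30, 213280⟩]))))) (.node (.node (.leaf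
  [⟨29538293300574, 17, 12820⟩, ⟨29538332370859, 17, 12820⟩]) (.node (.leaf [⟨24995330643885, 5,
  274450⟩]) (.leaf [⟨16748994058142, 29, 213010⟩, ⟨16748993435565, 29, 8980⟩]))) (.node (.node
  (.leaf [⟨24976819870453, 3, 274945⟩]) (.leaf [⟨16893691411701, 27, 213505⟩, ⟨16730482662133, 27,
  4660⟩])) (.node (.node (.leaf []) (.leaf [⟨29393120057246, 23, 12580⟩, ⟨29536280034654, 23,
  144385⟩, ⟨29536319104939, 23, 144385⟩])) (.leaf [⟨24101720276213, 15, 262435⟩, ⟨24081711196915,
  15, 262435⟩])))))

noncomputable def b5_45646_S2 : Tri2 := (.node (.node (.node (.leaf [⟨16730704796510, 102782695341932986914640212,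
  24, 213520, .nil⟩, ⟨16893912923501, 102840470544371004289913937, 24, 213520, .nil⟩]) (.leaf
  [⟨24101942410590, 330434705284110025409761620, 12, 271120, (tB 5 6281)⟩])) (.node (.leaf
  [⟨24083470707443, 330433816169679316318442757, 10, 266800, (tB 5 6225)⟩]) (.node (.leaf
  [⟨24975028738910, 333989744562215956823478612, 6, 274720, .nil⟩, ⟨25138236865901,
  334047519764653974198752337, 6, 274720, .nil⟩]) (.node (.leaf []) (.leaf [⟨16728691530590,
  102782681560918127160922452, 30, 74560, .nil⟩, ⟨16748739680173, 102783584032461540587553873, 30,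
  213280, .nil⟩, ⟨16891899657581, 102840456763356144536196177, 30, 74560, .nil⟩, ⟨16891900280158,
  102840456763356985276043604, 30, 213280, .nil⟩]))))) (.node (.node (.leaf [⟨29538293300574,
  392075972887119301457285460, 17, 12820, .nil⟩, ⟨29538332370859, 392075972890561941331067973, 17,
  12820, .nil⟩]) (.node (.leaf [⟨24995330643885, 333990647249100921573295185, 5, 274450, (tB 5
  4874)⟩]) (.leaf [⟨16748993435565, 102783584247803091910739025, 29, 8980, (tB 5 17674)⟩,
  ⟨16748994058142, 102783584247803932650586452, 29, 213010, (tB 5 18570)⟩]))) (.node (.node (.leaf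
  [⟨24976819870453, 333989758131227572608193809, 3, 274945, (tB 5 4706)⟩]) (.leaf [⟨16730482662133,
  102782695129929742945637649, 27, 4660, (tB 5 17506)⟩, ⟨16893691411701,
  102840470332368601060758801, 27, 213505, (tB 5 18514)⟩])) (.node (.node (.leaf []) (.leaf
  [⟨29393120057246, 392019086375209837754925396, 23, 12580, (tB 5 17058)⟩, ⟨29536280034654,
  392075959106104441703567700, 23, 144385, .nil⟩, ⟨29536319104939, 392075959109547081577350213, 23,
  144385, .nil⟩])) (.leaf [⟨24081711196915, 330433802604006007887910149, 15, 262435, .nil⟩,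
  ⟨24101720276213, 330434705072106781440759057, 15, 262435, .nil⟩])))))

noncomputable def b5_45646_q : List ℕ := [44, 56, 62, 80, 86]

noncomputable def b5_45646_M : ℕ := 412646679761793424966374741

noncomputable def b5_45646_C : Cert := ⟨1, 1, 2, [0, 0, 0, 0, 0], [0, 0, 0, 0, 0], 0⟩

noncomputable def b5_45646_T : TT := (tT 1 5 2384321057452703449651)

theorem b5_45646_okF : okCode b5_45646_F = true := by decide +kernel

theorem b5_45646_okI : okIdx b5_45646_F = true := by decide +kernel

theorem b5_45646_okS : Tri'.all (okSyR b5_45646_F) b5_45646_S = true := by decide +kernel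

theorem b5_45646_okZ : Tri2.all (okSzR b5_45646_F b5_45646_S) b5_45646_S2 = true := by decide +kernel

theorem b5_45646_okM : okM b5_45646_F b5_45646_M = true := by decide +kernel

theorem b5_45646_okC : okCert b5_45646_C b5_45646_F.k = true := by decide +kernel

theorem b5_45646_okG : runG5 b5_45646_F b5_45646_S b5_45646_C b5_45646_T [[]] = true := by decide +kernel

theorem b5_45646_okE : enumR b5_45646_F (okG2R b5_45646_F b5_45646_S b5_45646_S2 b5_45646_q b5_45646_M b5_45646_T) (Nat.pred b5_45646_F.n) 1 36 = true := by decide +kernel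

theorem b5_45646_good : Good 5 [4, 5, 6, 4, 6] :=
  good_mk4 b5_45646_S b5_45646_S2 b5_45646_q b5_45646_M b5_45646_C b5_45646_T 5 [4, 5, 6, 4, 6] rfl rfl b5_45646_okF b5_45646_okI b5_45646_okS b5_45646_okZ b5_45646_okM b5_45646_okC (runG4_of _ _ _ _ 0 _ rfl b5_45646_okG) b5_45646_okE

noncomputable def b6_445466_F : Code := ⟨6, [4, 4, 5, 4, 6, 6], [(0, 2), (1, 2), (2, 2), (2, 3), (3, 2), (4, 2),
  (4, 3), (4, 4), (5, 2), (5, 3), (5, 4)], 17, 5,
  104088123684001072304993480451634580781217758976960460565531912748423576763553834053917655391748989227616773,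
  502266218549935096529637154993199375251901237197974829793280, 13250466460⟩

noncomputable def b6_445466_S : Tri' := (.node (.node (.node (.node (.leaf []) (.node (.leaf []) (.leaf
  [⟨1071847403346782, 24, 213520⟩, ⟨1071847438211829, 24, 213520⟩, ⟨1071867799453037, 24,
  213520⟩]))) (.leaf [⟨1890454246647710, 20, 144400⟩, ⟨1890433805802347, 20, 144400⟩])) (.node
  (.leaf [⟨1542326705843053, 10, 266800⟩]) (.node (.node (.leaf [⟨1598582192528222, 6, 274720⟩,
  ⟨1598582227393269, 6, 274720⟩, ⟨1598602588634477, 6, 274720⟩]) (.leaf [])) (.node (.leaf [])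
  (.leaf [⟨1822903001016222, 30, 213280⟩, ⟨1070816611195742, 30, 74560⟩, ⟨1070816646060789, 30,
  74560⟩, ⟨1070837007301997, 30, 74560⟩, ⟨1081081577991021, 30, 213280⟩, ⟨1822882560170859, 30,
  213280⟩]))))) (.node (.node (.node (.leaf [⟨1881090278479774, 17, 12820⟩]) (.leaf
  [⟨1542458557982637, 9, 262675⟩, ⟨1542438161963763, 9, 262675⟩])) (.node (.leaf [⟨1608979016531187,
  5, 274450⟩]) (.node (.leaf []) (.leaf [⟨1081213430130605, 29, 213010⟩, ⟨1081213435198707, 29,
  8980⟩, ⟨1081193034111731, 29, 213010⟩])))) (.node (.node (.leaf [⟨1599503597223262, 3, 274945⟩,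
  ⟨1599503632088309, 3, 274945⟩]) (.node (.leaf []) (.leaf [⟨1071738015890782, 27, 4660⟩,
  ⟨1071738050755829, 27, 4660⟩, ⟨1823803964865899, 27, 213505⟩]))) (.node (.leaf [⟨1880059486328734,
  23, 144385⟩, ⟨1890324418346347, 23, 12580⟩]) (.node (.leaf [⟨1541427765831597, 15, 271105⟩,
  ⟨1541427770899699, 15, 262435⟩, ⟨1541407369812723, 15, 271105⟩]) (.leaf []))))))

noncomputable def b6_445466_S2 : Tri2 := (.node (.node (.leaf [⟨1071847403346782, 421001546012569252064133452116,
  24, 213520, .nil⟩, ⟨1890454246647710, 1605943184963149823698045059412, 20, 144400, .nil⟩]) (.node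
  (.leaf [⟨1542326705843053, 1353460482229574906231749153873, 10, 266800, (tB 5 6225)⟩]) (.node
  (.leaf [⟨1598582192528222, 1368022063455525767083375006036, 6, 274720, .nil⟩]) (.node (.leaf [])
  (.leaf [⟨1070816611195742, 420997933402209856785544974676, 30, 74560, .nil⟩, ⟨1081081577991021,
  421234510902706768004203746385, 30, 213280, .nil⟩, ⟨1822903001016222,
  1591141413626342656349171958100, 30, 213280, .nil⟩]))))) (.node (.node (.leaf [⟨1542458557982637,
  1353460538693693643694613546065, 9, 262675, .nil⟩, ⟨1881090278479774,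
  1605710163622570667081104441684, 17, 12820, (tB 5 16970)⟩]) (.leaf [⟨1081213430130605,
  421234567366825505467068138577, 29, 213010, .nil⟩, ⟨1081213435198707,
  421234567366825559290276762885, 29, 8980, (tB 5 17674)⟩])) (.node (.leaf [⟨1071738015890782,
  421001490464865203301574054228, 27, 4660, .nil⟩, ⟨1599503597223262,
  1368025620518181113599404085588, 3, 274945, .nil⟩]) (.node (.leaf [⟨1880059486328734,
  1605706551012211271802515964244, 23, 144385, (tB 5 17170)⟩]) (.leaf [⟨1541427765831597,
  1353456926083334248416025068625, 15, 271105, .nil⟩, ⟨1541427770899699,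
  1353456926083334302239233692933, 15, 262435, (tB 5 6306)⟩])))))

noncomputable def b6_445466_q : List ℕ := [56, 74, 80, 92, 98]

noncomputable def b6_445466_M : ℕ := 1690200800304305868662270940501

noncomputable def b6_445466_C : Cert := ⟨1, 1, 2, [0, 1, 0, 0, 0], [0, 0, 0, 0, 1], 6⟩

noncomputable def b6_445466_T : TT := (tT 1 5 5093754806413165691171)

theorem b6_445466_okF : okCode b6_445466_F = true := by decide +kernel

theorem b6_445466_okI : okIdx b6_445466_F = true := by decide +kernel

theorem b6_445466_okS : Tri'.all (okSyR b6_445466_F) b6_445466_S = true := by decide +kernel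

theorem b6_445466_okZ : Tri2.all (okSzR b6_445466_F b6_445466_S) b6_445466_S2 = true := by decide +kernel

theorem b6_445466_okM : okM b6_445466_F b6_445466_M = true := by decide +kernel

theorem b6_445466_okC : okCert b6_445466_C b6_445466_F.k = true := by decide +kernel

theorem b6_445466_okG : runG5 b6_445466_F b6_445466_S b6_445466_C b6_445466_T [[]] = true := by decide +kernel

theorem b6_445466_okE : enumR b6_445466_F (okG2R b6_445466_F b6_445466_S b6_445466_S2 b6_445466_q b6_445466_M b6_445466_T) (Nat.pred b6_445466_F.n) 1 36 = true := by decide +kernel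

theorem b6_445466_good : Good 6 [4, 4, 5, 4, 6, 6] :=
  good_mk4 b6_445466_S b6_445466_S2 b6_445466_q b6_445466_M b6_445466_C b6_445466_T 6 [4, 4, 5, 4, 6, 6] rfl rfl b6_445466_okF b6_445466_okI b6_445466_okS b6_445466_okZ b6_445466_okM b6_445466_okC (runG4_of _ _ _ _ 0 _ rfl b6_445466_okG) b6_445466_okE

noncomputable def b5_44566_F : Code := ⟨5, [4, 4, 5, 6, 6], [(0, 2), (1, 2), (2, 2), (2, 3), (3, 2), (3, 3), (3,
  4), (4, 2), (4, 3), (4, 4)], 15, 5,
  20513470570876734298968165469834796140452644170136874161876326997871822391724362296989558442117,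
  29937399539347594769576693621208374224367145870950400, 11627171737⟩

noncomputable def b5_44566_S : Tri' := (.node (.node (.node (.leaf [⟨16747645590366, 24, 213520⟩, ⟨16747649948405,
  24, 213520⟩]) (.leaf [⟨29538057644907, 20, 144400⟩])) (.node (.leaf [⟨24098884140397, 10,
  266800⟩]) (.node (.leaf [⟨24977876671326, 6, 274720⟩, ⟨24977881029365, 6, 274720⟩]) (.node (.leaf
  []) (.leaf [⟨16731539463006, 30, 74560⟩, ⟨16731543821045, 30, 74560⟩, ⟨16891929017709, 30,
  213280⟩, ⟨28482569431915, 30, 213280⟩]))))) (.node (.node (.node (.leaf [⟨29392318945182, 17,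
  12820⟩]) (.node (.leaf [⟨24100914806110, 9, 262675⟩, ⟨24100919164149, 9, 262675⟩, ⟨24100602342131,
  9, 262675⟩]) (.leaf []))) (.node (.leaf [⟨25140296269165, 5, 274450⟩]) (.node (.leaf []) (.leaf
  [⟨16893959683422, 29, 213010⟩, ⟨16893964041461, 29, 213010⟩, ⟨16893959060845, 29, 8980⟩,
  ⟨16893647219443, 29, 213010⟩])))) (.node (.leaf [⟨16745872873389, 27, 4660⟩, ⟨24992210081709, 3,
  274945⟩]) (.node (.leaf [⟨29376212817822, 23, 144385⟩]) (.node (.leaf [⟨24084808678750, 15,
  271105⟩, ⟨24084813036789, 15, 271105⟩, ⟨24084808056173, 15, 262435⟩, ⟨24084496214771, 15,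
  271105⟩]) (.leaf []))))))

noncomputable def b5_44566_S2 : Tri2 := (.node (.node (.leaf [⟨16747645590366, 102783580572800666021728596, 24,
  213520, .nil⟩, ⟨16747649948405, 102783580572853632632116497, 24, 213520, .nil⟩]) (.node (.leaf
  [⟨24098884140397, 330434688047654734258050129, 10, 266800, (tB 5 6225)⟩]) (.node (.leaf
  [⟨24977876671326, 333989761589147471446348116, 6, 274720, .nil⟩, ⟨24977881029365,
  333989761589200438056736017, 6, 274720, .nil⟩]) (.node (.leaf []) (.leaf [⟨16731539463006,
  102782698587849641783791956, 30, 74560, .nil⟩, ⟨16731543821045, 102782698587902608394179857, 30,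
  74560, .nil⟩, ⟨16891929017709, 102840456766681067698590801, 30, 213280, .nil⟩]))))) (.node (.node
  (.node (.leaf [⟨29392318945182, 392019083132670882606301524, 17, 12820, (tB 5 16970)⟩]) (.node
  (.leaf [⟨24100602342131, 330434701609185923865793797, 9, 262675, .nil⟩, ⟨24100914806110,
  330434701829514859681747284, 9, 262675, .nil⟩, ⟨24100919164149, 330434701829567826292135185, 9,
  262675, .nil⟩]) (.leaf []))) (.node (.leaf []) (.node (.leaf []) (.leaf [⟨16893647219443,
  102840470328212257306334469, 29, 213010, .nil⟩, ⟨16893959683422, 102840470548541193122287956, 29,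
  213010, .nil⟩, ⟨16893964041461, 102840470548594159732675857, 29, 213010, .nil⟩])))) (.node (.leaf
  [⟨16745872873389, 102783567004646018615952465, 27, 4660, (tB 5 17506)⟩, ⟨24992210081709,
  333990630005943848278508625, 3, 274945, (tB 5 4706)⟩]) (.node (.leaf [⟨29376212817822,
  392018201147719858368364884, 23, 144385, (tB 5 17170)⟩]) (.node (.leaf [⟨24084496214771,
  330433819624234899627857157, 15, 271105, .nil⟩, ⟨24084808678750, 330433819844563835443810644, 15,
  271105, .nil⟩, ⟨24084813036789, 330433819844616802054198545, 15, 271105, .nil⟩]) (.leaf []))))))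

noncomputable def b5_44566_q : List ℕ := [50, 62, 68, 80, 86]

noncomputable def b5_44566_M : ℕ := 412646679761793424966374741

noncomputable def b5_44566_C : Cert := ⟨1, 1, 2, [0, 0, 0, 0, 0], [0, 0, 0, 0, 0], 0⟩

noncomputable def b5_44566_T : TT := (tT 1 5 146937703720648995)

theorem b5_44566_okF : okCode b5_44566_F = true := by decide +kernel

theorem b5_44566_okI : okIdx b5_44566_F = true := by decide +kernel

theorem b5_44566_okS : Tri'.all (okSyR b5_44566_F) b5_44566_S = true := by decide +kernel

theorem b5_44566_okZ : Tri2.all (okSzR b5_44566_F b5_44566_S) b5_44566_S2 = true := by decide +kernel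

theorem b5_44566_okM : okM b5_44566_F b5_44566_M = true := by decide +kernel

theorem b5_44566_okC : okCert b5_44566_C b5_44566_F.k = true := by decide +kernel

theorem b5_44566_okG : runG5 b5_44566_F b5_44566_S b5_44566_C b5_44566_T [[]] = true := by decide +kernel

theorem b5_44566_okE : enumR b5_44566_F (okG2R b5_44566_F b5_44566_S b5_44566_S2 b5_44566_q b5_44566_M b5_44566_T) (Nat.pred b5_44566_F.n) 1 36 = true := by decide +kernel

theorem b5_44566_good : Good 5 [4, 4, 5, 6, 6] :=
  good_mk4 b5_44566_S b5_44566_S2 b5_44566_q b5_44566_M b5_44566_C b5_44566_T 5 [4, 4, 5, 6, 6] rfl rfl b5_44566_okF b5_44566_okI b5_44566_okS b5_44566_okZ b5_44566_okM b5_44566_okC (runG4_of _ _ _ _ 0 _ rfl b5_44566_okG) b5_44566_okE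

noncomputable def b5_45556_F : Code := ⟨5, [4, 5, 5, 5, 6], [(0, 2), (1, 2), (1, 3), (2, 2), (2, 3), (3, 2), (3,
  3), (4, 2), (4, 3), (4, 4)], 15, 5,
  20513470570876734298968165010673384843468129616106890563110946517948786288505779351944631093381,
  29937399539347552244664154879854878151545781579939840, 11627171350⟩

noncomputable def b5_45556_S : Tri' := (.node (.node (.node (.leaf [⟨16745737182046, 24, 213520⟩]) (.leaf
  [⟨24084761918829, 12, 271120⟩, ⟨29536149236587, 20, 144400⟩])) (.node (.leaf [⟨24101002886494, 10,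
  266800⟩, ⟨24098503092979, 10, 266800⟩]) (.node (.leaf [⟨24977897019309, 6, 274720⟩,
  ⟨25140384349549, 6, 274720⟩]) (.node (.leaf []) (.leaf [⟨16894047763806, 30, 213280⟩,
  ⟨16731559810989, 30, 74560⟩, ⟨16894047141229, 30, 74560⟩, ⟨16891547970291, 30, 213280⟩])))))
  (.node (.node (.leaf []) (.node (.leaf [⟨24978151397278, 5, 274450⟩, ⟨25138138934003, 5, 274450⟩])
  (.node (.leaf []) (.leaf [⟨16731814188958, 29, 8980⟩, ⟨28482805087582, 29, 213010⟩,
  ⟨16891801725683, 29, 8980⟩, ⟨28482844157867, 29, 213010⟩])))) (.node (.node (.leaf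
  [⟨24991852255989, 3, 274945⟩, ⟨24994391119789, 3, 274945⟩]) (.node (.leaf []) (.leaf
  [⟨16748054534046, 27, 213505⟩, ⟨16745515047669, 27, 4660⟩, ⟨16748053911469, 27, 4660⟩]))) (.node
  (.node (.leaf []) (.leaf [⟨29375940188062, 23, 144385⟩, ⟨29538427518302, 23, 144385⟩,
  ⟨29538466588587, 23, 144385⟩])) (.leaf [⟨24084540407029, 15, 271105⟩])))))

noncomputable def b5_45556_S2 : Tri2 := (.node (.node (.node (.leaf [⟨16745737182046, 102783566950590469690954068,
  24, 213520, (tB 5 17481)⟩]) (.leaf [⟨24084761918829, 330433819840393646611436625, 12, 271120, (tB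
  5 6281)⟩, ⟨29536149236587, 392075959052112992191976517, 20, 144400, (tB 5 17033)⟩])) (.node (.leaf
  [⟨24101002886494, 330434701879388707117666644, 10, 266800, .nil⟩]) (.node (.leaf [⟨25140384349549,
  334047533599712029480916049, 6, 274720, .nil⟩]) (.node (.leaf []) (.leaf [⟨16731559810989,
  102782698588746002529076305, 30, 74560, .nil⟩, ⟨16891547970291, 102840456497363132535297285, 30,
  213280, .nil⟩, ⟨16894047141229, 102840470598414199818359889, 30, 74560, .nil⟩, ⟨16894047763806,
  102840470598415040558207316, 30, 213280, .nil⟩]))))) (.node (.node (.leaf []) (.node (.leaf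
  [⟨24978151397278, 333989761805386224254665044, 5, 274450, .nil⟩]) (.node (.leaf []) (.leaf
  [⟨16731814188958, 102782698804088394592108884, 29, 8980, .nil⟩, ⟨28482805087582,
  388462259181844114116251988, 29, 213010, .nil⟩, ⟨28482844157867, 388462259185286753990034501, 29,
  213010, .nil⟩])))) (.node (.node (.leaf [⟨24991852255989, 333990629739885055384507665, 3, 274945,
  .nil⟩, ⟨24994391119789, 333990643844379603281200209, 3, 274945, .nil⟩]) (.leaf [⟨16748053911469,
  102783580843081773618644049, 27, 4660, .nil⟩, ⟨16748054534046, 102783580843082614358491476, 27,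
  213505, (tB 5 18514)⟩])) (.node (.node (.leaf []) (.leaf [⟨29375940188062,
  392018200931494299696447828, 23, 144385, .nil⟩, ⟨29538427518302, 392075972941162496985731412, 23,
  144385, .nil⟩, ⟨29538466588587, 392075972944605136859513925, 23, 144385, .nil⟩])) (.leaf
  [⟨24084540407029, 330433819628391243382281489, 15, 271105, (tB 5 6418)⟩])))))

noncomputable def b5_45556_q : List ℕ := [44, 56, 68, 80, 86]

noncomputable def b5_45556_M : ℕ := 412646679761793424966374741

noncomputable def b5_45556_C : Cert := ⟨1, 1, 2, [0, 1, 0, 1, 1], [0, 0, 1, 0, 0], 5⟩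

noncomputable def b5_45556_T : TT := (tT 1 5 1444636458863829779)

theorem b5_45556_okF : okCode b5_45556_F = true := by decide +kernel

theorem b5_45556_okI : okIdx b5_45556_F = true := by decide +kernel

theorem b5_45556_okS : Tri'.all (okSyR b5_45556_F) b5_45556_S = true := by decide +kernel

theorem b5_45556_okZ : Tri2.all (okSzR b5_45556_F b5_45556_S) b5_45556_S2 = true := by decide +kernel

theorem b5_45556_okM : okM b5_45556_F b5_45556_M = true := by decide +kernel

theorem b5_45556_okC : okCert b5_45556_C b5_45556_F.k = true := by decide +kernel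

theorem b5_45556_okG : runG5 b5_45556_F b5_45556_S b5_45556_C b5_45556_T [[]] = true := by decide +kernel

theorem b5_45556_okE : enumR b5_45556_F (okG2R b5_45556_F b5_45556_S b5_45556_S2 b5_45556_q b5_45556_M b5_45556_T) (Nat.pred b5_45556_F.n) 1 36 = true := by decide +kernel

theorem b5_45556_good : Good 5 [4, 5, 5, 5, 6] :=
  good_mk4 b5_45556_S b5_45556_S2 b5_45556_q b5_45556_M b5_45556_C b5_45556_T 5 [4, 5, 5, 5, 6] rfl rfl b5_45556_okF b5_45556_okI b5_45556_okS b5_45556_okZ b5_45556_okM b5_45556_okC (runG4_of _ _ _ _ 0 _ rfl b5_45556_okG) b5_45556_okE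

noncomputable def b6_444566_F : Code := ⟨6, [4, 4, 4, 5, 6, 6], [(0, 2), (1, 2), (2, 2), (3, 2), (3, 3), (4, 2),
  (4, 3), (4, 4), (5, 2), (5, 3), (5, 4)], 17, 5,
  104088123684001072304993480451634580781676920388257359068805955835477903309786472177869866031235776366496261,
  502266218549935096529658417448835075371040069580442986086400, 13250466463⟩

noncomputable def b6_444566_S : Tri' := (.node (.node (.node (.node (.leaf []) (.node (.leaf []) (.leaf
  [⟨1071849282394974, 24, 213520⟩, ⟨1071849317260021, 24, 213520⟩, ⟨1071849596180397, 24,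
  213520⟩]))) (.leaf [⟨1890435684850539, 20, 144400⟩])) (.node (.leaf [⟨1542328584891245, 10,
  266800⟩, ⟨1542328908725491, 10, 266800⟩]) (.node (.node (.leaf [⟨1598584071576414, 6, 274720⟩,
  ⟨1598584106441461, 6, 274720⟩, ⟨1598584385361837, 6, 274720⟩]) (.leaf [])) (.node (.leaf [])
  (.leaf [⟨1070818490243934, 30, 74560⟩, ⟨1070818525108981, 30, 74560⟩, ⟨1070818804029357, 30,
  74560⟩, ⟨1081083457039213, 30, 213280⟩, ⟨1081083780873459, 30, 213280⟩, ⟨1822884439219051, 30,
  213280⟩]))))) (.node (.node (.node (.leaf []) (.node (.leaf [⟨1542458512632670, 9, 262675⟩,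
  ⟨1542458547497717, 9, 262675⟩, ⟨1542458826418093, 9, 262675⟩]) (.leaf []))) (.node (.leaf
  [⟨1608978961132397, 5, 274450⟩, ⟨1608979284966643, 5, 274450⟩]) (.node (.leaf []) (.leaf
  [⟨1081213384780638, 29, 213010⟩, ⟨1081213419645685, 29, 213010⟩, ⟨1081213698566061, 29, 213010⟩,
  ⟨1081213379799917, 29, 8980⟩, ⟨1081213703634163, 29, 8980⟩])))) (.node (.node (.leaf
  [⟨1599501444758893, 3, 274945⟩]) (.leaf [⟨1823801857140638, 27, 213505⟩, ⟨1071735863426413, 27,
  4660⟩])) (.node (.leaf [⟨1890322310621086, 23, 12580⟩]) (.node (.leaf [⟨1541427720481630, 15,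
  271105⟩, ⟨1541427755346677, 15, 271105⟩, ⟨1541428034267053, 15, 271105⟩, ⟨1541427715500909, 15,
  262435⟩, ⟨1541428039335155, 15, 262435⟩]) (.leaf []))))))

noncomputable def b6_444566_S2 : Tri2 := (.node (.node (.leaf [⟨1071849282394974, 421001546026188137337301832020,
  24, 213520, .nil⟩, ⟨1071849596180397, 421001546026408478436712858705, 24, 213520, .nil⟩]) (.node
  (.leaf []) (.node (.leaf [⟨1598584071576414, 1368022063469144652356543385940, 6, 274720, .nil⟩,
  ⟨1598584385361837, 1368022063469364993455954412625, 6, 274720, .nil⟩]) (.leaf [⟨1070818490243934,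
  420997933415828742058713354580, 30, 74560, .nil⟩, ⟨1070818804029357,
  420997933416049083158124381265, 30, 74560, .nil⟩])))) (.node (.node (.leaf [⟨1542458512632670,
  1353460538693689475377316303188, 9, 262675, .nil⟩, ⟨1542458826418093,
  1353460538693909816476727329873, 9, 262675, .nil⟩]) (.leaf [⟨1081213384780638,
  421234567366821337149770895700, 29, 213010, .nil⟩, ⟨1081213698566061,
  421234567367041678249181922385, 29, 213010, .nil⟩])) (.node (.leaf [⟨1823801857140638,
  1591144969772425406702958231892, 27, 213505, (tB 5 18514)⟩]) (.node (.leaf [⟨1890322310621086,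
  1605943128498873178773242855764, 23, 12580, (tB 5 17058)⟩]) (.leaf [⟨1541427720481630,
  1353456926083330080098727825748, 15, 271105, .nil⟩, ⟨1541428034267053,
  1353456926083550421198138852433, 15, 271105, .nil⟩])))))

noncomputable def b6_444566_q : List ℕ := [62, 74, 80, 92, 98]

noncomputable def b6_444566_M : ℕ := 1690200800304305868662270940501

noncomputable def b6_444566_C : Cert := ⟨1, 1, 2, [0, 0, 0, 0, 0], [0, 0, 0, 0, 0], 0⟩

noncomputable def b6_444566_T : TT := .nil

theorem b6_444566_okF : okCode b6_444566_F = true := by decide +kernel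

theorem b6_444566_okI : okIdx b6_444566_F = true := by decide +kernel

theorem b6_444566_okS : Tri'.all (okSyR b6_444566_F) b6_444566_S = true := by decide +kernel

theorem b6_444566_okZ : Tri2.all (okSzR b6_444566_F b6_444566_S) b6_444566_S2 = true := by decide +kernel

theorem b6_444566_okM : okM b6_444566_F b6_444566_M = true := by decide +kernel

theorem b6_444566_okC : okCert b6_444566_C b6_444566_F.k = true := by decide +kernel

theorem b6_444566_okG : runG5 b6_444566_F b6_444566_S b6_444566_C b6_444566_T [[]] = true := by decide +kernel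

theorem b6_444566_okE : enumR b6_444566_F (okG2R b6_444566_F b6_444566_S b6_444566_S2 b6_444566_q b6_444566_M b6_444566_T) (Nat.pred b6_444566_F.n) 1 36 = true := by decide +kernel

theorem b6_444566_good : Good 6 [4, 4, 4, 5, 6, 6] :=
  good_mk4 b6_444566_S b6_444566_S2 b6_444566_q b6_444566_M b6_444566_C b6_444566_T 6 [4, 4, 4, 5, 6, 6] rfl rfl b6_444566_okF b6_444566_okI b6_444566_okS b6_444566_okZ b6_444566_okM b6_444566_okC (runG4_of _ _ _ _ 0 _ rfl b6_444566_okG) b6_444566_okE

noncomputable def b5_44656_F : Code := ⟨5, [4, 4, 6, 5, 6], [(0, 2), (1, 2), (2, 2), (2, 3), (2, 4), (3, 2), (3,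
  3), (4, 2), (4, 3), (4, 4)], 15, 5,
  20513470570876734298968165010673384843554140896093787107549780765233698439513722810202419562629,
  29937399539347552244665422220970096559602209558364160, 11627171353⟩

noncomputable def b5_44656_S : Tri' := (.node (.node (.node (.leaf [⟨16745766542174, 24, 213520⟩, ⟨16745770900213,
  24, 213520⟩]) (.leaf [⟨24084791278957, 12, 271120⟩, ⟨29536178596715, 20, 144400⟩])) (.node (.node
  (.leaf [⟨29392436385694, 18, 78400⟩]) (.leaf [⟨24101032246622, 10, 266800⟩, ⟨24101036604661, 10,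
  266800⟩])) (.node (.leaf [⟨25140413709677, 6, 274720⟩]) (.node (.leaf []) (.leaf [⟨16894077123934,
  30, 213280⟩, ⟨16894081481973, 30, 213280⟩, ⟨16894076501357, 30, 74560⟩]))))) (.node (.node (.leaf
  [⟨24098723293939, 9, 262675⟩]) (.node (.leaf [⟨24978117220269, 5, 274450⟩]) (.leaf
  [⟨16731780011949, 29, 8980⟩, ⟨16891768171251, 29, 213010⟩]))) (.node (.node (.leaf
  [⟨24991852092254, 3, 274945⟩, ⟨24991856450293, 3, 274945⟩]) (.node (.leaf []) (.leaf
  [⟨16745514883934, 27, 4660⟩, ⟨16745519241973, 27, 4660⟩, ⟨16748020357037, 27, 213505⟩,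
  ⟨28496544852843, 27, 213505⟩]))) (.node (.leaf [⟨29375944382366, 23, 144385⟩, ⟨29535926938475, 23,
  12580⟩]) (.node (.leaf [⟨24084540243294, 15, 271105⟩, ⟨24084544601333, 15, 271105⟩,
  ⟨24084539620717, 15, 262435⟩]) (.leaf []))))))

noncomputable def b5_44656_S2 : Tri2 := (.node (.node (.leaf [⟨16745766542174, 102783566953915392853348692, 24,
  213520, .nil⟩, ⟨16745770900213, 102783566953968359463736593, 24, 213520, .nil⟩]) (.node (.leaf
  [⟨24101032246622, 330434701882713630280061268, 10, 266800, .nil⟩, ⟨29392436385694,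
  392019083185869653204615508, 18, 78400, (tB 5 16977)⟩]) (.node (.leaf []) (.node (.leaf []) (.leaf
  [⟨16894076501357, 102840470601739122980754513, 30, 74560, (tB 5 17681)⟩, ⟨16894077123934,
  102840470601739963720601940, 30, 213280, .nil⟩, ⟨16894081481973, 102840470601792930330989841, 30,
  213280, .nil⟩]))))) (.node (.node (.leaf [⟨24098723293939, 330434687990300650697413893, 9, 262675,
  (tB 5 6218)⟩]) (.node (.leaf [⟨24978117220269, 333989761802007683794289745, 5, 274450, (tB 5
  4874)⟩]) (.leaf [⟨16731780011949, 102782698800709854131733585, 29, 8980, (tB 5 17674)⟩,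
  ⟨16891768171251, 102840456709326984137954565, 29, 213010, (tB 5 18570)⟩]))) (.node (.node (.leaf
  [⟨24991852092254, 333990629739884865332253012, 3, 274945, .nil⟩, ⟨24991856450293,
  333990629739937831942640913, 3, 274945, .nil⟩]) (.leaf [⟨16745514883934,
  102783566738587035669696852, 27, 4660, .nil⟩, ⟨16748020357037, 102783580839704073898116177, 27,
  213505, .nil⟩])) (.node (.leaf [⟨29375944382366, 392018200931547076254581076, 23, 144385, (tB 5
  17170)⟩]) (.node (.leaf [⟨24084539620717, 330433819628390212590179409, 15, 262435, (tB 5 6306)⟩,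
  ⟨24084540243294, 330433819628391053330026836, 15, 271105, .nil⟩, ⟨24084544601333,
  330433819628444019940414737, 15, 271105, .nil⟩]) (.leaf []))))))

noncomputable def b5_44656_q : List ℕ := [50, 56, 68, 80, 86]

noncomputable def b5_44656_M : ℕ := 412646679761793424966374741

noncomputable def b5_44656_C : Cert := ⟨1, 1, 2, [0, 1, 1, 1, 0], [0, 0, 0, 0, 1], 5⟩

noncomputable def b5_44656_T : TT := (tT 1 5 2608075923853241697703203)

theorem b5_44656_okF : okCode b5_44656_F = true := by decide +kernel

theorem b5_44656_okI : okIdx b5_44656_F = true := by decide +kernel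

theorem b5_44656_okS : Tri'.all (okSyR b5_44656_F) b5_44656_S = true := by decide +kernel

theorem b5_44656_okZ : Tri2.all (okSzR b5_44656_F b5_44656_S) b5_44656_S2 = true := by decide +kernel

theorem b5_44656_okM : okM b5_44656_F b5_44656_M = true := by decide +kernel

theorem b5_44656_okC : okCert b5_44656_C b5_44656_F.k = true := by decide +kernel

theorem b5_44656_okG : runG5 b5_44656_F b5_44656_S b5_44656_C b5_44656_T [[]] = true := by decide +kernel

theorem b5_44656_okE : enumR b5_44656_F (okG2R b5_44656_F b5_44656_S b5_44656_S2 b5_44656_q b5_44656_M b5_44656_T) (Nat.pred b5_44656_F.n) 1 36 = true := by decide +kernel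

theorem b5_44656_good : Good 5 [4, 4, 6, 5, 6] :=
  good_mk4 b5_44656_S b5_44656_S2 b5_44656_q b5_44656_M b5_44656_C b5_44656_T 5 [4, 4, 6, 5, 6] rfl rfl b5_44656_okF b5_44656_okI b5_44656_okS b5_44656_okZ b5_44656_okM b5_44656_okC (runG4_of _ _ _ _ 0 _ rfl b5_44656_okG) b5_44656_okE

noncomputable def b6_444656_F : Code := ⟨6, [4, 4, 4, 6, 5, 6], [(0, 2), (1, 2), (2, 2), (3, 2), (3, 3), (3, 4),
  (4, 2), (4, 3), (5, 2), (5, 3), (5, 4)], 17, 5,
  104088123684001072304993478076508209274046552551538212895226159063625773658015977737138987204581616301361669,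
  502266218549934383080036636332415039521303143837940118978560, 13250466079⟩

noncomputable def b6_444656_S : Tri' := (.node (.node (.node (.node (.leaf []) (.node (.leaf []) (.leaf
  [⟨1071729023310686, 24, 213520⟩, ⟨1071729058175733, 24, 213520⟩, ⟨1071729337096109, 24,
  213520⟩]))) (.node (.leaf [⟨1890315425766251, 20, 144400⟩]) (.leaf [⟨1541426641759085, 12,
  271120⟩, ⟨1541426965593331, 12, 271120⟩]))) (.node (.node (.leaf []) (.node (.leaf
  [⟨1542466028825438, 10, 266800⟩, ⟨1542466063690485, 10, 266800⟩, ⟨1542466342610861, 10, 266800⟩])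
  (.leaf []))) (.node (.leaf [⟨1608986477325165, 6, 274720⟩, ⟨1608986801159411, 6, 274720⟩]) (.node
  (.leaf []) (.leaf [⟨1081220900973406, 30, 213280⟩, ⟨1081220935838453, 30, 213280⟩,
  ⟨1081221214758829, 30, 213280⟩, ⟨1081220895992685, 30, 74560⟩, ⟨1081221219826931, 30, 74560⟩])))))
  (.node (.node (.leaf []) (.node (.leaf [⟨1598599501626733, 5, 274450⟩]) (.leaf [⟨1822899914008478,
  29, 213010⟩, ⟨1070833920294253, 29, 8980⟩]))) (.node (.node (.node (.leaf [⟨1599478498515806, 3,
  274945⟩, ⟨1599478533380853, 3, 274945⟩, ⟨1599478812301229, 3, 274945⟩]) (.leaf [])) (.node (.leaf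
  []) (.leaf [⟨1071712917183326, 27, 4660⟩, ⟨1071712952048373, 27, 4660⟩, ⟨1071713230968749, 27,
  4660⟩, ⟨1071873302379885, 27, 213505⟩, ⟨1823778866158443, 27, 213505⟩]))) (.node (.leaf
  [⟨1890459749574558, 23, 144385⟩, ⟨1890299319638891, 23, 12580⟩]) (.node (.leaf [⟨1541410540612446,
  15, 271105⟩, ⟨1541410575477493, 15, 271105⟩, ⟨1541410854397869, 15, 271105⟩, ⟨1541410535631725,
  15, 262435⟩, ⟨1541410859465971, 15, 262435⟩]) (.leaf []))))))

noncomputable def b6_444656_S2 : Tri2 := (.node (.node (.leaf [⟨1071729023310686, 421001490243234058439617745236,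
  24, 213520, .nil⟩, ⟨1071729337096109, 421001490243454399539028771921, 24, 213520, .nil⟩]) (.node
  (.leaf [⟨1542466028825438, 1353460538911591639748010381652, 10, 266800, .nil⟩]) (.leaf
  [⟨1081220900973406, 421234567584723501520464974164, 30, 213280, .nil⟩, ⟨1081221214758829,
  421234567584943842619876000849, 30, 213280, .nil⟩]))) (.node (.leaf [⟨1822899914008478,
  1591141413609102876975597699412, 29, 213010, (tB 5 18570)⟩]) (.node (.node (.leaf
  [⟨1599478498515806, 1368025619414565017713209839956, 3, 274945, .nil⟩, ⟨1599478812301229,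
  1368025619414785358812620866641, 3, 274945, .nil⟩]) (.leaf [⟨1071712917183326,
  421001489361249107415379808596, 27, 4660, .nil⟩])) (.node (.leaf [⟨1890459749574558,
  1605943185167270973208985420116, 23, 144385, (tB 5 17170)⟩]) (.leaf [⟨1541410540612446,
  1353456925197886364560669348180, 15, 271105, .nil⟩, ⟨1541410854397869,
  1353456925198106705660080374865, 15, 271105, .nil⟩])))))

noncomputable def b6_444656_q : List ℕ := [62, 68, 80, 92, 98]

noncomputable def b6_444656_M : ℕ := 1690200800304305868662270940501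

noncomputable def b6_444656_C : Cert := ⟨1, 1, 2, [0, 0, 0, 0, 0], [0, 0, 0, 0, 0], 0⟩

noncomputable def b6_444656_T : TT := .nil

theorem b6_444656_okF : okCode b6_444656_F = true := by decide +kernel

theorem b6_444656_okI : okIdx b6_444656_F = true := by decide +kernel

theorem b6_444656_okS : Tri'.all (okSyR b6_444656_F) b6_444656_S = true := by decide +kernel

theorem b6_444656_okZ : Tri2.all (okSzR b6_444656_F b6_444656_S) b6_444656_S2 = true := by decide +kernel

theorem b6_444656_okM : okM b6_444656_F b6_444656_M = true := by decide +kernel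

theorem b6_444656_okC : okCert b6_444656_C b6_444656_F.k = true := by decide +kernel

theorem b6_444656_okG : runG5 b6_444656_F b6_444656_S b6_444656_C b6_444656_T [[]] = true := by decide +kernel

theorem b6_444656_okE : enumR b6_444656_F (okG2R b6_444656_F b6_444656_S b6_444656_S2 b6_444656_q b6_444656_M b6_444656_T) (Nat.pred b6_444656_F.n) 1 36 = true := by decide +kernel

theorem b6_444656_good : Good 6 [4, 4, 4, 6, 5, 6] :=
  good_mk4 b6_444656_S b6_444656_S2 b6_444656_q b6_444656_M b6_444656_C b6_444656_T 6 [4, 4, 4, 6, 5, 6] rfl rfl b6_444656_okF b6_444656_okI b6_444656_okS b6_444656_okZ b6_444656_okM b6_444656_okC (runG4_of _ _ _ _ 0 _ rfl b6_444656_okG) b6_444656_okE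

noncomputable def b4_4656_F : Code := ⟨4, [4, 6, 5, 6], [(0, 2), (1, 2), (1, 3), (1, 4), (2, 2), (2, 3), (3, 2),
  (3, 3), (3, 4)], 13, 5,
  3947216530316930551696163030285485267174814409705165712804896456263515191174645509,
  1784408065041753783504094017801886591887605760, 10003876627⟩

noncomputable def b4_4656_S : Tri' := (.node (.node (.node (.leaf [⟨261652671326, 24, 213520⟩]) (.node (.leaf
  [⟨461502799211, 20, 144400⟩]) (.leaf [⟨376324863917, 12, 271120⟩, ⟨376324943091, 12, 271120⟩])))
  (.node (.leaf [⟨376578697118, 10, 266800⟩]) (.node (.leaf [⟨392818964397, 6, 274720⟩,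
  ⟨392819043571, 6, 274720⟩]) (.node (.leaf []) (.leaf [⟨263970023326, 30, 213280⟩, ⟨263969945517,
  30, 74560⟩, ⟨263970024691, 30, 74560⟩]))))) (.node (.node (.leaf []) (.node (.leaf [⟨390283082485,
  5, 274450⟩]) (.leaf [⟨445043922846, 29, 213010⟩, ⟨261434063605, 29, 8980⟩]))) (.node (.node (.leaf
  [⟨390497758046, 3, 274945⟩]) (.node (.leaf []) (.leaf [⟨261648739166, 27, 4660⟩, ⟨261687818997,
  27, 213505⟩, ⟨445258521963, 27, 213505⟩]))) (.node (.leaf [⟨461538023326, 23, 144385⟩,
  ⟨461498867051, 23, 12580⟩]) (.node (.leaf [⟨376321009566, 15, 271105⟩, ⟨376320931757, 15, 262435⟩,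
  ⟨376321010931, 15, 262435⟩]) (.leaf []))))))

noncomputable def b4_4656_S2 : Tri2 := (.node (.node (.node (.leaf [⟨261652671326, 25093644275871184654676, 24,
  213520, (tB 5 17481)⟩]) (.leaf [⟨376324863917, 80672319297782854009937, 12, 271120, .nil⟩,
  ⟨461502799211, 95721669691269224404037, 20, 144400, (tB 5 17033)⟩])) (.node (.leaf [⟨376578697118,
  80672534639347313754452, 10, 266800, (tB 5 6225)⟩]) (.node (.leaf [⟨392818964397,
  81554573633553943577681, 6, 274720, .nil⟩]) (.leaf [⟨263969945517, 25107536768002715632721, 30,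
  74560, .nil⟩, ⟨263970023326, 25107536768015852192084, 30, 213280, (tB 5 18577)⟩])))) (.node (.node
  (.leaf []) (.node (.leaf [⟨390283082485, 81540469189943285273873, 5, 274450, (tB 5 4874)⟩]) (.leaf
  [⟨261434063605, 25093432324392057328913, 29, 8980, (tB 5 17674)⟩, ⟨445043922846,
  94839418745583463383380, 29, 213010, (tB 5 18570)⟩]))) (.node (.node (.leaf [⟨390497758046,
  81540681088852012896596, 3, 274945, (tB 5 4706)⟩]) (.node (.leaf []) (.leaf [⟨261648739166,
  25093644223300784951636, 27, 4660, (tB 5 17506)⟩, ⟨261687818997, 25093647665943380514065, 27,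
  213505, .nil⟩, ⟨445258521963, 94839630644479058318405, 27, 213505, .nil⟩]))) (.node (.leaf
  [⟨461498867051, 95721669638698824700997, 23, 12580, (tB 5 17058)⟩, ⟨461538023326,
  95721673081354552951124, 23, 144385, (tB 5 17170)⟩]) (.leaf [⟨376320931757,
  80672319245212454306897, 15, 262435, .nil⟩, ⟨376321009566, 80672319245225590866260, 15, 271105,
  (tB 5 6418)⟩])))))

noncomputable def b4_4656_q : List ℕ := [38, 44, 56, 68, 74]

noncomputable def b4_4656_M : ℕ := 100743818301219097892181

noncomputable def b4_4656_C : Cert := ⟨1, 1, 2, [0, 1, 0, 0, 0], [0, 0, 0, 0, 1], 6⟩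

noncomputable def b4_4656_T : TT := (tT 1 5 5041414305289448465023636019)

theorem b4_4656_okF : okCode b4_4656_F = true := by decide +kernel

theorem b4_4656_okI : okIdx b4_4656_F = true := by decide +kernel

theorem b4_4656_okS : Tri'.all (okSyR b4_4656_F) b4_4656_S = true := by decide +kernel

theorem b4_4656_okZ : Tri2.all (okSzR b4_4656_F b4_4656_S) b4_4656_S2 = true := by decide +kernel

theorem b4_4656_okM : okM b4_4656_F b4_4656_M = true := by decide +kernel

theorem b4_4656_okC : okCert b4_4656_C b4_4656_F.k = true := by decide +kernel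

theorem b4_4656_okG : runG5 b4_4656_F b4_4656_S b4_4656_C b4_4656_T [[]] = true := by decide +kernel

theorem b4_4656_okE : enumR b4_4656_F (okG2R b4_4656_F b4_4656_S b4_4656_S2 b4_4656_q b4_4656_M b4_4656_T) (Nat.pred b4_4656_F.n) 1 36 = true := by decide +kernel

theorem b4_4656_good : Good 4 [4, 6, 5, 6] :=
  good_mk4 b4_4656_S b4_4656_S2 b4_4656_q b4_4656_M b4_4656_C b4_4656_T 4 [4, 6, 5, 6] rfl rfl b4_4656_okF b4_4656_okI b4_4656_okS b4_4656_okZ b4_4656_okM b4_4656_okC (runG4_of _ _ _ _ 0 _ rfl b4_4656_okG) b4_4656_okE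

noncomputable def b4_5556_F : Code := ⟨4, [5, 5, 5, 6], [(0, 2), (0, 3), (1, 2), (1, 3), (2, 2), (2, 3), (3, 2),
  (3, 3), (3, 4)], 13, 5,
  3947216530316930551696163030285485267159439096575850635045705649903654575844509445,
  1784408065041753783504018478384904751273738240, 10003876624⟩

noncomputable def b4_5556_S : Tri' := (.node (.node (.leaf [⟨376324405165, 12, 271120⟩, ⟨461502340459, 20,
  144400⟩]) (.node (.leaf []) (.node (.leaf [⟨390279641845, 6, 274720⟩, ⟨392818505645, 6, 274720⟩])
  (.node (.leaf []) (.leaf [⟨445040482206, 30, 213280⟩, ⟨261430622965, 30, 74560⟩, ⟨263969486765,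
  30, 74560⟩]))))) (.node (.node (.leaf [⟨459221195614, 17, 12820⟩, ⟨376542457195, 9, 262675⟩])
  (.leaf [⟨445044448499, 29, 213010⟩, ⟨263933783403, 29, 213010⟩])) (.node (.node (.leaf
  [⟨390497692510, 3, 274945⟩, ⟨390537362165, 3, 274945⟩]) (.node (.leaf []) (.leaf [⟨445298202526,
  27, 213505⟩, ⟨261648673630, 27, 4660⟩, ⟨261688343285, 27, 4660⟩]))) (.node (.leaf [⟨461538547614,
  23, 12580⟩, ⟨461538548979, 23, 144385⟩]) (.leaf [⟨376320944030, 15, 271105⟩, ⟨376320945395, 15,
  262435⟩])))))

noncomputable def b4_5556_S2 : Tri2 := (.node (.node (.leaf [⟨376324405165, 80672319296971105190993, 12, 271120,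
  (tB 5 6281)⟩, ⟨461502340459, 95721669690457475585093, 20, 144400, (tB 5 17033)⟩]) (.node (.leaf
  []) (.node (.leaf [⟨390279641845, 81540469138194298066193, 6, 274720, .nil⟩, ⟨392818505645,
  81554573632742194758737, 6, 274720, .nil⟩]) (.node (.leaf []) (.leaf [⟨261430622965,
  25093432272643070121233, 30, 74560, .nil⟩, ⟨263969486765, 25107536767190966813777, 30, 74560,
  .nil⟩, ⟨445040482206, 94839418693834476175700, 30, 213280, (tB 5 18577)⟩]))))) (.node (.node
  (.leaf [⟨376542457195, 80672531247615938991173, 9, 262675, (tB 5 6218)⟩, ⟨459221195614,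
  95707780590034519134548, 17, 12820, (tB 5 16970)⟩]) (.leaf [⟨263933783403,
  25107533376284477428805, 29, 213010, .nil⟩, ⟨445044448499, 94839418746408100975877, 29, 213010,
  .nil⟩])) (.node (.node (.leaf [⟨390497692510, 81540681088839127994708, 3, 274945, .nil⟩,
  ⟨390537362165, 81540684532319242179857, 3, 274945, .nil⟩]) (.node (.leaf []) (.leaf
  [⟨261648673630, 25093644223287900049748, 27, 4660, .nil⟩, ⟨261688343285, 25093647666768014234897,
  27, 4660, .nil⟩, ⟨445298202526, 94839634087959420289364, 27, 213505, (tB 5 18514)⟩]))) (.node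
  (.leaf [⟨461538547614, 95721673082179186671956, 23, 12580, (tB 5 17058)⟩, ⟨461538548979,
  95721673082179190543621, 23, 144385, (tB 5 17170)⟩]) (.leaf [⟨376320944030,
  80672319245212705964372, 15, 271105, (tB 5 6418)⟩, ⟨376320945395, 80672319245212709836037, 15,
  262435, (tB 5 6306)⟩])))))

noncomputable def b4_5556_q : List ℕ := [32, 44, 56, 68, 74]

noncomputable def b4_5556_M : ℕ := 100743818301219097892181

noncomputable def b4_5556_C : Cert := ⟨1, 1, 2, [0, 0, 0, 0, 0], [0, 0, 0, 0, 0], 0⟩

noncomputable def b4_5556_T : TT := (tT 1 5 2877602598775747725370809946675)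

theorem b4_5556_okF : okCode b4_5556_F = true := by decide +kernel

theorem b4_5556_okI : okIdx b4_5556_F = true := by decide +kernel

theorem b4_5556_okS : Tri'.all (okSyR b4_5556_F) b4_5556_S = true := by decide +kernel

theorem b4_5556_okZ : Tri2.all (okSzR b4_5556_F b4_5556_S) b4_5556_S2 = true := by decide +kernel

theorem b4_5556_okM : okM b4_5556_F b4_5556_M = true := by decide +kernel

theorem b4_5556_okC : okCert b4_5556_C b4_5556_F.k = true := by decide +kernel

theorem b4_5556_okG : runG5 b4_5556_F b4_5556_S b4_5556_C b4_5556_T [[]] = true := by decide +kernel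

theorem b4_5556_okE : enumR b4_5556_F (okG2R b4_5556_F b4_5556_S b4_5556_S2 b4_5556_q b4_5556_M b4_5556_T) (Nat.pred b4_5556_F.n) 1 36 = true := by decide +kernel

theorem b4_5556_good : Good 4 [5, 5, 5, 6] :=
  good_mk4 b4_5556_S b4_5556_S2 b4_5556_q b4_5556_M b4_5556_C b4_5556_T 4 [5, 5, 5, 6] rfl rfl b4_5556_okF b4_5556_okI b4_5556_okS b4_5556_okZ b4_5556_okM b4_5556_okC (runG4_of _ _ _ _ 0 _ rfl b4_5556_okG) b4_5556_okE

noncomputable def b4_4566_F : Code := ⟨4, [4, 5, 6, 6], [(0, 2), (1, 2), (1, 3), (2, 2), (2, 3), (2, 4), (3, 2),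
  (3, 3), (3, 4)], 13, 5,
  3947216530316930551696163116296765254071358848539412997717047464206973448963114757,
  1784408065041756318186324454617999447844454400, 10003877011⟩

noncomputable def b4_4566_S : Tri' := (.node (.node (.leaf [⟨261682031454, 24, 213520⟩, ⟨461532159339, 20,
  144400⟩]) (.node (.leaf [⟨376545064877, 10, 266800⟩, ⟨376545144051, 10, 266800⟩]) (.node (.leaf
  [⟨390279392094, 6, 274720⟩]) (.node (.leaf []) (.leaf [⟨261430373214, 30, 74560⟩, ⟨263936391085,
  30, 213280⟩, ⟨263936470259, 30, 213280⟩, ⟨445040156011, 30, 213280⟩]))))) (.node (.node (.leaf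
  [⟨376576862110, 9, 262675⟩]) (.node (.leaf [⟨392817129389, 5, 274450⟩, ⟨392817208563, 5, 274450⟩])
  (.node (.leaf []) (.leaf [⟨263968188318, 29, 213010⟩, ⟨263968110509, 29, 8980⟩, ⟨263968189683, 29,
  8980⟩])))) (.node (.node (.leaf [⟨390503283445, 3, 274945⟩]) (.leaf [⟨445264123806, 27, 213505⟩,
  ⟨261654264565, 27, 4660⟩])) (.node (.leaf [⟨461504468894, 23, 12580⟩]) (.node (.leaf
  [⟨376325203870, 15, 271105⟩, ⟨376325126061, 15, 262435⟩, ⟨376325205235, 15, 262435⟩]) (.leaf
  []))))))

noncomputable def b4_4566_S2 : Tri2 := (.node (.node (.leaf [⟨261682031454, 25093647600794347049300, 24, 213520,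
  (tB 5 17481)⟩, ⟨461532159339, 95721673016192386798661, 20, 144400, (tB 5 17033)⟩]) (.node (.leaf
  []) (.node (.leaf [⟨390279392094, 81540469137988391342420, 6, 274720, (tB 5 4881)⟩]) (.leaf
  [⟨261430373214, 25093432272437163397460, 30, 74560, (tB 5 17681)⟩, ⟨445040156011,
  94839418693615436764229, 30, 213280, .nil⟩])))) (.node (.node (.leaf [⟨376576862110,
  80672534626359332651348, 9, 262675, (tB 5 6218)⟩]) (.node (.leaf [⟨392817129389,
  81554573620565962474577, 5, 274450, .nil⟩]) (.leaf [⟨263968110509, 25107536755014734529617, 29,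
  8980, .nil⟩, ⟨263968188318, 25107536755027871088980, 29, 213010, (tB 5 18570)⟩]))) (.node (.node
  (.leaf [⟨390503283445, 81540681153794887931153, 3, 274945, (tB 5 4706)⟩]) (.leaf [⟨261654264565,
  25093644288243659986193, 27, 4660, (tB 5 17506)⟩, ⟨445264123806, 94839630709435066040660, 27,
  213505, (tB 5 18514)⟩])) (.node (.leaf [⟨461504468894, 95721669703654832423252, 23, 12580, (tB 5
  17058)⟩]) (.leaf [⟨376325126061, 80672319297989012440145, 15, 262435, .nil⟩, ⟨376325203870,
  80672319298002148999508, 15, 271105, (tB 5 6418)⟩])))))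

noncomputable def b4_4566_q : List ℕ := [38, 50, 56, 68, 74]

noncomputable def b4_4566_M : ℕ := 100743818301219097892181

noncomputable def b4_4566_C : Cert := ⟨1, 1, 2, [0, 1, 0, 0, 0], [0, 0, 0, 0, 1], 6⟩

noncomputable def b4_4566_T : TT := (tT 1 5 5040648343803251921427)

theorem b4_4566_okF : okCode b4_4566_F = true := by decide +kernel

theorem b4_4566_okI : okIdx b4_4566_F = true := by decide +kernel

theorem b4_4566_okS : Tri'.all (okSyR b4_4566_F) b4_4566_S = true := by decide +kernel

theorem b4_4566_okZ : Tri2.all (okSzR b4_4566_F b4_4566_S) b4_4566_S2 = true := by decide +kernel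

theorem b4_4566_okM : okM b4_4566_F b4_4566_M = true := by decide +kernel

theorem b4_4566_okC : okCert b4_4566_C b4_4566_F.k = true := by decide +kernel

theorem b4_4566_okG : runG5 b4_4566_F b4_4566_S b4_4566_C b4_4566_T [[]] = true := by decide +kernel

theorem b4_4566_okE : enumR b4_4566_F (okG2R b4_4566_F b4_4566_S b4_4566_S2 b4_4566_q b4_4566_M b4_4566_T) (Nat.pred b4_4566_F.n) 1 36 = true := by decide +kernel

theorem b4_4566_good : Good 4 [4, 5, 6, 6] :=
  good_mk4 b4_4566_S b4_4566_S2 b4_4566_q b4_4566_M b4_4566_C b4_4566_T 4 [4, 5, 6, 6] rfl rfl b4_4566_okF b4_4566_okI b4_4566_okS b4_4566_okZ b4_4566_okM b4_4566_okC (runG4_of _ _ _ _ 0 _ rfl b4_4566_okG) b4_4566_okE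

noncomputable def b6_454555_F : Code := ⟨6, [4, 5, 4, 5, 5, 5], [(0, 2), (1, 2), (1, 3), (2, 2), (3, 2), (3, 3),
  (4, 2), (4, 3), (5, 2), (5, 3)], 16, 4,
  46326563581448419601808903114475286258308758122534374783183274943828578024299044668839276780896635397,
  98079718999921973152214829136818179376476769349575639040, 97128729⟩

noncomputable def b6_454555_S : Tri' := (.node (.node (.node (.leaf []) (.node (.leaf []) (.leaf
  [⟨134049644276589, 12, 8976⟩, ⟨134052199480563, 12, 8976⟩, ⟨236647823661931, 12, 8976⟩]))) (.node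
  (.leaf [⟨135089031342942, 10, 4656⟩, ⟨135091576498093, 10, 4656⟩]) (.node (.leaf
  [⟨191210290330989, 6, 12576⟩, ⟨201609479842669, 6, 12576⟩, ⟨201612035046643, 6, 12576⟩]) (.leaf
  [])))) (.node (.node (.leaf [⟨227304497665950, 9, 531⟩]) (.leaf [⟨191226771848437, 5, 12306⟩,
  ⟨201463741242099, 5, 12306⟩])) (.node (.leaf [⟨192103933728670, 3, 12801⟩]) (.node (.leaf [])
  (.leaf [⟨134035975825310, 15, 8961⟩, ⟨236796375328670, 15, 291⟩, ⟨226394635681118, 15, 8961⟩,
  ⟨236793825192798, 15, 8961⟩, ⟨134035970844589, 15, 291⟩, ⟨236634150229931, 15, 291⟩])))))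

noncomputable def b6_454555_S2 : Tri2 := (.node (.node (.leaf [⟨134049644276589, 6578163323545842331748209745, 12,
  8976, .nil⟩]) (.node (.leaf [⟨135089031342942, 6581776155266220302201590100, 10, 4656, .nil⟩,
  ⟨135091576498093, 6581776169371440527772566609, 10, 4656, .nil⟩]) (.leaf [⟨191210290330989,
  21143300730113001672286475345, 6, 12576, .nil⟩, ⟨201609479842669, 21379934881713938565135930449,
  6, 12576, .nil⟩]))) (.node (.node (.leaf [⟨227304497665950, 24860677672182599437518192980, 9, 531,
  (tB 4 2122)⟩]) (.leaf [⟨191226771848437, 21143301612364856945143731473, 5, 12306, .nil⟩,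
  ⟨201463741242099, 21379877992172286275328693509, 5, 12306, .nil⟩])) (.node (.leaf
  [⟨192103933728670, 21146856672291673529723994452, 3, 12801, (tB 4 610)⟩]) (.node (.leaf []) (.leaf
  [⟨134035975825310, 6578162455613020377183502676, 15, 8961, .nil⟩, ⟨226394635681118,
  24857120847965831592594706772, 15, 8961, .nil⟩, ⟨236634150229931, 25093697241878481148350645317,
  15, 291, .nil⟩, ⟨236793825192798, 25093754999566768485444161876, 15, 8961, .nil⟩,
  ⟨236796375328670, 25093755013672042518365421908, 15, 291, .nil⟩])))))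

noncomputable def b6_454555_q : List ℕ := [50, 68, 80, 92]

noncomputable def b6_454555_M : ℕ := 26409387504754779197847983445

noncomputable def b6_454555_C : Cert := ⟨1, 1, 2, [0, 0, 0, 0], [0, 0, 0, 0], 0⟩

noncomputable def b6_454555_T : TT := .nil

theorem b6_454555_okF : okCode b6_454555_F = true := by decide +kernel

theorem b6_454555_okI : okIdx b6_454555_F = true := by decide +kernel

theorem b6_454555_okS : Tri'.all (okSyR b6_454555_F) b6_454555_S = true := by decide +kernel

theorem b6_454555_okZ : Tri2.all (okSzR b6_454555_F b6_454555_S) b6_454555_S2 = true := by decide +kernel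

theorem b6_454555_okM : okM b6_454555_F b6_454555_M = true := by decide +kernel

theorem b6_454555_okC : okCert b6_454555_C b6_454555_F.k = true := by decide +kernel

theorem b6_454555_okG : runG5 b6_454555_F b6_454555_S b6_454555_C b6_454555_T [[]] = true := by decide +kernel

theorem b6_454555_okE : enumR b6_454555_F (okG2R b6_454555_F b6_454555_S b6_454555_S2 b6_454555_q b6_454555_M b6_454555_T) (Nat.pred b6_454555_F.n) 1 36 = true := by decide +kernel

theorem b6_454555_good : Good 6 [4, 5, 4, 5, 5, 5] :=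
  good_mk4 b6_454555_S b6_454555_S2 b6_454555_q b6_454555_M b6_454555_C b6_454555_T 6 [4, 5, 4, 5, 5, 5] rfl rfl b6_454555_okF b6_454555_okI b6_454555_okS b6_454555_okZ b6_454555_okM b6_454555_okC (runG4_of _ _ _ _ 0 _ rfl b6_454555_okG) b6_454555_okE

noncomputable def b6_446446_F : Code := ⟨6, [4, 4, 6, 4, 4, 6], [(0, 2), (1, 2), (2, 2), (2, 3), (2, 4), (3, 2),
  (4, 2), (5, 2), (5, 3), (5, 4)], 16, 4,
  46326575591807555082076293334852649291190143449663736287313030973347530832668745801668363110486100485,
  98097673547536409112533584778820048197895192344138874880, 97177500⟩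

noncomputable def b6_446446_S : Tri' := (.node (.node (.node (.leaf []) (.node (.leaf []) (.leaf
  [⟨133828693384030, 12, 8976⟩, ⟨133828728249077, 12, 8976⟩, ⟨133991897152877, 12, 8976⟩,
  ⟨135134358399853, 12, 8976⟩]))) (.leaf [⟨235002052138910, 10, 4656⟩, ⟨236307682377067, 10,
  4656⟩])) (.node (.leaf [⟨192815551080365, 5, 12306⟩, ⟨192652347398899, 5, 12306⟩]) (.node (.node
  (.leaf [⟨199797377784670, 3, 12801⟩, ⟨199797412649717, 3, 12801⟩, ⟨199960581553517, 3, 12801⟩,
  ⟨201103042800493, 3, 12801⟩]) (.leaf [])) (.node (.leaf []) (.leaf [⟨227998168377246, 15, 8961⟩,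
  ⟨133989888867678, 15, 8961⟩, ⟨135132350114654, 15, 8961⟩, ⟨133826680118110, 15, 291⟩,
  ⟨133989923732725, 15, 8961⟩, ⟨135132384979701, 15, 8961⟩, ⟨133826714983157, 15, 291⟩,
  ⟨133846723909549, 15, 8961⟩, ⟨133989883886957, 15, 291⟩, ⟨135132345133933, 15, 291⟩,
  ⟨135152398974195, 15, 8961⟩, ⟨227834919869291, 15, 8961⟩])))))

noncomputable def b6_446446_S2 : Tri2 := (.node (.leaf [⟨133828693384030, 6578091616652790706871800148, 12, 8976,
  .nil⟩, ⟨235002052138910, 25089164655497863369550283092, 10, 4656, .nil⟩]) (.node (.leaf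
  [⟨192815551080365, 21147821138183832243801506897, 5, 12306, .nil⟩]) (.node (.leaf
  [⟨199797377784670, 21375343634954836945521676628, 3, 12801, .nil⟩]) (.node (.leaf []) (.leaf
  [⟨133826680118110, 6578091602871775847118082388, 15, 291, .nil⟩, ⟨133989888867678,
  6578149378074214705233203540, 15, 8961, .nil⟩, ⟨135132345133933, 6581789215827808959135552593, 15,
  291, .nil⟩, ⟨135132350114654, 6581789215827862766485836116, 15, 8961, .nil⟩, ⟨227998168377246,
  24861641242474353361260200276, 15, 8961, .nil⟩])))))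

noncomputable def b6_446446_q : List ℕ := [56, 62, 86, 92]

noncomputable def b6_446446_M : ℕ := 26409387504754779197847983445

noncomputable def b6_446446_C : Cert := ⟨1, 1, 2, [0, 0, 0, 0], [0, 0, 0, 0], 0⟩

noncomputable def b6_446446_T : TT := .nil

theorem b6_446446_okF : okCode b6_446446_F = true := by decide +kernel

theorem b6_446446_okI : okIdx b6_446446_F = true := by decide +kernel

theorem b6_446446_okS : Tri'.all (okSyR b6_446446_F) b6_446446_S = true := by decide +kernel

theorem b6_446446_okZ : Tri2.all (okSzR b6_446446_F b6_446446_S) b6_446446_S2 = true := by decide +kernel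

theorem b6_446446_okM : okM b6_446446_F b6_446446_M = true := by decide +kernel

theorem b6_446446_okC : okCert b6_446446_C b6_446446_F.k = true := by decide +kernel

theorem b6_446446_okG : runG5 b6_446446_F b6_446446_S b6_446446_C b6_446446_T [[]] = true := by decide +kernel

theorem b6_446446_okE : enumR b6_446446_F (okG2R b6_446446_F b6_446446_S b6_446446_S2 b6_446446_q b6_446446_M b6_446446_T) (Nat.pred b6_446446_F.n) 1 36 = true := by decide +kernel

theorem b6_446446_good : Good 6 [4, 4, 6, 4, 4, 6] :=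
  good_mk4 b6_446446_S b6_446446_S2 b6_446446_q b6_446446_M b6_446446_C b6_446446_T 6 [4, 4, 6, 4, 4, 6] rfl rfl b6_446446_okF b6_446446_okI b6_446446_okS b6_446446_okZ b6_446446_okM b6_446446_okC (runG4_of _ _ _ _ 0 _ rfl b6_446446_okG) b6_446446_okE

noncomputable def b6_444646_F : Code := ⟨6, [4, 4, 4, 6, 4, 6], [(0, 2), (1, 2), (2, 2), (3, 2), (3, 3), (3, 4),
  (4, 2), (5, 2), (5, 3), (5, 4)], 16, 4,
  46326575591807555082076294467401617815599624474410194502830026845309703589472934085196643283442584069,
  98097673547536583315832608069896152651604753948648407040, 97177887⟩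

noncomputable def b6_444646_S : Tri' := (.node (.node (.node (.leaf []) (.node (.leaf []) (.leaf
  [⟨133845604817758, 12, 8976⟩, ⟨133845639682805, 12, 8976⟩, ⟨133845918603181, 12, 8976⟩,
  ⟨135151269833581, 12, 8976⟩, ⟨135151593667827, 12, 8976⟩]))) (.node (.leaf []) (.node (.leaf
  [⟨192815505730398, 6, 12576⟩, ⟨192815540595445, 6, 12576⟩, ⟨192815819515821, 6, 12576⟩]) (.leaf
  [])))) (.node (.leaf [⟨236304635127710, 9, 531⟩]) (.node (.node (.leaf [⟨199800196356958, 3,
  12801⟩, ⟨199800231222005, 3, 12801⟩, ⟨199800510142381, 3, 12801⟩, ⟨201105861372781, 3, 12801⟩,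
  ⟨201106185207027, 3, 12801⟩]) (.leaf [])) (.node (.leaf []) (.leaf [⟨135135168686942, 15, 8961⟩,
  ⟨133829498690398, 15, 291⟩, ⟨135135203551989, 15, 8961⟩, ⟨133829533555445, 15, 291⟩,
  ⟨135135482472365, 15, 8961⟩, ⟨133829812475821, 15, 291⟩, ⟨133989883886957, 15, 8961⟩,
  ⟨135135163706221, 15, 291⟩, ⟨135135487540467, 15, 291⟩, ⟨227837738441579, 15, 8961⟩])))))

noncomputable def b6_444646_S2 : Tri2 := (.node (.node (.leaf [⟨133845604817758, 6578092501880333462816493908, 12,
  8976, .nil⟩]) (.leaf [⟨192815505730398, 21147821138179663926504264020, 6, 12576, .nil⟩,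
  ⟨192815819515821, 21147821138400005025915290705, 6, 12576, .nil⟩])) (.node (.leaf
  [⟨236304635127710, 25092862251214170915343778132, 9, 531, (tB 4 2122)⟩]) (.node (.leaf
  [⟨199800196356958, 21375343651978443536982151508, 3, 12801, .nil⟩]) (.node (.leaf []) (.leaf
  [⟨133829498690398, 6578091619895382438578557268, 15, 291, .nil⟩, ⟨133829812475821,
  6578091620115723537989583953, 15, 291, .nil⟩, ⟨135135168686942, 6581789232851469357946310996, 15,
  8961, .nil⟩])))))

noncomputable def b6_444646_q : List ℕ := [62, 68, 86, 92]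

noncomputable def b6_444646_M : ℕ := 26409387504754779197847983445

noncomputable def b6_444646_C : Cert := ⟨1, 1, 2, [0, 0, 0, 0], [0, 0, 0, 0], 0⟩

noncomputable def b6_444646_T : TT := .nil

theorem b6_444646_okF : okCode b6_444646_F = true := by decide +kernel

theorem b6_444646_okI : okIdx b6_444646_F = true := by decide +kernel

theorem b6_444646_okS : Tri'.all (okSyR b6_444646_F) b6_444646_S = true := by decide +kernel

theorem b6_444646_okZ : Tri2.all (okSzR b6_444646_F b6_444646_S) b6_444646_S2 = true := by decide +kernel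

theorem b6_444646_okM : okM b6_444646_F b6_444646_M = true := by decide +kernel

theorem b6_444646_okC : okCert b6_444646_C b6_444646_F.k = true := by decide +kernel

theorem b6_444646_okG : runG5 b6_444646_F b6_444646_S b6_444646_C b6_444646_T [[]] = true := by decide +kernel

theorem b6_444646_okE : enumR b6_444646_F (okG2R b6_444646_F b6_444646_S b6_444646_S2 b6_444646_q b6_444646_M b6_444646_T) (Nat.pred b6_444646_F.n) 1 36 = true := by decide +kernel

theorem b6_444646_good : Good 6 [4, 4, 4, 6, 4, 6] :=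
  good_mk4 b6_444646_S b6_444646_S2 b6_444646_q b6_444646_M b6_444646_C b6_444646_T 6 [4, 4, 4, 6, 4, 6] rfl rfl b6_444646_okF b6_444646_okI b6_444646_okS b6_444646_okZ b6_444646_okM b6_444646_okC (runG4_of _ _ _ _ 0 _ rfl b6_444646_okG) b6_444646_okE

noncomputable def b6_445546_F : Code := ⟨6, [4, 4, 5, 5, 4, 6], [(0, 2), (1, 2), (2, 2), (2, 3), (3, 2), (3, 3),
  (4, 2), (5, 2), (5, 3), (5, 4)], 16, 4,
  46326575591807555082076294467401158654188327575906920459742972518763470951348981874557156496303704581,
  98097673547536583294570152434196033512772371480492113920, 97177884⟩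

noncomputable def b6_445546_S : Tri' := (.node (.node (.node (.leaf []) (.node (.leaf []) (.leaf
  [⟨133843725769566, 12, 8976⟩, ⟨133843760634613, 12, 8976⟩, ⟨135149390785389, 12, 8976⟩]))) (.node
  (.leaf [⟨236290542266270, 10, 4656⟩]) (.leaf [⟨192813626682206, 6, 12576⟩, ⟨192813661547253, 6,
  12576⟩]))) (.node (.node (.leaf [⟨235001112614814, 9, 531⟩, ⟨236306742852971, 9, 531⟩]) (.leaf
  [⟨192667379784435, 5, 12306⟩])) (.node (.node (.leaf [⟨199800241706925, 3, 12801⟩,
  ⟨199962729037165, 3, 12801⟩, ⟨201105916771571, 3, 12801⟩]) (.leaf [])) (.node (.leaf []) (.leaf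
  [⟨228000315860894, 15, 8961⟩, ⟨133992036351326, 15, 8961⟩, ⟨133992071216373, 15, 8961⟩,
  ⟨135135214036909, 15, 8961⟩, ⟨133829544040365, 15, 291⟩, ⟨133992031370605, 15, 291⟩,
  ⟨135135219105011, 15, 291⟩])))))

noncomputable def b6_445546_S2 : Tri2 := (.node (.node (.leaf [⟨133843725769566, 6578092488261448189648114004, 12,
  8976, .nil⟩]) (.leaf [⟨192813626682206, 21147821124560778653335884116, 6, 12576, .nil⟩,
  ⟨236290542266270, 25092861383010234750859559252, 10, 4656, (tB 4 2129)⟩])) (.node (.leaf
  [⟨192667379784435, 21147764234590104691671323909, 5, 12306, (tB 4 778)⟩, ⟨235001112614814,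
  25089164652093142051258188116, 9, 531, .nil⟩]) (.node (.leaf []) (.node (.leaf []) (.leaf
  [⟨133829544040365, 6578091619899550755875800145, 15, 291, .nil⟩, ⟨133992031370605,
  6578149391909218953165083729, 15, 291, .nil⟩, ⟨133992036351326, 6578149391909272760515367252, 15,
  8961, .nil⟩, ⟨228000315860894, 24861641256309411416542363988, 15, 8961, .nil⟩])))))

noncomputable def b6_445546_q : List ℕ := [56, 68, 86, 92]

noncomputable def b6_445546_M : ℕ := 26409387504754779197847983445

noncomputable def b6_445546_C : Cert := ⟨1, 1, 2, [0, 0, 0, 0], [0, 0, 0, 0], 0⟩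

noncomputable def b6_445546_T : TT := (tT 1 4 42090787)

theorem b6_445546_okF : okCode b6_445546_F = true := by decide +kernel

theorem b6_445546_okI : okIdx b6_445546_F = true := by decide +kernel

theorem b6_445546_okS : Tri'.all (okSyR b6_445546_F) b6_445546_S = true := by decide +kernel

theorem b6_445546_okZ : Tri2.all (okSzR b6_445546_F b6_445546_S) b6_445546_S2 = true := by decide +kernel

theorem b6_445546_okM : okM b6_445546_F b6_445546_M = true := by decide +kernel

theorem b6_445546_okC : okCert b6_445546_C b6_445546_F.k = true := by decide +kernel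

theorem b6_445546_okG : runG5 b6_445546_F b6_445546_S b6_445546_C b6_445546_T [[]] = true := by decide +kernel

theorem b6_445546_okE : enumR b6_445546_F (okG2R b6_445546_F b6_445546_S b6_445546_S2 b6_445546_q b6_445546_M b6_445546_T) (Nat.pred b6_445546_F.n) 1 36 = true := by decide +kernel

theorem b6_445546_good : Good 6 [4, 4, 5, 5, 4, 6] :=
  good_mk4 b6_445546_S b6_445546_S2 b6_445546_q b6_445546_M b6_445546_C b6_445546_T 6 [4, 4, 5, 5, 4, 6] rfl rfl b6_445546_okF b6_445546_okI b6_445546_okS b6_445546_okZ b6_445546_okM b6_445546_okC (runG4_of _ _ _ _ 0 _ rfl b6_445546_okG) b6_445546_okE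

noncomputable def b6_445456_F : Code := ⟨6, [4, 4, 5, 4, 5, 6], [(0, 2), (1, 2), (2, 2), (2, 3), (3, 2), (4, 2),
  (4, 3), (5, 2), (5, 3), (5, 4)], 16, 4,
  46326575591807555084451420838908789022025046722080500256514824648415241445789712753383810656368839173,
  98097673548250032916351268854231883249698113983359221760, 97178268⟩

noncomputable def b6_445456_S : Tri' := (.node (.node (.node (.leaf []) (.node (.leaf []) (.leaf
  [⟨133963984853854, 12, 8976⟩, ⟨133964019718901, 12, 8976⟩, ⟨133984380960109, 12, 8976⟩]))) (.node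
  (.leaf [⟨236307722135454, 10, 4656⟩, ⟨236287281290091, 10, 4656⟩]) (.leaf [⟨192676182748013, 6,
  12576⟩]))) (.node (.node (.leaf [⟨235121371699102, 9, 531⟩]) (.leaf [⟨192808034887597, 5, 12306⟩,
  ⟨192787638868723, 5, 12306⟩])) (.node (.node (.leaf [⟨199825295064414, 3, 12801⟩,
  ⟨199825329929461, 3, 12801⟩, ⟨201123096640755, 3, 12801⟩]) (.leaf [])) (.node (.leaf []) (.leaf
  [⟨133854597397854, 15, 291⟩, ⟨133854632262901, 15, 291⟩, ⟨135152393906093, 15, 8961⟩,
  ⟨135152398974195, 15, 291⟩, ⟨135131997887219, 15, 8961⟩, ⟨227862837149035, 15, 8961⟩])))))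

noncomputable def b6_445456_S2 : Tri2 := (.node (.node (.leaf [⟨133963984853854, 6578148271215527087332200788, 12,
  8976, .nil⟩]) (.leaf [⟨192676182748013, 21147764456162930410243036241, 6, 12576, (tB 4 785)⟩,
  ⟨236307722135454, 25092862268453950288918036820, 10, 4656, .nil⟩])) (.node (.leaf
  [⟨192808034887597, 21147820920281667873107428433, 5, 12306, .nil⟩, ⟨235121371699102,
  25089220435047220948942274900, 9, 531, (tB 4 2122)⟩]) (.node (.leaf [⟨199825295064414,
  21375344755594539423176397140, 3, 12801, .nil⟩]) (.node (.leaf []) (.leaf [⟨133854597397854,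
  6578092723511478324772802900, 15, 291, .nil⟩, ⟨135152393906093, 6581790118299353213302031441, 15,
  8961, .nil⟩, ⟨135152398974195, 6581790118299407036510655749, 15, 291, .nil⟩])))))

noncomputable def b6_445456_q : List ℕ := [56, 74, 86, 92]

noncomputable def b6_445456_M : ℕ := 26409387504754779197847983445

noncomputable def b6_445456_C : Cert := ⟨1, 1, 2, [0, 0, 0, 0], [0, 0, 0, 0], 0⟩

noncomputable def b6_445456_T : TT := (tT 1 4 136451107)

theorem b6_445456_okF : okCode b6_445456_F = true := by decide +kernel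

theorem b6_445456_okI : okIdx b6_445456_F = true := by decide +kernel

theorem b6_445456_okS : Tri'.all (okSyR b6_445456_F) b6_445456_S = true := by decide +kernel

theorem b6_445456_okZ : Tri2.all (okSzR b6_445456_F b6_445456_S) b6_445456_S2 = true := by decide +kernel

theorem b6_445456_okM : okM b6_445456_F b6_445456_M = true := by decide +kernel

theorem b6_445456_okC : okCert b6_445456_C b6_445456_F.k = true := by decide +kernel

theorem b6_445456_okG : runG5 b6_445456_F b6_445456_S b6_445456_C b6_445456_T [[]] = true := by decide +kernel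

theorem b6_445456_okE : enumR b6_445456_F (okG2R b6_445456_F b6_445456_S b6_445456_S2 b6_445456_q b6_445456_M b6_445456_T) (Nat.pred b6_445456_F.n) 1 36 = true := by decide +kernel

theorem b6_445456_good : Good 6 [4, 4, 5, 4, 5, 6] :=
  good_mk4 b6_445456_S b6_445456_S2 b6_445456_q b6_445456_M b6_445456_C b6_445456_T 6 [4, 4, 5, 4, 5, 6] rfl rfl b6_445456_okF b6_445456_okI b6_445456_okS b6_445456_okZ b6_445456_okM b6_445456_okC (runG4_of _ _ _ _ 0 _ rfl b6_445456_okG) b6_445456_okE

noncomputable def b6_445465_F : Code := ⟨6, [4, 4, 5, 4, 6, 5], [(0, 2), (1, 2), (2, 2), (2, 3), (3, 2), (4, 2),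
  (4, 3), (4, 4), (5, 2), (5, 3)], 16, 4,
  46326563581448419604184029485982916626364422491227303918140457982758420182707212397237259409039804933,
  98079719000635422774001136586061963712801640852068761600, 97129116⟩

noncomputable def b6_445465_S : Tri' := (.node (.node (.leaf [⟨236788758472606, 12, 8976⟩, ⟨236768317627243, 12,
  8976⟩]) (.node (.leaf [⟨134951822289773, 10, 4656⟩]) (.node (.leaf [⟨191207308974942, 6, 12576⟩,
  ⟨191207343839989, 6, 12576⟩, ⟨191227705081197, 6, 12576⟩]) (.leaf [])))) (.node (.node (.node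
  (.leaf []) (.leaf [⟨227424790304670, 9, 531⟩, ⟨135083674429357, 9, 531⟩, ⟨135063278410483, 9,
  531⟩])) (.leaf [⟨201604132977907, 5, 12306⟩])) (.node (.leaf [⟨192128713669982, 3, 12801⟩,
  ⟨192128748535029, 3, 12801⟩]) (.node (.leaf []) (.leaf [⟨226393998153630, 15, 8961⟩,
  ⟨134052882278317, 15, 8961⟩, ⟨134052887346419, 15, 291⟩, ⟨134032486259443, 15, 8961⟩,
  ⟨236658930171243, 15, 291⟩])))))

noncomputable def b6_445465_S2 : Tri2 := (.node (.node (.leaf [⟨236788758472606, 25093754795719212651863425364,
  12, 8976, .nil⟩]) (.leaf [⟨134951822289773, 6581719487081167141501998161, 10, 4656, (tB 4 2129)⟩,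
  ⟨191207308974942, 21143300713032027993127850324, 6, 12576, .nil⟩])) (.node (.node (.leaf
  [⟨135083674429357, 6581775951199904604366390353, 9, 531, .nil⟩, ⟨227424790304670,
  24860733455140056034922807636, 9, 531, .nil⟩]) (.leaf [⟨201604132977907,
  21379934677647730497859638533, 5, 12306, (tB 4 778)⟩])) (.node (.leaf [⟨192128713669982,
  21146857775687374509156929876, 3, 12801, .nil⟩]) (.leaf [⟨134052882278317,
  6578163340840509325777912913, 15, 8961, .nil⟩, ⟨226393998153630, 24857120844780660756334330196,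
  15, 8961, .nil⟩]))))

noncomputable def b6_445465_q : List ℕ := [56, 74, 80, 92]

noncomputable def b6_445465_M : ℕ := 26409387504754779197847983445

noncomputable def b6_445465_C : Cert := ⟨1, 1, 2, [0, 0, 0, 0], [0, 0, 0, 0], 0⟩

noncomputable def b6_445465_T : TT := (tT 1 4 42090787)

theorem b6_445465_okF : okCode b6_445465_F = true := by decide +kernel

theorem b6_445465_okI : okIdx b6_445465_F = true := by decide +kernel

theorem b6_445465_okS : Tri'.all (okSyR b6_445465_F) b6_445465_S = true := by decide +kernel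

theorem b6_445465_okZ : Tri2.all (okSzR b6_445465_F b6_445465_S) b6_445465_S2 = true := by decide +kernel

theorem b6_445465_okM : okM b6_445465_F b6_445465_M = true := by decide +kernel

theorem b6_445465_okC : okCert b6_445465_C b6_445465_F.k = true := by decide +kernel

theorem b6_445465_okG : runG5 b6_445465_F b6_445465_S b6_445465_C b6_445465_T [[]] = true := by decide +kernel

theorem b6_445465_okE : enumR b6_445465_F (okG2R b6_445465_F b6_445465_S b6_445465_S2 b6_445465_q b6_445465_M b6_445465_T) (Nat.pred b6_445465_F.n) 1 36 = true := by decide +kernel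

theorem b6_445465_good : Good 6 [4, 4, 5, 4, 6, 5] :=
  good_mk4 b6_445465_S b6_445465_S2 b6_445465_q b6_445465_M b6_445465_C b6_445465_T 6 [4, 4, 5, 4, 6, 5] rfl rfl b6_445465_okF b6_445465_okI b6_445465_okS b6_445465_okZ b6_445465_okM b6_445465_okC (runG4_of _ _ _ _ 0 _ rfl b6_445465_okG) b6_445465_okE

noncomputable def b6_454546_F : Code := ⟨6, [4, 5, 4, 5, 4, 6], [(0, 2), (1, 2), (1, 3), (2, 2), (3, 2), (3, 3),
  (4, 2), (5, 2), (5, 3), (5, 4)], 16, 4,
  46326575591807555082076294467401158653969382353387571121557641609485399287381545024985828028225669637,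
  98097673547536583294564961404988098913373242480866099200, 97177881⟩

noncomputable def b6_454546_S : Tri' := (.node (.node (.node (.leaf []) (.node (.leaf []) (.leaf
  [⟨133843490888542, 12, 8976⟩, ⟨133846036043693, 12, 8976⟩, ⟨135149155904365, 12, 8976⟩,
  ⟨135151711108339, 12, 8976⟩]))) (.leaf [⟨192813391801182, 6, 12576⟩, ⟨192815936956333, 6,
  12576⟩])) (.node (.leaf [⟨235001079060382, 9, 531⟩, ⟨236304198921054, 9, 531⟩]) (.node (.leaf
  [⟨199800515123102, 3, 12801⟩, ⟨201106180138925, 3, 12801⟩]) (.node (.leaf []) (.leaf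
  [⟨135135487453086, 15, 8961⟩, ⟨228000282306462, 15, 8961⟩, ⟨133829817456542, 15, 291⟩,
  ⟨133992037661941, 15, 8961⟩, ⟨135135482472365, 15, 291⟩, ⟨227838057207723, 15, 8961⟩])))))

noncomputable def b6_454546_S2 : Tri2 := (.node (.node (.leaf [⟨133843490888542, 6578092488048653107254858068, 12,
  8976, .nil⟩, ⟨135149155904365, 6581790101004686219272328273, 12, 8976, .nil⟩]) (.leaf
  [⟨192813391801182, 21147821124347983570942628180, 6, 12576, .nil⟩])) (.node (.leaf
  [⟨235001079060382, 25089164652089764351537660244, 9, 531, .nil⟩, ⟨236304198921054,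
  25092862250940577237984153940, 9, 531, .nil⟩]) (.node (.leaf [⟨199800515123102,
  21375343652198838443743461716, 3, 12801, .nil⟩, ⟨201106180138925, 21379041265154871555760931921,
  3, 12801, .nil⟩]) (.node (.leaf []) (.leaf [⟨133829817456542, 6578091620115777345339867476, 15,
  291, .nil⟩, ⟨135135487453086, 6581789233071864264707621204, 15, 8961, .nil⟩, ⟨228000282306462,
  24861641256306033716821836116, 15, 8961, .nil⟩])))))

noncomputable def b6_454546_q : List ℕ := [50, 68, 86, 92]

noncomputable def b6_454546_M : ℕ := 26409387504754779197847983445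

noncomputable def b6_454546_C : Cert := ⟨1, 1, 2, [0, 0, 0, 0], [0, 0, 0, 0], 0⟩

noncomputable def b6_454546_T : TT := .nil

theorem b6_454546_okF : okCode b6_454546_F = true := by decide +kernel

theorem b6_454546_okI : okIdx b6_454546_F = true := by decide +kernel

theorem b6_454546_okS : Tri'.all (okSyR b6_454546_F) b6_454546_S = true := by decide +kernel

theorem b6_454546_okZ : Tri2.all (okSzR b6_454546_F b6_454546_S) b6_454546_S2 = true := by decide +kernel

theorem b6_454546_okM : okM b6_454546_F b6_454546_M = true := by decide +kernel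

theorem b6_454546_okC : okCert b6_454546_C b6_454546_F.k = true := by decide +kernel

theorem b6_454546_okG : runG5 b6_454546_F b6_454546_S b6_454546_C b6_454546_T [[]] = true := by decide +kernel

theorem b6_454546_okE : enumR b6_454546_F (okG2R b6_454546_F b6_454546_S b6_454546_S2 b6_454546_q b6_454546_M b6_454546_T) (Nat.pred b6_454546_F.n) 1 36 = true := by decide +kernel

theorem b6_454546_good : Good 6 [4, 5, 4, 5, 4, 6] :=
  good_mk4 b6_454546_S b6_454546_S2 b6_454546_q b6_454546_M b6_454546_C b6_454546_T 6 [4, 5, 4, 5, 4, 6] rfl rfl b6_454546_okF b6_454546_okI b6_454546_okS b6_454546_okZ b6_454546_okM b6_454546_okC (runG4_of _ _ _ _ 0 _ rfl b6_454546_okG) b6_454546_okE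

noncomputable def b6_445555_F : Code := ⟨6, [4, 4, 5, 5, 5, 5], [(0, 2), (1, 2), (2, 2), (2, 3), (3, 2), (3, 3),
  (4, 2), (4, 3), (5, 2), (5, 3)], 16, 4,
  46326563581448419601808903114475286258527703345053724121368605853106649688266481518410605248974670341,
  98079718999921973152220020166026113975875898349201653760, 97128732⟩

noncomputable def b6_445555_S : Tri' := (.node (.node (.leaf [⟨134049879157613, 12, 8976⟩, ⟨236648058542955, 12,
  8976⟩]) (.node (.leaf [⟨135089266223966, 10, 4656⟩, ⟨135089301089013, 10, 4656⟩]) (.leaf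
  [⟨191210525212013, 6, 12576⟩, ⟨201609714723693, 6, 12576⟩]))) (.node (.node (.leaf
  [⟨227304531220382, 9, 531⟩, ⟨134943019326195, 9, 531⟩]) (.leaf [⟨191226770537822, 5, 12306⟩,
  ⟨191226805402869, 5, 12306⟩])) (.node (.leaf [⟨192103660312493, 3, 12801⟩, ⟨192266147642733, 3,
  12801⟩]) (.node (.leaf []) (.leaf [⟨236796408883102, 15, 291⟩, ⟨134035702409133, 15, 8961⟩,
  ⟨134035707477235, 15, 291⟩, ⟨236796369124715, 15, 8961⟩])))))

noncomputable def b6_445555_S2 : Tri2 := (.node (.node (.leaf []) (.node (.leaf [⟨135089266223966,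
  6581776155479015384594846036, 10, 4656, .nil⟩, ⟨135089301089013, 6581776155482405247662707985, 10,
  4656, .nil⟩]) (.leaf [⟨191210525212013, 21143300730325796754679731281, 6, 12576, .nil⟩,
  ⟨201609714723693, 21379934881926733647529186385, 6, 12576, .nil⟩]))) (.node (.node (.leaf
  [⟨134943019326195, 6581719265508341422930285829, 9, 531, .nil⟩, ⟨227304531220382,
  24860677672185977137238720852, 9, 531, .nil⟩]) (.leaf [⟨191226770537822,
  21143301612364844781796397396, 5, 12306, .nil⟩, ⟨191226805402869, 21143301612368234644864259345,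
  5, 12306, .nil⟩])) (.leaf [⟨134035707477235, 6578162455396847610928059653, 15, 291, .nil⟩,
  ⟨236796408883102, 25093755013675420218085949780, 15, 291, .nil⟩])))

noncomputable def b6_445555_q : List ℕ := [56, 68, 80, 92]

noncomputable def b6_445555_M : ℕ := 26409387504754779197847983445

noncomputable def b6_445555_C : Cert := ⟨1, 1, 2, [0, 0, 0, 0], [0, 0, 0, 0], 0⟩

noncomputable def b6_445555_T : TT := .nil

theorem b6_445555_okF : okCode b6_445555_F = true := by decide +kernel

theorem b6_445555_okI : okIdx b6_445555_F = true := by decide +kernel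

theorem b6_445555_okS : Tri'.all (okSyR b6_445555_F) b6_445555_S = true := by decide +kernel

theorem b6_445555_okZ : Tri2.all (okSzR b6_445555_F b6_445555_S) b6_445555_S2 = true := by decide +kernel

theorem b6_445555_okM : okM b6_445555_F b6_445555_M = true := by decide +kernel

theorem b6_445555_okC : okCert b6_445555_C b6_445555_F.k = true := by decide +kernel

theorem b6_445555_okG : runG5 b6_445555_F b6_445555_S b6_445555_C b6_445555_T [[]] = true := by decide +kernel

theorem b6_445555_okE : enumR b6_445555_F (okG2R b6_445555_F b6_445555_S b6_445555_S2 b6_445555_q b6_445555_M b6_445555_T) (Nat.pred b6_445555_F.n) 1 36 = true := by decide +kernel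

theorem b6_445555_good : Good 6 [4, 4, 5, 5, 5, 5] :=
  good_mk4 b6_445555_S b6_445555_S2 b6_445555_q b6_445555_M b6_445555_C b6_445555_T 6 [4, 4, 5, 5, 5, 5] rfl rfl b6_445555_okF b6_445555_okI b6_445555_okS b6_445555_okZ b6_445555_okM b6_445555_okC (runG4_of _ _ _ _ 0 _ rfl b6_445555_okG) b6_445555_okE

noncomputable def b5_44646_F : Code := ⟨5, [4, 4, 6, 4, 6], [(0, 2), (1, 2), (2, 2), (2, 3), (2, 4), (3, 2), (4,
  2), (4, 3), (4, 4)], 14, 4,
  9029771792094920479213073048844254120123748137935668168078452771317337537095041500252293,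
  5847076985093151528586900715225705662465378877440, 84495897⟩

noncomputable def b5_44646_S : Tri' := (.node (.node (.node (.leaf []) (.node (.leaf []) (.leaf [⟨2091338128222,
  12, 8976⟩, ⟨2091342486261, 12, 8976⟩, ⟨2111738592621, 12, 8976⟩]))) (.node (.leaf [⟨3674172217246,
  10, 4656⟩]) (.leaf [⟨3012742823262, 6, 12576⟩, ⟨3012747181301, 6, 12576⟩]))) (.node (.leaf
  [⟨3010433870579, 5, 12306⟩]) (.node (.node (.leaf [⟨3121878621022, 3, 12801⟩, ⟨3121882979061, 3,
  12801⟩, ⟨3142279085421, 3, 12801⟩]) (.leaf [])) (.node (.leaf []) (.leaf [⟨2111487556958, 15,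
  8961⟩, ⟨2091086469982, 15, 291⟩, ⟨2111491914997, 15, 8961⟩, ⟨2091090828021, 15, 291⟩,
  ⟨2093591943085, 15, 8961⟩, ⟨2111486934381, 15, 291⟩, ⟨3559964732267, 15, 8961⟩])))))

noncomputable def b5_44646_S2 : Tri2 := (.node (.node (.leaf [⟨2091338128222, 1605979614717706091434324, 12, 8976,
  .nil⟩]) (.node (.leaf [⟨3674172217246, 6125298227978186863755604, 10, 4656, (tB 4 2129)⟩]) (.leaf
  [⟨3012742823262, 5163042270064222120513876, 6, 12576, .nil⟩, ⟨3012747181301,
  5163042270117188730901777, 6, 12576, .nil⟩]))) (.node (.leaf [⟨3010433870579,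
  5163028377651242537866501, 5, 12306, (tB 4 778)⟩]) (.node (.leaf [⟨3121878621022,
  5218589758784627496259924, 3, 12801, .nil⟩]) (.node (.leaf []) (.leaf [⟨2091086469982,
  1605979399389348907782484, 15, 291, .nil⟩, ⟨2091090828021, 1605979399442315518170385, 15, 291,
  .nil⟩, ⟨2111486934381, 1606882136926615128577105, 15, 291, .nil⟩, ⟨2111487556958,
  1606882136927455868424532, 15, 8961, .nil⟩])))))

noncomputable def b5_44646_q : List ℕ := [50, 56, 74, 80]

noncomputable def b5_44646_M : ℕ := 6447604371278022265099605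

noncomputable def b5_44646_C : Cert := ⟨1, 1, 2, [0, 0, 0, 0], [0, 0, 0, 0], 0⟩

noncomputable def b5_44646_T : TT := (tT 1 4 42090787)

theorem b5_44646_okF : okCode b5_44646_F = true := by decide +kernel

theorem b5_44646_okI : okIdx b5_44646_F = true := by decide +kernel

theorem b5_44646_okS : Tri'.all (okSyR b5_44646_F) b5_44646_S = true := by decide +kernel

theorem b5_44646_okZ : Tri2.all (okSzR b5_44646_F b5_44646_S) b5_44646_S2 = true := by decide +kernel

theorem b5_44646_okM : okM b5_44646_F b5_44646_M = true := by decide +kernel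

theorem b5_44646_okC : okCert b5_44646_C b5_44646_F.k = true := by decide +kernel

theorem b5_44646_okG : runG5 b5_44646_F b5_44646_S b5_44646_C b5_44646_T [[]] = true := by decide +kernel

theorem b5_44646_okE : enumR b5_44646_F (okG2R b5_44646_F b5_44646_S b5_44646_S2 b5_44646_q b5_44646_M b5_44646_T) (Nat.pred b5_44646_F.n) 1 36 = true := by decide +kernel

theorem b5_44646_good : Good 5 [4, 4, 6, 4, 6] :=
  good_mk4 b5_44646_S b5_44646_S2 b5_44646_q b5_44646_M b5_44646_C b5_44646_T 5 [4, 4, 6, 4, 6] rfl rfl b5_44646_okF b5_44646_okI b5_44646_okS b5_44646_okZ b5_44646_okM b5_44646_okC (runG4_of _ _ _ _ 0 _ rfl b5_44646_okG) b5_44646_okE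

noncomputable def b5_45456_F : Code := ⟨5, [4, 5, 4, 5, 6], [(0, 2), (1, 2), (1, 3), (2, 2), (3, 2), (3, 3), (4,
  2), (4, 3), (4, 4)], 14, 4,
  9029771792094920479672234460141066612117804328445555880063805983118540233123570850662533,
  5847076985135676438590959838284962370973713039360, 84496278⟩

noncomputable def b5_45456_S : Tri' := (.node (.node (.leaf [⟨2093187816286, 12, 8976⟩, ⟨2093505959853, 12,
  8976⟩]) (.leaf [⟨3010565356909, 6, 12576⟩, ⟨3691988839275, 10, 4656⟩])) (.node (.leaf
  [⟨3674050582430, 9, 531⟩, ⟨3012625546485, 5, 12306⟩]) (.node (.leaf [⟨3122270787486, 3, 12801⟩,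
  ⟨3142269233907, 3, 12801⟩]) (.node (.leaf []) (.leaf [⟨2091478636446, 15, 291⟩, ⟨3560317828446,
  15, 8961⟩, ⟨2111756156149, 15, 8961⟩, ⟨2111477082867, 15, 291⟩, ⟨3560356898731, 15, 8961⟩])))))

noncomputable def b5_45456_S2 : Tri2 := (.node (.node (.leaf [⟨2093187816286, 1605993230278056097419604, 12, 8976,
  .nil⟩, ⟨2093505959853, 1605993450672122118882385, 12, 8976, .nil⟩]) (.leaf [⟨3010565356909,
  5163028431680402936108113, 6, 12576, (tB 4 785)⟩, ⟨3691988839275, 6126186856863530641331269, 10,
  4656, (tB 4 2129)⟩])) (.node (.leaf [⟨3012625546485, 5163042216865641574454545, 5, 12306, (tB 4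
  778)⟩, ⟨3674050582430, 6125298174726639707308372, 9, 531, (tB 4 2122)⟩]) (.node (.leaf
  [⟨3122270787486, 5218590028222150902890836, 3, 12801, .nil⟩, ⟨3142269233907,
  5219492495544280475260165, 3, 12801, .nil⟩]) (.node (.leaf []) (.leaf [⟨2091478636446,
  1605979668826872314413396, 15, 291, .nil⟩, ⟨2111477082867, 1606882136149001886782725, 15, 291,
  .nil⟩, ⟨2111756156149, 1606882353100428034462993, 15, 8961, .nil⟩, ⟨3560317828446,
  6069722796339641936056660, 15, 8961, .nil⟩])))))

noncomputable def b5_45456_q : List ℕ := [44, 62, 74, 80]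

noncomputable def b5_45456_M : ℕ := 6447604371278022265099605

noncomputable def b5_45456_C : Cert := ⟨1, 1, 2, [0, 0, 0, 0], [0, 0, 0, 0], 0⟩

noncomputable def b5_45456_T : TT := (tT 1 4 38994593059)

theorem b5_45456_okF : okCode b5_45456_F = true := by decide +kernel

theorem b5_45456_okI : okIdx b5_45456_F = true := by decide +kernel

theorem b5_45456_okS : Tri'.all (okSyR b5_45456_F) b5_45456_S = true := by decide +kernel

theorem b5_45456_okZ : Tri2.all (okSzR b5_45456_F b5_45456_S) b5_45456_S2 = true := by decide +kernel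

theorem b5_45456_okM : okM b5_45456_F b5_45456_M = true := by decide +kernel

theorem b5_45456_okC : okCert b5_45456_C b5_45456_F.k = true := by decide +kernel

theorem b5_45456_okG : runG5 b5_45456_F b5_45456_S b5_45456_C b5_45456_T [[]] = true := by decide +kernel

theorem b5_45456_okE : enumR b5_45456_F (okG2R b5_45456_F b5_45456_S b5_45456_S2 b5_45456_q b5_45456_M b5_45456_T) (Nat.pred b5_45456_F.n) 1 36 = true := by decide +kernel

theorem b5_45456_good : Good 5 [4, 5, 4, 5, 6] :=
  good_mk4 b5_45456_S b5_45456_S2 b5_45456_q b5_45456_M b5_45456_C b5_45456_T 5 [4, 5, 4, 5, 6] rfl rfl b5_45456_okF b5_45456_okI b5_45456_okS b5_45456_okZ b5_45456_okM b5_45456_okC (runG4_of _ _ _ _ 0 _ rfl b5_45456_okG) b5_45456_okE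

noncomputable def b5_44565_F : Code := ⟨5, [4, 4, 5, 6, 5], [(0, 2), (1, 2), (2, 2), (2, 3), (3, 2), (3, 3), (3,
  4), (4, 2), (4, 3)], 14, 4,
  9029769416968548972041866623422006449817994453137865062540596454538669349927668573997189,
  5846006810703004765228247178897981813647390801920, 84447129⟩

noncomputable def b5_44565_S : Tri' := (.node (.node (.leaf [⟨3699534392171, 12, 8976⟩]) (.node (.leaf
  [⟨2108651584877, 10, 4656⟩]) (.leaf [⟨2987644115806, 6, 12576⟩, ⟨2987648473845, 6, 12576⟩])))
  (.node (.node (.node (.leaf []) (.leaf [⟨3553795692446, 9, 531⟩, ⟨2110682250590, 9, 531⟩,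
  ⟨2110686608629, 9, 531⟩, ⟨2110369786611, 9, 531⟩])) (.leaf [⟨3150063713645, 5, 12306⟩])) (.node
  (.leaf [⟨3001977526189, 3, 12801⟩]) (.node (.leaf []) (.leaf [⟨3537689565086, 15, 8961⟩,
  ⟨2094576123230, 15, 8961⟩, ⟨2094580481269, 15, 8961⟩, ⟨2094575500653, 15, 291⟩, ⟨2094263659251,
  15, 8961⟩])))))

noncomputable def b5_44565_S2 : Tri2 := (.node (.node (.leaf []) (.node (.leaf [⟨2108651584877,
  1606865112475598737970257, 10, 4656, (tB 4 2129)⟩]) (.leaf [⟨2987644115806,
  5161938653968335926268244, 6, 12576, .nil⟩, ⟨2987648473845, 5161938654021302536656145, 6, 12576,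
  .nil⟩]))) (.node (.node (.node (.leaf []) (.leaf [⟨2110682250590, 1606878894335724161667412, 9,
  531, .nil⟩, ⟨2110686608629, 1606878894388690772055313, 9, 531, .nil⟩, ⟨3553795692446,
  6069515220700518581354836, 9, 531, .nil⟩])) (.leaf [])) (.node (.leaf [⟨3001977526189,
  5162807070764712758428753, 3, 12801, (tB 4 610)⟩]) (.leaf [⟨2094576123230,
  1605996909384699923730772, 15, 8961, .nil⟩, ⟨3537689565086, 6068633235749494343418196, 15, 8961,
  .nil⟩]))))

noncomputable def b5_44565_q : List ℕ := [50, 62, 68, 80]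

noncomputable def b5_44565_M : ℕ := 6447604371278022265099605

noncomputable def b5_44565_C : Cert := ⟨1, 1, 2, [0, 0, 0, 0], [0, 0, 0, 0], 0⟩

noncomputable def b5_44565_T : TT := .nil

theorem b5_44565_okF : okCode b5_44565_F = true := by decide +kernel

theorem b5_44565_okI : okIdx b5_44565_F = true := by decide +kernel

theorem b5_44565_okS : Tri'.all (okSyR b5_44565_F) b5_44565_S = true := by decide +kernel

theorem b5_44565_okZ : Tri2.all (okSzR b5_44565_F b5_44565_S) b5_44565_S2 = true := by decide +kernel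

theorem b5_44565_okM : okM b5_44565_F b5_44565_M = true := by decide +kernel

theorem b5_44565_okC : okCert b5_44565_C b5_44565_F.k = true := by decide +kernel

theorem b5_44565_okG : runG5 b5_44565_F b5_44565_S b5_44565_C b5_44565_T [[]] = true := by decide +kernel

theorem b5_44565_okE : enumR b5_44565_F (okG2R b5_44565_F b5_44565_S b5_44565_S2 b5_44565_q b5_44565_M b5_44565_T) (Nat.pred b5_44565_F.n) 1 36 = true := by decide +kernel

theorem b5_44565_good : Good 5 [4, 4, 5, 6, 5] :=
  good_mk4 b5_44565_S b5_44565_S2 b5_44565_q b5_44565_M b5_44565_C b5_44565_T 5 [4, 4, 5, 6, 5] rfl rfl b5_44565_okF b5_44565_okI b5_44565_okS b5_44565_okZ b5_44565_okM b5_44565_okC (runG4_of _ _ _ _ 0 _ rfl b5_44565_okG) b5_44565_okE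

noncomputable def b6_444466_F : Code := ⟨6, [4, 4, 4, 4, 6, 6], [(0, 2), (1, 2), (2, 2), (3, 2), (4, 2), (4, 3),
  (4, 4), (5, 2), (5, 3), (5, 4)], 16, 4,
  46326575591807555084451421801840520207549633558749782401756904059830981006540111985017919318903736837,
  98097673548250120028632008317619995045969086019692134400, 97178274⟩

noncomputable def b6_444466_S : Tri' := (.node (.node (.node (.leaf []) (.node (.leaf []) (.leaf
  [⟨133980896287582, 12, 8976⟩, ⟨133980931152629, 12, 8976⟩, ⟨133981210073005, 12, 8976⟩,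
  ⟨133983441436013, 12, 8976⟩]))) (.leaf [⟨236306782611358, 10, 4656⟩, ⟨236304192723819, 10,
  4656⟩])) (.node (.leaf [⟨192790804687725, 5, 12306⟩, ⟨192791128521971, 5, 12306⟩]) (.node (.node
  (.leaf [⟨199822744935262, 3, 12801⟩, ⟨199822779800309, 3, 12801⟩, ⟨199823058720685, 3, 12801⟩,
  ⟨199825290083693, 3, 12801⟩]) (.leaf [])) (.node (.leaf []) (.leaf [⟨227862876907422, 15, 8961⟩,
  ⟨133852047268702, 15, 291⟩, ⟨133852082133749, 15, 291⟩, ⟨133852361054125, 15, 291⟩,
  ⟨133854592417133, 15, 291⟩, ⟨135135163706221, 15, 8961⟩, ⟨135135487540467, 15, 8961⟩,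
  ⟨227860287019883, 15, 8961⟩])))))

noncomputable def b6_444466_S2 : Tri2 := (.node (.leaf [⟨133980896287582, 6578149156443069843276894548, 12, 8976,
  .nil⟩, ⟨236306782611358, 25092862265049228970625941844, 10, 4656, .nil⟩]) (.node (.leaf []) (.node
  (.leaf [⟨199822744935262, 21375344741489265390452543828, 3, 12801, .nil⟩]) (.leaf
  [⟨133852047268702, 6578092709406204292048949588, 15, 291, .nil⟩, ⟨227862876907422,
  24861584587911616980799799636, 15, 8961, .nil⟩]))))

noncomputable def b6_444466_q : List ℕ := [68, 74, 86, 92]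

noncomputable def b6_444466_M : ℕ := 26409387504754779197847983445

noncomputable def b6_444466_C : Cert := ⟨1, 1, 2, [0, 0, 0, 0], [0, 0, 0, 0], 0⟩

noncomputable def b6_444466_T : TT := .nil

theorem b6_444466_okF : okCode b6_444466_F = true := by decide +kernel

theorem b6_444466_okI : okIdx b6_444466_F = true := by decide +kernel

theorem b6_444466_okS : Tri'.all (okSyR b6_444466_F) b6_444466_S = true := by decide +kernel

theorem b6_444466_okZ : Tri2.all (okSzR b6_444466_F b6_444466_S) b6_444466_S2 = true := by decide +kernel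

theorem b6_444466_okM : okM b6_444466_F b6_444466_M = true := by decide +kernel

theorem b6_444466_okC : okCert b6_444466_C b6_444466_F.k = true := by decide +kernel

theorem b6_444466_okG : runG5 b6_444466_F b6_444466_S b6_444466_C b6_444466_T [[]] = true := by decide +kernel

theorem b6_444466_okE : enumR b6_444466_F (okG2R b6_444466_F b6_444466_S b6_444466_S2 b6_444466_q b6_444466_M b6_444466_T) (Nat.pred b6_444466_F.n) 1 36 = true := by decide +kernel

theorem b6_444466_good : Good 6 [4, 4, 4, 4, 6, 6] :=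
  good_mk4 b6_444466_S b6_444466_S2 b6_444466_q b6_444466_M b6_444466_C b6_444466_T 6 [4, 4, 4, 4, 6, 6] rfl rfl b6_444466_okF b6_444466_okI b6_444466_okS b6_444466_okZ b6_444466_okM b6_444466_okC (runG4_of _ _ _ _ 0 _ rfl b6_444466_okG) b6_444466_okE

noncomputable def b6_444565_F : Code := ⟨6, [4, 4, 4, 5, 6, 5], [(0, 2), (1, 2), (2, 2), (3, 2), (3, 3), (4, 2),
  (4, 3), (4, 4), (5, 2), (5, 3)], 16, 4,
  46326563581448419604184029485983375787775719389730577961227512309304652820831164607876746196178684421,
  98079719000635422795263592221762082851634023320225054720, 97129119⟩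

noncomputable def b6_444565_S : Tri' := (.node (.node (.leaf [⟨236770196675435, 12, 8976⟩]) (.node (.leaf
  [⟨134953701337965, 10, 4656⟩, ⟨134954025172211, 10, 4656⟩]) (.node (.leaf [⟨191209188023134, 6,
  12576⟩, ⟨191209222888181, 6, 12576⟩, ⟨191209501808557, 6, 12576⟩]) (.leaf [])))) (.node (.node
  (.node (.leaf []) (.leaf [⟨135083629079390, 9, 531⟩, ⟨135083663944437, 9, 531⟩, ⟨135083942864813,
  9, 531⟩])) (.leaf [⟨201604077579117, 5, 12306⟩, ⟨201604401413363, 5, 12306⟩])) (.node (.leaf
  [⟨192126561205613, 3, 12801⟩]) (.node (.leaf []) (.leaf [⟨236656822445982, 15, 291⟩,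
  ⟨134052836928350, 15, 8961⟩, ⟨134052871793397, 15, 8961⟩, ⟨134053150713773, 15, 8961⟩,
  ⟨134052831947629, 15, 291⟩, ⟨134053155781875, 15, 291⟩])))))

noncomputable def b6_444565_S2 : Tri2 := (.node (.leaf [⟨191209188023134, 21143300726650913266296230228, 6, 12576,
  .nil⟩, ⟨191209501808557, 21143300726871254365707256913, 6, 12576, .nil⟩]) (.node (.leaf
  [⟨135083629079390, 6581775951195736287069147476, 9, 531, .nil⟩, ⟨135083942864813,
  6581775951416077386480174161, 9, 531, .nil⟩]) (.leaf [⟨134052836928350,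
  6578163340836341008480670036, 15, 8961, .nil⟩, ⟨236656822445982, 25093698331442567727061221716,
  15, 291, .nil⟩])))

noncomputable def b6_444565_q : List ℕ := [62, 74, 80, 92]

noncomputable def b6_444565_M : ℕ := 26409387504754779197847983445

noncomputable def b6_444565_C : Cert := ⟨1, 1, 2, [0, 0, 0, 0], [0, 0, 0, 0], 0⟩

noncomputable def b6_444565_T : TT := .nil

theorem b6_444565_okF : okCode b6_444565_F = true := by decide +kernel

theorem b6_444565_okI : okIdx b6_444565_F = true := by decide +kernel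

theorem b6_444565_okS : Tri'.all (okSyR b6_444565_F) b6_444565_S = true := by decide +kernel

theorem b6_444565_okZ : Tri2.all (okSzR b6_444565_F b6_444565_S) b6_444565_S2 = true := by decide +kernel

theorem b6_444565_okM : okM b6_444565_F b6_444565_M = true := by decide +kernel

theorem b6_444565_okC : okCert b6_444565_C b6_444565_F.k = true := by decide +kernel

theorem b6_444565_okG : runG5 b6_444565_F b6_444565_S b6_444565_C b6_444565_T [[]] = true := by decide +kernel

theorem b6_444565_okE : enumR b6_444565_F (okG2R b6_444565_F b6_444565_S b6_444565_S2 b6_444565_q b6_444565_M b6_444565_T) (Nat.pred b6_444565_F.n) 1 36 = true := by decide +kernel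

theorem b6_444565_good : Good 6 [4, 4, 4, 5, 6, 5] :=
  good_mk4 b6_444565_S b6_444565_S2 b6_444565_q b6_444565_M b6_444565_C b6_444565_T 6 [4, 4, 4, 5, 6, 5] rfl rfl b6_444565_okF b6_444565_okI b6_444565_okS b6_444565_okZ b6_444565_okM b6_444565_okC (runG4_of _ _ _ _ 0 _ rfl b6_444565_okG) b6_444565_okE

noncomputable def b5_44556_F : Code := ⟨5, [4, 4, 5, 5, 6], [(0, 2), (1, 2), (2, 2), (2, 3), (3, 2), (3, 3), (4,
  2), (4, 3), (4, 4)], 14, 4,
  9029771792094920479672234460141152623397791224989994714311090895269548176581828639131781,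
  5847076985135676439858300953503370427401691463680, 84496281⟩

noncomputable def b5_44556_S : Tri' := (.node (.node (.leaf [⟨2093217176414, 12, 8976⟩, ⟨2093221534453, 12,
  8976⟩]) (.leaf [⟨3010594717037, 6, 12576⟩, ⟨3692018199403, 10, 4656⟩])) (.node (.node (.leaf
  [⟨3674054776734, 9, 531⟩]) (.node (.leaf [⟨3012625382750, 5, 12306⟩, ⟨3012629740789, 5, 12306⟩,
  ⟨3012312918771, 5, 12306⟩]) (.leaf []))) (.node (.leaf [⟨3122236610477, 3, 12801⟩, ⟨3142547520877,
  3, 12801⟩]) (.node (.leaf []) (.leaf [⟨2111755992414, 15, 8961⟩, ⟨2111760350453, 15, 8961⟩,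
  ⟨2091444459437, 15, 291⟩, ⟨2111755369837, 15, 291⟩, ⟨2111443528435, 15, 8961⟩])))))

noncomputable def b5_44556_S2 : Tri2 := (.node (.leaf [⟨2093217176414, 1605993233602979259814228, 12, 8976, .nil⟩,
  ⟨3010594717037, 5163028435005326098502737, 6, 12576, (tB 4 785)⟩]) (.node (.leaf [⟨3012625382750,
  5163042216865451522199892, 5, 12306, .nil⟩, ⟨3674054776734, 6125298174779416265441620, 9, 531, (tB
  4 2122)⟩]) (.node (.leaf [⟨3122236610477, 5218590024843610442515537, 3, 12801, .nil⟩]) (.node
  (.leaf []) (.leaf [⟨2091444459437, 1605979665448331854038097, 15, 291, .nil⟩, ⟨2111443528435,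
  1606882132771302166254853, 15, 8961, .nil⟩, ⟨2111755992414, 1606882353100237982208340, 15, 8961,
  .nil⟩])))))

noncomputable def b5_44556_q : List ℕ := [50, 62, 74, 80]

noncomputable def b5_44556_M : ℕ := 6447604371278022265099605

noncomputable def b5_44556_C : Cert := ⟨1, 1, 2, [0, 0, 0, 0], [0, 0, 0, 0], 0⟩

noncomputable def b5_44556_T : TT := (tT 1 4 136451107)

theorem b5_44556_okF : okCode b5_44556_F = true := by decide +kernel

theorem b5_44556_okI : okIdx b5_44556_F = true := by decide +kernel

theorem b5_44556_okS : Tri'.all (okSyR b5_44556_F) b5_44556_S = true := by decide +kernel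

theorem b5_44556_okZ : Tri2.all (okSzR b5_44556_F b5_44556_S) b5_44556_S2 = true := by decide +kernel

theorem b5_44556_okM : okM b5_44556_F b5_44556_M = true := by decide +kernel

theorem b5_44556_okC : okCert b5_44556_C b5_44556_F.k = true := by decide +kernel

theorem b5_44556_okG : runG5 b5_44556_F b5_44556_S b5_44556_C b5_44556_T [[]] = true := by decide +kernel

theorem b5_44556_okE : enumR b5_44556_F (okG2R b5_44556_F b5_44556_S b5_44556_S2 b5_44556_q b5_44556_M b5_44556_T) (Nat.pred b5_44556_F.n) 1 36 = true := by decide +kernel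

theorem b5_44556_good : Good 5 [4, 4, 5, 5, 6] :=
  good_mk4 b5_44556_S b5_44556_S2 b5_44556_q b5_44556_M b5_44556_C b5_44556_T 5 [4, 4, 5, 5, 6] rfl rfl b5_44556_okF b5_44556_okI b5_44556_okS b5_44556_okZ b5_44556_okM b5_44556_okC (runG4_of _ _ _ _ 0 _ rfl b5_44556_okG) b5_44556_okE

noncomputable def b6_444556_F : Code := ⟨6, [4, 4, 4, 5, 5, 6], [(0, 2), (1, 2), (2, 2), (3, 2), (3, 3), (4, 2),
  (4, 3), (5, 2), (5, 3), (5, 4)], 16, 4,
  46326575591807555084451420838909248183436343620583774299601878974961474083913664964023297443507718661,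
  98097673548250032937613724489932002388530496451515514880, 97178271⟩

noncomputable def b6_444556_S : Tri' := (.node (.node (.node (.leaf []) (.node (.leaf []) (.leaf
  [⟨133965863902046, 12, 8976⟩, ⟨133965898767093, 12, 8976⟩, ⟨133966177687469, 12, 8976⟩]))) (.node
  (.leaf [⟨236289160338283, 10, 4656⟩]) (.leaf [⟨192678061796205, 6, 12576⟩, ⟨192678385630451, 6,
  12576⟩]))) (.node (.node (.leaf []) (.node (.leaf [⟨192807989537630, 5, 12306⟩, ⟨192808024402677,
  5, 12306⟩, ⟨192808303323053, 5, 12306⟩]) (.leaf []))) (.node (.node (.leaf [⟨199823142600045, 3,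
  12801⟩, ⟨201123041241965, 3, 12801⟩, ⟨201123365076211, 3, 12801⟩]) (.leaf [])) (.node (.leaf [])
  (.leaf [⟨227860729423774, 15, 8961⟩, ⟨135152348556126, 15, 8961⟩, ⟨135152383421173, 15, 8961⟩,
  ⟨135152662341549, 15, 8961⟩, ⟨133852444933485, 15, 291⟩, ⟨135152343575405, 15, 291⟩,
  ⟨135152667409651, 15, 291⟩])))))

noncomputable def b6_444556_S2 : Tri2 := (.node (.leaf [⟨133965863902046, 6578148284834412360500580692, 12, 8976,
  .nil⟩]) (.node (.leaf [⟨192807989537630, 21147820920277499555810185556, 5, 12306, .nil⟩]) (.leaf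
  [⟨135152348556126, 6581790118295184896004788564, 15, 8961, .nil⟩, ⟨227860729423774,
  24861584574076558925517635924, 15, 8961, .nil⟩])))

noncomputable def b6_444556_q : List ℕ := [62, 74, 86, 92]

noncomputable def b6_444556_M : ℕ := 26409387504754779197847983445

noncomputable def b6_444556_C : Cert := ⟨1, 1, 2, [0, 0, 0, 0], [0, 0, 0, 0], 0⟩

noncomputable def b6_444556_T : TT := .nil

theorem b6_444556_okF : okCode b6_444556_F = true := by decide +kernel

theorem b6_444556_okI : okIdx b6_444556_F = true := by decide +kernel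

theorem b6_444556_okS : Tri'.all (okSyR b6_444556_F) b6_444556_S = true := by decide +kernel

theorem b6_444556_okZ : Tri2.all (okSzR b6_444556_F b6_444556_S) b6_444556_S2 = true := by decide +kernel

theorem b6_444556_okM : okM b6_444556_F b6_444556_M = true := by decide +kernel

theorem b6_444556_okC : okCert b6_444556_C b6_444556_F.k = true := by decide +kernel

theorem b6_444556_okG : runG5 b6_444556_F b6_444556_S b6_444556_C b6_444556_T [[]] = true := by decide +kernel

theorem b6_444556_okE : enumR b6_444556_F (okG2R b6_444556_F b6_444556_S b6_444556_S2 b6_444556_q b6_444556_M b6_444556_T) (Nat.pred b6_444556_F.n) 1 36 = true := by decide +kernel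

theorem b6_444556_good : Good 6 [4, 4, 4, 5, 5, 6] :=
  good_mk4 b6_444556_S b6_444556_S2 b6_444556_q b6_444556_M b6_444556_C b6_444556_T 6 [4, 4, 4, 5, 5, 6] rfl rfl b6_444556_okF b6_444556_okI b6_444556_okS b6_444556_okZ b6_444556_okM b6_444556_okC (runG4_of _ _ _ _ 0 _ rfl b6_444556_okG) b6_444556_okE

noncomputable def b4_5555_F : Code := ⟨4, [5, 5, 5, 5], [(0, 2), (0, 3), (1, 2), (1, 3), (2, 2), (2, 3), (3, 2),
  (3, 3)], 12, 4, 1711236518933353811594541077857053578259275315385530623399303092181068302085,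
  348449159303932181161016573035830795304960, 71764752⟩

noncomputable def b4_5555_S : Tri' := (.node (.node (.leaf [⟨32727021485, 12, 8976⟩, ⟨57775414635, 12, 8976⟩])
  (.leaf [⟨46682258165, 6, 12576⟩, ⟨49221121965, 6, 12576⟩])) (.node (.leaf [⟨55494269790, 9, 531⟩,
  ⟨32945073515, 9, 531⟩]) (.node (.leaf [⟨46900308830, 3, 12801⟩, ⟨46939978485, 3, 12801⟩]) (.node
  (.leaf []) (.leaf [⟨32723560350, 15, 8961⟩, ⟨57811621790, 15, 291⟩, ⟨32723561715, 15, 291⟩,
  ⟨57811623155, 15, 8961⟩])))))

noncomputable def b4_5555_S2 : Tri2 := (.node (.node (.leaf [⟨32727021485, 392089088187136558161, 12, 8976, .nil⟩,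
  ⟨57775414635, 1495700961949085930565, 12, 8976, .nil⟩]) (.leaf [⟨46682258165,
  1260238929410329433361, 6, 12576, .nil⟩, ⟨49221121965, 1274343423958226125905, 6, 12576, .nil⟩]))
  (.node (.leaf [⟨32945073515, 392301038831970358341, 9, 531, .nil⟩, ⟨55494269790,
  1481811861526129480020, 9, 531, .nil⟩]) (.node (.leaf [⟨46900308830, 1260450880055159361876, 3,
  12801, .nil⟩, ⟨46939978485, 1260454323535273547025, 3, 12801, .nil⟩]) (.node (.leaf []) (.leaf
  [⟨32723560350, 392089036428737331540, 15, 8961, .nil⟩, ⟨32723561715, 392089036428741203205, 15,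
  291, .nil⟩, ⟨57811621790, 1495704353670797017428, 15, 291, .nil⟩, ⟨57811623155,
  1495704353670800889093, 15, 8961, .nil⟩])))))

noncomputable def b4_5555_q : List ℕ := [32, 44, 56, 68]

noncomputable def b4_5555_M : ℕ := 1574122160956548404565

noncomputable def b4_5555_C : Cert := ⟨1, 1, 2, [0, 0, 0, 0], [0, 0, 0, 0], 0⟩

noncomputable def b4_5555_T : TT := .nil

theorem b4_5555_okF : okCode b4_5555_F = true := by decide +kernel

theorem b4_5555_okI : okIdx b4_5555_F = true := by decide +kernel

theorem b4_5555_okS : Tri'.all (okSyR b4_5555_F) b4_5555_S = true := by decide +kernel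

theorem b4_5555_okZ : Tri2.all (okSzR b4_5555_F b4_5555_S) b4_5555_S2 = true := by decide +kernel

theorem b4_5555_okM : okM b4_5555_F b4_5555_M = true := by decide +kernel

theorem b4_5555_okC : okCert b4_5555_C b4_5555_F.k = true := by decide +kernel

theorem b4_5555_okG : runG5 b4_5555_F b4_5555_S b4_5555_C b4_5555_T [[]] = true := by decide +kernel

theorem b4_5555_okE : enumR b4_5555_F (okG2R b4_5555_F b4_5555_S b4_5555_S2 b4_5555_q b4_5555_M b4_5555_T) (Nat.pred b4_5555_F.n) 1 36 = true := by decide +kernel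

theorem b4_5555_good : Good 4 [5, 5, 5, 5] :=
  good_mk4 b4_5555_S b4_5555_S2 b4_5555_q b4_5555_M b4_5555_C b4_5555_T 4 [5, 5, 5, 5] rfl rfl b4_5555_okF b4_5555_okI b4_5555_okS b4_5555_okZ b4_5555_okM b4_5555_okC (runG4_of _ _ _ _ 0 _ rfl b4_5555_okG) b4_5555_okE

noncomputable def b5_45546_F : Code := ⟨5, [4, 5, 5, 4, 6], [(0, 2), (1, 2), (1, 3), (2, 2), (2, 3), (3, 2), (4,
  2), (4, 3), (4, 4)], 14, 4,
  9029771792094920479213073048844168108843761241391229333831167859166329593636783711783045,
  5847076985093151527319559600007297606037400453120, 84495894⟩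

noncomputable def b5_45546_S : Tri' := (.node (.node (.leaf [⟨2091308768094, 12, 8976⟩, ⟨2111709232493, 12,
  8976⟩]) (.leaf [⟨3012713463134, 6, 12576⟩, ⟨3010213669619, 6, 12576⟩])) (.node (.leaf
  [⟨3692253855070, 9, 531⟩, ⟨3692292925355, 9, 531⟩]) (.node (.leaf [⟨3121878784757, 3, 12801⟩,
  ⟨3124417648557, 3, 12801⟩]) (.node (.leaf []) (.leaf [⟨2093626120094, 15, 8961⟩, ⟨2111487720693,
  15, 8961⟩, ⟨2091086633717, 15, 291⟩, ⟨2093625497517, 15, 291⟩])))))

noncomputable def b5_45546_S2 : Tri2 := (.node (.node (.leaf [⟨2091308768094, 1605979611392782929039700, 12, 8976,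
  .nil⟩]) (.leaf [⟨3010213669619, 5163028165687390935209221, 6, 12576, .nil⟩, ⟨3012713463134,
  5163042266739298958119252, 6, 12576, .nil⟩])) (.node (.leaf [⟨3692253855070,
  6126187072984566738260308, 9, 531, .nil⟩, ⟨3692292925355, 6126187076427206612042821, 9, 531,
  .nil⟩]) (.node (.leaf []) (.node (.leaf []) (.leaf [⟨2091086633717, 1605979399389538960037137, 15,
  291, .nil⟩, ⟨2093625497517, 1605993503884086856729681, 15, 291, .nil⟩, ⟨2093626120094,
  1605993503884927596577108, 15, 8961, .nil⟩])))))

noncomputable def b5_45546_q : List ℕ := [44, 56, 74, 80]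

noncomputable def b5_45546_M : ℕ := 6447604371278022265099605

noncomputable def b5_45546_C : Cert := ⟨1, 1, 2, [0, 0, 0, 0], [0, 0, 0, 0], 0⟩

noncomputable def b5_45546_T : TT := .nil

theorem b5_45546_okF : okCode b5_45546_F = true := by decide +kernel

theorem b5_45546_okI : okIdx b5_45546_F = true := by decide +kernel

theorem b5_45546_okS : Tri'.all (okSyR b5_45546_F) b5_45546_S = true := by decide +kernel

theorem b5_45546_okZ : Tri2.all (okSzR b5_45546_F b5_45546_S) b5_45546_S2 = true := by decide +kernel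

theorem b5_45546_okM : okM b5_45546_F b5_45546_M = true := by decide +kernel

theorem b5_45546_okC : okCert b5_45546_C b5_45546_F.k = true := by decide +kernel

theorem b5_45546_okG : runG5 b5_45546_F b5_45546_S b5_45546_C b5_45546_T [[]] = true := by decide +kernel

theorem b5_45546_okE : enumR b5_45546_F (okG2R b5_45546_F b5_45546_S b5_45546_S2 b5_45546_q b5_45546_M b5_45546_T) (Nat.pred b5_45546_F.n) 1 36 = true := by decide +kernel

theorem b5_45546_good : Good 5 [4, 5, 5, 4, 6] :=
  good_mk4 b5_45546_S b5_45546_S2 b5_45546_q b5_45546_M b5_45546_C b5_45546_T 5 [4, 5, 5, 4, 6] rfl rfl b5_45546_okF b5_45546_okI b5_45546_okS b5_45546_okZ b5_45546_okM b5_45546_okC (runG4_of _ _ _ _ 0 _ rfl b5_45546_okG) b5_45546_okE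

noncomputable def b4_4646_F : Code := ⟨4, [4, 6, 4, 6], [(0, 2), (1, 2), (1, 3), (1, 4), (2, 2), (3, 2), (3, 3),
  (3, 4)], 12, 4, 1711236978094765108493044351900156007898950863101413766416302439583537317637,
  348512946670839281593972487165075878051840, 71813907⟩

noncomputable def b4_4646_S : Tri' := (.node (.node (.node (.leaf []) (.node (.leaf []) (.leaf [⟨32677227358, 12,
  8976⟩, ⟨32995915693, 12, 8976⟩, ⟨32995994867, 12, 8976⟩]))) (.leaf [⟨47074174878, 6, 12576⟩]))
  (.node (.leaf [⟨57691559838, 9, 531⟩]) (.node (.node (.leaf [⟨48779422558, 3, 12801⟩,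
  ⟨49098110893, 3, 12801⟩, ⟨49098190067, 3, 12801⟩]) (.leaf [])) (.node (.leaf []) (.leaf
  [⟨32992061342, 15, 8961⟩, ⟨32673295198, 15, 291⟩, ⟨32712375029, 15, 8961⟩, ⟨32991983533, 15, 291⟩,
  ⟨32992062707, 15, 291⟩, ⟨55624457579, 15, 8961⟩])))))

noncomputable def b4_4646_S2 : Tri2 := (.node (.node (.leaf [⟨32677227358, 392084866887374410068, 12, 8976, .nil⟩,
  ⟨32995915693, 392305261780999160913, 12, 8976, .nil⟩]) (.leaf [⟨47074174878,
  1260508366727829340500, 6, 12576, (tB 4 785)⟩])) (.node (.leaf [⟨57691559838,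
  1495651140881425449300, 9, 531, (tB 4 2122)⟩]) (.node (.leaf [⟨48779422558,
  1274069765341212643668, 3, 12801, .nil⟩, ⟨49098110893, 1274290160234837394513, 3, 12801, .nil⟩])
  (.leaf [⟨32673295198, 392084814316974707028, 15, 291, .nil⟩, ⟨32992061342, 392305209223736017236,
  15, 8961, .nil⟩]))))

noncomputable def b4_4646_q : List ℕ := [38, 44, 62, 68]

noncomputable def b4_4646_M : ℕ := 1574122160956548404565

noncomputable def b4_4646_C : Cert := ⟨1, 1, 2, [0, 0, 0, 0], [0, 0, 0, 0], 0⟩

noncomputable def b4_4646_T : TT := .nil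

theorem b4_4646_okF : okCode b4_4646_F = true := by decide +kernel

theorem b4_4646_okI : okIdx b4_4646_F = true := by decide +kernel

theorem b4_4646_okS : Tri'.all (okSyR b4_4646_F) b4_4646_S = true := by decide +kernel

theorem b4_4646_okZ : Tri2.all (okSzR b4_4646_F b4_4646_S) b4_4646_S2 = true := by decide +kernel

theorem b4_4646_okM : okM b4_4646_F b4_4646_M = true := by decide +kernel

theorem b4_4646_okC : okCert b4_4646_C b4_4646_F.k = true := by decide +kernel

theorem b4_4646_okG : runG5 b4_4646_F b4_4646_S b4_4646_C b4_4646_T [[]] = true := by decide +kernel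

theorem b4_4646_okE : enumR b4_4646_F (okG2R b4_4646_F b4_4646_S b4_4646_S2 b4_4646_q b4_4646_M b4_4646_T) (Nat.pred b4_4646_F.n) 1 36 = true := by decide +kernel

theorem b4_4646_good : Good 4 [4, 6, 4, 6] :=
  good_mk4 b4_4646_S b4_4646_S2 b4_4646_q b4_4646_M b4_4646_C b4_4646_T 4 [4, 6, 4, 6] rfl rfl b4_4646_okF b4_4646_okI b4_4646_okS b4_4646_okZ b4_4646_okM b4_4646_okC (runG4_of _ _ _ _ 0 _ rfl b4_4646_okG) b4_4646_okE

noncomputable def b4_4556_F : Code := ⟨4, [4, 5, 5, 6], [(0, 2), (1, 2), (1, 3), (2, 2), (2, 3), (3, 2), (3, 3),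
  (3, 4)], 12, 4, 1711236978094765108579055631887052552337785110386325917424245897841325786885,
  348512946673373963824409303277931834900480, 71814291⟩

noncomputable def b4_4556_S : Tri' := (.node (.node (.leaf [⟨32706587486, 12, 8976⟩]) (.node (.leaf [⟨57687793003,
  10, 4656⟩]) (.leaf [⟨47040542637, 6, 12576⟩, ⟨47040621811, 6, 12576⟩]))) (.node (.leaf
  [⟨47072339870, 5, 12306⟩]) (.node (.node (.leaf [⟨48784947957, 3, 12801⟩, ⟨49102305197, 3, 12801⟩,
  ⟨49102384371, 3, 12801⟩]) (.leaf [])) (.node (.leaf []) (.leaf [⟨32996255646, 15, 8961⟩,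
  ⟨55630059422, 15, 8961⟩, ⟨32678820597, 15, 291⟩, ⟨32996177837, 15, 291⟩, ⟨32996257011, 15,
  291⟩])))))

noncomputable def b4_4556_S2 : Tri2 := (.node (.leaf [⟨32706587486, 392088191810536804692, 12, 8976, (tB 4 2185)⟩,
  ⟨57687793003, 1495651088913398830149, 10, 4656, (tB 4 2129)⟩]) (.node (.leaf [⟨47072339870,
  1260508353739848237396, 5, 12306, (tB 4 778)⟩]) (.node (.leaf [⟨48784947957,
  1274069830284087678225, 3, 12801, .nil⟩, ⟨49102305197, 1274290213011395527761, 3, 12801, .nil⟩])
  (.node (.leaf []) (.leaf [⟨32678820597, 392084879259849741585, 15, 291, .nil⟩, ⟨32996255646,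
  392305262000294150484, 15, 8961, .nil⟩, ⟨55630059422, 1481865917091160605012, 15, 8961,
  .nil⟩])))))

noncomputable def b4_4556_q : List ℕ := [38, 50, 62, 68]

noncomputable def b4_4556_M : ℕ := 1574122160956548404565

noncomputable def b4_4556_C : Cert := ⟨1, 1, 2, [0, 0, 0, 0], [0, 0, 0, 0], 0⟩

noncomputable def b4_4556_T : TT := (tT 1 4 42090787)

theorem b4_4556_okF : okCode b4_4556_F = true := by decide +kernel

theorem b4_4556_okI : okIdx b4_4556_F = true := by decide +kernel

theorem b4_4556_okS : Tri'.all (okSyR b4_4556_F) b4_4556_S = true := by decide +kernel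

theorem b4_4556_okZ : Tri2.all (okSzR b4_4556_F b4_4556_S) b4_4556_S2 = true := by decide +kernel

theorem b4_4556_okM : okM b4_4556_F b4_4556_M = true := by decide +kernel

theorem b4_4556_okC : okCert b4_4556_C b4_4556_F.k = true := by decide +kernel

theorem b4_4556_okG : runG5 b4_4556_F b4_4556_S b4_4556_C b4_4556_T [[]] = true := by decide +kernel

theorem b4_4556_okE : enumR b4_4556_F (okG2R b4_4556_F b4_4556_S b4_4556_S2 b4_4556_q b4_4556_M b4_4556_T) (Nat.pred b4_4556_F.n) 1 36 = true := by decide +kernel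

theorem b4_4556_good : Good 4 [4, 5, 5, 6] :=
  good_mk4 b4_4556_S b4_4556_S2 b4_4556_q b4_4556_M b4_4556_C b4_4556_T 4 [4, 5, 5, 6] rfl rfl b4_4556_okF b4_4556_okI b4_4556_okS b4_4556_okZ b4_4556_okM b4_4556_okC (runG4_of _ _ _ _ 0 _ rfl b4_4556_okG) b4_4556_okE

noncomputable def b6_455455_F : Code := ⟨6, [4, 5, 5, 4, 5, 5], [(0, 2), (1, 2), (1, 3), (2, 2), (2, 3), (3, 2),
  (4, 2), (4, 3), (5, 2), (5, 3)], 16, 4,
  46326563581448419601808901981926776895310573996291190610753333398412637905618808595950483395079031301,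
  98079718999921798970178261481442194061599590213222400000, 97128345⟩

noncomputable def b6_455455_S : Tri' := (.node (.node (.leaf [⟨134034611891053, 12, 8976⟩, ⟨236632791276395, 12,
  8976⟩]) (.node (.leaf [⟨135089429014445, 10, 4656⟩, ⟨134926225332979, 10, 4656⟩]) (.leaf
  [⟨191227475180894, 6, 12576⟩, ⟨201609887562995, 6, 12576⟩]))) (.node (.node (.leaf
  [⟨135091464038302, 9, 531⟩, ⟨227450123894110, 9, 531⟩]) (.leaf [⟨201611912538029, 5, 12306⟩,
  ⟨201448708856563, 5, 12306⟩])) (.node (.leaf [⟨192100797700853, 3, 12801⟩, ⟨192121108617133, 3,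
  12801⟩]) (.node (.leaf []) (.leaf [⟨236794227845022, 15, 291⟩, ⟨134032839797493, 15, 8961⟩,
  ⟨134053155781875, 15, 291⟩, ⟨236651330099115, 15, 8961⟩])))))

noncomputable def b6_455455_S2 : Tri2 := (.node (.leaf [⟨191227475180894, 21143301615556771017695236436, 6, 12576,
  .nil⟩]) (.node (.leaf [⟨135091464038302, 6581776169318295564524536148, 9, 531, .nil⟩,
  ⟨227450123894110, 24860734561671106779935740244, 9, 531, .nil⟩]) (.leaf [⟨236794227845022,
  25093754999836984463083258196, 15, 291, .nil⟩])))

noncomputable def b6_455455_q : List ℕ := [50, 62, 80, 92]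

noncomputable def b6_455455_M : ℕ := 26409387504754779197847983445

noncomputable def b6_455455_C : Cert := ⟨1, 1, 2, [0, 0, 0, 0], [0, 0, 0, 0], 0⟩

noncomputable def b6_455455_T : TT := .nil

theorem b6_455455_okF : okCode b6_455455_F = true := by decide +kernel

theorem b6_455455_okI : okIdx b6_455455_F = true := by decide +kernel

theorem b6_455455_okS : Tri'.all (okSyR b6_455455_F) b6_455455_S = true := by decide +kernel

theorem b6_455455_okZ : Tri2.all (okSzR b6_455455_F b6_455455_S) b6_455455_S2 = true := by decide +kernel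

theorem b6_455455_okM : okM b6_455455_F b6_455455_M = true := by decide +kernel

theorem b6_455455_okC : okCert b6_455455_C b6_455455_F.k = true := by decide +kernel

theorem b6_455455_okG : runG5 b6_455455_F b6_455455_S b6_455455_C b6_455455_T [[]] = true := by decide +kernel

theorem b6_455455_okE : enumR b6_455455_F (okG2R b6_455455_F b6_455455_S b6_455455_S2 b6_455455_q b6_455455_M b6_455455_T) (Nat.pred b6_455455_F.n) 1 36 = true := by decide +kernel

theorem b6_455455_good : Good 6 [4, 5, 5, 4, 5, 5] :=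
  good_mk4 b6_455455_S b6_455455_S2 b6_455455_q b6_455455_M b6_455455_C b6_455455_T 6 [4, 5, 5, 4, 5, 5] rfl rfl b6_455455_okF b6_455455_okI b6_455455_okS b6_455455_okZ b6_455455_okM b6_455455_okC (runG4_of _ _ _ _ 0 _ rfl b6_455455_okG) b6_455455_okE

noncomputable def b5_45555_F : Code := ⟨5, [4, 5, 5, 5, 5], [(0, 2), (1, 2), (1, 3), (2, 2), (2, 3), (3, 2), (3,
  3), (4, 2), (4, 3)], 14, 4,
  9029769416968548971582705212125021935263964469539099682060673418435450766982623646648453,
  5846006810660479852689505825401908992283099791360, 84446742⟩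

noncomputable def b5_45555_S : Tri' := (.node (.node (.leaf [⟨2094529363309, 12, 8976⟩, ⟨3697625983851, 12,
  8976⟩]) (.node (.leaf [⟨2110770330974, 10, 4656⟩, ⟨2108270537459, 10, 4656⟩]) (.leaf
  [⟨2987664463789, 6, 12576⟩, ⟨3150151794029, 6, 12576⟩]))) (.node (.leaf [⟨2987918841758, 5,
  12306⟩, ⟨3147906378483, 5, 12306⟩]) (.node (.leaf [⟨3001619700469, 3, 12801⟩, ⟨3004158564269, 3,
  12801⟩]) (.node (.leaf []) (.leaf [⟨3537416935326, 15, 8961⟩, ⟨3699904265566, 15, 8961⟩,
  ⟨2094307851509, 15, 8961⟩, ⟨3699943335851, 15, 8961⟩])))))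

noncomputable def b5_45555_S2 : Tri2 := (.node (.node (.leaf []) (.node (.leaf [⟨2110770330974,
  1606878944209571597586772, 10, 4656, .nil⟩]) (.leaf [⟨2987664463789, 5161938654864696671552593, 6,
  12576, .nil⟩, ⟨3150151794029, 5219710664532893960836177, 6, 12576, .nil⟩]))) (.node (.leaf
  [⟨2987918841758, 5161938870207088734585172, 5, 12306, .nil⟩]) (.leaf [⟨3537416935326,
  6068633019523935671501140, 15, 8961, .nil⟩, ⟨3699904265566, 6126405029192132960784724, 15, 8961,
  .nil⟩])))

noncomputable def b5_45555_q : List ℕ := [44, 56, 68, 80]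

noncomputable def b5_45555_M : ℕ := 6447604371278022265099605

noncomputable def b5_45555_C : Cert := ⟨1, 1, 2, [0, 0, 0, 0], [0, 0, 0, 0], 0⟩

noncomputable def b5_45555_T : TT := .nil

theorem b5_45555_okF : okCode b5_45555_F = true := by decide +kernel

theorem b5_45555_okI : okIdx b5_45555_F = true := by decide +kernel

theorem b5_45555_okS : Tri'.all (okSyR b5_45555_F) b5_45555_S = true := by decide +kernel

theorem b5_45555_okZ : Tri2.all (okSzR b5_45555_F b5_45555_S) b5_45555_S2 = true := by decide +kernel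

theorem b5_45555_okM : okM b5_45555_F b5_45555_M = true := by decide +kernel

theorem b5_45555_okC : okCert b5_45555_C b5_45555_F.k = true := by decide +kernel

theorem b5_45555_okG : runG5 b5_45555_F b5_45555_S b5_45555_C b5_45555_T [[]] = true := by decide +kernel

theorem b5_45555_okE : enumR b5_45555_F (okG2R b5_45555_F b5_45555_S b5_45555_S2 b5_45555_q b5_45555_M b5_45555_T) (Nat.pred b5_45555_F.n) 1 36 = true := by decide +kernel

theorem b5_45555_good : Good 5 [4, 5, 5, 5, 5] :=
  good_mk4 b5_45555_S b5_45555_S2 b5_45555_q b5_45555_M b5_45555_C b5_45555_T 5 [4, 5, 5, 5, 5] rfl rfl b5_45555_okF b5_45555_okI b5_45555_okS b5_45555_okZ b5_45555_okM b5_45555_okC (runG4_of _ _ _ _ 0 _ rfl b5_45555_okG) b5_45555_okE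

noncomputable def b4_4466_F : Code := ⟨4, [4, 4, 6, 6], [(0, 2), (1, 2), (2, 2), (2, 3), (2, 4), (3, 2), (3, 3),
  (3, 4)], 12, 4, 1711236978094765108579055664131421232107159063228843856618655058666832676613,
  348512946673374273233861260897086236262400, 71814294⟩

noncomputable def b4_4466_S : Tri' := (.node (.node (.leaf [⟨32710257502, 12, 8976⟩, ⟨32710802165, 12, 8976⟩])
  (.leaf [⟨57692084126, 10, 4656⟩, ⟨57691463019, 10, 4656⟩])) (.node (.leaf [⟨47068067757, 5,
  12306⟩, ⟨47068146931, 5, 12306⟩]) (.node (.leaf [⟨48784927582, 3, 12801⟩, ⟨48785472245, 3,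
  12801⟩]) (.node (.leaf []) (.leaf [⟨55630583710, 15, 8961⟩, ⟨32678800222, 15, 291⟩, ⟨32679344885,
  15, 291⟩, ⟨32991983533, 15, 8961⟩, ⟨32992062707, 15, 8961⟩, ⟨55629962603, 15, 8961⟩])))))

noncomputable def b4_4466_S2 : Tri2 := (.node (.leaf [⟨32710257502, 392088243762461217108, 12, 8976, .nil⟩,
  ⟨57692084126, 1495651141706059170132, 10, 4656, .nil⟩]) (.node (.leaf [⟨47068067757,
  1260508300950153544785, 5, 12306, .nil⟩]) (.node (.leaf [⟨48784927582, 1274069830281118159188, 3,
  12801, .nil⟩]) (.node (.leaf []) (.leaf [⟨32678800222, 392084879256880222548, 15, 291, .nil⟩,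
  ⟨32991983533, 392305209210599457873, 15, 8961, .nil⟩, ⟨55630583710, 1481865917915794325844, 15,
  8961, .nil⟩])))))

noncomputable def b4_4466_q : List ℕ := [44, 50, 62, 68]

noncomputable def b4_4466_M : ℕ := 1574122160956548404565

noncomputable def b4_4466_C : Cert := ⟨1, 1, 2, [0, 0, 0, 0], [0, 0, 0, 0], 0⟩

noncomputable def b4_4466_T : TT := .nil

theorem b4_4466_okF : okCode b4_4466_F = true := by decide +kernel

theorem b4_4466_okI : okIdx b4_4466_F = true := by decide +kernel

theorem b4_4466_okS : Tri'.all (okSyR b4_4466_F) b4_4466_S = true := by decide +kernel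

theorem b4_4466_okZ : Tri2.all (okSzR b4_4466_F b4_4466_S) b4_4466_S2 = true := by decide +kernel

theorem b4_4466_okM : okM b4_4466_F b4_4466_M = true := by decide +kernel

theorem b4_4466_okC : okCert b4_4466_C b4_4466_F.k = true := by decide +kernel

theorem b4_4466_okG : runG5 b4_4466_F b4_4466_S b4_4466_C b4_4466_T [[]] = true := by decide +kernel

theorem b4_4466_okE : enumR b4_4466_F (okG2R b4_4466_F b4_4466_S b4_4466_S2 b4_4466_q b4_4466_M b4_4466_T) (Nat.pred b4_4466_F.n) 1 36 = true := by decide +kernel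

theorem b4_4466_good : Good 4 [4, 4, 6, 6] :=
  good_mk4 b4_4466_S b4_4466_S2 b4_4466_q b4_4466_M b4_4466_C b4_4466_T 4 [4, 4, 6, 6] rfl rfl b4_4466_okF b4_4466_okI b4_4466_okS b4_4466_okZ b4_4466_okM b4_4466_okC (runG4_of _ _ _ _ 0 _ rfl b4_4466_okG) b4_4466_okE

noncomputable def b4_4565_F : Code := ⟨4, [4, 5, 6, 5], [(0, 2), (1, 2), (1, 3), (2, 2), (2, 3), (2, 4), (3, 2),
  (3, 3)], 12, 4, 1711236518933353811680552357843965498011238877748201965213606411054186907397,
  348449159306466863466992806130527366021120, 71765139⟩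

noncomputable def b4_4565_S : Tri' := (.node (.node (.leaf [⟨57805233515, 12, 8976⟩]) (.node (.leaf [⟨32947681197,
  10, 4656⟩, ⟨32947760371, 10, 4656⟩]) (.leaf [⟨46682008414, 6, 12576⟩]))) (.node (.node (.leaf
  [⟨32979478430, 9, 531⟩]) (.leaf [⟨49219745709, 5, 12306⟩, ⟨49219824883, 5, 12306⟩])) (.node (.leaf
  [⟨46905899765, 3, 12801⟩]) (.node (.leaf []) (.leaf [⟨32727820190, 15, 8961⟩, ⟨57777543070, 15,
  291⟩, ⟨32727742381, 15, 291⟩, ⟨32727821555, 15, 291⟩])))))

noncomputable def b4_4565_S2 : Tri2 := (.node (.leaf [⟨46682008414, 1260238929204422709588, 6, 12576, (tB 4 785)⟩,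
  ⟨57805233515, 1495704287683997144133, 12, 8976, (tB 4 2185)⟩]) (.node (.leaf [⟨32979478430,
  392304417575364018516, 9, 531, (tB 4 2122)⟩]) (.node (.leaf [⟨46905899765, 1260450945010919298321,
  3, 12801, (tB 4 610)⟩]) (.leaf [⟨32727820190, 392089089218180366676, 15, 8961, (tB 4 2322)⟩,
  ⟨57777543070, 1495700975146442768724, 15, 291, .nil⟩]))))

noncomputable def b4_4565_q : List ℕ := [38, 50, 56, 68]

noncomputable def b4_4565_M : ℕ := 1574122160956548404565

noncomputable def b4_4565_C : Cert := ⟨1, 1, 2, [0, 1, 0, 1], [0, 0, 0, 0], 5⟩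

noncomputable def b4_4565_T : TT := (tT 1 4 19076497939)

theorem b4_4565_okF : okCode b4_4565_F = true := by decide +kernel

theorem b4_4565_okI : okIdx b4_4565_F = true := by decide +kernel

theorem b4_4565_okS : Tri'.all (okSyR b4_4565_F) b4_4565_S = true := by decide +kernel

theorem b4_4565_okZ : Tri2.all (okSzR b4_4565_F b4_4565_S) b4_4565_S2 = true := by decide +kernel

theorem b4_4565_okM : okM b4_4565_F b4_4565_M = true := by decide +kernel

theorem b4_4565_okC : okCert b4_4565_C b4_4565_F.k = true := by decide +kernel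

theorem b4_4565_okG : runG5 b4_4565_F b4_4565_S b4_4565_C b4_4565_T [[]] = true := by decide +kernel

theorem b4_4565_okE : enumR b4_4565_F (okG2R b4_4565_F b4_4565_S b4_4565_S2 b4_4565_q b4_4565_M b4_4565_T) (Nat.pred b4_4565_F.n) 1 36 = true := by decide +kernel

theorem b4_4565_good : Good 4 [4, 5, 6, 5] :=
  good_mk4 b4_4565_S b4_4565_S2 b4_4565_q b4_4565_M b4_4565_C b4_4565_T 4 [4, 5, 6, 5] rfl rfl b4_4565_okF b4_4565_okI b4_4565_okS b4_4565_okZ b4_4565_okM b4_4565_okC (runG4_of _ _ _ _ 0 _ rfl b4_4565_okG) b4_4565_okE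

noncomputable def b6_445455_F : Code := ⟨6, [4, 4, 5, 4, 5, 5], [(0, 2), (1, 2), (2, 2), (2, 3), (3, 2), (4, 2),
  (4, 3), (5, 2), (5, 3)], 15, 3,
  20513561075937460430368623059600274442739939248297092350425251759733411963946550459522445724165,
  17958932833145981417059116612095498098810163608682496, 709276⟩

noncomputable def b6_445455_S : Tri' := (.node (.node (.leaf []) (.node (.leaf []) (.leaf [⟨29599536113566, 6,
  288⟩, ⟨16754322303853, 6, 288⟩, ⟨29579095268203, 6, 288⟩]))) (.node (.node (.leaf []) (.leaf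
  [⟨28413185677214, 5, 18⟩, ⟨16886174443437, 5, 18⟩, ⟨16865778424563, 5, 18⟩])) (.node (.leaf
  [⟨23903434620254, 3, 513⟩, ⟨23903469485301, 3, 513⟩, ⟨25201236196595, 3, 513⟩]) (.leaf []))))

noncomputable def b6_445455_S2 : Tri2 := (.node (.leaf [⟨16754322303853, 102783788311465736957924433, 6, 288,
  .nil⟩, ⟨29599536113566, 392089922087846991321448788, 6, 288, .nil⟩]) (.node (.leaf
  [⟨16886174443437, 102840252430203199822316625, 5, 18, .nil⟩, ⟨28413185677214,
  388448088681117651345686868, 5, 18, .nil⟩]) (.leaf [⟨23903434620254, 330364087743074749891285332,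
  3, 513, .nil⟩, ⟨25201236196595, 334061482531003461629138181, 3, 513, .nil⟩])))

noncomputable def b6_445455_q : List ℕ := [56, 74, 86]

noncomputable def b6_445455_M : ℕ := 412646679761793424966374741

noncomputable def b6_445455_C : Cert := ⟨1, 1, 2, [0, 0, 0], [0, 0, 0], 0⟩

noncomputable def b6_445455_T : TT := .nil

theorem b6_445455_okF : okCode b6_445455_F = true := by decide +kernel

theorem b6_445455_okI : okIdx b6_445455_F = true := by decide +kernel

theorem b6_445455_okS : Tri'.all (okSyR b6_445455_F) b6_445455_S = true := by decide +kernel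

theorem b6_445455_okZ : Tri2.all (okSzR b6_445455_F b6_445455_S) b6_445455_S2 = true := by decide +kernel

theorem b6_445455_okM : okM b6_445455_F b6_445455_M = true := by decide +kernel

theorem b6_445455_okC : okCert b6_445455_C b6_445455_F.k = true := by decide +kernel

theorem b6_445455_okG : runG5 b6_445455_F b6_445455_S b6_445455_C b6_445455_T [[]] = true := by decide +kernel

theorem b6_445455_okE : enumR b6_445455_F (okG2R b6_445455_F b6_445455_S b6_445455_S2 b6_445455_q b6_445455_M b6_445455_T) (Nat.pred b6_445455_F.n) 1 36 = true := by decide +kernel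

theorem b6_445455_good : Good 6 [4, 4, 5, 4, 5, 5] :=
  good_mk4 b6_445455_S b6_445455_S2 b6_445455_q b6_445455_M b6_445455_C b6_445455_T 6 [4, 4, 5, 4, 5, 5] rfl rfl b6_445455_okF b6_445455_okI b6_445455_okS b6_445455_okZ b6_445455_okM b6_445455_okC (runG4_of _ _ _ _ 0 _ rfl b6_445455_okG) b6_445455_okE

noncomputable def b5_44546_F : Code := ⟨5, [4, 4, 5, 4, 6], [(0, 2), (1, 2), (2, 2), (2, 3), (3, 2), (4, 2), (4,
  3), (4, 4)], 13, 3,
  3947238241333743428142427692307392581235225119204982479007782789329930391031842949,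
  1070609994101334698937607953115527914314530816, 610585⟩

noncomputable def b5_44546_S : Tri' := (.node (.node (.leaf []) (.node (.leaf []) (.leaf [⟨261413624670, 6, 288⟩,
  ⟨261417982709, 6, 288⟩, ⟨263963131245, 6, 288⟩]))) (.node (.leaf [⟨459271755678, 5, 18⟩]) (.node
  (.leaf [⟨376589204830, 3, 513⟩, ⟨376593562869, 3, 513⟩, ⟨376276740851, 3, 513⟩]) (.leaf []))))

noncomputable def b5_44546_S2 : Tri2 := (.node (.node (.leaf []) (.node (.leaf []) (.leaf [⟨261413624670,
  25093431428015404159316, 6, 288, .nil⟩, ⟨261417982709, 25093431480982014547217, 6, 288, .nil⟩,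
  ⟨263963131245, 25107536701207388165201, 6, 288, .nil⟩]))) (.node (.leaf [⟨459271755678,
  95707784812362103865684, 5, 18, (tB 3 266)⟩]) (.node (.leaf [⟨376276740851,
  80672315088868703753477, 3, 513, .nil⟩, ⟨376589204830, 80672535417804519706964, 3, 513, .nil⟩,
  ⟨376593562869, 80672535470771130094865, 3, 513, .nil⟩]) (.leaf []))))

noncomputable def b5_44546_q : List ℕ := [50, 68, 74]

noncomputable def b5_44546_M : ℕ := 100743818301219097892181

noncomputable def b5_44546_C : Cert := ⟨1, 1, 2, [0, 0, 0], [0, 0, 0], 0⟩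

noncomputable def b5_44546_T : TT := (tT 1 3 2066)

theorem b5_44546_okF : okCode b5_44546_F = true := by decide +kernel

theorem b5_44546_okI : okIdx b5_44546_F = true := by decide +kernel

theorem b5_44546_okS : Tri'.all (okSyR b5_44546_F) b5_44546_S = true := by decide +kernel

theorem b5_44546_okZ : Tri2.all (okSzR b5_44546_F b5_44546_S) b5_44546_S2 = true := by decide +kernel

theorem b5_44546_okM : okM b5_44546_F b5_44546_M = true := by decide +kernel

theorem b5_44546_okC : okCert b5_44546_C b5_44546_F.k = true := by decide +kernel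

theorem b5_44546_okG : runG5 b5_44546_F b5_44546_S b5_44546_C b5_44546_T [[]] = true := by decide +kernel

theorem b5_44546_okE : enumR b5_44546_F (okG2R b5_44546_F b5_44546_S b5_44546_S2 b5_44546_q b5_44546_M b5_44546_T) (Nat.pred b5_44546_F.n) 1 36 = true := by decide +kernel

theorem b5_44546_good : Good 5 [4, 4, 5, 4, 6] :=
  good_mk4 b5_44546_S b5_44546_S2 b5_44546_q b5_44546_M b5_44546_C b5_44546_T 5 [4, 4, 5, 4, 6] rfl rfl b5_44546_okF b5_44546_okI b5_44546_okS b5_44546_okZ b5_44546_okM b5_44546_okC (runG4_of _ _ _ _ 0 _ rfl b5_44546_okG) b5_44546_okE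

noncomputable def b5_44466_F : Code := ⟨5, [4, 4, 4, 6, 6], [(0, 2), (1, 2), (2, 2), (3, 2), (3, 3), (3, 4), (4,
  2), (4, 3), (4, 4)], 14, 4,
  9029771792094920479672234640519880470477853187980114076359178205880187548819432499513477,
  5847076985135681630887508888102769556401317478400, 84496284⟩

noncomputable def b5_44466_S : Tri' := (.node (.node (.node (.leaf []) (.node (.leaf []) (.leaf [⟨2093452057438,
  12, 8976⟩, ⟨2093456415477, 12, 8976⟩, ⟨2093491279789, 12, 8976⟩]))) (.leaf [⟨3692253080427, 10,
  4656⟩])) (.node (.leaf [⟨3012356324717, 5, 12306⟩]) (.node (.node (.leaf [⟨3122230942558, 3,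
  12801⟩, ⟨3122235300597, 3, 12801⟩, ⟨3122270164909, 3, 12801⟩]) (.leaf [])) (.node (.leaf [])
  (.leaf [⟨2091438791518, 15, 291⟩, ⟨2091443149557, 15, 291⟩, ⟨2091478013869, 15, 291⟩,
  ⟨2111486934381, 15, 8961⟩, ⟨3560317053803, 15, 8961⟩])))))

noncomputable def b5_44466_S2 : Tri2 := (.node (.leaf [⟨2093452057438, 1605993446398061653070164, 12, 8976,
  .nil⟩]) (.leaf [⟨2091438791518, 1605979665383201899352404, 15, 291, .nil⟩, ⟨3122230942558,
  5218590024778480487829844, 3, 12801, .nil⟩]))

noncomputable def b5_44466_q : List ℕ := [56, 62, 74, 80]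

noncomputable def b5_44466_M : ℕ := 6447604371278022265099605

noncomputable def b5_44466_C : Cert := ⟨1, 1, 2, [0, 0, 0, 0], [0, 0, 0, 0], 0⟩

noncomputable def b5_44466_T : TT := .nil

theorem b5_44466_okF : okCode b5_44466_F = true := by decide +kernel

theorem b5_44466_okI : okIdx b5_44466_F = true := by decide +kernel

theorem b5_44466_okS : Tri'.all (okSyR b5_44466_F) b5_44466_S = true := by decide +kernel

theorem b5_44466_okZ : Tri2.all (okSzR b5_44466_F b5_44466_S) b5_44466_S2 = true := by decide +kernel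

theorem b5_44466_okM : okM b5_44466_F b5_44466_M = true := by decide +kernel

theorem b5_44466_okC : okCert b5_44466_C b5_44466_F.k = true := by decide +kernel

theorem b5_44466_okG : runG5 b5_44466_F b5_44466_S b5_44466_C b5_44466_T [[]] = true := by decide +kernel

theorem b5_44466_okE : enumR b5_44466_F (okG2R b5_44466_F b5_44466_S b5_44466_S2 b5_44466_q b5_44466_M b5_44466_T) (Nat.pred b5_44466_F.n) 1 36 = true := by decide +kernel

theorem b5_44466_good : Good 5 [4, 4, 4, 6, 6] :=
  good_mk4 b5_44466_S b5_44466_S2 b5_44466_q b5_44466_M b5_44466_C b5_44466_T 5 [4, 4, 4, 6, 6] rfl rfl b5_44466_okF b5_44466_okI b5_44466_okS b5_44466_okZ b5_44466_okM b5_44466_okC (runG4_of _ _ _ _ 0 _ rfl b5_44466_okG) b5_44466_okE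

noncomputable def b6_444546_F : Code := ⟨6, [4, 4, 4, 5, 4, 6], [(0, 2), (1, 2), (2, 2), (3, 2), (3, 3), (4, 2),
  (5, 2), (5, 3), (5, 4)], 15, 3,
  20513566056938480690338664688272916575853660482023416808221593949739179909232615035226724485637,
  17961855122796818132371219152737084772484375438688256, 709663⟩

noncomputable def b6_444546_S : Tri' := (.node (.node (.leaf []) (.node (.leaf []) (.leaf [⟨16730436590430, 6,
  288⟩, ⟨16730471455477, 6, 288⟩, ⟨16730750375853, 6, 288⟩, ⟨16893640305517, 6, 288⟩,
  ⟨16893964139763, 6, 288⟩]))) (.node (.leaf [⟨29536319563678, 5, 18⟩]) (.node (.leaf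
  [⟨24101674150750, 3, 513⟩, ⟨24101709015797, 3, 513⟩, ⟨24101987936173, 3, 513⟩]) (.leaf []))))

noncomputable def b6_444546_S2 : Tri2 := (.node (.leaf [⟨16730436590430, 102782695125760407738061140, 6, 288,
  .nil⟩, ⟨16730750375853, 102782695346101507149087825, 6, 288, .nil⟩]) (.node (.leaf
  [⟨29536319563678, 392075959109547893326168404, 5, 18, (tB 3 266)⟩]) (.leaf [⟨24101674150750,
  330434705067937433599152468, 3, 513, .nil⟩, ⟨24101987936173, 330434705288278533010179153, 3, 513,
  .nil⟩])))

noncomputable def b6_444546_q : List ℕ := [62, 80, 86]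

noncomputable def b6_444546_M : ℕ := 412646679761793424966374741

noncomputable def b6_444546_C : Cert := ⟨1, 1, 2, [0, 0, 0], [0, 0, 0], 0⟩

noncomputable def b6_444546_T : TT := .nil

theorem b6_444546_okF : okCode b6_444546_F = true := by decide +kernel

theorem b6_444546_okI : okIdx b6_444546_F = true := by decide +kernel

theorem b6_444546_okS : Tri'.all (okSyR b6_444546_F) b6_444546_S = true := by decide +kernel

theorem b6_444546_okZ : Tri2.all (okSzR b6_444546_F b6_444546_S) b6_444546_S2 = true := by decide +kernel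

theorem b6_444546_okM : okM b6_444546_F b6_444546_M = true := by decide +kernel

theorem b6_444546_okC : okCert b6_444546_C b6_444546_F.k = true := by decide +kernel

theorem b6_444546_okG : runG5 b6_444546_F b6_444546_S b6_444546_C b6_444546_T [[]] = true := by decide +kernel

theorem b6_444546_okE : enumR b6_444546_F (okG2R b6_444546_F b6_444546_S b6_444546_S2 b6_444546_q b6_444546_M b6_444546_T) (Nat.pred b6_444546_F.n) 1 36 = true := by decide +kernel

theorem b6_444546_good : Good 6 [4, 4, 4, 5, 4, 6] :=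
  good_mk4 b6_444546_S b6_444546_S2 b6_444546_q b6_444546_M b6_444546_C b6_444546_T 6 [4, 4, 4, 5, 4, 6] rfl rfl b6_444546_okF b6_444546_okI b6_444546_okS b6_444546_okZ b6_444546_okM b6_444546_okC (runG4_of _ _ _ _ 0 _ rfl b6_444546_okG) b6_444546_okE

noncomputable def b6_445446_F : Code := ⟨6, [4, 4, 5, 4, 4, 6], [(0, 2), (1, 2), (2, 2), (2, 3), (3, 2), (4, 2),
  (5, 2), (5, 3), (5, 4)], 15, 3,
  20513566056938480690338664229111505278955157207980329753895047717101055957021975548439585606149,
  17961855122796796869915583452617945940101907282395136, 709660⟩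

noncomputable def b6_445446_S : Tri' := (.node (.node (.leaf []) (.node (.leaf []) (.leaf [⟨16728557542238, 6,
  288⟩, ⟨16728592407285, 6, 288⟩, ⟨16748953648493, 6, 288⟩, ⟨16891761257325, 6, 288⟩]))) (.node
  (.leaf [⟨29375258351518, 5, 18⟩, ⟨29538427288939, 5, 18⟩]) (.leaf [⟨24101719500717, 3, 513⟩,
  ⟨24081323481843, 3, 513⟩])))

noncomputable def b6_445446_S2 : Tri2 := (.node (.leaf [⟨16728557542238, 102782681506875134569681236, 6, 288,
  .nil⟩, ⟨16891761257325, 102840456709260172700488785, 6, 288, .nil⟩]) (.leaf [⟨24101719500717,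
  330434705072105750896395345, 3, 513, .nil⟩, ⟨29375258351518, 392018197742167103127241044, 5, 18,
  .nil⟩]))

noncomputable def b6_445446_q : List ℕ := [56, 80, 86]

noncomputable def b6_445446_M : ℕ := 412646679761793424966374741

noncomputable def b6_445446_C : Cert := ⟨1, 1, 2, [0, 0, 0], [0, 0, 0], 0⟩

noncomputable def b6_445446_T : TT := .nil

theorem b6_445446_okF : okCode b6_445446_F = true := by decide +kernel

theorem b6_445446_okI : okIdx b6_445446_F = true := by decide +kernel

theorem b6_445446_okS : Tri'.all (okSyR b6_445446_F) b6_445446_S = true := by decide +kernel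

theorem b6_445446_okZ : Tri2.all (okSzR b6_445446_F b6_445446_S) b6_445446_S2 = true := by decide +kernel

theorem b6_445446_okM : okM b6_445446_F b6_445446_M = true := by decide +kernel

theorem b6_445446_okC : okCert b6_445446_C b6_445446_F.k = true := by decide +kernel

theorem b6_445446_okG : runG5 b6_445446_F b6_445446_S b6_445446_C b6_445446_T [[]] = true := by decide +kernel

theorem b6_445446_okE : enumR b6_445446_F (okG2R b6_445446_F b6_445446_S b6_445446_S2 b6_445446_q b6_445446_M b6_445446_T) (Nat.pred b6_445446_F.n) 1 36 = true := by decide +kernel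

theorem b6_445446_good : Good 6 [4, 4, 5, 4, 4, 6] :=
  good_mk4 b6_445446_S b6_445446_S2 b6_445446_q b6_445446_M b6_445446_C b6_445446_T 6 [4, 4, 5, 4, 4, 6] rfl rfl b6_445446_okF b6_445446_okI b6_445446_okS b6_445446_okZ b6_445446_okM b6_445446_okC (runG4_of _ _ _ _ 0 _ rfl b6_445446_okG) b6_445446_okE

noncomputable def b5_45455_F : Code := ⟨5, [4, 5, 4, 5, 5], [(0, 2), (1, 2), (1, 3), (2, 2), (3, 2), (3, 3), (4,
  2), (4, 3)], 13, 3,
  3947237278402471404029137668130104492183655595501228271469184760391850257847355525,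
  1070435812064765776220507419830292349982867456, 610198⟩

noncomputable def b5_45455_S : Tri' := (.node (.leaf [⟨261786287469, 6, 288⟩, ⟨462173432683, 6, 288⟩]) (.node
  (.leaf [⟨444235175838, 5, 18⟩, ⟨263846477045, 5, 18⟩]) (.leaf [⟨373491718046, 3, 513⟩,
  ⟨393490164467, 3, 513⟩])))

noncomputable def b5_45455_S2 : Tri2 := (.node (.leaf [⟨261786287469, 25093698318228943606865, 6, 288, .nil⟩,
  ⟨462173432683, 95724858238993703441477, 6, 288, .nil⟩]) (.node (.leaf [⟨263846477045,
  25107483503467581953297, 5, 18, .nil⟩, ⟨444235175838, 94836176102102769418580, 5, 18, .nil⟩])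
  (.leaf [⟨373491718046, 80655294859976910389588, 3, 513, .nil⟩, ⟨393490164467,
  81557762182106482758917, 3, 513, .nil⟩])))

noncomputable def b5_45455_q : List ℕ := [44, 62, 74]

noncomputable def b5_45455_M : ℕ := 100743818301219097892181

noncomputable def b5_45455_C : Cert := ⟨1, 1, 2, [0, 0, 0], [0, 0, 0], 0⟩

noncomputable def b5_45455_T : TT := .nil

theorem b5_45455_okF : okCode b5_45455_F = true := by decide +kernel

theorem b5_45455_okI : okIdx b5_45455_F = true := by decide +kernel

theorem b5_45455_okS : Tri'.all (okSyR b5_45455_F) b5_45455_S = true := by decide +kernel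

theorem b5_45455_okZ : Tri2.all (okSzR b5_45455_F b5_45455_S) b5_45455_S2 = true := by decide +kernel

theorem b5_45455_okM : okM b5_45455_F b5_45455_M = true := by decide +kernel

theorem b5_45455_okC : okCert b5_45455_C b5_45455_F.k = true := by decide +kernel

theorem b5_45455_okG : runG5 b5_45455_F b5_45455_S b5_45455_C b5_45455_T [[]] = true := by decide +kernel

theorem b5_45455_okE : enumR b5_45455_F (okG2R b5_45455_F b5_45455_S b5_45455_S2 b5_45455_q b5_45455_M b5_45455_T) (Nat.pred b5_45455_F.n) 1 36 = true := by decide +kernel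

theorem b5_45455_good : Good 5 [4, 5, 4, 5, 5] :=
  good_mk4 b5_45455_S b5_45455_S2 b5_45455_q b5_45455_M b5_45455_C b5_45455_T 5 [4, 5, 4, 5, 5] rfl rfl b5_45455_okF b5_45455_okI b5_45455_okS b5_45455_okZ b5_45455_okM b5_45455_okC (runG4_of _ _ _ _ 0 _ rfl b5_45455_okG) b5_45455_okE

noncomputable def b6_454545_F : Code := ⟨6, [4, 5, 4, 5, 4, 5], [(0, 2), (1, 2), (1, 3), (2, 2), (3, 2), (3, 3),
  (4, 2), (5, 2), (5, 3)], 15, 3,
  20513561075935085303997115429232218778371246319162135167386321917575003796218152476894302554629,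
  17958932119696359630751667368311161773938661115559936, 708889⟩

noncomputable def b6_454545_S : Tri' := (.node (.leaf [⟨16891531357022, 6, 288⟩, ⟨16894076512173, 6, 288⟩]) (.node
  (.leaf [⟨28292893038494, 5, 18⟩, ⟨29596012899166, 5, 18⟩]) (.leaf [⟨23878654678942, 3, 513⟩,
  ⟨25184319694765, 3, 513⟩])))

noncomputable def b6_454545_S2 : Tri2 := (.node (.leaf [⟨16891531357022, 102840456496518897657516372, 6, 288,
  .nil⟩]) (.node (.leaf [⟨28292893038494, 388392305723661053941072212, 5, 18, .nil⟩,
  ⟨29596012899166, 392089904574473940387565908, 5, 18, .nil⟩]) (.leaf [⟨23878654678942,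
  330362984347373770458349908, 3, 513, .nil⟩])))

noncomputable def b6_454545_q : List ℕ := [50, 68, 86]

noncomputable def b6_454545_M : ℕ := 412646679761793424966374741

noncomputable def b6_454545_C : Cert := ⟨1, 1, 2, [0, 0, 0], [0, 0, 0], 0⟩

noncomputable def b6_454545_T : TT := .nil

theorem b6_454545_okF : okCode b6_454545_F = true := by decide +kernel

theorem b6_454545_okI : okIdx b6_454545_F = true := by decide +kernel

theorem b6_454545_okS : Tri'.all (okSyR b6_454545_F) b6_454545_S = true := by decide +kernel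

theorem b6_454545_okZ : Tri2.all (okSzR b6_454545_F b6_454545_S) b6_454545_S2 = true := by decide +kernel

theorem b6_454545_okM : okM b6_454545_F b6_454545_M = true := by decide +kernel

theorem b6_454545_okC : okCert b6_454545_C b6_454545_F.k = true := by decide +kernel

theorem b6_454545_okG : runG5 b6_454545_F b6_454545_S b6_454545_C b6_454545_T [[]] = true := by decide +kernel

theorem b6_454545_okE : enumR b6_454545_F (okG2R b6_454545_F b6_454545_S b6_454545_S2 b6_454545_q b6_454545_M b6_454545_T) (Nat.pred b6_454545_F.n) 1 36 = true := by decide +kernel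

theorem b6_454545_good : Good 6 [4, 5, 4, 5, 4, 5] :=
  good_mk4 b6_454545_S b6_454545_S2 b6_454545_q b6_454545_M b6_454545_C b6_454545_T 6 [4, 5, 4, 5, 4, 5] rfl rfl b6_454545_okF b6_454545_okI b6_454545_okS b6_454545_okZ b6_454545_okM b6_454545_okC (runG4_of _ _ _ _ 0 _ rfl b6_454545_okG) b6_454545_okE

noncomputable def b5_44555_F : Code := ⟨5, [4, 4, 5, 5, 5], [(0, 2), (1, 2), (2, 2), (2, 3), (3, 2), (3, 3), (4,
  2), (4, 3)], 13, 3,
  3947237278402471404029137754141384479080200034335475556381335768335308515635824773,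
  1070435812064767043561622638238348777961291776, 610201⟩

noncomputable def b5_44555_S : Tri' := (.node (.leaf [⟨261815647597, 6, 288⟩, ⟨462202792811, 6, 288⟩]) (.node
  (.node (.leaf []) (.leaf [⟨444239370142, 5, 18⟩, ⟨263846313310, 5, 18⟩, ⟨263850671349, 5, 18⟩,
  ⟨263533849331, 5, 18⟩])) (.leaf [⟨373457541037, 3, 513⟩, ⟨393768451437, 3, 513⟩])))

noncomputable def b5_44555_S2 : Tri2 := (.node (.leaf [⟨261815647597, 25093701643152106001489, 6, 288, .nil⟩])
  (.node (.leaf [⟨263846313310, 25107483503277529698644, 5, 18, .nil⟩, ⟨444239370142,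
  94836176154879327551828, 5, 18, .nil⟩]) (.leaf [⟨373457541037, 80655291481436450014289, 3, 513,
  .nil⟩])))

noncomputable def b5_44555_q : List ℕ := [50, 62, 74]

noncomputable def b5_44555_M : ℕ := 100743818301219097892181

noncomputable def b5_44555_C : Cert := ⟨1, 1, 2, [0, 0, 0], [0, 0, 0], 0⟩

noncomputable def b5_44555_T : TT := .nil

theorem b5_44555_okF : okCode b5_44555_F = true := by decide +kernel

theorem b5_44555_okI : okIdx b5_44555_F = true := by decide +kernel

theorem b5_44555_okS : Tri'.all (okSyR b5_44555_F) b5_44555_S = true := by decide +kernel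

theorem b5_44555_okZ : Tri2.all (okSzR b5_44555_F b5_44555_S) b5_44555_S2 = true := by decide +kernel

theorem b5_44555_okM : okM b5_44555_F b5_44555_M = true := by decide +kernel

theorem b5_44555_okC : okCert b5_44555_C b5_44555_F.k = true := by decide +kernel

theorem b5_44555_okG : runG5 b5_44555_F b5_44555_S b5_44555_C b5_44555_T [[]] = true := by decide +kernel

theorem b5_44555_okE : enumR b5_44555_F (okG2R b5_44555_F b5_44555_S b5_44555_S2 b5_44555_q b5_44555_M b5_44555_T) (Nat.pred b5_44555_F.n) 1 36 = true := by decide +kernel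

theorem b5_44555_good : Good 5 [4, 4, 5, 5, 5] :=
  good_mk4 b5_44555_S b5_44555_S2 b5_44555_q b5_44555_M b5_44555_C b5_44555_T 5 [4, 4, 5, 5, 5] rfl rfl b5_44555_okF b5_44555_okI b5_44555_okS b5_44555_okZ b5_44555_okM b5_44555_okC (runG4_of _ _ _ _ 0 _ rfl b5_44555_okG) b5_44555_okE

noncomputable def b6_444555_F : Code := ⟨6, [4, 4, 4, 5, 5, 5], [(0, 2), (1, 2), (2, 2), (3, 2), (3, 3), (4, 2),
  (4, 3), (5, 2), (5, 3)], 15, 3,
  20513561075937460430368623518761685739638442522340179404751797992371535916157189946309584603653,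
  17958932833146002679514752312214636931192631764975616, 709279⟩

noncomputable def b6_444555_S : Tri' := (.node (.node (.leaf []) (.node (.leaf []) (.leaf [⟨16756201352045, 6,
  288⟩, ⟨16756525186291, 6, 288⟩, ⟨29580974316395, 6, 288⟩]))) (.node (.node (.leaf []) (.leaf
  [⟨16886129093470, 5, 18⟩, ⟨16886163958517, 5, 18⟩, ⟨16886442878893, 5, 18⟩])) (.node (.leaf
  [⟨23901282155885, 3, 513⟩, ⟨25201180797805, 3, 513⟩, ⟨25201504632051, 3, 513⟩]) (.leaf []))))

noncomputable def b6_444555_S2 : Tri2 := (.leaf [⟨16886129093470, 102840252426034882525073748, 5, 18, .nil⟩])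

noncomputable def b6_444555_q : List ℕ := [62, 74, 86]

noncomputable def b6_444555_M : ℕ := 412646679761793424966374741

noncomputable def b6_444555_C : Cert := ⟨1, 1, 2, [0, 0, 0], [0, 0, 0], 0⟩

noncomputable def b6_444555_T : TT := .nil

theorem b6_444555_okF : okCode b6_444555_F = true := by decide +kernel

theorem b6_444555_okI : okIdx b6_444555_F = true := by decide +kernel

theorem b6_444555_okS : Tri'.all (okSyR b6_444555_F) b6_444555_S = true := by decide +kernel

theorem b6_444555_okZ : Tri2.all (okSzR b6_444555_F b6_444555_S) b6_444555_S2 = true := by decide +kernel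

theorem b6_444555_okM : okM b6_444555_F b6_444555_M = true := by decide +kernel

theorem b6_444555_okC : okCert b6_444555_C b6_444555_F.k = true := by decide +kernel

theorem b6_444555_okG : runG5 b6_444555_F b6_444555_S b6_444555_C b6_444555_T [[]] = true := by decide +kernel

theorem b6_444555_okE : enumR b6_444555_F (okG2R b6_444555_F b6_444555_S b6_444555_S2 b6_444555_q b6_444555_M b6_444555_T) (Nat.pred b6_444555_F.n) 1 36 = true := by decide +kernel

theorem b6_444555_good : Good 6 [4, 4, 4, 5, 5, 5] :=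
  good_mk4 b6_444555_S b6_444555_S2 b6_444555_q b6_444555_M b6_444555_C b6_444555_T 6 [4, 4, 4, 5, 5, 5] rfl rfl b6_444555_okF b6_444555_okI b6_444555_okS b6_444555_okZ b6_444555_okM b6_444555_okC (runG4_of _ _ _ _ 0 _ rfl b6_444555_okG) b6_444555_okE

noncomputable def b6_444456_F : Code := ⟨6, [4, 4, 4, 4, 5, 6], [(0, 2), (1, 2), (2, 2), (3, 2), (4, 2), (4, 3),
  (5, 2), (5, 3), (5, 4)], 15, 3,
  20513566056938480691301595960297029865791826490125571833306463456661806356253609657102120503813,
  17961855122883909150655046840729742211073943615307776, 709666⟩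

noncomputable def b6_444456_S : Tri' := (.node (.node (.leaf []) (.node (.leaf []) (.leaf [⟨16745468975966, 6,
  288⟩, ⟨16745503841013, 6, 288⟩, ⟨16745782761389, 6, 288⟩, ⟨16748014124397, 6, 288⟩]))) (.node
  (.leaf [⟨29538467047326, 5, 18⟩, ⟨29535877159787, 5, 18⟩]) (.leaf [⟨24084489300845, 3, 513⟩,
  ⟨24084813135091, 3, 513⟩])))

noncomputable def b6_444456_S2 : Tri2 := (.leaf [⟨16745468975966, 102783566734417890514374996, 6, 288, .nil⟩,
  ⟨29538467047326, 392075972944605948608332116, 5, 18, .nil⟩])

noncomputable def b6_444456_q : List ℕ := [68, 80, 86]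

noncomputable def b6_444456_M : ℕ := 412646679761793424966374741

noncomputable def b6_444456_C : Cert := ⟨1, 1, 2, [0, 0, 0], [0, 0, 0], 0⟩

noncomputable def b6_444456_T : TT := .nil

theorem b6_444456_okF : okCode b6_444456_F = true := by decide +kernel

theorem b6_444456_okI : okIdx b6_444456_F = true := by decide +kernel

theorem b6_444456_okS : Tri'.all (okSyR b6_444456_F) b6_444456_S = true := by decide +kernel

theorem b6_444456_okZ : Tri2.all (okSzR b6_444456_F b6_444456_S) b6_444456_S2 = true := by decide +kernel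

theorem b6_444456_okM : okM b6_444456_F b6_444456_M = true := by decide +kernel

theorem b6_444456_okC : okCert b6_444456_C b6_444456_F.k = true := by decide +kernel

theorem b6_444456_okG : runG5 b6_444456_F b6_444456_S b6_444456_C b6_444456_T [[]] = true := by decide +kernel

theorem b6_444456_okE : enumR b6_444456_F (okG2R b6_444456_F b6_444456_S b6_444456_S2 b6_444456_q b6_444456_M b6_444456_T) (Nat.pred b6_444456_F.n) 1 36 = true := by decide +kernel

theorem b6_444456_good : Good 6 [4, 4, 4, 4, 5, 6] :=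
  good_mk4 b6_444456_S b6_444456_S2 b6_444456_q b6_444456_M b6_444456_C b6_444456_T 6 [4, 4, 4, 4, 5, 6] rfl rfl b6_444456_okF b6_444456_okI b6_444456_okS b6_444456_okZ b6_444456_okM b6_444456_okC (runG4_of _ _ _ _ 0 _ rfl b6_444456_okG) b6_444456_okE

noncomputable def b4_4555_F : Code := ⟨4, [4, 5, 5, 5], [(0, 2), (1, 2), (1, 3), (2, 2), (2, 3), (3, 2), (3, 3)],
  11, 3, 734469444646451947143577021847077164312936922019691210696838904694533,
  63802946332977237913705267801186369536, 511123⟩

noncomputable def b4_4555_S : Tri' := (.node (.node (.leaf []) (.node (.leaf []) (.leaf [⟨4090869677, 6, 288⟩,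
  ⟨4090948851, 6, 288⟩, ⟨7221927275, 6, 288⟩]))) (.node (.leaf [⟨4122666910, 5, 18⟩]) (.node (.leaf
  [⟨5835274997, 3, 513⟩, ⟨6152632237, 3, 513⟩, ⟨6152711411, 3, 513⟩]) (.leaf []))))

noncomputable def b4_4555_S2 : Tri2 := (.node (.leaf [⟨7221927275, 23370327530455241797, 6, 288, .nil⟩]) (.leaf
  [⟨4122666910, 6129756727598727508, 5, 18, (tB 3 266)⟩, ⟨5835274997, 19691233271838168337, 3, 513,
  .nil⟩]))

noncomputable def b4_4555_q : List ℕ := [38, 50, 62]

noncomputable def b4_4555_M : ℕ := 24595658764946068821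

noncomputable def b4_4555_C : Cert := ⟨1, 1, 2, [0, 0, 0], [0, 0, 0], 0⟩

noncomputable def b4_4555_T : TT := (tT 1 3 2066)

theorem b4_4555_okF : okCode b4_4555_F = true := by decide +kernel

theorem b4_4555_okI : okIdx b4_4555_F = true := by decide +kernel

theorem b4_4555_okS : Tri'.all (okSyR b4_4555_F) b4_4555_S = true := by decide +kernel

theorem b4_4555_okZ : Tri2.all (okSzR b4_4555_F b4_4555_S) b4_4555_S2 = true := by decide +kernel

theorem b4_4555_okM : okM b4_4555_F b4_4555_M = true := by decide +kernel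

theorem b4_4555_okC : okCert b4_4555_C b4_4555_F.k = true := by decide +kernel

theorem b4_4555_okG : runG5 b4_4555_F b4_4555_S b4_4555_C b4_4555_T [[]] = true := by decide +kernel

theorem b4_4555_okE : enumR b4_4555_F (okG2R b4_4555_F b4_4555_S b4_4555_S2 b4_4555_q b4_4555_M b4_4555_T) (Nat.pred b4_4555_F.n) 1 36 = true := by decide +kernel

theorem b4_4555_good : Good 4 [4, 5, 5, 5] :=
  good_mk4 b4_4555_S b4_4555_S2 b4_4555_q b4_4555_M b4_4555_C b4_4555_T 4 [4, 5, 5, 5] rfl rfl b4_4555_okF b4_4555_okI b4_4555_okS b4_4555_okZ b4_4555_okM b4_4555_okC (runG4_of _ _ _ _ 0 _ rfl b4_4555_okG) b4_4555_okE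

noncomputable def b4_4546_F : Code := ⟨4, [4, 5, 4, 6], [(0, 2), (1, 2), (1, 3), (2, 2), (3, 2), (3, 3), (3, 4)],
  11, 3, 734469625025179794223638984837196526361024232630330582934442765076229,
  63813328391393107112503525800438398976, 511507⟩

noncomputable def b4_4546_S : Tri' := (.node (.node (.leaf []) (.node (.leaf []) (.leaf [⟨4084656990, 6, 288⟩,
  ⟨4124424109, 6, 288⟩, ⟨4124503283, 6, 288⟩]))) (.leaf [⟨5884274590, 3, 513⟩, ⟨7211014046, 5,
  18⟩]))

noncomputable def b4_4546_S2 : Tri2 := (.node (.leaf [⟨4084656990, 6126326045164769620, 6, 288, .nil⟩]) (.leaf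
  [⟨5884274590, 19695443230168793428, 3, 513, (tB 3 98)⟩, ⟨7211014046, 23369548267691262292, 5, 18,
  (tB 3 266)⟩]))

noncomputable def b4_4546_q : List ℕ := [38, 56, 62]

noncomputable def b4_4546_M : ℕ := 24595658764946068821

noncomputable def b4_4546_C : Cert := ⟨1, 1, 2, [0, 0, 0], [0, 0, 0], 0⟩

noncomputable def b4_4546_T : TT := .nil

theorem b4_4546_okF : okCode b4_4546_F = true := by decide +kernel

theorem b4_4546_okI : okIdx b4_4546_F = true := by decide +kernel

theorem b4_4546_okS : Tri'.all (okSyR b4_4546_F) b4_4546_S = true := by decide +kernel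

theorem b4_4546_okZ : Tri2.all (okSzR b4_4546_F b4_4546_S) b4_4546_S2 = true := by decide +kernel

theorem b4_4546_okM : okM b4_4546_F b4_4546_M = true := by decide +kernel

theorem b4_4546_okC : okCert b4_4546_C b4_4546_F.k = true := by decide +kernel

theorem b4_4546_okG : runG5 b4_4546_F b4_4546_S b4_4546_C b4_4546_T [[]] = true := by decide +kernel

theorem b4_4546_okE : enumR b4_4546_F (okG2R b4_4546_F b4_4546_S b4_4546_S2 b4_4546_q b4_4546_M b4_4546_T) (Nat.pred b4_4546_F.n) 1 36 = true := by decide +kernel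

theorem b4_4546_good : Good 4 [4, 5, 4, 6] :=
  good_mk4 b4_4546_S b4_4546_S2 b4_4546_q b4_4546_M b4_4546_C b4_4546_T 4 [4, 5, 4, 6] rfl rfl b4_4546_okF b4_4546_okI b4_4546_okS b4_4546_okZ b4_4546_okM b4_4546_okC (runG4_of _ _ _ _ 0 _ rfl b4_4546_okG) b4_4546_okE

noncomputable def b4_4456_F : Code := ⟨4, [4, 4, 5, 6], [(0, 2), (1, 2), (2, 2), (2, 3), (3, 2), (3, 3), (3, 4)],
  11, 3, 734469625025179794255883353516965900313866750569524992095268271965957,
  63813328391702516564461144954839760896, 511510⟩

noncomputable def b4_4456_S : Tri' := (.node (.leaf [⟨4088327006, 6, 288⟩, ⟨4088871669, 6, 288⟩]) (.node (.leaf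
  [⟨7211538334, 5, 18⟩, ⟨7210917227, 5, 18⟩]) (.leaf [⟨5880002477, 3, 513⟩, ⟨5880081651, 3, 513⟩])))

noncomputable def b4_4456_S2 : Tri2 := (.node (.leaf [⟨4088327006, 6126377997089182036, 6, 288, .nil⟩]) (.leaf
  [⟨5880002477, 19695390440474100817, 3, 513, .nil⟩, ⟨7211538334, 23369549092324983124, 5, 18,
  .nil⟩]))

noncomputable def b4_4456_q : List ℕ := [44, 56, 62]

noncomputable def b4_4456_M : ℕ := 24595658764946068821

noncomputable def b4_4456_C : Cert := ⟨1, 1, 2, [0, 0, 0], [0, 0, 0], 0⟩

noncomputable def b4_4456_T : TT := .nil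

theorem b4_4456_okF : okCode b4_4456_F = true := by decide +kernel

theorem b4_4456_okI : okIdx b4_4456_F = true := by decide +kernel

theorem b4_4456_okS : Tri'.all (okSyR b4_4456_F) b4_4456_S = true := by decide +kernel

theorem b4_4456_okZ : Tri2.all (okSzR b4_4456_F b4_4456_S) b4_4456_S2 = true := by decide +kernel

theorem b4_4456_okM : okM b4_4456_F b4_4456_M = true := by decide +kernel

theorem b4_4456_okC : okCert b4_4456_C b4_4456_F.k = true := by decide +kernel

theorem b4_4456_okG : runG5 b4_4456_F b4_4456_S b4_4456_C b4_4456_T [[]] = true := by decide +kernel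

theorem b4_4456_okE : enumR b4_4456_F (okG2R b4_4456_F b4_4456_S b4_4456_S2 b4_4456_q b4_4456_M b4_4456_T) (Nat.pred b4_4456_F.n) 1 36 = true := by decide +kernel

theorem b4_4456_good : Good 4 [4, 4, 5, 6] :=
  good_mk4 b4_4456_S b4_4456_S2 b4_4456_q b4_4456_M b4_4456_C b4_4456_T 4 [4, 4, 5, 6] rfl rfl b4_4456_okF b4_4456_okI b4_4456_okS b4_4456_okZ b4_4456_okM b4_4456_okC (runG4_of _ _ _ _ 0 _ rfl b4_4456_okG) b4_4456_okE

noncomputable def b5_44456_F : Code := ⟨5, [4, 4, 4, 5, 6], [(0, 2), (1, 2), (2, 2), (3, 2), (3, 3), (4, 2), (4,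
  3), (4, 4)], 13, 3,
  3947238241333743428322806420154472643198215238567030566318393428702167994892224645,
  1070609994106525728145542552514656913940545536, 610588⟩

noncomputable def b5_44456_S : Tri' := (.node (.node (.leaf []) (.node (.leaf []) (.leaf [⟨261648505694, 6, 288⟩,
  ⟨261652863733, 6, 288⟩, ⟨261687728045, 6, 288⟩]))) (.leaf [⟨376320146797, 3, 513⟩, ⟨461498149739,
  5, 18⟩]))

noncomputable def b5_44456_S2 : Tri2 := (.leaf [⟨261648505694, 25093644223097797415252, 6, 288, .nil⟩])

noncomputable def b5_44456_q : List ℕ := [56, 68, 74]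

noncomputable def b5_44456_M : ℕ := 100743818301219097892181

noncomputable def b5_44456_C : Cert := ⟨1, 1, 2, [0, 0, 0], [0, 0, 0], 0⟩

noncomputable def b5_44456_T : TT := .nil

theorem b5_44456_okF : okCode b5_44456_F = true := by decide +kernel

theorem b5_44456_okI : okIdx b5_44456_F = true := by decide +kernel

theorem b5_44456_okS : Tri'.all (okSyR b5_44456_F) b5_44456_S = true := by decide +kernel

theorem b5_44456_okZ : Tri2.all (okSzR b5_44456_F b5_44456_S) b5_44456_S2 = true := by decide +kernel

theorem b5_44456_okM : okM b5_44456_F b5_44456_M = true := by decide +kernel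

theorem b5_44456_okC : okCert b5_44456_C b5_44456_F.k = true := by decide +kernel

theorem b5_44456_okG : runG5 b5_44456_F b5_44456_S b5_44456_C b5_44456_T [[]] = true := by decide +kernel

theorem b5_44456_okE : enumR b5_44456_F (okG2R b5_44456_F b5_44456_S b5_44456_S2 b5_44456_q b5_44456_M b5_44456_T) (Nat.pred b5_44456_F.n) 1 36 = true := by decide +kernel

theorem b5_44456_good : Good 5 [4, 4, 4, 5, 6] :=
  good_mk4 b5_44456_S b5_44456_S2 b5_44456_q b5_44456_M b5_44456_C b5_44456_T 5 [4, 4, 4, 5, 6] rfl rfl b5_44456_okF b5_44456_okI b5_44456_okS b5_44456_okZ b5_44456_okM b5_44456_okC (runG4_of _ _ _ _ 0 _ rfl b5_44456_okG) b5_44456_okE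

noncomputable def b6_444446_F : Code := ⟨6, [4, 4, 4, 4, 4, 6], [(0, 2), (1, 2), (2, 2), (3, 2), (4, 2), (5, 2),
  (5, 3), (5, 4)], 14, 2,
  9029817323397251637137271108250905732525391795880412825102711320454840604959107079981573,
  2923360086584982326377634236924928413095960772608, 5157⟩

noncomputable def b6_444446_S : Tri' := (.node (.leaf []) (.node (.leaf []) (.leaf [⟨2091040562014, 3, 1⟩,
  ⟨2091075427061, 3, 1⟩, ⟨2091354347437, 3, 1⟩, ⟨2093585710445, 3, 1⟩, ⟨2111436614509, 3, 1⟩,
  ⟨2111760448755, 3, 1⟩])))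

noncomputable def b6_444446_S2 : Tri2 := (.leaf [])

noncomputable def b6_444446_q : List ℕ := [74, 80]

noncomputable def b6_444446_M : ℕ := 6447604371278022265099605

noncomputable def b6_444446_C : Cert := ⟨1, 1, 2, [0, 0], [0, 0], 0⟩

noncomputable def b6_444446_T : TT := .nil

theorem b6_444446_okF : okCode b6_444446_F = true := by decide +kernel

theorem b6_444446_okI : okIdx b6_444446_F = true := by decide +kernel

theorem b6_444446_okS : Tri'.all (okSyR b6_444446_F) b6_444446_S = true := by decide +kernel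

theorem b6_444446_okZ : Tri2.all (okSzR b6_444446_F b6_444446_S) b6_444446_S2 = true := by decide +kernel

theorem b6_444446_okM : okM b6_444446_F b6_444446_M = true := by decide +kernel

theorem b6_444446_okC : okCert b6_444446_C b6_444446_F.k = true := by decide +kernel

theorem b6_444446_okG : runG5 b6_444446_F b6_444446_S b6_444446_C b6_444446_T [[]] = true := by decide +kernel

theorem b6_444446_okE : enumR b6_444446_F (okG2R b6_444446_F b6_444446_S b6_444446_S2 b6_444446_q b6_444446_M b6_444446_T) (Nat.pred b6_444446_F.n) 1 36 = true := by decide +kernel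

theorem b6_444446_good : Good 6 [4, 4, 4, 4, 4, 6] :=
  good_mk4 b6_444446_S b6_444446_S2 b6_444446_q b6_444446_M b6_444446_C b6_444446_T 6 [4, 4, 4, 4, 4, 6] rfl rfl b6_444446_okF b6_444446_okI b6_444446_okS b6_444446_okZ b6_444446_okM b6_444446_okC (runG4_of _ _ _ _ 0 _ rfl b6_444446_okG) b6_444446_okE

noncomputable def b6_444455_F : Code := ⟨6, [4, 4, 4, 4, 5, 5], [(0, 2), (1, 2), (2, 2), (3, 2), (4, 2), (4, 3),
  (5, 2), (5, 3)], 14, 2,
  9029815303984008649224036887846185509074776629096156643302812697481927349728596770146821,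
  2923003361774091768167616312056465541844527218688, 5154⟩

noncomputable def b6_444455_S : Tri' := (.node (.leaf []) (.node (.leaf []) (.leaf [⟨3699943794590, 3, 1⟩,
  ⟨2094256745325, 3, 1⟩, ⟨2094580579571, 3, 1⟩, ⟨3697353907051, 3, 1⟩])))

noncomputable def b6_444455_S2 : Tri2 := (.leaf [])

noncomputable def b6_444455_q : List ℕ := [68, 80]

noncomputable def b6_444455_M : ℕ := 6447604371278022265099605

noncomputable def b6_444455_C : Cert := ⟨1, 1, 2, [0, 0], [0, 0], 0⟩

noncomputable def b6_444455_T : TT := .nil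

theorem b6_444455_okF : okCode b6_444455_F = true := by decide +kernel

theorem b6_444455_okI : okIdx b6_444455_F = true := by decide +kernel

theorem b6_444455_okS : Tri'.all (okSyR b6_444455_F) b6_444455_S = true := by decide +kernel

theorem b6_444455_okZ : Tri2.all (okSzR b6_444455_F b6_444455_S) b6_444455_S2 = true := by decide +kernel

theorem b6_444455_okM : okM b6_444455_F b6_444455_M = true := by decide +kernel

theorem b6_444455_okC : okCert b6_444455_C b6_444455_F.k = true := by decide +kernel

theorem b6_444455_okG : runG5 b6_444455_F b6_444455_S b6_444455_C b6_444455_T [[]] = true := by decide +kernel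

theorem b6_444455_okE : enumR b6_444455_F (okG2R b6_444455_F b6_444455_S b6_444455_S2 b6_444455_q b6_444455_M b6_444455_T) (Nat.pred b6_444455_F.n) 1 36 = true := by decide +kernel

theorem b6_444455_good : Good 6 [4, 4, 4, 4, 5, 5] :=
  good_mk4 b6_444455_S b6_444455_S2 b6_444455_q b6_444455_M b6_444455_C b6_444455_T 6 [4, 4, 4, 4, 5, 5] rfl rfl b6_444455_okF b6_444455_okI b6_444455_okS b6_444455_okZ b6_444455_okM b6_444455_okC (runG4_of _ _ _ _ 0 _ rfl b6_444455_okG) b6_444455_okE

noncomputable def b6_444545_F : Code := ⟨6, [4, 4, 4, 5, 4, 5], [(0, 2), (1, 2), (2, 2), (3, 2), (3, 3), (4, 2),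
  (5, 2), (5, 3)], 14, 2,
  9029815303983045717952012774556247343066674474071071773795890071034906355106721374128645,
  2923003274683073484339928319399026952276350599168, 5151⟩

noncomputable def b6_444545_S : Tri' := (.node (.leaf []) (.node (.leaf []) (.leaf [⟨3697796310942, 3, 1⟩,
  ⟨2111441595230, 3, 1⟩, ⟨2111476460277, 3, 1⟩, ⟨2111755380653, 3, 1⟩])))

noncomputable def b6_444545_S2 : Tri2 := (.leaf [])

noncomputable def b6_444545_q : List ℕ := [62, 80]

noncomputable def b6_444545_M : ℕ := 6447604371278022265099605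

noncomputable def b6_444545_C : Cert := ⟨1, 1, 2, [0, 0], [0, 0], 0⟩

noncomputable def b6_444545_T : TT := .nil

theorem b6_444545_okF : okCode b6_444545_F = true := by decide +kernel

theorem b6_444545_okI : okIdx b6_444545_F = true := by decide +kernel

theorem b6_444545_okS : Tri'.all (okSyR b6_444545_F) b6_444545_S = true := by decide +kernel

theorem b6_444545_okZ : Tri2.all (okSzR b6_444545_F b6_444545_S) b6_444545_S2 = true := by decide +kernel

theorem b6_444545_okM : okM b6_444545_F b6_444545_M = true := by decide +kernel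

theorem b6_444545_okC : okCert b6_444545_C b6_444545_F.k = true := by decide +kernel

theorem b6_444545_okG : runG5 b6_444545_F b6_444545_S b6_444545_C b6_444545_T [[]] = true := by decide +kernel

theorem b6_444545_okE : enumR b6_444545_F (okG2R b6_444545_F b6_444545_S b6_444545_S2 b6_444545_q b6_444545_M b6_444545_T) (Nat.pred b6_444545_F.n) 1 36 = true := by decide +kernel

theorem b6_444545_good : Good 6 [4, 4, 4, 5, 4, 5] :=
  good_mk4 b6_444545_S b6_444545_S2 b6_444545_q b6_444545_M b6_444545_C b6_444545_T 6 [4, 4, 4, 5, 4, 5] rfl rfl b6_444545_okF b6_444545_okI b6_444545_okS b6_444545_okZ b6_444545_okM b6_444545_okC (runG4_of _ _ _ _ 0 _ rfl b6_444545_okG) b6_444545_okE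

noncomputable def b6_445445_F : Code := ⟨6, [4, 4, 5, 4, 4, 5], [(0, 2), (1, 2), (2, 2), (2, 3), (3, 2), (4, 2),
  (5, 2), (5, 3)], 14, 2,
  9029815303983045717492851363259348839792631387016745227563251947082695715619934235249157,
  2923003274661811028704228200260194569808194306048, 5148⟩

noncomputable def b6_445445_S : Tri' := (.node (.leaf []) (.node (.leaf []) (.leaf [⟨3536735098782, 3, 1⟩,
  ⟨2111486945197, 3, 1⟩, ⟨2091090926323, 3, 1⟩, ⟨3699904036203, 3, 1⟩])))

noncomputable def b6_445445_S2 : Tri2 := (.leaf [])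

noncomputable def b6_445445_q : List ℕ := [56, 80]

noncomputable def b6_445445_M : ℕ := 6447604371278022265099605

noncomputable def b6_445445_C : Cert := ⟨1, 1, 2, [0, 0], [0, 0], 0⟩

noncomputable def b6_445445_T : TT := .nil

theorem b6_445445_okF : okCode b6_445445_F = true := by decide +kernel

theorem b6_445445_okI : okIdx b6_445445_F = true := by decide +kernel

theorem b6_445445_okS : Tri'.all (okSyR b6_445445_F) b6_445445_S = true := by decide +kernel

theorem b6_445445_okZ : Tri2.all (okSzR b6_445445_F b6_445445_S) b6_445445_S2 = true := by decide +kernel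

theorem b6_445445_okM : okM b6_445445_F b6_445445_M = true := by decide +kernel

theorem b6_445445_okC : okCert b6_445445_C b6_445445_F.k = true := by decide +kernel

theorem b6_445445_okG : runG5 b6_445445_F b6_445445_S b6_445445_C b6_445445_T [[]] = true := by decide +kernel

theorem b6_445445_okE : enumR b6_445445_F (okG2R b6_445445_F b6_445445_S b6_445445_S2 b6_445445_q b6_445445_M b6_445445_T) (Nat.pred b6_445445_F.n) 1 36 = true := by decide +kernel

theorem b6_445445_good : Good 6 [4, 4, 5, 4, 4, 5] :=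
  good_mk4 b6_445445_S b6_445445_S2 b6_445445_q b6_445445_M b6_445445_C b6_445445_T 6 [4, 4, 5, 4, 4, 5] rfl rfl b6_445445_okF b6_445445_okI b6_445445_okS b6_445445_okZ b6_445445_okM b6_445445_okC (runG4_of _ _ _ _ 0 _ rfl b6_445445_okG) b6_445445_okE

noncomputable def b5_44446_F : Code := ⟨5, [4, 4, 4, 4, 6], [(0, 2), (1, 2), (2, 2), (3, 2), (4, 2), (4, 3), (4,
  4)], 12, 2, 1711247330714323860870177634046557847809177869911231425879299449070341523589,
  174245839511453051947214259918029809778688, 4383⟩

noncomputable def b5_44446_S : Tri' := (.node (.leaf []) (.node (.leaf []) (.leaf [⟨32673061726, 3, 1⟩,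
  ⟨32677419765, 3, 1⟩, ⟨32712284077, 3, 1⟩, ⟨32991198573, 3, 1⟩])))

noncomputable def b5_44446_S2 : Tri2 := (.leaf [])

noncomputable def b5_44446_q : List ℕ := [62, 68]

noncomputable def b5_44446_M : ℕ := 1574122160956548404565

noncomputable def b5_44446_C : Cert := ⟨1, 1, 2, [0, 0], [0, 0], 0⟩

noncomputable def b5_44446_T : TT := .nil

theorem b5_44446_okF : okCode b5_44446_F = true := by decide +kernel

theorem b5_44446_okI : okIdx b5_44446_F = true := by decide +kernel

theorem b5_44446_okS : Tri'.all (okSyR b5_44446_F) b5_44446_S = true := by decide +kernel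

theorem b5_44446_okZ : Tri2.all (okSzR b5_44446_F b5_44446_S) b5_44446_S2 = true := by decide +kernel

theorem b5_44446_okM : okM b5_44446_F b5_44446_M = true := by decide +kernel

theorem b5_44446_okC : okCert b5_44446_C b5_44446_F.k = true := by decide +kernel

theorem b5_44446_okG : runG5 b5_44446_F b5_44446_S b5_44446_C b5_44446_T [[]] = true := by decide +kernel

theorem b5_44446_okE : enumR b5_44446_F (okG2R b5_44446_F b5_44446_S b5_44446_S2 b5_44446_q b5_44446_M b5_44446_T) (Nat.pred b5_44446_F.n) 1 36 = true := by decide +kernel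

theorem b5_44446_good : Good 5 [4, 4, 4, 4, 6] :=
  good_mk4 b5_44446_S b5_44446_S2 b5_44446_q b5_44446_M b5_44446_C b5_44446_T 5 [4, 4, 4, 4, 6] rfl rfl b5_44446_okF b5_44446_okI b5_44446_okS b5_44446_okZ b5_44446_okM b5_44446_okC (runG4_of _ _ _ _ 0 _ rfl b5_44446_okG) b5_44446_okE

noncomputable def b5_44545_F : Code := ⟨5, [4, 4, 5, 4, 5], [(0, 2), (1, 2), (2, 2), (2, 3), (3, 2), (4, 2), (4,
  3)], 12, 2, 1711246952432533620182684448175940057331945422202197234473091800459286612101,
  174224571864788143893476028406562027470848, 4377⟩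

noncomputable def b5_44545_S : Tri' := (.node (.leaf []) (.node (.leaf []) (.leaf [⟨55544829854, 3, 1⟩,
  ⟨32991821150, 3, 1⟩, ⟨32996179189, 3, 1⟩, ⟨32679357171, 3, 1⟩])))

noncomputable def b5_44545_S2 : Tri2 := (.leaf [])

noncomputable def b5_44545_q : List ℕ := [50, 68]

noncomputable def b5_44545_M : ℕ := 1574122160956548404565

noncomputable def b5_44545_C : Cert := ⟨1, 1, 2, [0, 0], [0, 0], 0⟩

noncomputable def b5_44545_T : TT := .nil

theorem b5_44545_okF : okCode b5_44545_F = true := by decide +kernel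

theorem b5_44545_okI : okIdx b5_44545_F = true := by decide +kernel

theorem b5_44545_okS : Tri'.all (okSyR b5_44545_F) b5_44545_S = true := by decide +kernel

theorem b5_44545_okZ : Tri2.all (okSzR b5_44545_F b5_44545_S) b5_44545_S2 = true := by decide +kernel

theorem b5_44545_okM : okM b5_44545_F b5_44545_M = true := by decide +kernel

theorem b5_44545_okC : okCert b5_44545_C b5_44545_F.k = true := by decide +kernel

theorem b5_44545_okG : runG5 b5_44545_F b5_44545_S b5_44545_C b5_44545_T [[]] = true := by decide +kernel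

theorem b5_44545_okE : enumR b5_44545_F (okG2R b5_44545_F b5_44545_S b5_44545_S2 b5_44545_q b5_44545_M b5_44545_T) (Nat.pred b5_44545_F.n) 1 36 = true := by decide +kernel

theorem b5_44545_good : Good 5 [4, 4, 5, 4, 5] :=
  good_mk4 b5_44545_S b5_44545_S2 b5_44545_q b5_44545_M b5_44545_C b5_44545_T 5 [4, 4, 5, 4, 5] rfl rfl b5_44545_okF b5_44545_okI b5_44545_okS b5_44545_okZ b5_44545_okM b5_44545_okC (runG4_of _ _ _ _ 0 _ rfl b5_44545_okG) b5_44545_okE

noncomputable def b4_4446_F : Code := ⟨4, [4, 4, 4, 6], [(0, 2), (1, 2), (2, 2), (3, 2), (3, 3), (3, 4)], 10, 2,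
  311354576303266777162739689011477383161734923890740653312853765,
  10385861367669883486462489361645568, 3609⟩

noncomputable def b4_4446_S : Tri' := (.node (.leaf []) (.node (.leaf []) (.leaf [⟨510585694, 3, 1⟩, ⟨511130357,
  3, 1⟩, ⟨515487661, 3, 1⟩, ⟨515566835, 3, 1⟩])))

noncomputable def b4_4446_S2 : Tri2 := (.leaf [])

noncomputable def b4_4446_q : List ℕ := [50, 56]

noncomputable def b4_4446_M : ℕ := 384307168202282325

noncomputable def b4_4446_C : Cert := ⟨1, 1, 2, [0, 0], [0, 0], 0⟩

noncomputable def b4_4446_T : TT := .nil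

theorem b4_4446_okF : okCode b4_4446_F = true := by decide +kernel

theorem b4_4446_okI : okIdx b4_4446_F = true := by decide +kernel

theorem b4_4446_okS : Tri'.all (okSyR b4_4446_F) b4_4446_S = true := by decide +kernel

theorem b4_4446_okZ : Tri2.all (okSzR b4_4446_F b4_4446_S) b4_4446_S2 = true := by decide +kernel

theorem b4_4446_okM : okM b4_4446_F b4_4446_M = true := by decide +kernel

theorem b4_4446_okC : okCert b4_4446_C b4_4446_F.k = true := by decide +kernel

theorem b4_4446_okG : runG5 b4_4446_F b4_4446_S b4_4446_C b4_4446_T [[]] = true := by decide +kernel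

theorem b4_4446_okE : enumR b4_4446_F (okG2R b4_4446_F b4_4446_S b4_4446_S2 b4_4446_q b4_4446_M b4_4446_T) (Nat.pred b4_4446_F.n) 1 36 = true := by decide +kernel

theorem b4_4446_good : Good 4 [4, 4, 4, 6] :=
  good_mk4 b4_4446_S b4_4446_S2 b4_4446_q b4_4446_M b4_4446_C b4_4446_T 4 [4, 4, 4, 6] rfl rfl b4_4446_okF b4_4446_okI b4_4446_okS b4_4446_okZ b4_4446_okM b4_4446_okC (runG4_of _ _ _ _ 0 _ rfl b4_4446_okG) b4_4446_okE

noncomputable def b4_4455_F : Code := ⟨4, [4, 4, 5, 5], [(0, 2), (1, 2), (2, 2), (2, 3), (3, 2), (3, 3)], 10, 2,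
  311354508681924511647037565059885201944301363447207228505999109,
  10384594026554665078406061383221248, 3606⟩

noncomputable def b4_4455_S : Tri' := (.node (.leaf []) (.node (.leaf []) (.leaf [⟨903305118, 3, 1⟩, ⟨511293357,
  3, 1⟩, ⟨511372531, 3, 1⟩, ⟨902684011, 3, 1⟩])))

noncomputable def b4_4455_S2 : Tri2 := (.leaf [])

noncomputable def b4_4455_q : List ℕ := [44, 56]

noncomputable def b4_4455_M : ℕ := 384307168202282325

noncomputable def b4_4455_C : Cert := ⟨1, 1, 2, [0, 0], [0, 0], 0⟩

noncomputable def b4_4455_T : TT := .nil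

theorem b4_4455_okF : okCode b4_4455_F = true := by decide +kernel

theorem b4_4455_okI : okIdx b4_4455_F = true := by decide +kernel

theorem b4_4455_okS : Tri'.all (okSyR b4_4455_F) b4_4455_S = true := by decide +kernel

theorem b4_4455_okZ : Tri2.all (okSzR b4_4455_F b4_4455_S) b4_4455_S2 = true := by decide +kernel

theorem b4_4455_okM : okM b4_4455_F b4_4455_M = true := by decide +kernel

theorem b4_4455_okC : okCert b4_4455_C b4_4455_F.k = true := by decide +kernel

theorem b4_4455_okG : runG5 b4_4455_F b4_4455_S b4_4455_C b4_4455_T [[]] = true := by decide +kernel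

theorem b4_4455_okE : enumR b4_4455_F (okG2R b4_4455_F b4_4455_S b4_4455_S2 b4_4455_q b4_4455_M b4_4455_T) (Nat.pred b4_4455_F.n) 1 36 = true := by decide +kernel

theorem b4_4455_good : Good 4 [4, 4, 5, 5] :=
  good_mk4 b4_4455_S b4_4455_S2 b4_4455_q b4_4455_M b4_4455_C b4_4455_T 4 [4, 4, 5, 5] rfl rfl b4_4455_okF b4_4455_okI b4_4455_okS b4_4455_okZ b4_4455_okM b4_4455_okC (runG4_of _ _ _ _ 0 _ rfl b4_4455_okG) b4_4455_okE

noncomputable def b5_44455_F : Code := ⟨5, [4, 4, 4, 5, 5], [(0, 2), (1, 2), (2, 2), (3, 2), (3, 3), (4, 2), (4,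
  3)], 12, 2, 1711246952432713998910531528237903047451307470289507845112464038063146993797,
  174224577055817351828075427535561653485568, 4380⟩

noncomputable def b5_44455_S : Tri' := (.leaf [⟨32722763117, 3, 1⟩, ⟨57771223915, 3, 1⟩])

noncomputable def b5_44455_S2 : Tri2 := (.leaf [])

noncomputable def b5_44455_q : List ℕ := [56, 68]

noncomputable def b5_44455_M : ℕ := 1574122160956548404565

noncomputable def b5_44455_C : Cert := ⟨1, 1, 2, [0, 0], [0, 0], 0⟩

noncomputable def b5_44455_T : TT := .nil

theorem b5_44455_okF : okCode b5_44455_F = true := by decide +kernel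

theorem b5_44455_okI : okIdx b5_44455_F = true := by decide +kernel

theorem b5_44455_okS : Tri'.all (okSyR b5_44455_F) b5_44455_S = true := by decide +kernel

theorem b5_44455_okZ : Tri2.all (okSzR b5_44455_F b5_44455_S) b5_44455_S2 = true := by decide +kernel

theorem b5_44455_okM : okM b5_44455_F b5_44455_M = true := by decide +kernel

theorem b5_44455_okC : okCert b5_44455_C b5_44455_F.k = true := by decide +kernel

theorem b5_44455_okG : runG5 b5_44455_F b5_44455_S b5_44455_C b5_44455_T [[]] = true := by decide +kernel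

theorem b5_44455_okE : enumR b5_44455_F (okG2R b5_44455_F b5_44455_S b5_44455_S2 b5_44455_q b5_44455_M b5_44455_T) (Nat.pred b5_44455_F.n) 1 36 = true := by decide +kernel

theorem b5_44455_good : Good 5 [4, 4, 4, 5, 5] :=
  good_mk4 b5_44455_S b5_44455_S2 b5_44455_q b5_44455_M b5_44455_C b5_44455_T 5 [4, 4, 4, 5, 5] rfl rfl b5_44455_okF b5_44455_okI b5_44455_okS b5_44455_okZ b5_44455_okM b5_44455_okC (runG4_of _ _ _ _ 0 _ rfl b5_44455_okG) b5_44455_okE

noncomputable def b6_444445_F : Code := ⟨6, [4, 4, 4, 4, 4, 5], [(0, 2), (1, 2), (2, 2), (3, 2), (4, 2), (5, 2),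
  (5, 3)], 13, 1,
  3947259159036143337789000985633976834202369983192224435556037104728396132530768389,
  356811923176489970264571492362373784095686656, 37⟩

noncomputable def b6_444445_S : Tri' := (.leaf [])

noncomputable def b6_444445_S2 : Tri2 := (.leaf [])

noncomputable def b6_444445_q : List ℕ := [74]

noncomputable def b6_444445_M : ℕ := 100743818301219097892181

noncomputable def b6_444445_C : Cert := ⟨1, 1, 2, [0], [0], 0⟩

noncomputable def b6_444445_T : TT := .nil

theorem b6_444445_okF : okCode b6_444445_F = true := by decide +kernel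

theorem b6_444445_okI : okIdx b6_444445_F = true := by decide +kernel

theorem b6_444445_okS : Tri'.all (okSyR b6_444445_F) b6_444445_S = true := by decide +kernel

theorem b6_444445_okZ : Tri2.all (okSzR b6_444445_F b6_444445_S) b6_444445_S2 = true := by decide +kernel

theorem b6_444445_okM : okM b6_444445_F b6_444445_M = true := by decide +kernel

theorem b6_444445_okC : okCert b6_444445_C b6_444445_F.k = true := by decide +kernel

theorem b6_444445_okG : runG5 b6_444445_F b6_444445_S b6_444445_C b6_444445_T [[]] = true := by decide +kernel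

theorem b6_444445_okE : enumR b6_444445_F (okG2R b6_444445_F b6_444445_S b6_444445_S2 b6_444445_q b6_444445_M b6_444445_T) (Nat.pred b6_444445_F.n) 1 36 = true := by decide +kernel

theorem b6_444445_good : Good 6 [4, 4, 4, 4, 4, 5] :=
  good_mk4 b6_444445_S b6_444445_S2 b6_444445_q b6_444445_M b6_444445_C b6_444445_T 6 [4, 4, 4, 4, 4, 5] rfl rfl b6_444445_okF b6_444445_okI b6_444445_okS b6_444445_okZ b6_444445_okM b6_444445_okC (runG4_of _ _ _ _ 0 _ rfl b6_444445_okG) b6_444445_okE

noncomputable def b4_4545_F : Code := ⟨4, [4, 5, 4, 5], [(0, 2), (1, 2), (1, 3), (2, 2), (3, 2), (3, 3)], 10, 2,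
  311354508681892267278357795685932359426362169038046402999109381,
  10384593717145213120786906981859328, 3603⟩

noncomputable def b4_4545_S : Tri' := (.leaf [⟨515565470, 3, 1⟩, ⟨902780830, 3, 1⟩])

noncomputable def b4_4545_S2 : Tri2 := (.leaf [])

noncomputable def b4_4545_q : List ℕ := [38, 56]

noncomputable def b4_4545_M : ℕ := 384307168202282325

noncomputable def b4_4545_C : Cert := ⟨1, 1, 2, [0, 0], [0, 0], 0⟩

noncomputable def b4_4545_T : TT := .nil

theorem b4_4545_okF : okCode b4_4545_F = true := by decide +kernel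

theorem b4_4545_okI : okIdx b4_4545_F = true := by decide +kernel

theorem b4_4545_okS : Tri'.all (okSyR b4_4545_F) b4_4545_S = true := by decide +kernel

theorem b4_4545_okZ : Tri2.all (okSzR b4_4545_F b4_4545_S) b4_4545_S2 = true := by decide +kernel

theorem b4_4545_okM : okM b4_4545_F b4_4545_M = true := by decide +kernel

theorem b4_4545_okC : okCert b4_4545_C b4_4545_F.k = true := by decide +kernel

theorem b4_4545_okG : runG5 b4_4545_F b4_4545_S b4_4545_C b4_4545_T [[]] = true := by decide +kernel

theorem b4_4545_okE : enumR b4_4545_F (okG2R b4_4545_F b4_4545_S b4_4545_S2 b4_4545_q b4_4545_M b4_4545_T) (Nat.pred b4_4545_F.n) 1 36 = true := by decide +kernel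

theorem b4_4545_good : Good 4 [4, 5, 4, 5] :=
  good_mk4 b4_4545_S b4_4545_S2 b4_4545_q b4_4545_M b4_4545_C b4_4545_T 4 [4, 5, 4, 5] rfl rfl b4_4545_okF b4_4545_okI b4_4545_okS b4_4545_okZ b4_4545_okM b4_4545_okC (runG4_of _ _ _ _ 0 _ rfl b4_4545_okG) b4_4545_okE

noncomputable def b5_44445_F : Code := ⟨5, [4, 4, 4, 4, 5], [(0, 2), (1, 2), (2, 2), (3, 2), (4, 2), (4, 3)], 11,
  1, 734474419726569351611729198634558034870430169515916158934032037644421,
  21267647932558653966460912964485513216, 31⟩

noncomputable def b5_44445_S : Tri' := (.leaf [])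

noncomputable def b5_44445_S2 : Tri2 := (.leaf [])

noncomputable def b5_44445_q : List ℕ := [62]

noncomputable def b5_44445_M : ℕ := 24595658764946068821

noncomputable def b5_44445_C : Cert := ⟨1, 1, 2, [0], [0], 0⟩

noncomputable def b5_44445_T : TT := .nil

theorem b5_44445_okF : okCode b5_44445_F = true := by decide +kernel

theorem b5_44445_okI : okIdx b5_44445_F = true := by decide +kernel

theorem b5_44445_okS : Tri'.all (okSyR b5_44445_F) b5_44445_S = true := by decide +kernel

theorem b5_44445_okZ : Tri2.all (okSzR b5_44445_F b5_44445_S) b5_44445_S2 = true := by decide +kernel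

theorem b5_44445_okM : okM b5_44445_F b5_44445_M = true := by decide +kernel

theorem b5_44445_okC : okCert b5_44445_C b5_44445_F.k = true := by decide +kernel

theorem b5_44445_okG : runG5 b5_44445_F b5_44445_S b5_44445_C b5_44445_T [[]] = true := by decide +kernel

theorem b5_44445_okE : enumR b5_44445_F (okG2R b5_44445_F b5_44445_S b5_44445_S2 b5_44445_q b5_44445_M b5_44445_T) (Nat.pred b5_44445_F.n) 1 36 = true := by decide +kernel

theorem b5_44445_good : Good 5 [4, 4, 4, 4, 5] :=
  good_mk4 b5_44445_S b5_44445_S2 b5_44445_q b5_44445_M b5_44445_C b5_44445_T 5 [4, 4, 4, 4, 5] rfl rfl b5_44445_okF b5_44445_okI b5_44445_okS b5_44445_okZ b5_44445_okM b5_44445_okC (runG4_of _ _ _ _ 0 _ rfl b5_44445_okG) b5_44445_okE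

noncomputable def b6_444444_F : Code := ⟨6, [4, 4, 4, 4, 4, 4], [(0, 2), (1, 2), (2, 2), (3, 2), (4, 2), (5, 2)],
  12, 0, 917942972964913737402132495433717862578897568495081098968949286542648789509, 0, 0⟩

noncomputable def b6_444444_S : Tri' := (.leaf [])

noncomputable def b6_444444_S2 : Tri2 := (.leaf [])

noncomputable def b6_444444_q : List ℕ := []

noncomputable def b6_444444_M : ℕ := 1574122160956548404565

noncomputable def b6_444444_C : Cert := ⟨1, 1, 2, [], [], 0⟩

noncomputable def b6_444444_T : TT := .nil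

theorem b6_444444_okF : okCode b6_444444_F = true := by decide +kernel

theorem b6_444444_okI : okIdx b6_444444_F = true := by decide +kernel

theorem b6_444444_okS : Tri'.all (okSyR b6_444444_F) b6_444444_S = true := by decide +kernel

theorem b6_444444_okZ : Tri2.all (okSzR b6_444444_F b6_444444_S) b6_444444_S2 = true := by decide +kernel

theorem b6_444444_okM : okM b6_444444_F b6_444444_M = true := by decide +kernel

theorem b6_444444_okC : okCert b6_444444_C b6_444444_F.k = true := by decide +kernel

theorem b6_444444_okG : runG5 b6_444444_F b6_444444_S b6_444444_C b6_444444_T [[]] = true := by decide +kernel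

theorem b6_444444_okE : enumR b6_444444_F (okG2R b6_444444_F b6_444444_S b6_444444_S2 b6_444444_q b6_444444_M b6_444444_T) (Nat.pred b6_444444_F.n) 1 36 = true := by decide +kernel

theorem b6_444444_good : Good 6 [4, 4, 4, 4, 4, 4] :=
  good_mk4 b6_444444_S b6_444444_S2 b6_444444_q b6_444444_M b6_444444_C b6_444444_T 6 [4, 4, 4, 4, 4, 4] rfl rfl b6_444444_okF b6_444444_okI b6_444444_okS b6_444444_okZ b6_444444_okM b6_444444_okC (runG4_of _ _ _ _ 0 _ rfl b6_444444_okG) b6_444444_okE

noncomputable def b4_4445_F : Code := ⟨4, [4, 4, 4, 5], [(0, 2), (1, 2), (2, 2), (3, 2), (3, 3)], 9, 1,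
  129931781097213735922109602115962685796556934938326353669, 1267650600228229401496703205376, 25⟩

noncomputable def b4_4445_S : Tri' := (.leaf [])

noncomputable def b4_4445_S2 : Tri2 := (.leaf [])

noncomputable def b4_4445_q : List ℕ := [50]

noncomputable def b4_4445_M : ℕ := 6004799503160661

noncomputable def b4_4445_C : Cert := ⟨1, 1, 2, [0], [0], 0⟩

noncomputable def b4_4445_T : TT := .nil

theorem b4_4445_okF : okCode b4_4445_F = true := by decide +kernel

theorem b4_4445_okI : okIdx b4_4445_F = true := by decide +kernel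

theorem b4_4445_okS : Tri'.all (okSyR b4_4445_F) b4_4445_S = true := by decide +kernel

theorem b4_4445_okZ : Tri2.all (okSzR b4_4445_F b4_4445_S) b4_4445_S2 = true := by decide +kernel

theorem b4_4445_okM : okM b4_4445_F b4_4445_M = true := by decide +kernel

theorem b4_4445_okC : okCert b4_4445_C b4_4445_F.k = true := by decide +kernel

theorem b4_4445_okG : runG5 b4_4445_F b4_4445_S b4_4445_C b4_4445_T [[]] = true := by decide +kernel

theorem b4_4445_okE : enumR b4_4445_F (okG2R b4_4445_F b4_4445_S b4_4445_S2 b4_4445_q b4_4445_M b4_4445_T) (Nat.pred b4_4445_F.n) 1 36 = true := by decide +kernel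

theorem b4_4445_good : Good 4 [4, 4, 4, 5] :=
  good_mk4 b4_4445_S b4_4445_S2 b4_4445_q b4_4445_M b4_4445_C b4_4445_T 4 [4, 4, 4, 5] rfl rfl b4_4445_okF b4_4445_okI b4_4445_okS b4_4445_okZ b4_4445_okM b4_4445_okC (runG4_of _ _ _ _ 0 _ rfl b4_4445_okG) b4_4445_okE

noncomputable def b5_44444_F : Code := ⟨5, [4, 4, 4, 4, 4], [(0, 2), (1, 2), (2, 2), (3, 2), (4, 2)], 10, 0,
  169544580188813001032534047927847070141981948923288236645877893, 0, 0⟩

noncomputable def b5_44444_S : Tri' := (.leaf [])

noncomputable def b5_44444_S2 : Tri2 := (.leaf [])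

noncomputable def b5_44444_q : List ℕ := []

noncomputable def b5_44444_M : ℕ := 384307168202282325

noncomputable def b5_44444_C : Cert := ⟨1, 1, 2, [], [], 0⟩

noncomputable def b5_44444_T : TT := .nil

theorem b5_44444_okF : okCode b5_44444_F = true := by decide +kernel

theorem b5_44444_okI : okIdx b5_44444_F = true := by decide +kernel

theorem b5_44444_okS : Tri'.all (okSyR b5_44444_F) b5_44444_S = true := by decide +kernel

theorem b5_44444_okZ : Tri2.all (okSzR b5_44444_F b5_44444_S) b5_44444_S2 = true := by decide +kernel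

theorem b5_44444_okM : okM b5_44444_F b5_44444_M = true := by decide +kernel

theorem b5_44444_okC : okCert b5_44444_C b5_44444_F.k = true := by decide +kernel

theorem b5_44444_okG : runG5 b5_44444_F b5_44444_S b5_44444_C b5_44444_T [[]] = true := by decide +kernel

theorem b5_44444_okE : enumR b5_44444_F (okG2R b5_44444_F b5_44444_S b5_44444_S2 b5_44444_q b5_44444_M b5_44444_T) (Nat.pred b5_44444_F.n) 1 36 = true := by decide +kernel

theorem b5_44444_good : Good 5 [4, 4, 4, 4, 4] :=
  good_mk4 b5_44444_S b5_44444_S2 b5_44444_q b5_44444_M b5_44444_C b5_44444_T 5 [4, 4, 4, 4, 4] rfl rfl b5_44444_okF b5_44444_okI b5_44444_okS b5_44444_okZ b5_44444_okM b5_44444_okC (runG4_of _ _ _ _ 0 _ rfl b5_44444_okG) b5_44444_okE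

noncomputable def b4_4444_F : Code := ⟨4, [4, 4, 4, 4], [(0, 2), (1, 2), (2, 2), (3, 2)], 8, 0,
  29643409281403857026543104900596923582546178098949, 0, 0⟩

noncomputable def b4_4444_S : Tri' := (.leaf [])

noncomputable def b4_4444_S2 : Tri2 := (.leaf [])

noncomputable def b4_4444_q : List ℕ := []

noncomputable def b4_4444_M : ℕ := 93824992236885

noncomputable def b4_4444_C : Cert := ⟨1, 1, 2, [], [], 0⟩

noncomputable def b4_4444_T : TT := .nil

theorem b4_4444_okF : okCode b4_4444_F = true := by decide +kernel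

theorem b4_4444_okI : okIdx b4_4444_F = true := by decide +kernel

theorem b4_4444_okS : Tri'.all (okSyR b4_4444_F) b4_4444_S = true := by decide +kernel

theorem b4_4444_okZ : Tri2.all (okSzR b4_4444_F b4_4444_S) b4_4444_S2 = true := by decide +kernel

theorem b4_4444_okM : okM b4_4444_F b4_4444_M = true := by decide +kernel

theorem b4_4444_okC : okCert b4_4444_C b4_4444_F.k = true := by decide +kernel

theorem b4_4444_okG : runG5 b4_4444_F b4_4444_S b4_4444_C b4_4444_T [[]] = true := by decide +kernel

theorem b4_4444_okE : enumR b4_4444_F (okG2R b4_4444_F b4_4444_S b4_4444_S2 b4_4444_q b4_4444_M b4_4444_T) (Nat.pred b4_4444_F.n) 1 36 = true := by decide +kernel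

theorem b4_4444_good : Good 4 [4, 4, 4, 4] :=
  good_mk4 b4_4444_S b4_4444_S2 b4_4444_q b4_4444_M b4_4444_C b4_4444_T 4 [4, 4, 4, 4] rfl rfl b4_4444_okF b4_4444_okI b4_4444_okS b4_4444_okZ b4_4444_okM b4_4444_okC (runG4_of _ _ _ _ 0 _ rfl b4_4444_okG) b4_4444_okE

end Pool.Agent.Helper17.CT
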